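import Mathlib

/-!
# Interpolation determinants of real power series

Upper bound for `det (f_i (ζ_j))`, where the `f_i` are power series.
-/

namespace Pool.Agent.Lib.H22F301

open Finset Matrix

variable {ι : Type*} [Fintype ι] [DecidableEq ι]

/-- The sum of an injective family of natural numbers is at least `N (N - 1) / 2`. -/
theorem sum_ge_of_injective (κ : ι → ℕ) (h : Function.Injective κ) :
    Fintype.card ι * (Fintype.card ι - 1) / 2 ≤ ∑ i, κ i := by
  set s : Finset ℤ := Finset.univ.image (fun i => (κ i : ℤ)) with hs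
  have hinj : Function.Injective (fun i => (κ i : ℤ)) := fun a b hab => h (Int.ofNat.inj hab)
  have hc : s.card = Fintype.card ι := by
    rw [hs, Finset.card_image_of_injective _ hinj, Finset.card_univ]
  have h1 := Finset.sum_range_le_sum (s := s) (c := 0) (by
    intro x hx
    rw [hs, Finset.mem_image] at hx
    obtain ⟨i, -, rfl⟩ := hx
    positivity)
  rw [hc] at h1
  have h2 : ∑ x ∈ s, x = ∑ i, (κ i : ℤ) := by
    rw [hs, Finset.sum_image (fun a _ b _ hab => hinj hab)]
  rw [h2] at h1
  rw [← Finset.sum_range_id]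
  simp only [zero_add] at h1
  have h3 : ((∑ x ∈ range (Fintype.card ι), x : ℕ) : ℤ) ≤ ((∑ i, κ i : ℕ) : ℤ) := by
    push_cast
    exact h1
  exact_mod_cast h3

theorem abs_det_pow_le (B : ℝ) (ζ : ι → ℝ) (hζ : ∀ j, |ζ j| ≤ B) (κ : ι → ℕ) :
    |(Matrix.of fun i j => ζ j ^ κ i).det| ≤ (Fintype.card ι).factorial * ∏ i, B ^ κ i := by
  rw [Matrix.det_apply]
  refine (Finset.abs_sum_le_sum_abs _ _).trans ?_
  have h1 : ∀ σ : Equiv.Perm ι,
      |Equiv.Perm.sign σ • ∏ i, (Matrix.of fun i j => ζ j ^ κ i) (σ i) i| ≤ ∏ i, B ^ κ i := by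
    intro σ
    have e1 : |Equiv.Perm.sign σ • ∏ i, (Matrix.of fun i j => ζ j ^ κ i) (σ i) i| =
        ∏ i, |ζ i| ^ κ (σ i) := by
      rcases Int.units_eq_one_or (Equiv.Perm.sign σ) with h | h <;>
        simp [h, Finset.abs_prod, abs_pow]
    rw [e1, ← Equiv.prod_comp σ (fun i => B ^ κ i)]
    exact Finset.prod_le_prod (fun i _ => by positivity)
      (fun i _ => pow_le_pow_left₀ (abs_nonneg _) (hζ i) _)
  refine (Finset.sum_le_sum fun σ _ => h1 σ).trans ?_
  rw [Finset.sum_const, Finset.card_univ, Fintype.card_perm, nsmul_eq_mul]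

theorem det_poly_bound (u : ι → ℕ → ℝ) (B R : ℝ) (hB : 0 ≤ B) (hR : 1 ≤ R) (ζ : ι → ℝ)
    (hζ : ∀ j, |ζ j| ≤ B) (D : ℕ) :
    R ^ (Fintype.card ι * (Fintype.card ι - 1) / 2) *
      |(Matrix.of fun i j => ∑ n ∈ range D, u i n * ζ j ^ n).det| ≤
      (Fintype.card ι).factorial * ∏ i, ∑ n ∈ range D, |u i n| * (B * R) ^ n := by
  have h1 : (Matrix.of fun i j => ∑ n ∈ range D, u i n * ζ j ^ n).det =
      ∑ κ ∈ Fintype.piFinset (fun _ : ι => range D),
        (∏ i, u i (κ i)) * (Matrix.of fun i j => ζ j ^ κ i).det := by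
    have h2 := (Matrix.detRowAlternating (R := ℝ) (n := ι)).toMultilinearMap.map_sum_finset
      (fun i n => (fun j => u i n * ζ j ^ n : ι → ℝ)) (fun _ => range D)
    have h3 : (Matrix.of fun i j => ∑ n ∈ range D, u i n * ζ j ^ n).det =
        (Matrix.detRowAlternating (R := ℝ) (n := ι)).toMultilinearMap
          (fun i => ∑ n ∈ range D, (fun j => u i n * ζ j ^ n : ι → ℝ)) := by
      show Matrix.det _ = Matrix.det _
      congr 1
      ext i j
      simp [Finset.sum_apply]
    rw [h3, h2]
    refine Finset.sum_congr rfl fun κ _ => ?_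
    show Matrix.det (Matrix.of fun i j => u i (κ i) * ζ j ^ κ i) = _
    rw [← Matrix.det_mul_column]
    rfl
  rw [h1]
  set T := Fintype.card ι * (Fintype.card ι - 1) / 2 with hT
  calc R ^ T * |∑ κ ∈ Fintype.piFinset (fun _ : ι => range D),
        (∏ i, u i (κ i)) * (Matrix.of fun i j => ζ j ^ κ i).det|
      ≤ R ^ T * ∑ κ ∈ Fintype.piFinset (fun _ : ι => range D),
        |(∏ i, u i (κ i)) * (Matrix.of fun i j => ζ j ^ κ i).det| := by
        apply mul_le_mul_of_nonneg_left (Finset.abs_sum_le_sum_abs _ _) (by positivity)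
    _ = ∑ κ ∈ Fintype.piFinset (fun _ : ι => range D),
        R ^ T * |(∏ i, u i (κ i)) * (Matrix.of fun i j => ζ j ^ κ i).det| := Finset.mul_sum _ _ _
    _ ≤ ∑ κ ∈ Fintype.piFinset (fun _ : ι => range D),
        (Fintype.card ι).factorial * ∏ i, (|u i (κ i)| * (B * R) ^ κ i) := by
        refine Finset.sum_le_sum fun κ _ => ?_
        by_cases hκ : Function.Injective κ
        · have h4 := sum_ge_of_injective κ hκ
          have h5 : R ^ T ≤ ∏ i, R ^ κ i := by
            rw [Finset.prod_pow_eq_pow_sum]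
            exact pow_le_pow_right₀ hR h4
          rw [abs_mul, Finset.abs_prod]
          have h6 := abs_det_pow_le B ζ hζ κ
          have h7 : 0 ≤ ∏ i, |u i (κ i)| := Finset.prod_nonneg fun i _ => abs_nonneg _
          have h8 : 0 ≤ ∏ i, B ^ κ i := Finset.prod_nonneg fun i _ => pow_nonneg hB _
          calc R ^ T * ((∏ i, |u i (κ i)|) * |(Matrix.of fun i j => ζ j ^ κ i).det|)
              ≤ (∏ i, R ^ κ i) * ((∏ i, |u i (κ i)|) *
                ((Fintype.card ι).factorial * ∏ i, B ^ κ i)) := by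
                apply mul_le_mul h5 (mul_le_mul_of_nonneg_left h6 h7)
                  (mul_nonneg h7 (abs_nonneg _)) (Finset.prod_nonneg fun i _ => by positivity)
            _ = (Fintype.card ι).factorial * ∏ i, (|u i (κ i)| * (B * R) ^ κ i) := by
                simp only [mul_pow, Finset.prod_mul_distrib]
                ring
        · have h4 : (Matrix.of fun i j => ζ j ^ κ i).det = 0 := by
            rw [Function.Injective] at hκ
            push Not at hκ
            obtain ⟨a, b, hab, hne⟩ := hκ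
            apply Matrix.det_zero_of_row_eq hne
            funext j
            simp [hab]
          rw [h4, mul_zero, abs_zero, mul_zero]
          have : 0 ≤ ∏ i, (|u i (κ i)| * (B * R) ^ κ i) :=
            Finset.prod_nonneg fun i _ => mul_nonneg (abs_nonneg _)
              (pow_nonneg (mul_nonneg hB (by linarith)) _)
          positivity
    _ = (Fintype.card ι).factorial * ∏ i, ∑ n ∈ range D, |u i n| * (B * R) ^ n := by
        rw [← Finset.mul_sum, Finset.prod_univ_sum]

/-- The bound for power series. -/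
theorem det_bound (u : ι → ℕ → ℝ) (M : ι → ℝ) (B R : ℝ) (hB : 0 ≤ B) (hR : 1 ≤ R)
    (hM : ∀ i D, ∑ n ∈ range D, |u i n| * (B * R) ^ n ≤ M i)
    (f : ι → ℝ → ℝ) (hf : ∀ i x, |x| ≤ B → HasSum (fun n => u i n * x ^ n) (f i x))
    (ζ : ι → ℝ) (hζ : ∀ j, |ζ j| ≤ B) :
    R ^ (Fintype.card ι * (Fintype.card ι - 1) / 2) *
      |(Matrix.of fun i j => f i (ζ j)).det| ≤ (Fintype.card ι).factorial * ∏ i, M i := by
  have h1 : Filter.Tendsto (fun D => R ^ (Fintype.card ι * (Fintype.card ι - 1) / 2) *
      |(Matrix.of fun i j => ∑ n ∈ range D, u i n * ζ j ^ n).det|) Filter.atTop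
      (nhds (R ^ (Fintype.card ι * (Fintype.card ι - 1) / 2) *
      |(Matrix.of fun i j => f i (ζ j)).det|)) := by
    apply Filter.Tendsto.const_mul
    apply Filter.Tendsto.abs
    have h2 : Filter.Tendsto (fun D => (Matrix.of fun i j => ∑ n ∈ range D, u i n * ζ j ^ n))
        Filter.atTop (nhds (Matrix.of fun i j => f i (ζ j))) := by
      refine tendsto_pi_nhds.2 fun i => tendsto_pi_nhds.2 fun j => ?_
      exact (hf i (ζ j) (hζ j)).tendsto_sum_nat
    exact ((Continuous.matrix_det continuous_id).tendsto _).comp h2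
  refine le_of_tendsto' h1 fun D => ?_
  refine (det_poly_bound u B R hB hR ζ hζ D).trans ?_
  apply mul_le_mul_of_nonneg_left _ (by positivity)
  exact Finset.prod_le_prod (fun i _ => Finset.sum_nonneg fun n _ =>
    mul_nonneg (abs_nonneg _) (pow_nonneg (mul_nonneg hB (by linarith)) _)) (fun i _ => hM i D)

end Pool.Agent.Lib.H22F301
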