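import Mathlib

/-!
# The `p`-adic exponential function on `p ^ 2 ℤ_p`
-/

namespace Pool.Agent.Lib.H22F301

open scoped Nat
open NormedSpace

variable {p : ℕ} [hp : Fact p.Prime]

theorem padicVal_factorial_le {n : ℕ} (hn : 1 ≤ n) : padicValNat p n ! ≤ n - 1 := by
  have h1 := sub_one_mul_padicValNat_factorial (p := p) n
  have h2 : 1 ≤ (p.digits n).sum := by
    by_contra h
    have h3 : (p.digits n).sum = 0 := by omega
    have h4 := Nat.modEq_digits_sum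
    have h5 : n = 0 := by
      have h6 := Nat.ofDigits_digits p n
      have h7 : ∀ d ∈ p.digits n, d = 0 := List.sum_eq_zero_iff.1 h3
      rw [← h6]
      have : Nat.ofDigits p (p.digits n) = 0 := by
        generalize p.digits n = l at h7
        induction l with
        | nil => simp
        | cons a l ih =>
          rw [Nat.ofDigits_cons, h7 a (by simp), ih (fun d hd => h7 d (by simp [hd]))]
          simp
      exact this
    omega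
  have h3 : 1 ≤ p - 1 := by have := hp.out.two_le; omega
  calc padicValNat p n ! ≤ (p - 1) * padicValNat p n ! := Nat.le_mul_of_pos_left _ h3
    _ = n - (p.digits n).sum := h1
    _ ≤ n - 1 := by omega

theorem norm_factorial (n : ℕ) :
    ‖((n ! : ℕ) : ℚ_[p])‖ = ((p : ℝ) ^ padicValNat p n !)⁻¹ := by
  rw [Padic.norm_eq_zpow_neg_valuation (by exact_mod_cast n.factorial_ne_zero),
    Padic.valuation_natCast, zpow_neg, zpow_natCast]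

theorem one_lt_p : (1 : ℝ) < p := by exact_mod_cast hp.out.one_lt

/-- The general term of the exponential series. -/
theorem norm_term_le {w : ℚ_[p]} (hw : ‖w‖ ≤ ((p : ℝ) ^ 2)⁻¹) (n : ℕ) :
    ‖w ^ (n + 1) / ((n + 1)! : ℕ)‖ ≤ ‖w‖ * ((p : ℝ)⁻¹) ^ n := by
  have hp1 := one_lt_p (p := p)
  have hp0 : (0 : ℝ) < p := by linarith
  rw [norm_div, norm_pow, norm_factorial, div_inv_eq_mul, pow_succ]
  have h1 : (p : ℝ) ^ padicValNat p (n + 1)! ≤ (p : ℝ) ^ n :=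
    pow_le_pow_right₀ hp1.le (by have := padicVal_factorial_le (p := p) (n := n + 1) (by omega); omega)
  have h2 : ‖w‖ ^ n ≤ (((p : ℝ) ^ 2)⁻¹) ^ n := pow_le_pow_left₀ (norm_nonneg _) hw n
  calc ‖w‖ ^ n * ‖w‖ * (p : ℝ) ^ padicValNat p (n + 1)!
      ≤ (((p : ℝ) ^ 2)⁻¹) ^ n * ‖w‖ * (p : ℝ) ^ n := by gcongr
    _ = ‖w‖ * ((p : ℝ)⁻¹) ^ n := by
        have : (((p : ℝ) ^ 2)⁻¹) ^ n * (p : ℝ) ^ n = ((p : ℝ)⁻¹) ^ n := by
          rw [← mul_pow]; congr 1; field_simp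
        rw [← this]; ring

theorem mem_eball {w : ℚ_[p]} (hw : ‖w‖ ≤ ((p : ℝ) ^ 2)⁻¹) :
    w ∈ Metric.eball (0 : ℚ_[p]) (expSeries ℚ_[p] ℚ_[p]).radius := by
  have hp1 := one_lt_p (p := p)
  have hp0 : (0 : ℝ) < p := by linarith
  set r : NNReal := ⟨(p : ℝ)⁻¹, by positivity⟩ with hr
  have h1 : (r : ENNReal) ≤ (expSeries ℚ_[p] ℚ_[p]).radius := by
    apply FormalMultilinearSeries.le_radius_of_bound _ 1
    intro n
    have h2 : ‖expSeries ℚ_[p] ℚ_[p] n‖ ≤ ‖((n ! : ℕ) : ℚ_[p])⁻¹‖ := by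
      have e1 : expSeries ℚ_[p] ℚ_[p] n = (((n ! : ℕ) : ℚ_[p])⁻¹) •
          ContinuousMultilinearMap.mkPiAlgebraFin ℚ_[p] n ℚ_[p] := rfl
      rw [e1, norm_smul, ContinuousMultilinearMap.norm_mkPiAlgebraFin, mul_one]
    have h3 : ‖((n ! : ℕ) : ℚ_[p])⁻¹‖ ≤ (p : ℝ) ^ n := by
      rw [norm_inv, norm_factorial, inv_inv]
      rcases Nat.eq_zero_or_pos n with h0 | h0
      · subst h0; simp
      · exact pow_le_pow_right₀ hp1.le
          (by have := padicVal_factorial_le (p := p) (n := n) h0; omega)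
    calc ‖expSeries ℚ_[p] ℚ_[p] n‖ * (r : ℝ) ^ n ≤ (p : ℝ) ^ n * ((p : ℝ)⁻¹) ^ n :=
          mul_le_mul_of_nonneg_right (h2.trans h3) (by positivity)
      _ = 1 := by rw [← mul_pow, mul_inv_cancel₀ hp0.ne', one_pow]
  rw [Metric.mem_eball, edist_zero_right]
  refine lt_of_lt_of_le ?_ h1
  rw [← ofReal_norm, ENNReal.ofReal_lt_coe_iff (norm_nonneg _)]
  refine lt_of_le_of_lt hw ?_
  show ((p : ℝ) ^ 2)⁻¹ < (p : ℝ)⁻¹
  rw [pow_two]
  apply inv_strictAnti₀ hp0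
  nlinarith

theorem hasSum_exp {w : ℚ_[p]} (hw : ‖w‖ ≤ ((p : ℝ) ^ 2)⁻¹) :
    HasSum (fun n => w ^ n / ((n ! : ℕ) : ℚ_[p])) (exp w) :=
  expSeries_div_hasSum_exp_of_mem_ball (𝕂 := ℚ_[p]) w (mem_eball hw)

theorem exp_add' {w w' : ℚ_[p]} (hw : ‖w‖ ≤ ((p : ℝ) ^ 2)⁻¹) (hw' : ‖w'‖ ≤ ((p : ℝ) ^ 2)⁻¹) :
    exp (w + w') = exp w * exp w' :=
  exp_add_of_mem_ball (𝕂 := ℚ_[p]) (mem_eball hw) (mem_eball hw')

theorem norm_mul_le' {w : ℚ_[p]} (hw : ‖w‖ ≤ ((p : ℝ) ^ 2)⁻¹) {c : ℚ_[p]} (hc : ‖c‖ ≤ 1) :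
    ‖c * w‖ ≤ ((p : ℝ) ^ 2)⁻¹ := by
  rw [norm_mul]
  calc ‖c‖ * ‖w‖ ≤ 1 * ‖w‖ := mul_le_mul_of_nonneg_right hc (norm_nonneg _)
    _ ≤ _ := by rw [one_mul]; exact hw

theorem exp_nat_mul' {w : ℚ_[p]} (hw : ‖w‖ ≤ ((p : ℝ) ^ 2)⁻¹) (k : ℕ) :
    exp ((k : ℚ_[p]) * w) = exp w ^ k := by
  induction k with
  | zero => simp
  | succ k ih =>
    rw [Nat.cast_succ, add_mul, one_mul, exp_add' (norm_mul_le' hw (by
      exact_mod_cast Padic.norm_int_le_one (k : ℤ))) hw, ih, pow_succ]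

theorem norm_exp_sub_one {w : ℚ_[p]} (hw : ‖w‖ ≤ ((p : ℝ) ^ 2)⁻¹) : ‖exp w - 1‖ = ‖w‖ := by
  have hp1 := one_lt_p (p := p)
  have hp0 : (0 : ℝ) < p := by linarith
  by_cases h0 : w = 0
  · subst h0; simp
  have hw0 : 0 < ‖w‖ := norm_pos_iff.2 h0
  have h1 := hasSum_exp hw
  have h2 : HasSum (fun n => w ^ (n + 2) / (((n + 2)! : ℕ) : ℚ_[p])) (exp w - (1 + w)) := by
    have := (hasSum_nat_add_iff' 2).2 h1
    simpa [Finset.sum_range_succ] using this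
  have h3 : ‖exp w - (1 + w)‖ ≤ ‖w‖ * (p : ℝ)⁻¹ := by
    rw [← h2.tsum_eq]
    apply IsUltrametricDist.norm_tsum_le_of_forall_le_of_nonneg (by positivity)
    intro n
    refine (norm_term_le hw (n + 1)).trans ?_
    apply mul_le_mul_of_nonneg_left _ hw0.le
    rw [pow_succ]
    have : ((p : ℝ)⁻¹) ^ n ≤ 1 := pow_le_one₀ (by positivity) (inv_le_one_of_one_le₀ hp1.le)
    calc ((p : ℝ)⁻¹) ^ n * (p : ℝ)⁻¹ ≤ 1 * (p : ℝ)⁻¹ := by gcongr
      _ = (p : ℝ)⁻¹ := one_mul _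
  have h4 : ‖exp w - (1 + w)‖ < ‖w‖ := by
    refine lt_of_le_of_lt h3 ?_
    have : (p : ℝ)⁻¹ < 1 := inv_lt_one_of_one_lt₀ hp1
    nlinarith
  have h5 : exp w - 1 = (exp w - (1 + w)) + w := by ring
  rw [h5, Padic.add_eq_max_of_ne h4.ne, max_eq_right h4.le]

theorem norm_exp {w : ℚ_[p]} (hw : ‖w‖ ≤ ((p : ℝ) ^ 2)⁻¹) : ‖exp w‖ = 1 := by
  have hp1 := one_lt_p (p := p)
  have h1 : ‖exp w - 1‖ < 1 := by
    rw [norm_exp_sub_one hw]
    refine lt_of_le_of_lt hw (inv_lt_one_of_one_lt₀ ?_)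
    nlinarith
  have h5 : exp w = (exp w - 1) + 1 := by ring
  have h6 : ‖exp w - 1‖ ≠ ‖(1 : ℚ_[p])‖ := by rw [norm_one]; exact h1.ne
  rw [h5, Padic.add_eq_max_of_ne h6, norm_one, max_eq_right h1.le]

end Pool.Agent.Lib.H22F301
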