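import Mathlib
import Pool.Agent.Lib.H22F301.PExp

/-!
# The `p`-adic exponential function and a logarithm
-/

namespace Pool.Agent.Lib.H22F301

open NormedSpace

variable {p : ℕ} [hp : Fact p.Prime]

theorem norm_p_sq_mul (z : ℤ_[p]) : ‖(z : ℚ_[p]) * (p : ℚ_[p]) ^ 2‖ ≤ ((p : ℝ) ^ 2)⁻¹ := by
  apply norm_mul_le' _ z.norm_le_one
  rw [norm_pow, Padic.norm_p, inv_pow]

/-- `z ↦ exp (p ^ 2 z)`. -/
noncomputable def uE (p : ℕ) [Fact p.Prime] : Multiplicative ℤ_[p] →* ℚ_[p]ˣ :=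
  MonoidHom.mk' (fun z => Units.mk0 (exp (((Multiplicative.toAdd z : ℤ_[p]) : ℚ_[p]) *
    (p : ℚ_[p]) ^ 2)) (norm_ne_zero_iff.1 (by
      rw [norm_exp (norm_p_sq_mul _)]; exact one_ne_zero))) (by
    intro x y
    apply Units.ext
    rw [Units.val_mul, Units.val_mk0, Units.val_mk0, Units.val_mk0, toAdd_mul, PadicInt.coe_add,
      add_mul, exp_add' (norm_p_sq_mul _) (norm_p_sq_mul _)])

theorem uE_val (z : ℤ_[p]) : ((uE p (Multiplicative.ofAdd z) : ℚ_[p]ˣ) : ℚ_[p]) =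
    exp ((z : ℚ_[p]) * (p : ℚ_[p]) ^ 2) := rfl

theorem continuous_uE : Continuous (uE p) := by
  apply continuous_of_continuousAt_one
  rw [ContinuousAt, map_one, Units.isEmbedding_val₀.tendsto_nhds_iff]
  have h1 : Continuous fun z : Multiplicative ℤ_[p] =>
      ‖((Multiplicative.toAdd z : ℤ_[p]) : ℚ_[p]) * (p : ℚ_[p]) ^ 2‖ := by
    have h2 : Continuous fun z : ℤ_[p] => ‖((z : ℤ_[p]) : ℚ_[p]) * (p : ℚ_[p]) ^ 2‖ :=
      (continuous_subtype_val.mul continuous_const).norm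
    exact h2.comp continuous_toAdd
  have h3 := h1.tendsto 1
  rw [toAdd_one, PadicInt.coe_zero, zero_mul, norm_zero] at h3
  rw [tendsto_iff_norm_sub_tendsto_zero]
  refine h3.congr fun z => ?_
  show _ = ‖exp (((Multiplicative.toAdd z : ℤ_[p]) : ℚ_[p]) * (p : ℚ_[p]) ^ 2) - 1‖
  rw [norm_exp_sub_one (norm_p_sq_mul _)]

theorem exists_exp_log (lg : ℚ_[p]ˣ →* Multiplicative ℚ_[p]) {N : ℕ} (hN : 0 < N)
    (hlg : Continuous fun y => Multiplicative.toAdd (lg y))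
    (hker : ∀ y : ℚ_[p]ˣ, ‖(y : ℚ_[p])‖ = 1 → Multiplicative.toAdd (lg y) = 0 → y ^ N = 1) :
    ∃ c : ℚ_[p], c ≠ 0 ∧
      (∀ (y : ℚ_[p]ˣ) (w : ℚ_[p]), ‖w‖ ≤ ((p : ℝ) ^ 2)⁻¹ → (y : ℚ_[p]) = exp w →
        Multiplicative.toAdd (lg y) = c * w) ∧
      (∀ g : ℚ_[p]ˣ, ‖(g : ℚ_[p])‖ = 1 → ∃ M : ℕ, 0 < M ∧ ∃ w : ℚ_[p],
        ‖w‖ ≤ ((p : ℝ) ^ 2)⁻¹ ∧ ((g ^ M : ℚ_[p]ˣ) : ℚ_[p]) = exp w) := by
  have hp0 : (p : ℚ_[p]) ≠ 0 := by exact_mod_cast hp.out.ne_zero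
  have hpR : (1 : ℝ) < p := one_lt_p
  set ψ : ℤ_[p] →+ ℚ_[p] := AddMonoidHom.mk' (fun z => Multiplicative.toAdd
    (lg (uE p (Multiplicative.ofAdd z)))) (by
      intro x y
      rw [ofAdd_add, map_mul, map_mul, toAdd_mul]) with hψ
  have hψc : Continuous ψ := hlg.comp (continuous_uE.comp continuous_ofAdd)
  have hψs : ∀ z : ℤ_[p], ψ z = (z : ℚ_[p]) * ψ 1 := by
    have h1 : Continuous fun z : ℤ_[p] => (z : ℚ_[p]) * ψ 1 :=
      continuous_subtype_val.mul continuous_const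
    have h3 := DenseRange.equalizer PadicInt.denseRange_intCast hψc h1 (by
      funext z
      simp only [Function.comp_apply]
      have h4 := map_zsmul ψ z (1 : ℤ_[p])
      rw [zsmul_eq_mul, mul_one, zsmul_eq_mul] at h4
      rw [h4, PadicInt.coe_intCast])
    exact fun z => congrFun h3 z
  have hψ1 : ψ 1 ≠ 0 := by
    intro h0
    have h1 := hker (uE p (Multiplicative.ofAdd 1)) (by
      rw [uE_val, norm_exp (norm_p_sq_mul _)]) h0
    have h2 := congrArg (fun y : ℚ_[p]ˣ => (y : ℚ_[p])) h1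
    simp only [Units.val_pow_eq_pow_val, Units.val_one, uE_val] at h2
    rw [← exp_nat_mul' (norm_p_sq_mul _)] at h2
    have h3 := norm_exp_sub_one (p := p) (w := (N : ℚ_[p]) * (((1 : ℤ_[p]) : ℚ_[p]) *
      (p : ℚ_[p]) ^ 2)) (norm_mul_le' (norm_p_sq_mul _)
        (by exact_mod_cast Padic.norm_int_le_one (N : ℤ)))
    rw [h2, sub_self, norm_zero] at h3
    have h4 := norm_eq_zero.1 h3.symm
    rw [PadicInt.coe_one, one_mul] at h4
    rcases mul_eq_zero.1 h4 with h5 | h5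
    · exact hN.ne' (by exact_mod_cast h5)
    · exact pow_ne_zero 2 hp0 h5
  have hdiv : ∀ w : ℚ_[p], ‖w‖ ≤ ((p : ℝ) ^ 2)⁻¹ → ‖w / (p : ℚ_[p]) ^ 2‖ ≤ 1 := by
    intro w hw
    rw [norm_div, norm_pow, Padic.norm_p, inv_pow, div_inv_eq_mul]
    have : (0 : ℝ) < (p : ℝ) ^ 2 := by positivity
    calc ‖w‖ * (p : ℝ) ^ 2 ≤ ((p : ℝ) ^ 2)⁻¹ * (p : ℝ) ^ 2 :=
          mul_le_mul_of_nonneg_right hw this.le
      _ = 1 := inv_mul_cancel₀ this.ne'
  refine ⟨ψ 1 / (p : ℚ_[p]) ^ 2, div_ne_zero hψ1 (pow_ne_zero _ hp0), ?_, ?_⟩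
  · intro y w hw hy
    set z : ℤ_[p] := ⟨w / (p : ℚ_[p]) ^ 2, hdiv w hw⟩ with hz
    have hzw : (z : ℚ_[p]) * (p : ℚ_[p]) ^ 2 = w := div_mul_cancel₀ _ (pow_ne_zero _ hp0)
    have h1 : y = uE p (Multiplicative.ofAdd z) := by
      apply Units.ext
      rw [uE_val, hzw, hy]
    rw [h1]
    have h2 := hψs z
    have h3 : ψ z = Multiplicative.toAdd (lg (uE p (Multiplicative.ofAdd z))) := rfl
    rw [← h3, h2, ← hzw]
    field_simp
  · intro g hg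
    set y : ℚ_[p] := Multiplicative.toAdd (lg g) with hy
    obtain ⟨t, ht⟩ : ∃ t : ℕ, ‖(p : ℚ_[p]) ^ t * (y / ψ 1)‖ ≤ 1 := by
      obtain ⟨t, ht⟩ := pow_unbounded_of_one_lt ‖y / ψ 1‖ hpR
      refine ⟨t, ?_⟩
      rw [norm_mul, norm_pow, Padic.norm_p, inv_pow]
      have : (0 : ℝ) < (p : ℝ) ^ t := by positivity
      rw [inv_mul_le_iff₀ this, mul_one]
      exact ht.le
    set z : ℤ_[p] := ⟨(p : ℚ_[p]) ^ t * (y / ψ 1), ht⟩ with hz
    have h1 : Multiplicative.toAdd (lg (g ^ (p ^ t) * (uE p (Multiplicative.ofAdd z))⁻¹)) = 0 := by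
      rw [map_mul, map_inv, map_pow, toAdd_mul, toAdd_inv, toAdd_pow]
      have h2 : Multiplicative.toAdd (lg (uE p (Multiplicative.ofAdd z))) = ψ z := rfl
      rw [h2, hψs, nsmul_eq_mul]
      show ((p ^ t : ℕ) : ℚ_[p]) * y + -((p : ℚ_[p]) ^ t * (y / ψ 1) * ψ 1) = 0
      push_cast
      field_simp
      ring
    have h2 := hker _ (by
      rw [Units.val_mul, norm_mul, Units.val_pow_eq_pow_val, norm_pow, hg, one_pow, one_mul,
        Units.val_inv_eq_inv_val, norm_inv, uE_val, norm_exp (norm_p_sq_mul _), inv_one]) h1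
    rw [mul_pow, ← pow_mul, inv_pow, mul_inv_eq_one] at h2
    refine ⟨p ^ t * N, Nat.mul_pos (pow_pos hp.out.pos _) hN,
      (N : ℚ_[p]) * ((z : ℚ_[p]) * (p : ℚ_[p]) ^ 2),
      norm_mul_le' (norm_p_sq_mul _) (by exact_mod_cast Padic.norm_int_le_one (N : ℤ)), ?_⟩
    rw [h2, Units.val_pow_eq_pow_val, uE_val, exp_nat_mul' (norm_p_sq_mul _)]

end Pool.Agent.Lib.H22F301
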