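import Mathlib

/-!
A logarithm on the multiplicative group of `Q_p`: a continuous homomorphism to `Q_p` whose
restriction to the units of norm one has kernel of bounded exponent.
-/

open Filter Topology

namespace Pool.Agent.Lib.H22F301

variable {p : ℕ} [hp : Fact p.Prime]

private lemma pow_expand (x : ℚ_[p]) (hx : ‖x‖ ≤ 1) (n : ℕ) :
    ∃ c : ℚ_[p], ‖c‖ ≤ 1 ∧ (1 + x) ^ n = 1 + n * x + x ^ 2 * c := by
  induction n with
  | zero => exact ⟨0, by simp, by simp⟩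
  | succ n ih =>
    obtain ⟨c, hc, hcn⟩ := ih
    refine ⟨n + c + x * c, ?_, ?_⟩
    · have h1 : ‖(n : ℚ_[p])‖ ≤ 1 := by
        have := Padic.norm_int_le_one (p := p) (n : ℤ)
        simpa using this
      have h2 : ‖(n : ℚ_[p]) + c‖ ≤ 1 :=
        (Padic.nonarchimedean _ _).trans (max_le h1 hc)
      have h3 : ‖x * c‖ ≤ 1 := by
        rw [norm_mul]
        exact mul_le_one₀ hx (norm_nonneg _) hc
      exact (Padic.nonarchimedean _ _).trans (max_le h2 h3)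
    · rw [pow_succ, hcn]
      push_cast
      ring

private lemma q_pos : (0 : ℝ) < (p : ℝ)⁻¹ := by
  have : (0 : ℝ) < p := by exact_mod_cast hp.out.pos
  positivity

private lemma q_le_half : (p : ℝ)⁻¹ ≤ 2⁻¹ := by
  have : (2 : ℝ) ≤ p := by exact_mod_cast hp.out.two_le
  exact inv_anti₀ (by norm_num) this

private lemma q_lt_one : (p : ℝ)⁻¹ < 1 := by
  have := q_le_half (p := p)
  norm_num at this ⊢
  linarith

private lemma norm_pow_p (x : ℚ_[p]) (hx : ‖x‖ ≤ ((p : ℝ)⁻¹) ^ 2) :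
    ‖(1 + x) ^ p - 1‖ = (p : ℝ)⁻¹ * ‖x‖ ∧
      ‖((1 + x) ^ p - 1) - p * x‖ ≤ ‖x‖ ^ 2 := by
  have q0 := q_pos (p := p)
  have q1 := q_lt_one (p := p)
  have hx1 : ‖x‖ ≤ 1 := hx.trans (pow_le_one₀ q0.le q1.le)
  obtain ⟨c, hc, hcn⟩ := pow_expand x hx1 p
  have e1 : (1 + x) ^ p - 1 = p * x + x ^ 2 * c := by
    rw [hcn]
    ring
  have e2 : ‖x ^ 2 * c‖ ≤ ‖x‖ ^ 2 := by
    rw [norm_mul, norm_pow]
    exact mul_le_of_le_one_right (by positivity) hc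
  have e3 : ‖(p : ℚ_[p]) * x‖ = (p : ℝ)⁻¹ * ‖x‖ := by
    rw [norm_mul, Padic.norm_p]
  constructor
  · rw [e1]
    by_cases hx0 : x = 0
    · subst hx0
      simp
    · have hxp : 0 < ‖x‖ := norm_pos_iff.mpr hx0
      have h4 : ‖x ^ 2 * c‖ < ‖(p : ℚ_[p]) * x‖ := by
        rw [e3]
        calc ‖x ^ 2 * c‖ ≤ ‖x‖ ^ 2 := e2
          _ = ‖x‖ * ‖x‖ := by ring
          _ ≤ ((p : ℝ)⁻¹) ^ 2 * ‖x‖ := by gcongr
          _ < (p : ℝ)⁻¹ * ‖x‖ := by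
              have : ((p : ℝ)⁻¹) ^ 2 < (p : ℝ)⁻¹ := by nlinarith
              exact mul_lt_mul_of_pos_right this hxp
      rw [Padic.add_eq_max_of_ne h4.ne', max_eq_left h4.le, e3]
  · rw [e1]
    have : (p : ℚ_[p]) * x + x ^ 2 * c - p * x = x ^ 2 * c := by ring
    rw [this]
    exact e2

private lemma norm_iter (u : ℚ_[p]) (hu : ‖u - 1‖ ≤ ((p : ℝ)⁻¹) ^ 2) (k : ℕ) :
    ‖u ^ p ^ k - 1‖ = ((p : ℝ)⁻¹) ^ k * ‖u - 1‖ := by
  have q0 := q_pos (p := p)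
  have q1 := q_lt_one (p := p)
  induction k with
  | zero => simp
  | succ k ih =>
    have h1 : ‖u ^ p ^ k - 1‖ ≤ ((p : ℝ)⁻¹) ^ 2 := by
      rw [ih]
      calc ((p : ℝ)⁻¹) ^ k * ‖u - 1‖ ≤ 1 * ((p : ℝ)⁻¹) ^ 2 := by
            gcongr
            exact pow_le_one₀ q0.le q1.le
        _ = _ := one_mul _
    have h2 := (norm_pow_p (u ^ p ^ k - 1) h1).1
    have h3 : (1 + (u ^ p ^ k - 1)) ^ p - 1 = u ^ p ^ (k + 1) - 1 := by
      rw [add_sub_cancel, ← pow_mul, ← pow_succ]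
    rw [h3] at h2
    rw [h2, ih, pow_succ]
    ring

private lemma exists_lim (u : ℚ_[p]) (hu : ‖u - 1‖ ≤ ((p : ℝ)⁻¹) ^ 2) :
    ∃ L : ℚ_[p], Tendsto (fun k : ℕ => (u ^ p ^ k - 1) / (p : ℚ_[p]) ^ k) atTop (𝓝 L) := by
  have q0 := q_pos (p := p)
  have q1 := q_lt_one (p := p)
  have hp0 : (p : ℚ_[p]) ≠ 0 := by exact_mod_cast hp.out.ne_zero
  apply cauchySeq_tendsto_of_complete
  apply cauchySeq_of_le_geometric ((p : ℝ)⁻¹) 1 q1
  intro k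
  rw [dist_comm, dist_eq_norm]
  have h1 : ‖u ^ p ^ k - 1‖ ≤ ((p : ℝ)⁻¹) ^ k * ((p : ℝ)⁻¹) ^ 2 := by
    rw [norm_iter u hu k]
    gcongr
  have h1' : ‖u ^ p ^ k - 1‖ ≤ ((p : ℝ)⁻¹) ^ 2 := by
    refine h1.trans ?_
    calc ((p : ℝ)⁻¹) ^ k * ((p : ℝ)⁻¹) ^ 2 ≤ 1 * ((p : ℝ)⁻¹) ^ 2 := by
            gcongr
            exact pow_le_one₀ q0.le q1.le
        _ = _ := one_mul _
  have h2 := (norm_pow_p (u ^ p ^ k - 1) h1').2
  have h3 : (1 + (u ^ p ^ k - 1)) ^ p - 1 = u ^ p ^ (k + 1) - 1 := by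
    rw [add_sub_cancel, ← pow_mul, ← pow_succ]
  rw [h3] at h2
  have h4 : (u ^ p ^ (k + 1) - 1) / (p : ℚ_[p]) ^ (k + 1) - (u ^ p ^ k - 1) / (p : ℚ_[p]) ^ k =
      ((u ^ p ^ (k + 1) - 1) - p * (u ^ p ^ k - 1)) / (p : ℚ_[p]) ^ (k + 1) := by
    have h5 : (p : ℚ_[p]) ^ k ≠ 0 := pow_ne_zero _ hp0
    rw [pow_succ (p : ℚ_[p]) k]
    generalize u ^ p ^ (k + 1) = A
    generalize u ^ p ^ k = B
    generalize (p : ℚ_[p]) ^ k = C at h5
    field_simp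
  rw [h4, norm_div, norm_pow, Padic.norm_p, div_le_iff₀ (by positivity)]
  calc ‖(u ^ p ^ (k + 1) - 1) - p * (u ^ p ^ k - 1)‖ ≤ ‖u ^ p ^ k - 1‖ ^ 2 := h2
    _ ≤ (((p : ℝ)⁻¹) ^ k * ((p : ℝ)⁻¹) ^ 2) ^ 2 := by gcongr
    _ = (((p : ℝ)⁻¹) ^ k * ((p : ℝ)⁻¹) ^ (k + 1)) * ((p : ℝ)⁻¹) ^ 3 := by ring
    _ ≤ (((p : ℝ)⁻¹) ^ k * ((p : ℝ)⁻¹) ^ (k + 1)) * 1 := by
        gcongr
        exact pow_le_one₀ q0.le q1.le
    _ = 1 * ((p : ℝ)⁻¹) ^ k * ((p : ℝ)⁻¹) ^ (k + 1) := by ring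

open Classical in
/-- The limit of `(u^(p^k) - 1)/p^k` if `u` is near `1`, and `0` otherwise. -/
private noncomputable def ell (u : ℚ_[p]) : ℚ_[p] :=
  if h : ‖u - 1‖ ≤ ((p : ℝ)⁻¹) ^ 2 then (exists_lim u h).choose else 0

private lemma ell_spec (u : ℚ_[p]) (h : ‖u - 1‖ ≤ ((p : ℝ)⁻¹) ^ 2) :
    Tendsto (fun k : ℕ => (u ^ p ^ k - 1) / (p : ℚ_[p]) ^ k) atTop (𝓝 (ell u)) := by
  unfold ell
  rw [dif_pos h]
  exact (exists_lim u h).choose_spec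

private lemma norm_ell (u : ℚ_[p]) (h : ‖u - 1‖ ≤ ((p : ℝ)⁻¹) ^ 2) : ‖ell u‖ = ‖u - 1‖ := by
  have q0 := q_pos (p := p)
  have h1 := (continuous_norm.tendsto (ell u)).comp (ell_spec u h)
  have h2 : (norm ∘ fun k : ℕ => (u ^ p ^ k - 1) / (p : ℚ_[p]) ^ k) = fun _ => ‖u - 1‖ := by
    funext k
    show ‖(u ^ p ^ k - 1) / (p : ℚ_[p]) ^ k‖ = ‖u - 1‖
    rw [norm_div, norm_pow, Padic.norm_p, norm_iter u h k]
    have h5 : ((p : ℝ)⁻¹) ^ k ≠ 0 := pow_ne_zero _ q0.ne'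
    exact mul_div_cancel_left₀ _ h5
  rw [h2] at h1
  exact tendsto_nhds_unique h1 tendsto_const_nhds

private lemma near_mul (u v : ℚ_[p]) (hu : ‖u - 1‖ ≤ ((p : ℝ)⁻¹) ^ 2)
    (hv : ‖v - 1‖ ≤ ((p : ℝ)⁻¹) ^ 2) : ‖u * v - 1‖ ≤ ((p : ℝ)⁻¹) ^ 2 := by
  have q0 := q_pos (p := p)
  have q1 := q_lt_one (p := p)
  have hv1 : ‖v‖ ≤ 1 := by
    have h1 : v = (v - 1) + 1 := by ring
    rw [h1]
    refine (Padic.nonarchimedean _ _).trans (max_le ?_ (by simp))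
    exact hv.trans (pow_le_one₀ q0.le q1.le)
  have h2 : u * v - 1 = (u - 1) * v + (v - 1) := by ring
  rw [h2]
  refine (Padic.nonarchimedean _ _).trans (max_le ?_ hv)
  rw [norm_mul]
  calc ‖u - 1‖ * ‖v‖ ≤ ((p : ℝ)⁻¹) ^ 2 * 1 := by gcongr
    _ = _ := mul_one _

private lemma ell_mul (u v : ℚ_[p]) (hu : ‖u - 1‖ ≤ ((p : ℝ)⁻¹) ^ 2)
    (hv : ‖v - 1‖ ≤ ((p : ℝ)⁻¹) ^ 2) : ell (u * v) = ell u + ell v := by
  have q0 := q_pos (p := p)
  have q1 := q_lt_one (p := p)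
  have hp0 : (p : ℚ_[p]) ≠ 0 := by exact_mod_cast hp.out.ne_zero
  have h1 := ell_spec (u * v) (near_mul u v hu hv)
  have hU := ell_spec u hu
  have hV := ell_spec v hv
  have hq : Tendsto (fun k : ℕ => (p : ℚ_[p]) ^ k) atTop (𝓝 0) := by
    apply tendsto_pow_atTop_nhds_zero_of_norm_lt_one
    rw [Padic.norm_p]
    exact q1
  have h2 := (hU.add hV).add ((hU.mul hV).mul hq)
  rw [mul_zero, add_zero] at h2
  refine tendsto_nhds_unique h1 (h2.congr fun k => ?_)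
  field_simp
  ring

/-- The power that moves units into the domain of `ell`. -/
private lemma near_pow (y : ℚ_[p]) (hy : ‖y‖ = 1) :
    ‖y ^ (Nat.totient (p ^ 2)) - 1‖ ≤ ((p : ℝ)⁻¹) ^ 2 := by
  set z : ℤ_[p] := ⟨y, hy.le⟩ with hz
  have hzu : IsUnit z := PadicInt.isUnit_iff.mpr hy
  obtain ⟨w, hw⟩ := hzu
  have h1 : (PadicInt.toZModPow (p := p) 2) (z ^ (Nat.totient (p ^ 2)) - 1) = 0 := by
    rw [map_sub, map_pow, map_one, ← hw]
    have h2 : (PadicInt.toZModPow (p := p) 2) (w : ℤ_[p]) =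
        ((Units.map (PadicInt.toZModPow (p := p) 2).toMonoidHom w : (ZMod (p ^ 2))ˣ) :
          ZMod (p ^ 2)) := rfl
    rw [h2, ← Units.val_pow_eq_pow_val, ZMod.pow_totient, Units.val_one, sub_self]
  rw [← RingHom.mem_ker, PadicInt.ker_toZModPow, ← PadicInt.norm_le_pow_iff_mem_span_pow] at h1
  have h3 : ((z ^ (Nat.totient (p ^ 2)) - 1 : ℤ_[p]) : ℚ_[p]) =
      y ^ (Nat.totient (p ^ 2)) - 1 := by
    push_cast
    rfl
  have h4 : ‖y ^ (Nat.totient (p ^ 2)) - 1‖ = ‖z ^ (Nat.totient (p ^ 2)) - 1‖ := by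
    rw [← h3]
    rfl
  rw [h4]
  refine h1.trans (le_of_eq ?_)
  rw [zpow_neg, zpow_natCast, inv_pow]

/-- The unit part to the power `N`. -/
private noncomputable def ww (y : ℚ_[p]) : ℚ_[p] :=
  (y * (p : ℚ_[p]) ^ (-y.valuation)) ^ (Nat.totient (p ^ 2))

private lemma norm_unitPart (y : ℚ_[p]) (hy : y ≠ 0) :
    ‖y * (p : ℚ_[p]) ^ (-y.valuation)‖ = 1 := by
  have hp0 : (p : ℝ) ≠ 0 := by exact_mod_cast hp.out.ne_zero
  rw [norm_mul, Padic.norm_eq_zpow_neg_valuation hy, Padic.norm_p_zpow, ← zpow_add₀ hp0,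
    neg_neg, neg_add_cancel, zpow_zero]

private lemma ww_near (y : ℚ_[p]) (hy : y ≠ 0) : ‖ww y - 1‖ ≤ ((p : ℝ)⁻¹) ^ 2 :=
  near_pow _ (norm_unitPart y hy)

private lemma ww_mul (y z : ℚ_[p]) (hy : y ≠ 0) (hz : z ≠ 0) : ww (y * z) = ww y * ww z := by
  have hp0 : (p : ℚ_[p]) ≠ 0 := by exact_mod_cast hp.out.ne_zero
  unfold ww
  rw [← mul_pow, Padic.valuation_mul hy hz, neg_add, zpow_add₀ hp0]
  ring

private lemma ww_of_norm_one (y : ℚ_[p]) (hy : ‖y‖ = 1) :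
    ww y = y ^ (Nat.totient (p ^ 2)) := by
  have hy0 : y ≠ 0 := by
    rintro rfl
    simp at hy
  have hp1 : (1 : ℝ) < p := by exact_mod_cast hp.out.one_lt
  have h1 := Padic.norm_eq_zpow_neg_valuation hy0
  rw [hy] at h1
  have h2 : -y.valuation = 0 := by
    have h3 : (p : ℝ) ^ (0 : ℤ) = (p : ℝ) ^ (-y.valuation) := by
      rw [zpow_zero]
      exact h1
    exact ((zpow_right_strictMono₀ hp1).injective h3).symm
  unfold ww
  rw [h2, zpow_zero, mul_one]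

/-- The logarithm as a homomorphism. -/
private noncomputable def lgHom : ℚ_[p]ˣ →* Multiplicative ℚ_[p] where
  toFun y := Multiplicative.ofAdd (ell (ww (y : ℚ_[p])))
  map_one' := by
    have h1 : ww ((1 : ℚ_[p]ˣ) : ℚ_[p]) = 1 := by
      rw [Units.val_one, ww_of_norm_one 1 (by simp), one_pow]
    rw [h1]
    have h2 : ell (1 : ℚ_[p]) = 0 := by
      rw [← norm_eq_zero, norm_ell 1 (by simp)]
      simp
    rw [h2]
    rfl
  map_mul' y z := by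
    rw [Units.val_mul, ww_mul _ _ y.ne_zero z.ne_zero,
      ell_mul _ _ (ww_near _ y.ne_zero) (ww_near _ z.ne_zero)]
    rfl

theorem exists_padicLog (p : ℕ) [Fact p.Prime] :
    ∃ (N : ℕ) (lg : ℚ_[p]ˣ →* Multiplicative ℚ_[p]), 0 < N ∧
      (Continuous fun y => Multiplicative.toAdd (lg y)) ∧
      ∀ y : ℚ_[p]ˣ, ‖(y : ℚ_[p])‖ = 1 → Multiplicative.toAdd (lg y) = 0 → y ^ N = 1 := by
  have hp : p.Prime := Fact.out
  refine ⟨Nat.totient (p ^ 2), lgHom, Nat.totient_pos.mpr (pow_pos hp.pos 2), ?_, ?_⟩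
  · have hc : Continuous (lgHom : ℚ_[p]ˣ →* Multiplicative ℚ_[p]) := by
      apply continuous_of_continuousAt_one
      have h0 : Tendsto (fun y : ℚ_[p]ˣ => ell (ww (y : ℚ_[p]))) (𝓝 1) (𝓝 0) := by
        rw [tendsto_zero_iff_norm_tendsto_zero]
        have h1 : Tendsto (fun y : ℚ_[p]ˣ => ‖(y : ℚ_[p]) ^ (Nat.totient (p ^ 2)) - 1‖) (𝓝 1)
            (𝓝 0) := by
          have h2 : Continuous (fun y : ℚ_[p]ˣ => ‖(y : ℚ_[p]) ^ (Nat.totient (p ^ 2)) - 1‖) := by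
            have := Units.continuous_val (M := ℚ_[p])
            fun_prop
          have h3 := h2.tendsto 1
          simpa using h3
        refine h1.congr' ?_
        have h4 : ∀ᶠ y : ℚ_[p]ˣ in 𝓝 1, ‖(y : ℚ_[p]) - 1‖ < 1 := by
          have h5 : Continuous (fun y : ℚ_[p]ˣ => ‖(y : ℚ_[p]) - 1‖) := by
            have := Units.continuous_val (M := ℚ_[p])
            fun_prop
          have h6 := h5.tendsto 1
          simp only [Units.val_one, sub_self, norm_zero] at h6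
          exact h6.eventually (gt_mem_nhds one_pos)
        filter_upwards [h4] with y hy
        have hy1 : ‖(y : ℚ_[p])‖ = 1 := by
          have h7 : (y : ℚ_[p]) = ((y : ℚ_[p]) - 1) + 1 := by ring
          have h8 : ‖((y : ℚ_[p]) - 1)‖ ≠ ‖(1 : ℚ_[p])‖ := by
            rw [norm_one]
            exact hy.ne
          rw [h7, Padic.add_eq_max_of_ne h8, norm_one, max_eq_right hy.le]
        rw [norm_ell _ (ww_near _ y.ne_zero), ww_of_norm_one _ hy1]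
      have h9 : ContinuousAt (fun y : ℚ_[p]ˣ => Multiplicative.ofAdd (ell (ww (y : ℚ_[p])))) 1 := by
        have h10 : ell (ww ((1 : ℚ_[p]ˣ) : ℚ_[p])) = 0 := by
          have := (lgHom : ℚ_[p]ˣ →* Multiplicative ℚ_[p]).map_one
          exact this
        apply continuous_ofAdd.continuousAt.comp
        show Tendsto (fun y : ℚ_[p]ˣ => ell (ww (y : ℚ_[p]))) (𝓝 1)
          (𝓝 (ell (ww ((1 : ℚ_[p]ˣ) : ℚ_[p]))))
        rw [h10]
        exact h0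
      exact h9
    exact continuous_toAdd.comp hc
  · intro y hy h
    have h1 : ell (ww (y : ℚ_[p])) = 0 := h
    have h2 := norm_ell (ww (y : ℚ_[p])) (ww_near _ y.ne_zero)
    rw [h1, norm_zero, ww_of_norm_one _ hy] at h2
    have h3 : (y : ℚ_[p]) ^ (Nat.totient (p ^ 2)) = 1 := by
      rw [← sub_eq_zero, ← norm_eq_zero]
      exact h2.symm
    apply Units.ext
    rw [Units.val_pow_eq_pow_val, Units.val_one]
    exact h3

end Pool.Agent.Lib.H22F301
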