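import Mathlib

/-!
# Topological rank of topological abelian groups

Definitions and general lemmas for `MP_f301bd_nt`.
-/

namespace Pool.Agent.Lib.H22F301

/-- `F` is a free abelian group of rank `k`. -/
def FreeOfRank {G : Type*} [CommGroup G] (F : Subgroup G) (k : ℕ) : Prop :=
  Nonempty (F ≃* Multiplicative (Fin k → ℤ))

/-- The topological rank of a topological abelian group: the least rank of a free abelian subgroup
whose closure is an open subgroup of finite index, and `∞` if there is no such subgroup of finite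
rank. -/
noncomputable def topRank (G : Type*) [CommGroup G] [TopologicalSpace G] : ℕ∞ :=
  ⨅ (k : ℕ) (_ : ∃ F H : Subgroup G, FreeOfRank F k ∧ (H : Set G) = closure (F : Set G) ∧
    IsOpen (H : Set G) ∧ H.FiniteIndex), (k : ℕ∞)

/-- `G` contains `ℤ_p ^ d` as a subgroup of finite index. -/
def HasZpRank (p : ℕ) [Fact p.Prime] (G : Type*) [CommGroup G] [TopologicalSpace G] (d : ℕ) :
    Prop :=
  ∃ φ : Multiplicative (Fin d → ℤ_[p]) →* G, Continuous φ ∧ Function.Injective φ ∧
    φ.range.FiniteIndex

theorem pow_index_mem {G : Type*} [CommGroup G] (H : Subgroup G) (g : G) : g ^ H.index ∈ H := by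
  have h : (QuotientGroup.mk g : G ⧸ H) ^ H.index = 1 := by
    rw [Subgroup.index]; exact pow_card_eq_one'
  rwa [← QuotientGroup.mk_pow, QuotientGroup.eq_one_iff] at h

/-- Generators of a free abelian group. -/
theorem exists_gens {G : Type*} [CommGroup G] {F : Subgroup G} {k : ℕ} (hF : FreeOfRank F k) :
    ∃ f : Fin k → G, ∀ x : G, x ∈ F ↔ ∃ c : Fin k → ℤ, x = ∏ i, f i ^ c i := by
  obtain ⟨e⟩ := hF
  refine ⟨fun i => (e.symm (Multiplicative.ofAdd (Pi.single i 1)) : F), ?_⟩
  have key : ∀ c : Fin k → ℤ, ((e.symm (Multiplicative.ofAdd c) : F) : G) =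
      ∏ i, (((e.symm (Multiplicative.ofAdd (Pi.single i 1)) : F) : G)) ^ c i := by
    intro c
    have h1 : Multiplicative.ofAdd c =
        ∏ i, (Multiplicative.ofAdd (Pi.single i (1 : ℤ) : Fin k → ℤ)) ^ c i := by
      have h2 : c = ∑ i, c i • (Pi.single i (1 : ℤ) : Fin k → ℤ) := by
        funext j
        simp [Finset.sum_apply, Pi.single_apply]
      conv_lhs => rw [h2]
      rw [ofAdd_sum]
      rfl
    rw [h1, map_prod, Subgroup.val_finsetProd]
    simp only [map_zpow, Subgroup.coe_zpow]
  intro x
  constructor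
  · intro hx
    refine ⟨Multiplicative.toAdd (e ⟨x, hx⟩), ?_⟩
    rw [← key]
    simp
  · rintro ⟨c, rfl⟩
    rw [← key]
    exact SetLike.coe_mem _

/-- In a group which contains `ℤ_p ^ d` with finite index, a free abelian subgroup whose closure
has finite index has rank at least `d`. -/
theorem le_of_zpRank {p : ℕ} [Fact p.Prime] {G : Type*} [CommGroup G] [TopologicalSpace G]
    [IsTopologicalGroup G] [T2Space G] {d k : ℕ} (hd : HasZpRank p G d) {F H : Subgroup G}
    (hF : FreeOfRank F k) (hH : (H : Set G) = closure (F : Set G)) (hfin : H.FiniteIndex) :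
    d ≤ k := by
  obtain ⟨φ, hφc, hφi, hφf⟩ := hd
  obtain ⟨f, hf⟩ := exists_gens hF
  set N := φ.range.index with hN
  have hN0 : N ≠ 0 := hφf.index_ne_zero
  have hM0 : H.index ≠ 0 := hfin.index_ne_zero
  have h1 : ∀ i, ∃ a : Fin d → ℤ_[p], φ (Multiplicative.ofAdd a) = f i ^ N := fun i => by
    obtain ⟨a, ha⟩ := pow_index_mem φ.range (f i)
    exact ⟨Multiplicative.toAdd a, ha⟩
  choose a ha using h1
  set Φ : (Fin k → ℤ_[p]) →ₗ[ℤ_[p]] (Fin d → ℤ_[p]) := Fintype.linearCombination ℤ_[p] a with hΦ
  have hΦc : Continuous Φ := by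
    rw [hΦ]
    show Continuous (fun c : Fin k → ℤ_[p] => Fintype.linearCombination ℤ_[p] a c)
    simp only [Fintype.linearCombination_apply]
    exact continuous_finsetSum _ fun i _ => (continuous_apply i).smul continuous_const
  set W : Set G := Set.range (fun c => φ (Multiplicative.ofAdd (Φ c))) with hW
  have hWc : IsClosed W := by
    apply IsCompact.isClosed
    rw [hW, ← Set.image_univ]
    exact isCompact_univ.image (hφc.comp (continuous_ofAdd.comp hΦc))
  have hFW : ∀ x ∈ H, x ^ N ∈ W := by
    have hcl : IsClosed {x : G | x ^ N ∈ W} := hWc.preimage (continuous_pow N)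
    have hsub : (F : Set G) ⊆ {x : G | x ^ N ∈ W} := by
      intro x hx
      obtain ⟨c, rfl⟩ := (hf x).1 hx
      refine ⟨fun i => (c i : ℤ_[p]), ?_⟩
      have h5 : Φ (fun i => (c i : ℤ_[p])) = ∑ i, c i • a i := by
        rw [hΦ, Fintype.linearCombination_apply]
        refine Finset.sum_congr rfl fun i _ => ?_
        rw [Int.cast_smul_eq_zsmul]
      show φ (Multiplicative.ofAdd (Φ (fun i => (c i : ℤ_[p])))) = (∏ i, f i ^ c i) ^ N
      rw [h5, ofAdd_sum, map_prod, ← Finset.prod_pow]
      refine Finset.prod_congr rfl fun i _ => ?_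
      rw [ofAdd_zsmul, map_zpow, ha, ← zpow_natCast, ← zpow_natCast, ← zpow_mul, ← zpow_mul,
        mul_comm]
    intro x hx
    have : x ∈ closure (F : Set G) := by rw [← hH]; exact hx
    exact closure_minimal hsub hcl this
  have h2 : ∀ x : Fin d → ℤ_[p], ∃ c, Φ c = ((H.index * N : ℕ) : ℤ_[p]) • x := by
    intro x
    obtain ⟨c, hc⟩ := hFW _ (pow_index_mem H (φ (Multiplicative.ofAdd x)))
    refine ⟨c, ?_⟩
    rw [← pow_mul, ← map_pow] at hc
    have := hφi hc
    rw [← ofAdd_nsmul] at this
    have := Multiplicative.ofAdd.injective this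
    rw [this, Nat.cast_smul_eq_nsmul]
  choose B hB using fun j : Fin d => h2 (Pi.single j 1)
  set Ψ : (Fin d → ℤ_[p]) →ₗ[ℤ_[p]] (Fin k → ℤ_[p]) := Fintype.linearCombination ℤ_[p] B with hΨ
  have h3 : ∀ x, Φ (Ψ x) = ((H.index * N : ℕ) : ℤ_[p]) • x := by
    intro x
    have h5 : Φ (Ψ x) = ∑ j, x j • Φ (B j) := by
      have e1 : Ψ x = ∑ j, x j • B j := by rw [hΨ, Fintype.linearCombination_apply]
      rw [e1, map_sum]
      simp only [map_smul]
    rw [h5]
    simp only [hB]
    funext j
    simp [Finset.sum_apply, Pi.single_apply, mul_comm]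
  have h4 : Function.Injective Ψ := by
    intro x y hxy
    have h5 : ((H.index * N : ℕ) : ℤ_[p]) • x = ((H.index * N : ℕ) : ℤ_[p]) • y := by
      rw [← h3, ← h3, hxy]
    have h6 : ((H.index * N : ℕ) : ℤ_[p]) ≠ 0 := by
      exact_mod_cast mul_ne_zero hM0 hN0
    exact smul_right_injective _ h6 h5
  have h7 := card_le_of_injective ℤ_[p] Ψ h4
  simpa using h7

/-- If some power map sends a free abelian group of rank `m` into one of rank `k`, then
`m ≤ k`. -/
theorem le_of_pow_mem {G : Type*} [CommGroup G] {L F : Subgroup G} {m k N : ℕ}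
    (hL : FreeOfRank L m) (hF : FreeOfRank F k) (hN : N ≠ 0) (h : ∀ x ∈ L, x ^ N ∈ F) :
    m ≤ k := by
  obtain ⟨e⟩ := hL
  obtain ⟨e'⟩ := hF
  set g : Multiplicative (Fin m → ℤ) →* Multiplicative (Fin k → ℤ) :=
    e'.toMonoidHom.comp
      { toFun := fun z => (⟨((e.symm z : L) : G) ^ N, h _ (SetLike.coe_mem _)⟩ : F)
        map_one' := by ext; simp
        map_mul' := by intro x y; ext; simp [mul_pow] } with hg
  have hinj : Function.Injective g := by
    intro x y hxy
    have h1 := e'.injective hxy
    have h2 : ((e.symm x : L) : G) ^ N = ((e.symm y : L) : G) ^ N := congrArg Subtype.val h1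
    have h3 : (e.symm x) ^ N = (e.symm y) ^ N := by ext; simpa using h2
    rw [← map_pow, ← map_pow] at h3
    have h4 := e.symm.injective h3
    have h5 : N • Multiplicative.toAdd x = N • Multiplicative.toAdd y := by
      have := congrArg Multiplicative.toAdd h4
      simpa using this
    have h6 : Multiplicative.toAdd x = Multiplicative.toAdd y := by
      funext i
      have := congrFun h5 i
      simp only [Pi.smul_apply, nsmul_eq_mul, mul_eq_mul_left_iff, Nat.cast_eq_zero] at this
      exact this.resolve_right hN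
    exact Multiplicative.toAdd.injective h6
  have h7 := card_le_of_injective ℤ (MonoidHom.toAdditive g).toIntLinearMap
    (fun x y hxy => hinj hxy)
  simpa using h7

/-- The lower bound `min (m, r + 1)`. -/
theorem min_le_of_free {G : Type*} [CommGroup G] [TopologicalSpace G] [T1Space G] {n : ℕ}
    (lam : G →* Multiplicative (Fin n → ℝ))
    (hlam : Continuous fun g => Multiplicative.toAdd (lam g))
    {L F H : Subgroup G} {m k : ℕ} (hL : FreeOfRank L m) (hF : FreeOfRank F k)
    (hH : (H : Set G) = closure (F : Set G)) (hfin : H.FiniteIndex) :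
    min m (Module.finrank ℝ (Submodule.span ℝ ((fun g => Multiplicative.toAdd (lam g)) '' L)) + 1)
      ≤ k := by
  obtain ⟨f, hf⟩ := exists_gens hF
  have hM0 : H.index ≠ 0 := hfin.index_ne_zero
  set v : Fin k → (Fin n → ℝ) := fun i => Multiplicative.toAdd (lam (f i)) with hv
  set V : Submodule ℝ (Fin n → ℝ) := Submodule.span ℝ (Set.range v) with hV
  have hFv : ∀ c : Fin k → ℤ, Multiplicative.toAdd (lam (∏ i, f i ^ c i)) = ∑ i, (c i : ℝ) • v i := by
    intro c
    rw [map_prod, toAdd_prod]
    refine Finset.sum_congr rfl fun i _ => ?_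
    rw [map_zpow, toAdd_zpow, Int.cast_smul_eq_zsmul]
  have hVc : IsClosed (V : Set (Fin n → ℝ)) := Submodule.closed_of_finiteDimensional V
  have hHV : ∀ x ∈ H, Multiplicative.toAdd (lam x) ∈ V := by
    have hcl : IsClosed {x : G | Multiplicative.toAdd (lam x) ∈ (V : Set (Fin n → ℝ))} :=
      hVc.preimage hlam
    have hsub : (F : Set G) ⊆ {x : G | Multiplicative.toAdd (lam x) ∈ (V : Set (Fin n → ℝ))} := by
      intro x hx
      obtain ⟨c, rfl⟩ := (hf x).1 hx
      show Multiplicative.toAdd (lam (∏ i, f i ^ c i)) ∈ V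
      rw [hFv]
      exact Submodule.sum_mem _ fun i _ =>
        Submodule.smul_mem _ _ (Submodule.subset_span (Set.mem_range_self i))
    intro x hx
    have : x ∈ closure (F : Set G) := by rw [← hH]; exact hx
    exact closure_minimal hsub hcl this
  have hGV : ∀ x, Multiplicative.toAdd (lam x) ∈ V := by
    intro x
    have h1 := hHV _ (pow_index_mem H x)
    rw [map_pow, toAdd_pow, ← Nat.cast_smul_eq_nsmul ℝ] at h1
    have h2 : (H.index : ℝ) ≠ 0 := by exact_mod_cast hM0
    exact (Submodule.smul_mem_iff V h2).1 h1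
  have hle : Submodule.span ℝ ((fun g => Multiplicative.toAdd (lam g)) '' (L : Set G)) ≤ V := by
    rw [Submodule.span_le]
    rintro _ ⟨x, -, rfl⟩
    exact hGV x
  have hr : Module.finrank ℝ (Submodule.span ℝ ((fun g => Multiplicative.toAdd (lam g)) '' (L : Set G))) ≤
      Module.finrank ℝ V := Submodule.finrank_mono hle
  have hVk : Module.finrank ℝ V ≤ k := by
    have := finrank_range_le_card (R := ℝ) v
    simpa [Set.finrank] using this
  rcases Nat.lt_or_ge (Module.finrank ℝ V) k with hlt | hge
  · exact le_trans (min_le_right _ _) (by omega)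
  -- the vectors `v i` are linearly independent
  refine le_trans (min_le_left _ _) ?_
  have hli : LinearIndependent ℝ v := by
    rw [linearIndependent_iff_card_le_finrank_span]
    simpa [Set.finrank] using hge
  obtain ⟨μ, hμ⟩ : ∃ μ : (Fin n → ℝ) →ₗ[ℝ] (Fin k → ℝ), ∀ c : Fin k → ℝ, μ (∑ i, c i • v i) = c := by
    obtain ⟨μ, hμ⟩ := (Fintype.linearCombination ℝ v).exists_leftInverse_of_injective
      (LinearMap.ker_eq_bot.2 (by
        have := linearIndependent_iff_injective_fintypeLinearCombination.1 hli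
        exact this))
    refine ⟨μ, fun c => ?_⟩
    have := LinearMap.congr_fun hμ c
    simpa [Fintype.linearCombination_apply] using this
  have hμc : Continuous μ := μ.continuous_of_finiteDimensional
  -- `F` is closed
  have hFH : ∀ x ∈ H, x ∈ F := by
    intro g hg
    have hg' : g ∈ closure (F : Set G) := by rw [← hH]; exact hg
    set w : G → (Fin k → ℝ) := fun x => μ (Multiplicative.toAdd (lam x)) with hw
    have hwc : Continuous w := hμc.comp hlam
    set U : Set G := {x | dist (w x) (w g) < 1 / 2} with hU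
    have hUo : IsOpen U := isOpen_lt (hwc.dist continuous_const) continuous_const
    have hgU : g ∈ U := by simp [hU]
    have huniq : ∀ x ∈ U ∩ F, ∀ y ∈ U ∩ F, x = y := by
      rintro x ⟨hx1, hx2⟩ y ⟨hy1, hy2⟩
      obtain ⟨c, rfl⟩ := (hf x).1 hx2
      obtain ⟨c', rfl⟩ := (hf y).1 hy2
      have e1 : w (∏ i, f i ^ c i) = fun i => (c i : ℝ) := by
        simp only [hw]; rw [hFv, hμ]
      have e2 : w (∏ i, f i ^ c' i) = fun i => (c' i : ℝ) := by
        simp only [hw]; rw [hFv, hμ]
      have h1 : dist (w (∏ i, f i ^ c i)) (w (∏ i, f i ^ c' i)) < 1 := by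
        have := dist_triangle_right (w (∏ i, f i ^ c i)) (w (∏ i, f i ^ c' i)) (w g)
        simp only [hU, Set.mem_ofPred_eq] at hx1 hy1
        linarith
      have h2 : c = c' := by
        funext i
        have h3 := lt_of_le_of_lt (dist_le_pi_dist _ _ i) h1
        rw [e1, e2] at h3
        rw [Real.dist_eq, ← Int.cast_sub, ← Int.cast_abs] at h3
        have h4 : |c i - c' i| < 1 := by exact_mod_cast h3
        rw [Int.abs_lt_one_iff] at h4
        omega
      rw [h2]
    have h5 : g ∈ closure (U ∩ F) := hUo.inter_closure ⟨hgU, hg'⟩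
    have h6 : (U ∩ (F : Set G)).Nonempty := closure_nonempty_iff.1 ⟨g, h5⟩
    obtain ⟨x, hx⟩ := h6
    have h7 : U ∩ (F : Set G) ⊆ {x} := fun y hy => huniq y hy x hx
    have h8 : g ∈ ({x} : Set G) := closure_minimal h7 isClosed_singleton h5
    rw [Set.mem_singleton_iff] at h8
    rw [h8]
    exact hx.2
  exact le_of_pow_mem hL hF hM0 (fun x _ => hFH _ (pow_index_mem H x))

/-- A group which contains `ℤ_p ^ d` with finite index has topological rank `d`. -/
theorem topRank_eq_of_zpRank {p : ℕ} [Fact p.Prime] {G : Type*} [CommGroup G]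
    [TopologicalSpace G] [IsTopologicalGroup G] [T2Space G] {d : ℕ} (hd : HasZpRank p G d) :
    topRank G = d := by
  apply le_antisymm
  · obtain ⟨φ, hφc, hφi, hφf⟩ := hd
    set j : Multiplicative (Fin d → ℤ) →* Multiplicative (Fin d → ℤ_[p]) :=
      AddMonoidHom.toMultiplicative
        { toFun := fun c i => (c i : ℤ_[p])
          map_zero' := by funext i; simp
          map_add' := by intro x y; funext i; simp } with hj
    have hjinj : Function.Injective j := by
      intro x y hxy
      apply Multiplicative.toAdd.injective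
      funext i
      have := congrFun (congrArg Multiplicative.toAdd hxy) i
      have h2 : ((Multiplicative.toAdd x i : ℤ) : ℤ_[p]) = (Multiplicative.toAdd y i : ℤ) := this
      exact_mod_cast h2
    have hdense : DenseRange j := by
      have h1 : DenseRange (fun (c : Fin d → ℤ) (i : Fin d) => (c i : ℤ_[p])) :=
        DenseRange.piMap (fun _ => PadicInt.denseRange_intCast)
      exact h1
    have hcl : IsClosed (φ.range : Set G) := by
      apply IsCompact.isClosed
      rw [MonoidHom.coe_range, ← Set.image_univ]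
      exact isCompact_univ.image hφc
    refine iInf₂_le_of_le d ⟨(φ.comp j).range, φ.range, ?_, ?_, ?_, hφf⟩ le_rfl
    · exact ⟨(MonoidHom.ofInjective (f := φ.comp j) (hφi.comp hjinj)).symm⟩
    · apply Set.Subset.antisymm
      · rw [MonoidHom.coe_range, MonoidHom.coe_range, MonoidHom.coe_comp]
        exact hφc.range_subset_closure_image_dense hdense |>.trans (by
          rw [← Set.range_comp])
      · apply closure_minimal _ hcl
        rintro _ ⟨x, rfl⟩
        exact ⟨j x, rfl⟩
    · exact Subgroup.isOpen_of_isClosed_of_finiteIndex _ hcl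
  · refine le_iInf₂ fun k hk => ?_
    obtain ⟨F, H, hF, hH, -, hfin⟩ := hk
    exact_mod_cast le_of_zpRank hd hF hH hfin

/-- The linear span of a continuous homomorphism is bounded by the topological rank. -/
theorem finrank_span_le {𝕜 : Type*} [NontriviallyNormedField 𝕜] [CompleteSpace 𝕜] [CharZero 𝕜]
    {G : Type*} [CommGroup G] [TopologicalSpace G] {ι : Type*} [Fintype ι]
    (lam : G →* Multiplicative (ι → 𝕜)) (hlam : Continuous fun g => Multiplicative.toAdd (lam g))
    {F H : Subgroup G} {k : ℕ} (hF : FreeOfRank F k)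
    (hH : (H : Set G) = closure (F : Set G)) (hfin : H.FiniteIndex) (S : Set G) :
    Module.finrank 𝕜 (Submodule.span 𝕜 ((fun g => Multiplicative.toAdd (lam g)) '' S)) ≤ k := by
  obtain ⟨f, hf⟩ := exists_gens hF
  have hM0 : H.index ≠ 0 := hfin.index_ne_zero
  set v : Fin k → (ι → 𝕜) := fun i => Multiplicative.toAdd (lam (f i)) with hv
  set V : Submodule 𝕜 (ι → 𝕜) := Submodule.span 𝕜 (Set.range v) with hV
  have hFv : ∀ c : Fin k → ℤ, Multiplicative.toAdd (lam (∏ i, f i ^ c i)) =
      ∑ i, (c i : 𝕜) • v i := by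
    intro c
    rw [map_prod, toAdd_prod]
    refine Finset.sum_congr rfl fun i _ => ?_
    rw [map_zpow, toAdd_zpow, Int.cast_smul_eq_zsmul]
  have hVc : IsClosed (V : Set (ι → 𝕜)) := Submodule.closed_of_finiteDimensional V
  have hHV : ∀ x ∈ H, Multiplicative.toAdd (lam x) ∈ V := by
    have hcl : IsClosed {x : G | Multiplicative.toAdd (lam x) ∈ (V : Set (ι → 𝕜))} :=
      hVc.preimage hlam
    have hsub : (F : Set G) ⊆ {x : G | Multiplicative.toAdd (lam x) ∈ (V : Set (ι → 𝕜))} := by
      intro x hx
      obtain ⟨c, rfl⟩ := (hf x).1 hx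
      show Multiplicative.toAdd (lam (∏ i, f i ^ c i)) ∈ V
      rw [hFv]
      exact Submodule.sum_mem _ fun i _ =>
        Submodule.smul_mem _ _ (Submodule.subset_span (Set.mem_range_self i))
    intro x hx
    have : x ∈ closure (F : Set G) := by rw [← hH]; exact hx
    exact closure_minimal hsub hcl this
  have hGV : ∀ x, Multiplicative.toAdd (lam x) ∈ V := by
    intro x
    have h1 := hHV _ (pow_index_mem H x)
    rw [map_pow, toAdd_pow, ← Nat.cast_smul_eq_nsmul 𝕜] at h1
    have h2 : (H.index : 𝕜) ≠ 0 := by exact_mod_cast hM0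
    exact (Submodule.smul_mem_iff V h2).1 h1
  have hle : Submodule.span 𝕜 ((fun g => Multiplicative.toAdd (lam g)) '' S) ≤ V := by
    rw [Submodule.span_le]
    rintro _ ⟨x, -, rfl⟩
    exact hGV x
  have hVk : Module.finrank 𝕜 V ≤ k := by
    have := finrank_range_le_card (R := 𝕜) v
    simpa [Set.finrank] using this
  exact (Submodule.finrank_mono hle).trans hVk

end Pool.Agent.Lib.H22F301
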