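import Mathlib
import Pool.Agent.Lib.H22F301.Top
import Pool.Agent.Lib.H22F301.PExp
import Pool.Agent.Lib.H22F301.PExp2
import Pool.Agent.Lib.H22F301.PLog

/-!
A compact subgroup of `(Q_p^x)^n` contains `Z_p^d` with finite index, for some `d`.
-/

namespace Pool.Agent.Lib.H22F301

open NormedSpace Filter Topology

variable {p : ℕ} [hp : Fact p.Prime]

private lemma ex_uE_injective : Function.Injective (uE p) := by
  rw [injective_iff_map_eq_one]
  intro z hz
  have hp0 : (p : ℚ_[p]) ≠ 0 := by exact_mod_cast hp.out.ne_zero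
  have h1 := congrArg (fun y : ℚ_[p]ˣ => (y : ℚ_[p])) hz
  have h2 : exp (((Multiplicative.toAdd z : ℤ_[p]) : ℚ_[p]) * (p : ℚ_[p]) ^ 2) = 1 := h1
  have h3 := norm_exp_sub_one (norm_p_sq_mul (Multiplicative.toAdd z))
  rw [h2, sub_self, norm_zero] at h3
  have h4 := norm_eq_zero.1 h3.symm
  rcases mul_eq_zero.1 h4 with h5 | h5
  · have h6 : Multiplicative.toAdd z = (0 : ℤ_[p]) := Subtype.ext h5
    exact Multiplicative.toAdd.injective h6
  · exact absurd h5 (pow_ne_zero 2 hp0)

private lemma ex_range_open : IsOpen ((uE p).range : Set ℚ_[p]ˣ) := by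
  have hp0 : (p : ℚ_[p]) ≠ 0 := by exact_mod_cast hp.out.ne_zero
  have hpR : (0 : ℝ) < p := by exact_mod_cast hp.out.pos
  obtain ⟨N, lg, hN, hlg, hker⟩ := exists_padicLog p
  obtain ⟨c, hc, hexp, -⟩ := exists_exp_log lg hN hlg hker
  apply Subgroup.isOpen_of_mem_nhds _ (g := 1)
  classical
  -- the roots of unity different from one stay away from one
  set S : Finset ℚ_[p] := (Polynomial.nthRootsFinset N (1 : ℚ_[p])).erase 1 with hS
  have hSc : ((S : Set ℚ_[p])ᶜ) ∈ 𝓝 (1 : ℚ_[p]) := by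
    refine S.finite_toSet.isClosed.isOpen_compl.mem_nhds ?_
    simp [hS]
  obtain ⟨δ, hδ, hball⟩ := Metric.mem_nhds_iff.mp hSc
  have hcont1 : Continuous (fun y : ℚ_[p]ˣ => ‖(y : ℚ_[p]) - 1‖) := by
    have := Units.continuous_val (M := ℚ_[p])
    fun_prop
  have hcont2 : Continuous (fun y : ℚ_[p]ˣ => ‖Multiplicative.toAdd (lg y) / c‖) :=
    (hlg.div_const c).norm
  have h1 : ∀ᶠ y : ℚ_[p]ˣ in 𝓝 1, ‖(y : ℚ_[p]) - 1‖ < min δ 1 := by
    have h := hcont1.tendsto 1
    simp only [Units.val_one, sub_self, norm_zero] at h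
    exact h.eventually (gt_mem_nhds (lt_min hδ one_pos))
  have h2 : ∀ᶠ y : ℚ_[p]ˣ in 𝓝 1, ‖Multiplicative.toAdd (lg y) / c‖ <
      min δ ((p : ℝ) ^ 2)⁻¹ := by
    have h := hcont2.tendsto 1
    simp only [map_one, toAdd_one, zero_div, norm_zero] at h
    exact h.eventually (gt_mem_nhds (lt_min hδ (by positivity)))
  filter_upwards [h1, h2] with y hy1 hy2
  have hyδ : ‖(y : ℚ_[p]) - 1‖ < δ := hy1.trans_le (min_le_left _ _)
  have hy11 : ‖(y : ℚ_[p]) - 1‖ < 1 := hy1.trans_le (min_le_right _ _)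
  have hyn : ‖(y : ℚ_[p])‖ = 1 := by
    have h7 : (y : ℚ_[p]) = ((y : ℚ_[p]) - 1) + 1 := by ring
    have h8 : ‖((y : ℚ_[p]) - 1)‖ ≠ ‖(1 : ℚ_[p])‖ := by
      rw [norm_one]
      exact hy11.ne
    rw [h7, Padic.add_eq_max_of_ne h8, norm_one, max_eq_right hy11.le]
  set w : ℚ_[p] := Multiplicative.toAdd (lg y) / c with hw
  have hwδ : ‖w‖ < δ := hy2.trans_le (min_le_left _ _)
  have hwp : ‖w‖ ≤ ((p : ℝ) ^ 2)⁻¹ := (hy2.trans_le (min_le_right _ _)).le
  have hdiv : ‖w / (p : ℚ_[p]) ^ 2‖ ≤ 1 := by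
    rw [norm_div, norm_pow, Padic.norm_p, inv_pow, div_inv_eq_mul]
    have : (0 : ℝ) < (p : ℝ) ^ 2 := by positivity
    calc ‖w‖ * (p : ℝ) ^ 2 ≤ ((p : ℝ) ^ 2)⁻¹ * (p : ℝ) ^ 2 :=
          mul_le_mul_of_nonneg_right hwp this.le
      _ = 1 := inv_mul_cancel₀ this.ne'
  set z : ℤ_[p] := ⟨w / (p : ℚ_[p]) ^ 2, hdiv⟩ with hz
  have hzw : (z : ℚ_[p]) * (p : ℚ_[p]) ^ 2 = w := div_mul_cancel₀ _ (pow_ne_zero _ hp0)
  set u : ℚ_[p]ˣ := uE p (Multiplicative.ofAdd z) with hu
  have huv : (u : ℚ_[p]) = exp w := by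
    rw [hu, uE_val, hzw]
  have hlgu : Multiplicative.toAdd (lg u) = Multiplicative.toAdd (lg y) := by
    rw [hexp u w hwp huv, hw]
    field_simp
  have hun : ‖(u : ℚ_[p])‖ = 1 := by
    rw [huv]
    exact norm_exp hwp
  have hquo : (y * u⁻¹) ^ N = 1 := by
    apply hker
    · rw [Units.val_mul, norm_mul, Units.val_inv_eq_inv_val, norm_inv, hyn, hun]
      norm_num
    · rw [map_mul, map_inv, toAdd_mul, toAdd_inv, hlgu]
      ring
  have hclose : ‖((y * u⁻¹ : ℚ_[p]ˣ) : ℚ_[p]) - 1‖ < δ := by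
    have e1 : ((y * u⁻¹ : ℚ_[p]ˣ) : ℚ_[p]) - 1 =
        (((y : ℚ_[p]) - 1) + -((u : ℚ_[p]) - 1)) * (u : ℚ_[p])⁻¹ := by
      rw [Units.val_mul, Units.val_inv_eq_inv_val]
      have : (u : ℚ_[p]) ≠ 0 := u.ne_zero
      field_simp
      ring
    rw [e1, norm_mul, norm_inv, hun, inv_one, mul_one]
    refine (Padic.nonarchimedean _ _).trans_lt (max_lt hyδ ?_)
    rw [norm_neg, huv, norm_exp_sub_one hwp]
    exact hwδ
  have hone : ((y * u⁻¹ : ℚ_[p]ˣ) : ℚ_[p]) = 1 := by
    by_contra hne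
    have hmem : ((y * u⁻¹ : ℚ_[p]ˣ) : ℚ_[p]) ∈ (S : Set ℚ_[p]) := by
      rw [hS, Finset.mem_coe, Finset.mem_erase]
      refine ⟨hne, ?_⟩
      rw [Polynomial.mem_nthRootsFinset hN, ← Units.val_pow_eq_pow_val, hquo, Units.val_one]
    have hb : ((y * u⁻¹ : ℚ_[p]ˣ) : ℚ_[p]) ∈ Metric.ball (1 : ℚ_[p]) δ := by
      rw [Metric.mem_ball, dist_eq_norm]
      exact hclose
    exact hball hb hmem
  have hyu : y = u := by
    have : y * u⁻¹ = 1 := Units.ext hone
    exact mul_inv_eq_one.mp this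
  exact ⟨Multiplicative.ofAdd z, hyu.symm⟩

/-- The exponential of a vector. -/
private noncomputable def exE (p : ℕ) [Fact p.Prime] (n : ℕ) :
    Multiplicative (Fin n → ℤ_[p]) →* (Fin n → ℚ_[p]ˣ) where
  toFun z := fun i => uE p (Multiplicative.ofAdd (Multiplicative.toAdd z i))
  map_one' := by
    funext i
    exact map_one (uE p)
  map_mul' x y := by
    funext i
    show uE p (Multiplicative.ofAdd (Multiplicative.toAdd x i + Multiplicative.toAdd y i)) = _
    rw [ofAdd_add, map_mul]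
    rfl

private lemma exE_apply {n : ℕ} (z : Fin n → ℤ_[p]) (i : Fin n) :
    exE p n (Multiplicative.ofAdd z) i = uE p (Multiplicative.ofAdd (z i)) := rfl

private lemma exE_continuous (n : ℕ) : Continuous (exE p n) := by
  apply continuous_pi
  intro i
  show Continuous (fun z : Multiplicative (Fin n → ℤ_[p]) =>
    uE p (Multiplicative.ofAdd (Multiplicative.toAdd z i)))
  exact continuous_uE.comp (continuous_ofAdd.comp ((continuous_apply i).comp continuous_toAdd))

private lemma exE_injective (n : ℕ) : Function.Injective (exE p n) := by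
  intro x y hxy
  apply Multiplicative.toAdd.injective
  funext i
  have h1 := congrFun hxy i
  exact Multiplicative.ofAdd.injective (ex_uE_injective h1)

/-- The vectors whose exponential lies in `G`. -/
private noncomputable def exV {n : ℕ} (G : Subgroup (Fin n → ℚ_[p]ˣ))
    (hG : IsClosed (G : Set (Fin n → ℚ_[p]ˣ))) : Submodule ℤ_[p] (Fin n → ℤ_[p]) where
  carrier := {z | exE p n (Multiplicative.ofAdd z) ∈ G}
  zero_mem' := by
    show exE p n (Multiplicative.ofAdd 0) ∈ G
    rw [ofAdd_zero, map_one]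
    exact G.one_mem
  add_mem' := by
    intro x y hx hy
    show exE p n (Multiplicative.ofAdd (x + y)) ∈ G
    rw [ofAdd_add, map_mul]
    exact G.mul_mem hx hy
  smul_mem' := by
    intro a z hz
    have hcl : IsClosed {a : ℤ_[p] | exE p n (Multiplicative.ofAdd (a • z)) ∈ G} := by
      have hcont : Continuous (fun a : ℤ_[p] => exE p n (Multiplicative.ofAdd (a • z))) :=
        (exE_continuous n).comp (continuous_ofAdd.comp (continuous_id.smul continuous_const))
      exact hG.preimage hcont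
    refine isClosed_property (p := fun a : ℤ_[p] => exE p n (Multiplicative.ofAdd (a • z)) ∈ G)
      (PadicInt.denseRange_intCast (p := p)) hcl ?_ a
    intro k
    show exE p n (Multiplicative.ofAdd ((k : ℤ_[p]) • z)) ∈ G
    rw [Int.cast_smul_eq_zsmul, ofAdd_zsmul, map_zpow]
    exact G.zpow_mem hz k

theorem exists_zpRank {p : ℕ} [Fact p.Prime] {n : ℕ} (G : Subgroup (Fin n → ℚ_[p]ˣ))
    (hG : IsCompact (G : Set (Fin n → ℚ_[p]ˣ))) : ∃ d, HasZpRank p G d := by
  classical
  have hcl : IsClosed (G : Set (Fin n → ℚ_[p]ˣ)) := hG.isClosed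
  haveI : CompactSpace G := isCompact_iff_compactSpace.mp hG
  obtain ⟨d, ⟨b⟩⟩ := Submodule.nonempty_basis_of_pid (Pi.basisFun ℤ_[p] (Fin n)) (exV G hcl)
  set L : (Fin d → ℤ_[p]) →ₗ[ℤ_[p]] (Fin n → ℤ_[p]) :=
    (exV G hcl).subtype ∘ₗ (b.equivFun.symm : (Fin d → ℤ_[p]) →ₗ[ℤ_[p]] exV G hcl) with hL
  have hLc : Continuous L := LinearMap.continuous_on_pi L
  have hLi : Function.Injective L :=
    (Submodule.injective_subtype _).comp b.equivFun.symm.injective
  have hLG : ∀ a, exE p n (Multiplicative.ofAdd (L a)) ∈ G := fun a =>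
    (b.equivFun.symm a).2
  let φ : Multiplicative (Fin d → ℤ_[p]) →* G :=
    { toFun := fun a => ⟨exE p n (Multiplicative.ofAdd (L (Multiplicative.toAdd a))), hLG _⟩
      map_one' := by
        apply Subtype.ext
        show exE p n (Multiplicative.ofAdd (L 0)) = 1
        rw [map_zero, ofAdd_zero, map_one]
      map_mul' := by
        intro x y
        apply Subtype.ext
        show exE p n (Multiplicative.ofAdd (L (Multiplicative.toAdd x + Multiplicative.toAdd y))) =
          exE p n (Multiplicative.ofAdd (L (Multiplicative.toAdd x))) *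
            exE p n (Multiplicative.ofAdd (L (Multiplicative.toAdd y)))
        rw [map_add, ofAdd_add, map_mul] }
  refine ⟨d, φ, ?_, ?_, ?_⟩
  · refine Continuous.subtype_mk ?_ _
    exact (exE_continuous n).comp (continuous_ofAdd.comp (hLc.comp continuous_toAdd))
  · intro x y hxy
    have h1 : exE p n (Multiplicative.ofAdd (L (Multiplicative.toAdd x))) =
        exE p n (Multiplicative.ofAdd (L (Multiplicative.toAdd y))) := congrArg Subtype.val hxy
    exact Multiplicative.toAdd.injective (hLi (Multiplicative.ofAdd.injective (exE_injective n h1)))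
  · -- the elements of `G` with all coordinates in the range of the exponential function
    set H : Subgroup G := (Subgroup.pi Set.univ (fun _ : Fin n => (uE p).range)).comap G.subtype
      with hH
    have hHo : IsOpen (H : Set G) := by
      have h1 : IsOpen (Set.pi Set.univ (fun _ : Fin n => ((uE p).range : Set ℚ_[p]ˣ))) :=
        isOpen_set_pi Set.finite_univ fun _ _ => ex_range_open
      exact h1.preimage continuous_subtype_val
    haveI : Finite (G ⧸ H) := H.quotient_finite_of_isOpen hHo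
    haveI : H.FiniteIndex := H.finiteIndex_of_finite_quotient
    refine Subgroup.finiteIndex_of_le (H := H) ?_
    intro g hg
    have hg' : ∀ i, ∃ z : ℤ_[p], uE p (Multiplicative.ofAdd z) = (g : Fin n → ℚ_[p]ˣ) i := by
      intro i
      have h1 : (g : Fin n → ℚ_[p]ˣ) i ∈ (uE p).range := hg i (Set.mem_univ i)
      obtain ⟨z, hz⟩ := h1
      exact ⟨Multiplicative.toAdd z, hz⟩
    choose z hz using hg'
    have hzg : exE p n (Multiplicative.ofAdd z) = (g : Fin n → ℚ_[p]ˣ) := by
      funext i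
      rw [exE_apply]
      exact hz i
    have hzV : z ∈ exV G hcl := by
      show exE p n (Multiplicative.ofAdd z) ∈ G
      rw [hzg]
      exact g.2
    refine ⟨Multiplicative.ofAdd (b.equivFun ⟨z, hzV⟩), ?_⟩
    apply Subtype.ext
    show exE p n (Multiplicative.ofAdd (L (b.equivFun ⟨z, hzV⟩))) = (g : Fin n → ℚ_[p]ˣ)
    have h2 : L (b.equivFun ⟨z, hzV⟩) = z := by
      show ((b.equivFun.symm (b.equivFun ⟨z, hzV⟩) : exV G hcl) : Fin n → ℤ_[p]) = z
      rw [LinearEquiv.symm_apply_apply]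
    rw [h2, hzg]

end Pool.Agent.Lib.H22F301
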