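import Mathlib

/-!
# Real zeros of exponential polynomials

`∑ p_w(x) e ^ (w x)` has fewer real zeros than `∑ (deg p_w + 1)`, and the resulting
non-vanishing of interpolation determinants.
-/

namespace Pool.Agent.Lib.H22F301

open Polynomial

/-- The exponential polynomial `∑ p_w(x) e ^ (w x)`. -/
noncomputable def expPoly (P : ℝ →₀ ℝ[X]) (x : ℝ) : ℝ :=
  P.sum fun w p => p.eval x * Real.exp (w * x)

/-- The number of coefficients. -/
noncomputable def weight (P : ℝ →₀ ℝ[X]) : ℕ := ∑ w ∈ P.support, ((P w).natDegree + 1)

/-- The derivative of `e ^ (-w0 x) F(x)`, times `e ^ (w0 x)`. -/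
noncomputable def step (P : ℝ →₀ ℝ[X]) (w0 : ℝ) : ℝ →₀ ℝ[X] :=
  Finsupp.onFinset P.support (fun w => derivative (P w) + C (w - w0) * P w) (by
    intro w hw
    by_contra h
    rw [Finsupp.notMem_support_iff] at h
    apply hw
    rw [h]; simp)

theorem step_apply (P : ℝ →₀ ℝ[X]) (w0 w : ℝ) :
    step P w0 w = derivative (P w) + C (w - w0) * P w := rfl

theorem expPoly_step (P : ℝ →₀ ℝ[X]) (w0 x : ℝ) :
    HasDerivAt (fun x => Real.exp (-w0 * x) * expPoly P x)
      (Real.exp (-w0 * x) * expPoly (step P w0) x) x := by
  have h1 : ∀ w, HasDerivAt (fun x => Real.exp (-w0 * x) * ((P w).eval x * Real.exp (w * x)))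
      (Real.exp (-w0 * x) * ((step P w0 w).eval x * Real.exp (w * x))) x := by
    intro w
    have e1 : HasDerivAt (fun x => (P w).eval x) ((derivative (P w)).eval x) x :=
      (P w).hasDerivAt x
    have e2 : HasDerivAt (fun x : ℝ => Real.exp (w * x)) (Real.exp (w * x) * (w * 1)) x :=
      ((hasDerivAt_id x).const_mul w).exp
    have e3 : HasDerivAt (fun x : ℝ => Real.exp (-w0 * x)) (Real.exp (-w0 * x) * (-w0 * 1)) x :=
      ((hasDerivAt_id x).const_mul (-w0)).exp
    have e4 := e3.fun_mul (e1.fun_mul e2)
    refine e4.congr_deriv ?_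
    rw [step_apply]
    simp only [eval_add, eval_mul, eval_C]
    ring
  have h2 : ∀ Q : ℝ →₀ ℝ[X], Q.support ⊆ P.support → ∀ x, expPoly Q x =
      ∑ w ∈ P.support, (Q w).eval x * Real.exp (w * x) := by
    intro Q hQ x
    rw [expPoly, Finsupp.sum_of_support_subset _ hQ]
    intro w _
    simp
  have h3 := HasDerivAt.fun_sum (u := P.support) (fun w _ => h1 w)
  have h4 : (fun x => Real.exp (-w0 * x) * expPoly P x) = fun x => ∑ w ∈ P.support,
      Real.exp (-w0 * x) * ((P w).eval x * Real.exp (w * x)) := by
    funext x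
    rw [h2 P (Finset.Subset.refl _), Finset.mul_sum]
  rw [h4, h2 (step P w0) Finsupp.support_onFinset_subset, Finset.mul_sum]
  exact h3

theorem weight_step_lt (P : ℝ →₀ ℝ[X]) {w0 : ℝ} (h0 : w0 ∈ P.support) :
    weight (step P w0) < weight P := by
  classical
  have h1 : weight (step P w0) = ∑ w ∈ P.support,
      if w ∈ (step P w0).support then ((step P w0 w).natDegree + 1) else 0 := by
    rw [weight, ← Finset.sum_filter]
    congr 1
    ext w
    simp only [Finset.mem_filter]
    exact ⟨fun h => ⟨Finsupp.support_onFinset_subset h, h⟩, fun h => h.2⟩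
  rw [h1, weight]
  apply Finset.sum_lt_sum
  · intro w hw
    split_ifs with h
    · apply Nat.succ_le_succ
      rw [step_apply]
      refine (natDegree_add_le _ _).trans (max_le ?_ ?_)
      · exact (natDegree_derivative_le _).trans (Nat.sub_le _ _)
      · exact natDegree_C_mul_le _ _
    · exact Nat.zero_le _
  · refine ⟨w0, h0, ?_⟩
    split_ifs with h
    · apply Nat.succ_lt_succ
      have h2 : step P w0 w0 = derivative (P w0) := by
        rw [step_apply, sub_self, map_zero, zero_mul, add_zero]
      rw [h2]
      apply natDegree_derivative_lt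
      intro h3
      rw [Finsupp.mem_support_iff, h2] at h
      apply h
      rw [eq_C_of_natDegree_eq_zero h3, derivative_C]
    · exact Nat.succ_pos _

theorem exists_ne_zero (n : ℕ) : ∀ P : ℝ →₀ ℝ[X], P ≠ 0 → weight P ≤ n →
    ∀ y : Fin n → ℝ, StrictMono y → ∃ i, expPoly P (y i) ≠ 0 := by
  induction n with
  | zero =>
    intro P hP hw y _
    exfalso
    apply hP
    rw [← Finsupp.support_eq_empty, ← Finset.card_eq_zero]
    have : P.support.card ≤ weight P := by
      rw [weight, Finset.card_eq_sum_ones]
      exact Finset.sum_le_sum fun w _ => by omega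
    omega
  | succ n ih =>
    intro P hP hw y hy
    by_contra hcon
    push Not at hcon
    obtain ⟨w0, h0⟩ := Finsupp.support_nonempty_iff.2 hP
    by_cases hQ : step P w0 = 0
    · -- `F = c e ^ (w0 x)`
      have h1 : ∀ w, derivative (P w) + C (w - w0) * P w = 0 := fun w => by
        rw [← step_apply, hQ]; rfl
      have h2 : ∀ w, w ≠ w0 → P w = 0 := by
        intro w hw'
        by_contra hne
        have h3 := h1 w
        have h4 : C (w - w0) * P w = -derivative (P w) := by linear_combination h3
        have h5 := congrArg degree h4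
        rw [degree_neg, degree_C_mul (sub_ne_zero.2 hw')] at h5
        exact absurd h5 (degree_derivative_lt hne).ne'
      have h3 : derivative (P w0) = 0 := by
        have := h1 w0
        rwa [sub_self, map_zero, zero_mul, add_zero] at this
      have h4 : (P w0).natDegree = 0 := Polynomial.derivative_eq_zero.1 h3
      have h5 := eq_C_of_natDegree_eq_zero h4
      have h6 : P = Finsupp.single w0 (P w0) := by
        ext1 w
        by_cases hw' : w = w0
        · rw [hw', Finsupp.single_eq_same]
        · rw [h2 w hw', Finsupp.single_eq_of_ne hw']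
      have h7 := hcon 0
      rw [expPoly, h6, Finsupp.sum_single_index (by simp), h5, eval_C] at h7
      have h8 : (P w0).coeff 0 ≠ 0 := by
        intro h
        rw [Finsupp.mem_support_iff] at h0
        apply h0
        rw [h5, h, map_zero]
      exact (mul_ne_zero h8 (Real.exp_pos _).ne') h7
    · have h1 : ∀ i : Fin n, ∃ z ∈ Set.Ioo (y i.castSucc) (y i.succ), expPoly (step P w0) z = 0 := by
        intro i
        have hlt : y i.castSucc < y i.succ := hy (Fin.castSucc_lt_succ)
        have hG : ∀ x, HasDerivAt (fun x => Real.exp (-w0 * x) * expPoly P x)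
          (Real.exp (-w0 * x) * expPoly (step P w0) x) x := expPoly_step P w0
        obtain ⟨z, hz, hz0⟩ := exists_hasDerivAt_eq_zero hlt
          (fun x _ => (hG x).continuousAt.continuousWithinAt)
          (by rw [hcon, hcon]; simp) (fun x _ => hG x)
        refine ⟨z, hz, ?_⟩
        rcases mul_eq_zero.1 hz0 with h | h
        · exact absurd h (Real.exp_pos _).ne'
        · exact h
      choose z hz hz0 using h1
      have hzm : StrictMono z := by
        intro i j hij
        calc z i < y i.succ := (hz i).2
          _ ≤ y j.castSucc := hy.monotone (by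
            rw [Fin.le_def]; simpa using hij)
          _ < z j := (hz j).1
      obtain ⟨i, hi⟩ := ih (step P w0) hQ (by
        have := weight_step_lt P h0; omega) z hzm
      exact hi (hz0 i)

/-- Non-vanishing of interpolation determinants for the functions `x ^ i e ^ (w_j x)`. -/
theorem det_ne_zero {D0 D1 : ℕ} (w : Fin D1 → ℝ) (hw : Function.Injective w)
    (ζ : Fin D0 × Fin D1 → ℝ) (hζ : Function.Injective ζ) :
    (Matrix.of fun (r c : Fin D0 × Fin D1) =>
      ζ c ^ (r.1 : ℕ) * Real.exp (w r.2 * ζ c)).det ≠ 0 := by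
  classical
  intro hdet
  obtain ⟨v, hv, hv0⟩ := Matrix.exists_vecMul_eq_zero_iff.2 hdet
  set P : ℝ →₀ ℝ[X] := ∑ j : Fin D1, Finsupp.single (w j) (∑ i : Fin D0, C (v (i, j)) * X ^ (i : ℕ))
    with hP
  have hPw : ∀ j, P (w j) = ∑ i : Fin D0, C (v (i, j)) * X ^ (i : ℕ) := by
    intro j
    rw [hP, Finsupp.finsetSum_apply, Finset.sum_eq_single j]
    · rw [Finsupp.single_eq_same]
    · intro k _ hk
      exact Finsupp.single_eq_of_ne (fun h => hk (hw h).symm)
    · simp
  have hcoeff : ∀ (i : Fin D0) (j : Fin D1), (P (w j)).coeff i = v (i, j) := by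
    intro i j
    rw [hPw, finsetSum_coeff, Finset.sum_eq_single i]
    · simp
    · intro k _ hk
      rw [coeff_C_mul, coeff_X_pow, if_neg (fun h => hk (Fin.ext h.symm)), mul_zero]
    · simp
  have hP0 : P ≠ 0 := by
    intro h
    apply hv
    funext r
    have := hcoeff r.1 r.2
    rw [h] at this
    simpa using this.symm
  have hsupp : P.support ⊆ Finset.univ.image w := by
    intro x hx
    by_contra hne
    rw [Finsupp.mem_support_iff] at hx
    apply hx
    rw [hP, Finsupp.finsetSum_apply]
    apply Finset.sum_eq_zero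
    intro j _
    apply Finsupp.single_eq_of_ne
    intro h
    apply hne
    rw [h]
    exact Finset.mem_image_of_mem _ (Finset.mem_univ j)
  have hweight : weight P ≤ D0 * D1 := by
    have h1 : ∀ x ∈ P.support, (P x).natDegree + 1 ≤ D0 := by
      intro x hx
      obtain ⟨j, -, rfl⟩ := Finset.mem_image.1 (hsupp hx)
      rw [Finsupp.mem_support_iff] at hx
      have h2 : (P (w j)).degree < D0 := by
        rw [hPw]
        refine (degree_sum_le _ _).trans_lt ?_
        rw [Finset.sup_lt_iff (WithBot.bot_lt_coe _)]
        intro i _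
        refine (degree_C_mul_X_pow_le _ _).trans_lt ?_
        exact_mod_cast i.2
      exact (natDegree_lt_iff_degree_lt hx).2 h2
    calc weight P ≤ ∑ x ∈ P.support, D0 := Finset.sum_le_sum h1
      _ = P.support.card * D0 := by rw [Finset.sum_const, smul_eq_mul]
      _ ≤ D1 * D0 := Nat.mul_le_mul_right _ (by
          refine (Finset.card_le_card hsupp).trans (Finset.card_image_le.trans ?_)
          simp)
      _ = D0 * D1 := mul_comm _ _
  have hval : ∀ c, expPoly P (ζ c) = 0 := by
    intro c
    have h1 := congrFun hv0 c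
    simp only [Matrix.vecMul, dotProduct, Matrix.of_apply, Pi.zero_apply] at h1
    rw [Fintype.sum_prod_type_right] at h1
    rw [expPoly, hP]
    rw [← h1]
    rw [← Finsupp.sum_finsetSum_index (by simp) (by intros; simp [add_mul])]
    refine Finset.sum_congr rfl fun j _ => ?_
    rw [Finsupp.sum_single_index (by simp), eval_finsetSum, Finset.sum_mul]
    refine Finset.sum_congr rfl fun i _ => ?_
    simp [mul_assoc]
  set s : Finset ℝ := Finset.univ.image ζ with hs
  have hsc : s.card = D0 * D1 := by
    rw [hs, Finset.card_image_of_injective _ hζ, Finset.card_univ]; simp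
  obtain ⟨i, hi⟩ := exists_ne_zero (D0 * D1) P hP0 hweight (s.orderEmbOfFin hsc)
    (s.orderEmbOfFin hsc).strictMono
  apply hi
  obtain ⟨c, -, hc⟩ := Finset.mem_image.1 (s.orderEmbOfFin_mem hsc i)
  rw [← hc]
  exact hval c

end Pool.Agent.Lib.H22F301
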