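import Mathlib
import Pool.Agent.Lib.H22F301.Det
import Pool.Agent.Lib.H22F301.Zeros

/-!
# The quotient of the logarithms of two rational numbers

If `a`, `b` are positive rational numbers which are multiplicatively independent, then
`log b / log a` is transcendental (Gelfond and Schneider).  Proof by interpolation determinants
with the functions `x ^ i a ^ (j x)` at the points `k + l θ`, `θ = log b / log a`.
-/

namespace Pool.Agent.Lib.H22F301

open Finset Matrix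
open scoped Nat

theorem norm_det_le {ι : Type*} [Fintype ι] [DecidableEq ι] (A : Matrix ι ι ℂ) (E : ℝ)
    (hE : ∀ i j, ‖A i j‖ ≤ E) : ‖A.det‖ ≤ (Fintype.card ι)! * E ^ Fintype.card ι := by
  rw [Matrix.det_apply]
  refine (norm_sum_le _ _).trans ?_
  have h1 : ∀ σ : Equiv.Perm ι, ‖Equiv.Perm.sign σ • ∏ i, A (σ i) i‖ ≤ E ^ Fintype.card ι := by
    intro σ
    have e1 : ‖Equiv.Perm.sign σ • ∏ i, A (σ i) i‖ = ∏ i, ‖A (σ i) i‖ := by
      rcases Int.units_eq_one_or (Equiv.Perm.sign σ) with h | h <;> simp [h]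
    rw [e1]
    calc ∏ i, ‖A (σ i) i‖ ≤ ∏ _i : ι, E :=
          Finset.prod_le_prod (fun i _ => norm_nonneg _) (fun i _ => hE _ _)
      _ = E ^ Fintype.card ι := by rw [Finset.prod_const, Finset.card_univ]
  refine (Finset.sum_le_sum fun σ _ => h1 σ).trans ?_
  rw [Finset.sum_const, Finset.card_univ, Fintype.card_perm, nsmul_eq_mul]

section Norm

variable {K : Type*} [Field K] [NumberField K]

theorem one_le_prod_norm {x : K} (hx : IsIntegral ℤ x) (h : x ≠ 0) :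
    1 ≤ ∏ σ : K →+* ℂ, ‖σ x‖ := by
  have h1 : IsIntegral ℤ (Algebra.norm ℚ x) := Algebra.isIntegral_norm ℚ hx
  obtain ⟨y, hy⟩ := IsIntegrallyClosed.isIntegral_iff.1 h1
  have hy' : (y : ℚ) = Algebra.norm ℚ x := by
    rw [← hy]
    rfl
  have h2 := Algebra.norm_eq_prod_embeddings ℚ ℂ x
  rw [← hy'] at h2
  have h3 : ∏ σ : K →ₐ[ℚ] ℂ, σ x = ∏ σ : K →+* ℂ, σ x := by
    refine Fintype.prod_equiv (RingHom.equivRatAlgHom (R := K) (S := ℂ)).symm _ _ fun σ => ?_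
    rfl
  rw [h3] at h2
  rw [← norm_prod, ← h2]
  have h5 : y ≠ 0 := by
    intro h0
    rw [h0, Int.cast_zero] at hy'
    exact h ((Algebra.norm_eq_zero_iff).1 hy'.symm)
  have h6 : (1 : ℝ) ≤ |(y : ℝ)| := by exact_mod_cast Int.one_le_abs h5
  simpa using h6

/-- Liouville inequality. -/
theorem one_le_norm_mul_pow {x : K} (hx : IsIntegral ℤ x) (h : x ≠ 0) (σ0 : K →+* ℂ) (E : ℝ)
    (hE1 : 1 ≤ E) (hE : ∀ σ : K →+* ℂ, ‖σ x‖ ≤ E) :
    1 ≤ ‖σ0 x‖ * E ^ Fintype.card (K →+* ℂ) := by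
  classical
  have h1 := one_le_prod_norm hx h
  rw [← Finset.mul_prod_erase univ (fun σ : K →+* ℂ => ‖σ x‖) (mem_univ σ0)] at h1
  have h2 : ∏ σ ∈ univ.erase σ0, ‖σ x‖ ≤ E ^ Fintype.card (K →+* ℂ) := by
    calc ∏ σ ∈ univ.erase σ0, ‖σ x‖ ≤ ∏ _σ ∈ univ.erase σ0, E :=
          Finset.prod_le_prod (fun _ _ => norm_nonneg _) (fun σ _ => hE σ)
      _ = E ^ (univ.erase σ0).card := by rw [Finset.prod_const]
      _ ≤ E ^ Fintype.card (K →+* ℂ) :=
          pow_le_pow_right₀ hE1 (Finset.card_le_univ _)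
  exact h1.trans (mul_le_mul_of_nonneg_left h2 (norm_nonneg _))

end Norm

/-! ## The functions `x ^ i e ^ (w x)` -/

/-- The coefficients of `x ^ i e ^ (w x)`. -/
noncomputable def coef (i : ℕ) (w : ℝ) (n : ℕ) : ℝ :=
  if i ≤ n then w ^ (n - i) / (n - i)! else 0

theorem hasSum_coef (i : ℕ) (w x : ℝ) :
    HasSum (fun n => coef i w n * x ^ n) (x ^ i * Real.exp (w * x)) := by
  rw [← hasSum_nat_add_iff' i]
  have h1 : ∑ n ∈ range i, coef i w n * x ^ n = 0 := by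
    apply Finset.sum_eq_zero
    intro n hn
    rw [coef, if_neg (by have := Finset.mem_range.1 hn; omega), zero_mul]
  rw [h1, sub_zero]
  have h2 : (fun n => coef i w (n + i) * x ^ (n + i)) =
      fun n => x ^ i * ((w * x) ^ n / n !) := by
    funext n
    rw [coef, if_pos (by omega), Nat.add_sub_cancel, mul_pow, pow_add]
    ring
  rw [h2]
  apply HasSum.mul_left
  rw [Real.exp_eq_exp_ℝ]
  exact NormedSpace.expSeries_div_hasSum_exp (w * x)

theorem sum_abs_coef_le (i : ℕ) (w y : ℝ) (hy : 0 ≤ y) (D : ℕ) :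
    ∑ n ∈ range D, |coef i w n| * y ^ n ≤ y ^ i * Real.exp (|w| * y) := by
  have h1 : ∀ n, |coef i w n| * y ^ n = coef i |w| n * y ^ n := by
    intro n
    congr 1
    unfold coef
    split_ifs
    · rw [abs_div, abs_pow, Nat.abs_cast]
    · exact abs_zero
  simp only [h1]
  apply sum_le_hasSum _ _ (hasSum_coef i |w| y)
  intro n _
  rw [← h1]
  positivity

/-! ## Numbers -/

theorem contra (C : ℝ) (h : ∀ s : ℕ, 1 ≤ s →
    Real.exp 1 ^ (s ^ 8 * (s ^ 8 - 1) / 2) ≤ Real.exp (C * s ^ 7) ^ (s ^ 8)) : False := by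
  obtain ⟨s, hs⟩ := exists_nat_ge (2 * C + 2)
  have hs1 : 1 ≤ s + 2 := by omega
  have h1 := h (s + 2) hs1
  rw [← Real.exp_nat_mul, ← Real.exp_nat_mul, Real.exp_le_exp, mul_one] at h1
  set N : ℕ := (s + 2) ^ 8 with hN
  have h2 : N * (N - 1) / 2 * 2 = N * (N - 1) := by
    rw [← Finset.sum_range_id, Finset.sum_range_id_mul_two]
  have hN1 : 1 ≤ N := Nat.one_le_pow _ _ (by omega)
  have h3 : ((N * (N - 1) / 2 : ℕ) : ℝ) * 2 = N * (N - 1) := by
    have : (((N * (N - 1) / 2 * 2 : ℕ)) : ℝ) = ((N * (N - 1) : ℕ) : ℝ) := by rw [h2]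
    push_cast [Nat.cast_sub hN1] at this
    exact this
  have hN0 : (0 : ℝ) < N := by exact_mod_cast hN1
  have h4 : (N : ℝ) * (N - 1) ≤ N * (2 * (C * ((s + 2 : ℕ) : ℝ) ^ 7)) := by
    rw [← h3]; linarith
  have h5 : (N : ℝ) - 1 ≤ 2 * (C * ((s + 2 : ℕ) : ℝ) ^ 7) := le_of_mul_le_mul_left h4 hN0
  have h6 : (N : ℝ) = ((s + 2 : ℕ) : ℝ) * ((s + 2 : ℕ) : ℝ) ^ 7 := by
    rw [hN]; push_cast; ring
  have h7 : (1 : ℝ) ≤ ((s + 2 : ℕ) : ℝ) ^ 7 := by
    apply one_le_pow₀; exact_mod_cast hs1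
  have h8 : (2 * C + 2 : ℝ) ≤ ((s + 2 : ℕ) : ℝ) := by push_cast; linarith
  rw [h6] at h5
  nlinarith [mul_le_mul_of_nonneg_right h8 (by linarith : (0 : ℝ) ≤ ((s + 2 : ℕ) : ℝ) ^ 7)]

end Pool.Agent.Lib.H22F301
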