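import Mathlib
import Pool.Agent.Lib.H22F301.GS

/-!
# `log b / log a` is transcendental: arithmetic and assembly
-/

namespace Pool.Agent.Lib.H22F301

open Finset Matrix
open scoped Nat

/-! ## Integrality and size of the entries -/

theorem int_pow_mul (a : ℚ) {e M : ℕ} (h : e ≤ M) :
    ∃ z : ℤ, ((a.den : ℚ)) ^ M * a ^ e = z := by
  refine ⟨a.num ^ e * a.den ^ (M - e), ?_⟩
  have h1 : (a.den : ℚ) * a = a.num := by rw [mul_comm]; exact Rat.mul_den_eq_num a
  have h2 : (a.den : ℚ) ^ M = (a.den : ℚ) ^ e * (a.den : ℚ) ^ (M - e) := by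
    rw [← pow_add]; congr 1; omega
  push_cast
  rw [h2, ← h1, mul_pow]
  ring

section Field

variable {K : Type*} [Field K] [NumberField K]

/-- The entries of the interpolation matrix. -/
noncomputable def ent (ϑ : K) (a b : ℚ) (i j k l : ℕ) : K :=
  ((k : K) + (l : K) * ϑ) ^ i * (((a ^ (j * k) * b ^ (j * l) : ℚ)) : K)

/-- The common denominator. -/
def den (q : ℕ) (a b : ℚ) (D0 M : ℕ) : ℕ := q ^ D0 * (a.den ^ M * b.den ^ M)

theorem isIntegral_ent (ϑ : K) (q : ℕ) (hq : IsIntegral ℤ ((q : K) * ϑ)) (a b : ℚ)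
    {D0 M i j k l : ℕ} (hi : i ≤ D0) (hk : j * k ≤ M) (hl : j * l ≤ M) :
    IsIntegral ℤ ((den q a b D0 M : K) * ent ϑ a b i j k l) := by
  obtain ⟨z1, hz1⟩ := int_pow_mul a hk
  obtain ⟨z2, hz2⟩ := int_pow_mul b hl
  have h1 : (den q a b D0 M : K) * ent ϑ a b i j k l =
      (q : K) ^ (D0 - i) * ((q : K) * (k : K) + (l : K) * ((q : K) * ϑ)) ^ i * ((z1 : K) * z2) := by
    have e1 : ((a.den : K)) ^ M * (a : K) ^ (j * k) = z1 := by
      have := congrArg (fun x : ℚ => (x : K)) hz1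
      push_cast at this
      exact this
    have e2 : ((b.den : K)) ^ M * (b : K) ^ (j * l) = z2 := by
      have := congrArg (fun x : ℚ => (x : K)) hz2
      push_cast at this
      exact this
    have e3 : (q : K) ^ D0 = (q : K) ^ (D0 - i) * (q : K) ^ i := by
      rw [← pow_add]; congr 1; omega
    have e4 : (q : K) * (k : K) + (l : K) * ((q : K) * ϑ) = (q : K) * ((k : K) + (l : K) * ϑ) := by
      ring
    rw [← e1, ← e2, e4, mul_pow, den, ent]
    push_cast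
    rw [e3]
    ring
  rw [h1]
  have hqi : IsIntegral ℤ (q : K) := by
    have := isIntegral_algebraMap (R := ℤ) (A := K) (x := (q : ℤ))
    simpa using this
  have hki : IsIntegral ℤ (k : K) := by
    have := isIntegral_algebraMap (R := ℤ) (A := K) (x := (k : ℤ))
    simpa using this
  have hli : IsIntegral ℤ (l : K) := by
    have := isIntegral_algebraMap (R := ℤ) (A := K) (x := (l : ℤ))
    simpa using this
  have hz : ∀ z : ℤ, IsIntegral ℤ (z : K) := fun z => by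
    have := isIntegral_algebraMap (R := ℤ) (A := K) (x := z)
    simpa using this
  exact ((hqi.pow _).mul (((hqi.mul hki).add (hli.mul hq)).pow _)).mul ((hz z1).mul (hz z2))

theorem norm_ent_le (ϑ : K) (a b : ℚ) (ha : 0 < a) (hb : 0 < b) (σ : K →+* ℂ) {C1 H : ℝ}
    (hC1 : 1 + ‖σ ϑ‖ ≤ C1) (hH1 : 1 ≤ H) (haH : (a : ℝ) ≤ H) (hbH : (b : ℝ) ≤ H)
    {D0 M S i j k l : ℕ} (hS : 1 ≤ S) (hi : i ≤ D0) (hk : j * k ≤ M) (hl : j * l ≤ M)
    (hkS : k ≤ S) (hlS : l ≤ S) :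
    ‖σ (ent ϑ a b i j k l)‖ ≤ (S * C1) ^ D0 * (H ^ M * H ^ M) := by
  have hS' : (1 : ℝ) ≤ S := by exact_mod_cast hS
  have h0 := norm_nonneg (σ ϑ)
  have hC : 1 ≤ C1 := by linarith
  have hSC : 1 ≤ (S : ℝ) * C1 := by nlinarith
  unfold ent
  rw [map_mul, map_pow, map_add, map_mul, map_natCast, map_natCast, map_ratCast, norm_mul, norm_pow]
  apply mul_le_mul _ _ (norm_nonneg _) (by positivity)
  · have h1 : ‖(k : ℂ) + (l : ℂ) * σ ϑ‖ ≤ S * C1 := by
      calc ‖(k : ℂ) + (l : ℂ) * σ ϑ‖ ≤ ‖(k : ℂ)‖ + ‖(l : ℂ) * σ ϑ‖ := norm_add_le _ _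
        _ = k + l * ‖σ ϑ‖ := by rw [norm_mul]; simp
        _ ≤ S + S * ‖σ ϑ‖ := by
            have e1 : (k : ℝ) ≤ S := by exact_mod_cast hkS
            have e2 : (l : ℝ) ≤ S := by exact_mod_cast hlS
            nlinarith
        _ = S * (1 + ‖σ ϑ‖) := by ring
        _ ≤ S * C1 := mul_le_mul_of_nonneg_left hC1 (by linarith)
    calc ‖(k : ℂ) + (l : ℂ) * σ ϑ‖ ^ i ≤ (S * C1) ^ i := pow_le_pow_left₀ (norm_nonneg _) h1 _
      _ ≤ (S * C1) ^ D0 := pow_le_pow_right₀ hSC hi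
  · have ha' : (0 : ℝ) ≤ a := by exact_mod_cast ha.le
    have hb' : (0 : ℝ) ≤ b := by exact_mod_cast hb.le
    have e1 : ‖((a ^ (j * k) * b ^ (j * l) : ℚ) : ℂ)‖ = (a : ℝ) ^ (j * k) * (b : ℝ) ^ (j * l) := by
      push_cast
      rw [norm_mul, norm_pow, norm_pow]
      have e2 : ‖(a : ℂ)‖ = (a : ℝ) := by
        rw [← Complex.ofReal_ratCast, Complex.norm_real, Real.norm_eq_abs, abs_of_nonneg ha']
      have e3 : ‖(b : ℂ)‖ = (b : ℝ) := by
        rw [← Complex.ofReal_ratCast, Complex.norm_real, Real.norm_eq_abs, abs_of_nonneg hb']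
      rw [e2, e3]
    rw [e1]
    apply mul_le_mul _ _ (by positivity) (by positivity)
    · exact (pow_le_pow_left₀ ha' haH _).trans (pow_le_pow_right₀ hH1 hk)
    · exact (pow_le_pow_left₀ hb' hbH _).trans (pow_le_pow_right₀ hH1 hl)

end Field

end Pool.Agent.Lib.H22F301
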