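import Mathlib
import Pool.Agent.Lib.H22F301.GS2

/-!
# `log b / log a` is transcendental: the inequality for the determinants
-/

namespace Pool.Agent.Lib.H22F301

open Finset Matrix
open scoped Nat

theorem le_exp (x : ℝ) : x ≤ Real.exp x := by linarith [Real.add_one_le_exp x]

theorem pow_le_exp {x y : ℝ} (hx : 0 ≤ x) (hxy : x ≤ Real.exp y) (n : ℕ) :
    x ^ n ≤ Real.exp (y * n) := by
  calc x ^ n ≤ Real.exp y ^ n := pow_le_pow_left₀ hx hxy n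
    _ = Real.exp (y * n) := by rw [← Real.exp_nat_mul, mul_comm]

theorem factorial_le_exp {s : ℕ} (hs : 1 ≤ s) :
    (((s ^ 8)! : ℕ) : ℝ) ≤ Real.exp (8 * (s : ℝ) ^ 7) ^ (s ^ 8) := by
  have h1 : (((s ^ 8)! : ℕ) : ℝ) ≤ ((s ^ 8 : ℕ) : ℝ) ^ (s ^ 8) := by
    exact_mod_cast Nat.factorial_le_pow (s ^ 8)
  refine h1.trans (pow_le_pow_left₀ (by positivity) ?_ _)
  have hs' : (1 : ℝ) ≤ s := by exact_mod_cast hs
  have h2 : ((s ^ 8 : ℕ) : ℝ) ≤ Real.exp (s * (8 : ℕ)) := by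
    push_cast
    exact pow_le_exp (by positivity) (le_exp _) 8
  refine h2.trans (Real.exp_le_exp.2 ?_)
  push_cast
  have h3 : (s : ℝ) ≤ (s : ℝ) ^ 7 := le_self_pow₀ hs' (by norm_num)
  linarith

theorem E_le {q ad bd s : ℕ} {C1 H : ℝ} (hs : 1 ≤ s) (hC1 : 0 ≤ C1) (hH : 0 ≤ H) :
    ((q ^ (s ^ 6) * (ad ^ (s ^ 6) * bd ^ (s ^ 6)) : ℕ) : ℝ) *
      (((s ^ 4 : ℕ) * C1) ^ (s ^ 6) * (H ^ (s ^ 6) * H ^ (s ^ 6))) ≤
      Real.exp ((q + ad + bd + (4 + C1) + 2 * H) * (s : ℝ) ^ 7) := by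
  have hs' : (1 : ℝ) ≤ s := by exact_mod_cast hs
  have h67 : (s : ℝ) ^ 6 ≤ (s : ℝ) ^ 7 := pow_le_pow_right₀ hs' (by norm_num)
  have e1 := pow_le_exp (x := (q : ℝ)) (by positivity) (le_exp _) (s ^ 6)
  have e2 := pow_le_exp (x := (ad : ℝ)) (by positivity) (le_exp _) (s ^ 6)
  have e3 := pow_le_exp (x := (bd : ℝ)) (by positivity) (le_exp _) (s ^ 6)
  have e4 := pow_le_exp (x := H) hH (le_exp _) (s ^ 6)
  have e5 : (((s ^ 4 : ℕ) : ℝ) * C1) ≤ Real.exp (4 * s + C1) := by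
    rw [Real.exp_add]
    apply mul_le_mul _ (le_exp _) hC1 (Real.exp_pos _).le
    have := pow_le_exp (x := (s : ℝ)) (by positivity) (le_exp _) 4
    push_cast
    rw [mul_comm 4 (s : ℝ)]
    exact_mod_cast this
  have e6 := pow_le_exp (x := ((s ^ 4 : ℕ) : ℝ) * C1) (by positivity) e5 (s ^ 6)
  push_cast at e1 e2 e3 e4 e6 ⊢
  calc (q : ℝ) ^ (s ^ 6) * ((ad : ℝ) ^ (s ^ 6) * (bd : ℝ) ^ (s ^ 6)) *
        (((s : ℝ) ^ 4 * C1) ^ (s ^ 6) * (H ^ (s ^ 6) * H ^ (s ^ 6)))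
      ≤ Real.exp (q * (s : ℝ) ^ 6) * (Real.exp (ad * (s : ℝ) ^ 6) * Real.exp (bd * (s : ℝ) ^ 6)) *
        (Real.exp ((4 * s + C1) * (s : ℝ) ^ 6) *
          (Real.exp (H * (s : ℝ) ^ 6) * Real.exp (H * (s : ℝ) ^ 6))) := by
        gcongr
    _ = Real.exp (q * (s : ℝ) ^ 6 + (ad * (s : ℝ) ^ 6 + bd * (s : ℝ) ^ 6) +
        ((4 * s + C1) * (s : ℝ) ^ 6 + (H * (s : ℝ) ^ 6 + H * (s : ℝ) ^ 6))) := by
        simp only [Real.exp_add]
    _ ≤ Real.exp ((q + ad + bd + (4 + C1) + 2 * H) * (s : ℝ) ^ 7) := by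
        apply Real.exp_le_exp.2
        have hq : (0 : ℝ) ≤ q := by positivity
        have had : (0 : ℝ) ≤ ad := by positivity
        have hbd : (0 : ℝ) ≤ bd := by positivity
        have f1 := mul_le_mul_of_nonneg_left h67 hq
        have f2 := mul_le_mul_of_nonneg_left h67 had
        have f3 := mul_le_mul_of_nonneg_left h67 hbd
        have f4 := mul_le_mul_of_nonneg_left h67 hH
        have f5 := mul_le_mul_of_nonneg_left h67 hC1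
        have f6 : 4 * (s : ℝ) * (s : ℝ) ^ 6 = 4 * (s : ℝ) ^ 7 := by ring
        nlinarith

theorem MM_le {s : ℕ} {C1 la : ℝ} (hs : 1 ≤ s) (hC1 : 0 ≤ C1) :
    (((s ^ 4 : ℕ) : ℝ) * C1 * Real.exp 1) ^ (s ^ 6) *
      Real.exp ((((s ^ 2 : ℕ) : ℝ) * |la|) * (((s ^ 4 : ℕ) : ℝ) * C1 * Real.exp 1)) ≤
      Real.exp ((4 + C1 + 1 + |la| * C1 * Real.exp 1) * (s : ℝ) ^ 7) := by
  have hs' : (1 : ℝ) ≤ s := by exact_mod_cast hs
  have h67 : (s : ℝ) ^ 6 ≤ (s : ℝ) ^ 7 := pow_le_pow_right₀ hs' (by norm_num)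
  have e5 : (((s ^ 4 : ℕ) : ℝ) * C1 * Real.exp 1) ≤ Real.exp (4 * s + C1 + 1) := by
    rw [Real.exp_add, Real.exp_add]
    apply mul_le_mul_of_nonneg_right _ (Real.exp_pos _).le
    apply mul_le_mul _ (le_exp _) hC1 (Real.exp_pos _).le
    have := pow_le_exp (x := (s : ℝ)) (by positivity) (le_exp _) 4
    push_cast
    rw [mul_comm 4 (s : ℝ)]
    exact_mod_cast this
  have e6 := pow_le_exp (x := ((s ^ 4 : ℕ) : ℝ) * C1 * Real.exp 1) (by positivity) e5 (s ^ 6)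
  calc (((s ^ 4 : ℕ) : ℝ) * C1 * Real.exp 1) ^ (s ^ 6) *
      Real.exp ((((s ^ 2 : ℕ) : ℝ) * |la|) * (((s ^ 4 : ℕ) : ℝ) * C1 * Real.exp 1))
      ≤ Real.exp ((4 * s + C1 + 1) * ((s ^ 6 : ℕ) : ℝ)) *
      Real.exp ((((s ^ 2 : ℕ) : ℝ) * |la|) * (((s ^ 4 : ℕ) : ℝ) * C1 * Real.exp 1)) :=
        mul_le_mul_of_nonneg_right e6 (Real.exp_pos _).le
    _ = Real.exp ((4 * s + C1 + 1) * (s : ℝ) ^ 6 + |la| * C1 * Real.exp 1 * (s : ℝ) ^ 6) := by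
        rw [← Real.exp_add]
        congr 1
        push_cast
        ring
    _ ≤ Real.exp ((4 + C1 + 1 + |la| * C1 * Real.exp 1) * (s : ℝ) ^ 7) := by
        apply Real.exp_le_exp.2
        have h0 : 0 ≤ |la| * C1 * Real.exp 1 := by positivity
        have f1 := mul_le_mul_of_nonneg_left h67 h0
        have f5 := mul_le_mul_of_nonneg_left h67 hC1
        have f6 : 4 * (s : ℝ) * (s : ℝ) ^ 6 = 4 * (s : ℝ) ^ 7 := by ring
        nlinarith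

theorem key_ineq {K : Type*} [Field K] [NumberField K] (σR : K →+* ℝ) (ϑ : K) (a b : ℚ)
    (ha : 0 < a) (hb : 0 < b) (hla : Real.log a ≠ 0) (hθ : σR ϑ * Real.log a = Real.log b)
    (hinj : ∀ k l k' l' : ℕ, (k : ℝ) + l * σR ϑ = k' + l' * σR ϑ → k = k' ∧ l = l')
    (q : ℕ) (hq0 : q ≠ 0) (hq : IsIntegral ℤ ((q : K) * ϑ)) :
    ∃ C : ℝ, ∀ s : ℕ, 1 ≤ s →
      Real.exp 1 ^ (s ^ 8 * (s ^ 8 - 1) / 2) ≤ Real.exp (C * s ^ 7) ^ (s ^ 8) := by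
  classical
  set δ := Fintype.card (K →+* ℂ) with hδ
  set la := Real.log a with hla'
  set θ := σR ϑ with hθ'
  set C1 : ℝ := 1 + ∑ σ : K →+* ℂ, ‖σ ϑ‖ with hC1
  set H : ℝ := 1 + a + b with hH
  have haR : (0 : ℝ) < a := by exact_mod_cast ha
  have hbR : (0 : ℝ) < b := by exact_mod_cast hb
  have hC1σ : ∀ σ : K →+* ℂ, 1 + ‖σ ϑ‖ ≤ C1 := fun σ => by
    rw [hC1]
    gcongr
    exact Finset.single_le_sum (f := fun σ : K →+* ℂ => ‖σ ϑ‖) (fun _ _ => norm_nonneg _)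
      (mem_univ σ)
  set σ0 : K →+* ℂ := Complex.ofRealHom.comp σR with hσ0
  have hσ0n : ∀ x, ‖σ0 x‖ = |σR x| := fun x => by
    rw [hσ0]
    show ‖((σR x : ℝ) : ℂ)‖ = _
    rw [Complex.norm_real, Real.norm_eq_abs]
  have hθC : 1 + |θ| ≤ C1 := by
    have := hC1σ σ0
    rwa [hσ0n] at this
  have hC11 : 1 ≤ C1 := by linarith [abs_nonneg θ]
  have hH1 : 1 ≤ H := by rw [hH]; linarith
  set cE : ℝ := q + a.den + b.den + (4 + C1) + 2 * H with hcE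
  set cM : ℝ := 4 + C1 + 1 + |la| * C1 * Real.exp 1 with hcM
  refine ⟨cE + 8 + cM + δ * (8 + cE), fun s hs => ?_⟩
  have hs' : (1 : ℝ) ≤ s := by exact_mod_cast hs
  -- the matrices
  have hcard : Fintype.card (Fin (s ^ 6) × Fin (s ^ 2)) =
      Fintype.card (Fin (s ^ 4) × Fin (s ^ 4)) := by
    simp only [Fintype.card_prod, Fintype.card_fin]
    ring
  have hcard8 : Fintype.card (Fin (s ^ 6) × Fin (s ^ 2)) = s ^ 8 := by
    simp only [Fintype.card_prod, Fintype.card_fin]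
    ring
  set η := Fintype.equivOfCardEq hcard with hη
  set MK : Matrix (Fin (s ^ 6) × Fin (s ^ 2)) (Fin (s ^ 6) × Fin (s ^ 2)) K :=
    Matrix.of fun r c => ent ϑ a b r.1 r.2 (η c).1 (η c).2 with hMK
  set ζ : Fin (s ^ 6) × Fin (s ^ 2) → ℝ := fun c => ((η c).1 : ℕ) + ((η c).2 : ℕ) * θ with hζ
  set w : Fin (s ^ 2) → ℝ := fun j => (j : ℕ) * la with hw
  set MR : Matrix (Fin (s ^ 6) × Fin (s ^ 2)) (Fin (s ^ 6) × Fin (s ^ 2)) ℝ :=
    Matrix.of fun r c => ζ c ^ (r.1 : ℕ) * Real.exp (w r.2 * ζ c) with hMR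
  have hMKR : σR MK.det = MR.det := by
    rw [RingHom.map_det]
    congr 1
    ext r c
    simp only [RingHom.mapMatrix_apply, Matrix.map_apply, hMK, hMR, Matrix.of_apply, ent, map_mul,
      map_pow, map_add, map_natCast, map_ratCast, hζ, hw]
    congr 1
    push_cast
    have e1 : ((r.2 : ℕ) : ℝ) * la * (((η c).1 : ℕ) + ((η c).2 : ℕ) * θ) =
        (((r.2 : ℕ) * ((η c).1 : ℕ) : ℕ) : ℝ) * la +
          (((r.2 : ℕ) * ((η c).2 : ℕ) : ℕ) : ℝ) * Real.log b := by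
      rw [← hθ]; push_cast; ring
    rw [e1, Real.exp_add, Real.exp_nat_mul, Real.exp_nat_mul, hla', Real.exp_log haR,
      Real.exp_log hbR]
  have hMR0 : MR.det ≠ 0 := by
    apply det_ne_zero w
    · intro j j' h
      have h2 : ((j : ℕ) : ℝ) = (j' : ℕ) := mul_right_cancel₀ hla h
      exact Fin.ext (by exact_mod_cast h2)
    · intro c c' h
      have h2 := hinj _ _ _ _ h
      apply η.injective
      exact Prod.ext (Fin.ext h2.1) (Fin.ext h2.2)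
  have hMK0 : MK.det ≠ 0 := by
    intro h
    apply hMR0
    rw [← hMKR, h, map_zero]
  set Q : ℕ := den q a b (s ^ 6) (s ^ 6) with hQ
  have hQ0 : Q ≠ 0 := by
    rw [hQ, den]
    have := a.den_pos.ne'
    have := b.den_pos.ne'
    positivity
  have hjk : ∀ (j : Fin (s ^ 2)) (k : Fin (s ^ 4)), (j : ℕ) * (k : ℕ) ≤ s ^ 6 := fun j k => by
    calc (j : ℕ) * (k : ℕ) ≤ s ^ 2 * s ^ 4 := Nat.mul_le_mul j.2.le k.2.le
      _ = s ^ 6 := by ring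
  set x : K := ((Q : K) • MK).det with hx
  have hxe : x = (Q : K) ^ (s ^ 8) * MK.det := by rw [hx, Matrix.det_smul, hcard8]
  have hxint : IsIntegral ℤ x := by
    apply IsIntegral.det
    intro r c
    exact isIntegral_ent ϑ q hq a b r.1.2.le (hjk _ _) (hjk _ _)
  have hx0 : x ≠ 0 := by
    rw [hxe]
    exact mul_ne_zero (pow_ne_zero _ (by exact_mod_cast hQ0)) hMK0
  set E : ℝ := (Q : ℝ) * ((((s ^ 4 : ℕ) : ℝ) * C1) ^ (s ^ 6) * (H ^ (s ^ 6) * H ^ (s ^ 6))) with hE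
  have hEle : E ≤ Real.exp (cE * (s : ℝ) ^ 7) := by
    have := E_le (q := q) (ad := a.den) (bd := b.den) (C1 := C1) (H := H) hs (by linarith)
      (by linarith)
    exact this
  have hS4 : 1 ≤ s ^ 4 := Nat.one_le_pow _ _ (by omega)
  have hSC : 1 ≤ ((s ^ 4 : ℕ) : ℝ) * C1 := by
    have : (1 : ℝ) ≤ ((s ^ 4 : ℕ) : ℝ) := by exact_mod_cast hS4
    nlinarith
  have hfac1 : 1 ≤ (((s ^ 4 : ℕ) : ℝ) * C1) ^ (s ^ 6) * (H ^ (s ^ 6) * H ^ (s ^ 6)) := by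
    have f1 := one_le_pow₀ hSC (n := s ^ 6)
    have f2 := one_le_pow₀ hH1 (n := s ^ 6)
    have f3 := one_le_mul_of_one_le_of_one_le f2 f2
    exact one_le_mul_of_one_le_of_one_le f1 f3
  have hQ1 : (1 : ℝ) ≤ Q := by exact_mod_cast Nat.one_le_iff_ne_zero.2 hQ0
  have hQE : (Q : ℝ) ≤ E := le_mul_of_one_le_right (by linarith) hfac1
  have hE1 : 1 ≤ E := hQ1.trans hQE
  have hσx : ∀ σ : K →+* ℂ, ‖σ x‖ ≤ ((s ^ 8)! : ℕ) * E ^ (s ^ 8) := by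
    intro σ
    rw [hx, RingHom.map_det, ← hcard8]
    apply norm_det_le
    intro r c
    simp only [RingHom.mapMatrix_apply, Matrix.map_apply, Matrix.smul_apply, smul_eq_mul, map_mul,
      map_natCast, norm_mul]
    rw [hE]
    have h1 : ‖((Q : ℕ) : ℂ)‖ = (Q : ℝ) := by simp
    rw [h1]
    apply mul_le_mul_of_nonneg_left _ (by positivity)
    exact norm_ent_le ϑ a b ha hb σ (hC1σ σ) hH1 (by rw [hH]; linarith) (by rw [hH]; linarith) hS4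
      r.1.2.le (hjk _ _) (hjk _ _) (η c).1.2.le (η c).2.2.le
  have hE' : 1 ≤ (((s ^ 8)! : ℕ) : ℝ) * E ^ (s ^ 8) := by
    have f1 : (1 : ℝ) ≤ (((s ^ 8)! : ℕ) : ℝ) := by exact_mod_cast Nat.factorial_pos (s ^ 8)
    exact one_le_mul_of_one_le_of_one_le f1 (one_le_pow₀ hE1)
  have hL := one_le_norm_mul_pow hxint hx0 σ0 _ hE' hσx
  rw [hσ0n, hxe, map_mul, map_pow, map_natCast, hMKR, abs_mul, abs_pow, Nat.abs_cast] at hL
  -- the analytic bound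
  have hdet := det_bound (ι := Fin (s ^ 6) × Fin (s ^ 2)) (fun r n => coef r.1 (w r.2) n)
    (fun _ => (((s ^ 4 : ℕ) : ℝ) * C1 * Real.exp 1) ^ (s ^ 6) *
      Real.exp ((((s ^ 2 : ℕ) : ℝ) * |la|) * (((s ^ 4 : ℕ) : ℝ) * C1 * Real.exp 1)))
    (((s ^ 4 : ℕ) : ℝ) * C1) (Real.exp 1) (by linarith) (Real.one_le_exp zero_le_one)
    (by
      intro r D
      refine (sum_abs_coef_le _ _ _ (by positivity) D).trans ?_
      have f1 : 1 ≤ ((s ^ 4 : ℕ) : ℝ) * C1 * Real.exp 1 :=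
        one_le_mul_of_one_le_of_one_le hSC (Real.one_le_exp zero_le_one)
      apply mul_le_mul (pow_le_pow_right₀ f1 r.1.2.le) _ (Real.exp_pos _).le (by positivity)
      apply Real.exp_le_exp.2
      apply mul_le_mul_of_nonneg_right _ (by linarith)
      rw [hw]
      simp only
      rw [abs_mul, Nat.abs_cast]
      apply mul_le_mul_of_nonneg_right _ (abs_nonneg _)
      exact_mod_cast r.2.2.le)
    (fun r x => x ^ (r.1 : ℕ) * Real.exp (w r.2 * x))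
    (fun r x _ => hasSum_coef r.1 (w r.2) x) ζ
    (by
      intro c
      rw [hζ]
      simp only
      have f1 : (((η c).1 : ℕ) : ℝ) ≤ ((s ^ 4 : ℕ) : ℝ) := by exact_mod_cast (η c).1.2.le
      have f2 : (((η c).2 : ℕ) : ℝ) ≤ ((s ^ 4 : ℕ) : ℝ) := by exact_mod_cast (η c).2.2.le
      calc |(((η c).1 : ℕ) : ℝ) + ((η c).2 : ℕ) * θ|
          ≤ |(((η c).1 : ℕ) : ℝ)| + |(((η c).2 : ℕ) : ℝ) * θ| := abs_add_le _ _
        _ = ((η c).1 : ℕ) + ((η c).2 : ℕ) * |θ| := by rw [abs_mul, Nat.abs_cast, Nat.abs_cast]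
        _ ≤ ((s ^ 4 : ℕ) : ℝ) + ((s ^ 4 : ℕ) : ℝ) * |θ| := by
            have := mul_le_mul_of_nonneg_right f2 (abs_nonneg θ)
            linarith
        _ = ((s ^ 4 : ℕ) : ℝ) * (1 + |θ|) := by ring
        _ ≤ ((s ^ 4 : ℕ) : ℝ) * C1 := mul_le_mul_of_nonneg_left hθC (by positivity))
  rw [hcard8, Finset.prod_const, Finset.card_univ, hcard8] at hdet
  have hMMle := MM_le (s := s) (C1 := C1) (la := la) hs (by linarith)
  set MM : ℝ := (((s ^ 4 : ℕ) : ℝ) * C1 * Real.exp 1) ^ (s ^ 6) *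
      Real.exp ((((s ^ 2 : ℕ) : ℝ) * |la|) * (((s ^ 4 : ℕ) : ℝ) * C1 * Real.exp 1)) with hMM
  have hMM0 : 0 ≤ MM := by rw [hMM]; positivity
  have hfac := factorial_le_exp hs
  set e1T : ℝ := Real.exp 1 ^ (s ^ 8 * (s ^ 8 - 1) / 2) with he1T
  have he1T0 : 0 < e1T := by rw [he1T]; positivity
  have hdet' : e1T * |MR.det| ≤ ((s ^ 8)! : ℕ) * MM ^ (s ^ 8) := hdet
  have hE'0 : 0 ≤ (((s ^ 8)! : ℕ) : ℝ) * E ^ (s ^ 8) := by linarith
  calc e1T ≤ e1T * (((Q : ℝ) ^ (s ^ 8) * |MR.det|) *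
        ((((s ^ 8)! : ℕ) : ℝ) * E ^ (s ^ 8)) ^ δ) := le_mul_of_one_le_right he1T0.le hL
    _ = (Q : ℝ) ^ (s ^ 8) * (e1T * |MR.det|) * ((((s ^ 8)! : ℕ) : ℝ) * E ^ (s ^ 8)) ^ δ := by ring
    _ ≤ (Q : ℝ) ^ (s ^ 8) * (((s ^ 8)! : ℕ) * MM ^ (s ^ 8)) *
        ((((s ^ 8)! : ℕ) : ℝ) * E ^ (s ^ 8)) ^ δ := by gcongr
    _ ≤ (Real.exp (cE * (s : ℝ) ^ 7)) ^ (s ^ 8) * (Real.exp (8 * (s : ℝ) ^ 7) ^ (s ^ 8) *
        Real.exp (cM * (s : ℝ) ^ 7) ^ (s ^ 8)) *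
        (Real.exp (8 * (s : ℝ) ^ 7) ^ (s ^ 8) * Real.exp (cE * (s : ℝ) ^ 7) ^ (s ^ 8)) ^ δ := by
        gcongr
        exact hQE.trans hEle
    _ = Real.exp ((cE + 8 + cM + δ * (8 + cE)) * s ^ 7) ^ (s ^ 8) := by
        have e1 : Real.exp ((cE + 8 + cM + δ * (8 + cE)) * s ^ 7) =
            Real.exp (cE * (s : ℝ) ^ 7) * (Real.exp (8 * (s : ℝ) ^ 7) *
              Real.exp (cM * (s : ℝ) ^ 7)) *
              (Real.exp (8 * (s : ℝ) ^ 7) * Real.exp (cE * (s : ℝ) ^ 7)) ^ δ := by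
          rw [← Real.exp_add, ← Real.exp_add, ← Real.exp_add, ← Real.exp_nat_mul, ← Real.exp_add]
          congr 1
          ring
        rw [e1]
        ring

end Pool.Agent.Lib.H22F301
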