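import Mathlib
import Pool.Agent.Lib.H22F301.GS3

/-!
# `log b / log a` is transcendental
-/

namespace Pool.Agent.Lib.H22F301

open scoped IntermediateField

/-- Multiplicatively independent rational numbers have rationally independent logarithms. -/
theorem log_indep {a b : ℚ} (ha : 0 < a) (hb : 0 < b)
    (hind : ∀ k l : ℤ, a ^ k * b ^ l = 1 → k = 0 ∧ l = 0) (k l : ℤ)
    (h : (k : ℝ) * Real.log a + l * Real.log b = 0) : k = 0 ∧ l = 0 := by
  have haR : (0 : ℝ) < a := by exact_mod_cast ha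
  have hbR : (0 : ℝ) < b := by exact_mod_cast hb
  apply hind
  have h1 : Real.exp ((k : ℝ) * Real.log a + l * Real.log b) = 1 := by rw [h, Real.exp_zero]
  have e1 : ∀ (c : ℝ), 0 < c → ∀ z : ℤ, Real.exp ((z : ℝ) * Real.log c) = c ^ z := by
    intro c hc z
    rw [← Real.rpow_intCast, Real.rpow_def_of_pos hc, mul_comm]
  rw [Real.exp_add, e1 _ haR, e1 _ hbR] at h1
  exact_mod_cast h1

/-- **Gelfond and Schneider** for two rational numbers. -/
theorem transcendental_log_div_log {a b : ℚ} (ha : 0 < a) (hb : 0 < b)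
    (hind : ∀ k l : ℤ, a ^ k * b ^ l = 1 → k = 0 ∧ l = 0) :
    Transcendental ℚ (Real.log b / Real.log a) := by
  intro halg
  have hla : Real.log a ≠ 0 := by
    intro h
    have := log_indep ha hb hind 1 0 (by rw [h]; simp)
    exact one_ne_zero this.1
  set θ := Real.log b / Real.log a with hθ
  have hθla : θ * Real.log a = Real.log b := div_mul_cancel₀ _ hla
  have hfin : FiniteDimensional ℚ ℚ⟮θ⟯ := IntermediateField.adjoin.finiteDimensional
    halg.isIntegral
  have hnf : NumberField ℚ⟮θ⟯ := { to_charZero := inferInstance, to_finiteDimensional := hfin }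
  set ϑ : ℚ⟮θ⟯ := IntermediateField.AdjoinSimple.gen ℚ θ with hϑ
  have hgen : algebraMap ℚ⟮θ⟯ ℝ ϑ = θ := IntermediateField.AdjoinSimple.algebraMap_gen ℚ θ
  have hZ : IsAlgebraic ℤ ϑ := (IsFractionRing.isAlgebraic_iff ℤ ℚ ℚ⟮θ⟯).2
    (Algebra.IsAlgebraic.isAlgebraic ϑ)
  obtain ⟨y, hy0, hy⟩ := hZ.exists_integral_multiple
  have hq : IsIntegral ℤ (((y.natAbs : ℕ) : ℚ⟮θ⟯) * ϑ) := by
    rcases Int.natAbs_eq y with h | h
    · rw [h] at hy
      simpa [zsmul_eq_mul] using hy
    · rw [h] at hy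
      have := hy.neg
      simpa [zsmul_eq_mul] using this
  obtain ⟨C, hC⟩ := key_ineq (algebraMap ℚ⟮θ⟯ ℝ) ϑ a b ha hb hla (by rw [hgen]; exact hθla)
    (by
      intro k l k' l' h
      rw [hgen] at h
      have h1 : (((k : ℤ) - k' : ℤ) : ℝ) * Real.log a + (((l : ℤ) - l' : ℤ) : ℝ) * Real.log b = 0 := by
        rw [← hθla]
        push_cast
        linear_combination Real.log a * h
      have h2 := log_indep ha hb hind _ _ h1
      omega)
    y.natAbs (Int.natAbs_ne_zero.2 hy0) hq
  exact contra C hC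

end Pool.Agent.Lib.H22F301
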