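import Mathlib

/-!
Rank and nonzero minors: a family of `m` vectors in `K^n` spans a space of dimension at least `r`
iff it has a nonzero `r` by `r` minor.
-/

open Set

namespace Pool.Agent.Lib.H22F301

private lemma exists_li {K : Type*} [Field K] {V : Type*} [AddCommGroup V] [Module K V]
    {m r : ℕ} (v : Fin m → V)
    (h : r ≤ Module.finrank K (Submodule.span K (Set.range v))) :
    ∃ a : Fin r → Fin m, LinearIndependent K (v ∘ a) := by
  obtain ⟨κ, a, ha, hsp, hli⟩ := exists_linearIndependent' K v
  haveI : Finite κ := Finite.of_injective a ha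
  haveI : Fintype κ := Fintype.ofFinite κ
  have h1 : Module.finrank K (Submodule.span K (Set.range (v ∘ a))) = Fintype.card κ :=
    finrank_span_eq_card hli
  rw [hsp] at h1
  have h2 : Fintype.card (Fin r) ≤ Fintype.card κ := by
    rw [Fintype.card_fin]
    omega
  obtain ⟨g⟩ := Function.Embedding.nonempty_of_card_le h2
  exact ⟨a ∘ g, hli.comp g g.injective⟩

theorem exists_minor {K : Type*} [Field K] {m n r : ℕ} (u : Fin m → Fin n → K)
    (h : r ≤ Module.finrank K (Submodule.span K (Set.range u))) :
    ∃ (a : Fin r → Fin m) (b : Fin r → Fin n),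
      (Matrix.of fun i j => u (a i) (b j)).det ≠ 0 := by
  obtain ⟨a, ha⟩ := exists_li u h
  set A : Matrix (Fin r) (Fin n) K := Matrix.of fun i j => u (a i) j with hA
  have h1 : A.rank = r := by
    have h2 : LinearIndependent K A.row := ha
    rw [h2.rank_matrix, Fintype.card_fin]
  have h3 : Module.finrank K (Submodule.span K (Set.range A.transpose.row)) = r := by
    rw [← Matrix.rank_eq_finrank_span_row, Matrix.rank_transpose, h1]
  obtain ⟨b, hb⟩ := exists_li A.transpose.row h3.ge
  refine ⟨a, b, ?_⟩
  set B : Matrix (Fin r) (Fin r) K := Matrix.of fun i j => u (a i) (b j) with hB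
  have h4 : LinearIndependent K B.transpose.row := hb
  rw [Matrix.linearIndependent_rows_iff_isUnit, Matrix.isUnit_iff_isUnit_det,
    Matrix.det_transpose] at h4
  exact h4.ne_zero

theorem le_finrank_of_minor {K : Type*} [Field K] {m n r : ℕ} (u : Fin m → Fin n → K)
    (a : Fin r → Fin m) (b : Fin r → Fin n)
    (h : (Matrix.of fun i j => u (a i) (b j)).det ≠ 0) :
    r ≤ Module.finrank K (Submodule.span K (Set.range u)) := by
  set B : Matrix (Fin r) (Fin r) K := Matrix.of fun i j => u (a i) (b j) with hB
  have h1 : LinearIndependent K B.row := by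
    rw [Matrix.linearIndependent_rows_iff_isUnit, Matrix.isUnit_iff_isUnit_det]
    exact isUnit_iff_ne_zero.mpr h
  let f : (Fin n → K) →ₗ[K] (Fin r → K) := LinearMap.funLeft K K b
  have h2 : LinearIndependent K (f ∘ (u ∘ a)) := h1
  have h3 : LinearIndependent K (u ∘ a) := LinearIndependent.of_comp f h2
  have h4 : Module.finrank K (Submodule.span K (Set.range (u ∘ a))) = r := by
    rw [finrank_span_eq_card h3, Fintype.card_fin]
  calc r = Module.finrank K (Submodule.span K (Set.range (u ∘ a))) := h4.symm
    _ ≤ Module.finrank K (Submodule.span K (Set.range u)) :=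
      Submodule.finrank_mono (Submodule.span_mono (Set.range_comp_subset_range a u))

end Pool.Agent.Lib.H22F301
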