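import Mathlib
import Pool.Agent.Lib.H22F301.Det

/-!
# Interpolation determinants of `p`-adic power series
-/

namespace Pool.Agent.Lib.H22F301

open Finset Matrix

variable {p : ℕ} [hp : Fact p.Prime] {ι : Type*} [Fintype ι] [DecidableEq ι]

theorem norm_det_le_one (A : Matrix ι ι ℚ_[p]) (h : ∀ i j, ‖A i j‖ ≤ 1) : ‖A.det‖ ≤ 1 := by
  rw [Matrix.det_apply]
  apply IsUltrametricDist.norm_sum_le_of_forall_le_of_nonneg zero_le_one
  intro σ _
  have e1 : ‖Equiv.Perm.sign σ • ∏ i, A (σ i) i‖ = ∏ i, ‖A (σ i) i‖ := by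
    rcases Int.units_eq_one_or (Equiv.Perm.sign σ) with h | h <;> simp [h]
  rw [e1]
  exact Finset.prod_le_one (fun i _ => norm_nonneg _) (fun i _ => h _ _)

theorem padic_det_poly_bound (u : ι → ℕ → ℚ_[p]) (B : ι → ℝ) (hB : ∀ i, 0 ≤ B i) {ρ : ℝ}
    (hρ0 : 0 ≤ ρ) (hρ1 : ρ ≤ 1) (hu : ∀ i n, ‖u i n‖ ≤ B i * ρ ^ n) (ζ : ι → ℚ_[p])
    (hζ : ∀ j, ‖ζ j‖ ≤ 1) (D : ℕ) :
    ‖(Matrix.of fun i j => ∑ n ∈ range D, u i n * ζ j ^ n).det‖ ≤
      (∏ i, B i) * ρ ^ (Fintype.card ι * (Fintype.card ι - 1) / 2) := by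
  have h1 : (Matrix.of fun i j => ∑ n ∈ range D, u i n * ζ j ^ n).det =
      ∑ κ ∈ Fintype.piFinset (fun _ : ι => range D),
        (∏ i, u i (κ i)) * (Matrix.of fun i j => ζ j ^ κ i).det := by
    have h2 := (Matrix.detRowAlternating (R := ℚ_[p]) (n := ι)).toMultilinearMap.map_sum_finset
      (fun i n => (fun j => u i n * ζ j ^ n : ι → ℚ_[p])) (fun _ => range D)
    have h3 : (Matrix.of fun i j => ∑ n ∈ range D, u i n * ζ j ^ n).det =
        (Matrix.detRowAlternating (R := ℚ_[p]) (n := ι)).toMultilinearMap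
          (fun i => ∑ n ∈ range D, (fun j => u i n * ζ j ^ n : ι → ℚ_[p])) := by
      show Matrix.det _ = Matrix.det _
      congr 1
      ext i j
      simp [Finset.sum_apply]
    rw [h3, h2]
    refine Finset.sum_congr rfl fun κ _ => ?_
    show Matrix.det (Matrix.of fun i j => u i (κ i) * ζ j ^ κ i) = _
    rw [← Matrix.det_mul_column]
    rfl
  have hP : 0 ≤ ∏ i, B i := Finset.prod_nonneg fun i _ => hB i
  rw [h1]
  apply IsUltrametricDist.norm_sum_le_of_forall_le_of_nonneg (mul_nonneg hP (pow_nonneg hρ0 _))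
  intro κ _
  by_cases hκ : Function.Injective κ
  · have h4 := sum_ge_of_injective κ hκ
    rw [norm_mul, norm_prod]
    have h5 : ‖(Matrix.of fun i j => ζ j ^ κ i).det‖ ≤ 1 := by
      apply norm_det_le_one
      intro i j
      rw [Matrix.of_apply, norm_pow]
      exact pow_le_one₀ (norm_nonneg _) (hζ j)
    have h6 : ∏ i, ‖u i (κ i)‖ ≤ ∏ i, (B i * ρ ^ κ i) :=
      Finset.prod_le_prod (fun i _ => norm_nonneg _) (fun i _ => hu i (κ i))
    rw [Finset.prod_mul_distrib, Finset.prod_pow_eq_pow_sum] at h6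
    calc (∏ i, ‖u i (κ i)‖) * ‖(Matrix.of fun i j => ζ j ^ κ i).det‖
        ≤ (∏ i, ‖u i (κ i)‖) * 1 :=
          mul_le_mul_of_nonneg_left h5 (Finset.prod_nonneg fun i _ => norm_nonneg _)
      _ ≤ (∏ i, B i) * ρ ^ ∑ i, κ i := by rw [mul_one]; exact h6
      _ ≤ (∏ i, B i) * ρ ^ (Fintype.card ι * (Fintype.card ι - 1) / 2) :=
          mul_le_mul_of_nonneg_left (pow_le_pow_of_le_one hρ0 hρ1 h4) hP
  · have h4 : (Matrix.of fun i j => ζ j ^ κ i).det = 0 := by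
      rw [Function.Injective] at hκ
      push Not at hκ
      obtain ⟨a, b, hab, hne⟩ := hκ
      apply Matrix.det_zero_of_row_eq hne
      funext j
      simp [hab]
    rw [h4, mul_zero, norm_zero]
    exact mul_nonneg hP (pow_nonneg hρ0 _)

/-- The bound for power series. -/
theorem padic_det_bound (u : ι → ℕ → ℚ_[p]) (B : ι → ℝ) (hB : ∀ i, 0 ≤ B i) {ρ : ℝ}
    (hρ0 : 0 ≤ ρ) (hρ1 : ρ ≤ 1) (hu : ∀ i n, ‖u i n‖ ≤ B i * ρ ^ n)
    (f : ι → ℚ_[p] → ℚ_[p]) (hf : ∀ i x, ‖x‖ ≤ 1 → HasSum (fun n => u i n * x ^ n) (f i x))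
    (ζ : ι → ℚ_[p]) (hζ : ∀ j, ‖ζ j‖ ≤ 1) :
    ‖(Matrix.of fun i j => f i (ζ j)).det‖ ≤
      (∏ i, B i) * ρ ^ (Fintype.card ι * (Fintype.card ι - 1) / 2) := by
  have h1 : Filter.Tendsto (fun D =>
      ‖(Matrix.of fun i j => ∑ n ∈ range D, u i n * ζ j ^ n).det‖) Filter.atTop
      (nhds ‖(Matrix.of fun i j => f i (ζ j)).det‖) := by
    apply Filter.Tendsto.norm
    have h2 : Filter.Tendsto (fun D => (Matrix.of fun i j => ∑ n ∈ range D, u i n * ζ j ^ n))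
        Filter.atTop (nhds (Matrix.of fun i j => f i (ζ j))) := by
      refine tendsto_pi_nhds.2 fun i => tendsto_pi_nhds.2 fun j => ?_
      exact (hf i (ζ j) (hζ j)).tendsto_sum_nat
    exact ((Continuous.matrix_det continuous_id).tendsto _).comp h2
  exact le_of_tendsto' h1 fun D => padic_det_poly_bound u B hB hρ0 hρ1 hu ζ hζ D

end Pool.Agent.Lib.H22F301
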