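import Mathlib
import Pool.Agent.Lib.H22F301.GS3
import Pool.Agent.Lib.H22F301.PDet

/-!
# The quotient of the `p`-adic logarithms of two rational numbers: arithmetic
-/

namespace Pool.Agent.Lib.H22F301

open Finset Matrix NumberField
open scoped Nat

variable {p : ℕ} [hp : Fact p.Prime]

theorem one_le_norm_mul_natCast {n : ℕ} (hn : n ≠ 0) : 1 ≤ ‖(n : ℚ_[p])‖ * n := by
  have hp0 : (0 : ℝ) < p := by exact_mod_cast hp.out.pos
  rw [Padic.norm_eq_zpow_neg_valuation (by exact_mod_cast hn), Padic.valuation_natCast, _root_.zpow_neg,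
    zpow_natCast]
  have h1 : p ^ padicValNat p n ≤ n := Nat.le_of_dvd (Nat.pos_of_ne_zero hn) pow_padicValNat_dvd
  have h2 : (p : ℝ) ^ padicValNat p n ≤ n := by exact_mod_cast h1
  have h3 : (0 : ℝ) < (p : ℝ) ^ padicValNat p n := by positivity
  rw [inv_mul_eq_div, one_le_div h3]
  exact h2

section Norm

variable {K : Type*} [Field K] [NumberField K]

omit [NumberField K] in
theorem norm_le_one_of_isIntegral (σ : K →+* ℚ_[p]) {x : K} (hx : IsIntegral ℤ x) :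
    ‖σ x‖ ≤ 1 := by
  have h1 : IsIntegral ℤ (σ x) := by
    obtain ⟨f, hf, hf0⟩ := hx
    refine ⟨f, hf, ?_⟩
    have h2 := Polynomial.hom_eval₂ f (algebraMap ℤ K) σ x
    rw [hf0, map_zero] at h2
    have h3 : σ.comp (algebraMap ℤ K) = algebraMap ℤ ℚ_[p] := RingHom.ext_int _ _
    rw [h3] at h2
    exact h2.symm
  have h2 : IsIntegral ℤ_[p] (σ x) := h1.tower_top
  obtain ⟨y, hy⟩ := IsIntegrallyClosed.isIntegral_iff.1 h2
  rw [← hy]
  exact y.norm_le_one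

/-- Liouville inequality at `p`. -/
theorem one_le_padic_norm_mul_pow {x : K} (hx : IsIntegral ℤ x) (h : x ≠ 0) (σp : K →+* ℚ_[p])
    (E : ℝ) (hE : ∀ σ : K →+* ℂ, ‖σ x‖ ≤ E) :
    1 ≤ ‖σp x‖ * E ^ Fintype.card (K →+* ℂ) := by
  classical
  set X : 𝓞 K := ⟨x, hx⟩ with hX
  have hXx : (X : K) = x := rfl
  set n : ℕ := (Algebra.norm ℤ X).natAbs with hn
  have h1 : ((n : ℕ) : 𝓞 K) ∈ Ideal.span ({X} : Set (𝓞 K)) := by
    rw [hn, ← Ideal.absNorm_span_singleton]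
    exact Ideal.absNorm_mem _
  obtain ⟨Y, hY⟩ := Ideal.mem_span_singleton'.1 h1
  have h2 : (Y : K) * x = (n : K) := by
    have := congrArg (fun z : 𝓞 K => (z : K)) hY
    rw [← hXx]
    simpa using this
  have h3 : (n : ℝ) = ∏ σ : K →+* ℂ, ‖σ x‖ := by
    have e1 := Algebra.norm_eq_prod_embeddings ℚ ℂ x
    have e2 : ∏ σ : K →ₐ[ℚ] ℂ, σ x = ∏ σ : K →+* ℂ, σ x := by
      refine Fintype.prod_equiv (RingHom.equivRatAlgHom (R := K) (S := ℂ)).symm _ _ fun σ => ?_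
      rfl
    rw [e2] at e1
    rw [← norm_prod, ← e1, ← hXx, ← Algebra.coe_norm_int]
    rw [hn, Nat.cast_natAbs]
    simp
  have hn0 : n ≠ 0 := by
    rw [hn, Int.natAbs_ne_zero]
    rw [Ne, Algebra.norm_eq_zero_iff]
    intro h0
    apply h
    rw [← hXx, h0]
    rfl
  have h4 : (n : ℝ) ≤ E ^ Fintype.card (K →+* ℂ) := by
    rw [h3]
    calc ∏ σ : K →+* ℂ, ‖σ x‖ ≤ ∏ _σ : K →+* ℂ, E :=
          Finset.prod_le_prod (fun _ _ => norm_nonneg _) (fun σ _ => hE σ)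
      _ = E ^ Fintype.card (K →+* ℂ) := by rw [Finset.prod_const, Finset.card_univ]
  have h5 : ‖(n : ℚ_[p])‖ ≤ ‖σp x‖ := by
    have e1 : (n : ℚ_[p]) = σp (Y : K) * σp x := by
      rw [← map_mul, h2, map_natCast]
    rw [e1, norm_mul]
    have := norm_le_one_of_isIntegral σp Y.2
    calc ‖σp (Y : K)‖ * ‖σp x‖ ≤ 1 * ‖σp x‖ := mul_le_mul_of_nonneg_right this (norm_nonneg _)
      _ = ‖σp x‖ := one_mul _
  calc (1 : ℝ) ≤ ‖(n : ℚ_[p])‖ * n := one_le_norm_mul_natCast hn0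
    _ ≤ ‖σp x‖ * E ^ Fintype.card (K →+* ℂ) :=
        mul_le_mul h5 h4 (Nat.cast_nonneg _) (norm_nonneg _)

end Norm

theorem contra_p (C : ℝ) (h : ∀ s : ℕ, 1 ≤ s →
    (p : ℝ) ^ (s ^ 8 * (s ^ 8 - 1) / 2) ≤ Real.exp (C * s ^ 7) ^ (s ^ 8)) : False := by
  have hp1 : (1 : ℝ) < p := by exact_mod_cast hp.out.one_lt
  have hp0 : (0 : ℝ) < p := by linarith
  have hl : 0 < Real.log p := Real.log_pos hp1
  apply contra (C / Real.log p)
  intro s hs
  have h1 := h s hs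
  have h2 : Real.exp (Real.log p * ((s ^ 8 * (s ^ 8 - 1) / 2 : ℕ) : ℝ)) ≤
      Real.exp (((s ^ 8 : ℕ) : ℝ) * (C * s ^ 7)) := by
    rw [mul_comm (Real.log p), Real.exp_nat_mul, Real.exp_nat_mul, Real.exp_log hp0]
    exact h1
  rw [Real.exp_le_exp] at h2
  rw [← Real.exp_nat_mul, ← Real.exp_nat_mul, Real.exp_le_exp, mul_one]
  rw [← mul_le_mul_iff_right₀ hl]
  calc Real.log p * ((s ^ 8 * (s ^ 8 - 1) / 2 : ℕ) : ℝ) ≤ ((s ^ 8 : ℕ) : ℝ) * (C * s ^ 7) := h2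
    _ = Real.log p * (((s ^ 8 : ℕ) : ℝ) * (C / Real.log p * s ^ 7)) := by
        field_simp

end Pool.Agent.Lib.H22F301
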