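import Mathlib
import Pool.Agent.Lib.H22F301.PExp

/-!
# Zeros of `p`-adic exponential polynomials: the power series
-/

namespace Pool.Agent.Lib.H22F301

open Polynomial NormedSpace
open scoped Nat

variable {p : ℕ} [hp : Fact p.Prime]

/-- The coefficients of `x ^ i exp (w x)`. -/
noncomputable def pcoef (i : ℕ) (w : ℚ_[p]) (n : ℕ) : ℚ_[p] :=
  if i ≤ n then w ^ (n - i) / (((n - i)! : ℕ) : ℚ_[p]) else 0

theorem hasSum_pcoef (i : ℕ) {w x : ℚ_[p]} (hw : ‖w‖ ≤ ((p : ℝ) ^ 2)⁻¹) (hx : ‖x‖ ≤ 1) :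
    HasSum (fun n => pcoef i w n * x ^ n) (x ^ i * exp (w * x)) := by
  rw [← hasSum_nat_add_iff' i]
  have h1 : ∑ n ∈ Finset.range i, pcoef i w n * x ^ n = 0 := by
    apply Finset.sum_eq_zero
    intro n hn
    rw [pcoef, if_neg (by have := Finset.mem_range.1 hn; omega), zero_mul]
  rw [h1, sub_zero]
  have h2 : (fun n => pcoef i w (n + i) * x ^ (n + i)) =
      fun n => x ^ i * ((w * x) ^ n / ((n ! : ℕ) : ℚ_[p])) := by
    funext n
    rw [pcoef, if_pos (by omega), Nat.add_sub_cancel, mul_pow, pow_add]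
    ring
  rw [h2]
  apply HasSum.mul_left
  apply hasSum_exp
  rw [mul_comm]
  exact norm_mul_le' hw hx

theorem norm_pcoef_le (i : ℕ) {w : ℚ_[p]} (hw : ‖w‖ ≤ ((p : ℝ) ^ 2)⁻¹) (n : ℕ) :
    ‖pcoef i w n‖ ≤ (p : ℝ) ^ i * ((p : ℝ)⁻¹) ^ n := by
  have hp1 := one_lt_p (p := p)
  have hp0 : (0 : ℝ) < p := by linarith
  unfold pcoef
  split_ifs with h
  · obtain ⟨k, rfl⟩ := Nat.exists_eq_add_of_le h
    rw [Nat.add_sub_cancel_left, pow_add, ← mul_assoc, ← mul_pow, mul_inv_cancel₀ hp0.ne', one_pow,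
      one_mul]
    rcases k with _ | k
    · simp
    · refine (norm_term_le hw k).trans ?_
      rw [pow_succ, mul_comm]
      apply mul_le_mul_of_nonneg_left _ (by positivity)
      refine hw.trans ?_
      rw [pow_two]
      apply inv_anti₀ hp0
      nlinarith
  · rw [norm_zero]; positivity

theorem factorial_mul_pcoef (i : ℕ) (w' : ℚ_[p]) (n : ℕ) :
    ((n ! : ℕ) : ℚ_[p]) * pcoef i ((p : ℚ_[p]) ^ 2 * w') n =
      ((p : ℚ_[p]) ^ 2) ^ n * ((((p : ℚ_[p]) ^ 2) ^ i)⁻¹ *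
        ((n.descFactorial i : ℚ_[p]) * w' ^ (n - i))) := by
  have hp0 : (p : ℚ_[p]) ≠ 0 := by exact_mod_cast hp.out.ne_zero
  unfold pcoef
  split_ifs with h
  · have h1 : ((n ! : ℕ) : ℚ_[p]) = ((n - i)! : ℕ) * (n.descFactorial i : ℚ_[p]) := by
      rw [← Nat.factorial_mul_descFactorial h]; push_cast; ring
    have h2 : (((n - i)! : ℕ) : ℚ_[p]) ≠ 0 := by exact_mod_cast (n - i).factorial_ne_zero
    have h3 : ((p : ℚ_[p]) ^ 2) ^ n = ((p : ℚ_[p]) ^ 2) ^ (n - i) * ((p : ℚ_[p]) ^ 2) ^ i := by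
      rw [← pow_add]; congr 1; omega
    have h4 : ((p : ℚ_[p]) ^ 2) ^ i ≠ 0 := pow_ne_zero _ (pow_ne_zero _ hp0)
    rw [h1, mul_pow ((p : ℚ_[p]) ^ 2) w' (n - i), h3]
    field_simp
  · rw [Nat.descFactorial_eq_zero_iff_lt.2 (by omega)]
    simp

section Functional

variable {K : Type*} [Field K] [CharZero K] {D0 D1 : ℕ}

/-- The functional `g ↦ ∑ v_(i,j) g^(i)(w_j)`. -/
noncomputable def Lf (w : Fin D1 → K) (v : Fin D0 × Fin D1 → K) : K[X] →ₗ[K] K :=
  ∑ r, v r • ((Polynomial.aeval (w r.2)).toLinearMap ∘ₗ (Polynomial.derivative ^ (r.1 : ℕ)))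

theorem Lf_apply (w : Fin D1 → K) (v : Fin D0 × Fin D1 → K) (g : K[X]) :
    Lf w v g = ∑ r, v r * (derivative^[(r.1 : ℕ)] g).eval (w r.2) := by
  rw [Lf, LinearMap.sum_apply]
  refine Finset.sum_congr rfl fun r _ => ?_
  rw [LinearMap.smul_apply, LinearMap.comp_apply, Module.End.pow_apply, smul_eq_mul]
  rfl

theorem Lf_X_pow (w : Fin D1 → K) (v : Fin D0 × Fin D1 → K) (n : ℕ) :
    Lf w v (X ^ n) = ∑ r, v r * ((n.descFactorial (r.1 : ℕ) : K) * w r.2 ^ (n - (r.1 : ℕ))) := by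
  rw [Lf_apply]
  refine Finset.sum_congr rfl fun r _ => ?_
  rw [iterate_derivative_X_pow_eq_natCast_mul]
  simp

theorem Lf_eq_zero_of_dvd (w : Fin D1 → K) (v : Fin D0 × Fin D1 → K) (g : K[X])
    (h : ∀ j, (X - C (w j)) ^ D0 ∣ g) : Lf w v g = 0 := by
  rw [Lf_apply]
  apply Finset.sum_eq_zero
  intro r _
  have h1 := pow_sub_dvd_iterate_derivative_of_pow_dvd (r.1 : ℕ) (h r.2)
  have h2 : (X - C (w r.2)) ∣ derivative^[(r.1 : ℕ)] g :=
    (dvd_pow_self _ (by have := r.1.2; omega)).trans h1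
  rw [dvd_iff_isRoot] at h2
  rw [h2.eq_zero, mul_zero]

/-- The functional determines `v`. -/
theorem eq_zero_of_Lf (w : Fin D1 → K) (hw : Function.Injective w) (v : Fin D0 × Fin D1 → K)
    (h : ∀ k < D0 * D1, Lf w v (X ^ k) = 0) : v = 0 := by
  classical
  by_contra hv
  obtain ⟨r0, hr0⟩ : ∃ r, v r ≠ 0 := by
    by_contra hcon
    push Not at hcon
    exact hv (funext hcon)
  set j0 := r0.2 with hj0
  obtain ⟨i0, hi0, hmax⟩ : ∃ i0 : Fin D0, v (i0, j0) ≠ 0 ∧ ∀ i, i0 < i → v (i, j0) = 0 := by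
    set s : Finset (Fin D0) := Finset.univ.filter fun i => v (i, j0) ≠ 0 with hs
    have hne : s.Nonempty := ⟨r0.1, by rw [hs, Finset.mem_filter]; exact ⟨Finset.mem_univ _, hr0⟩⟩
    refine ⟨s.max' hne, ?_, ?_⟩
    · exact (Finset.mem_filter.1 (s.max'_mem hne)).2
    · intro i hi
      by_contra hcon
      have : i ∈ s := by rw [hs, Finset.mem_filter]; exact ⟨Finset.mem_univ _, hcon⟩
      exact absurd (s.le_max' i this) (not_le.2 hi)
  set Q : K[X] := ∏ j ∈ Finset.univ.erase j0, (X - C (w j)) ^ D0 with hQ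
  set g : K[X] := (X - C (w j0)) ^ (i0 : ℕ) * Q with hg
  have hQ0 : Q.eval (w j0) ≠ 0 := by
    rw [hQ, eval_prod, Finset.prod_ne_zero_iff]
    intro j hj
    rw [eval_pow, eval_sub, eval_X, eval_C]
    apply pow_ne_zero
    rw [sub_ne_zero]
    intro h
    exact (Finset.ne_of_mem_erase hj) (hw h).symm
  have hQne : Q ≠ 0 := by
    intro h; rw [h, eval_zero] at hQ0; exact hQ0 rfl
  have hXne : (X - C (w j0)) ^ (i0 : ℕ) ≠ 0 := pow_ne_zero _ (X_sub_C_ne_zero _)
  have hgne : g ≠ 0 := mul_ne_zero hXne hQne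
  have hmult : g.rootMultiplicity (w j0) = i0 := by
    rw [hg, rootMultiplicity_mul (mul_ne_zero hXne hQne), rootMultiplicity_X_sub_C_pow,
      rootMultiplicity_eq_zero (by rw [IsRoot.def]; exact hQ0), add_zero]
  have hdeg : g.natDegree < D0 * D1 := by
    have h1 : Q.natDegree = D0 * (D1 - 1) := by
      rw [hQ, natDegree_prod_of_monic _ _ (fun j _ => (monic_X_sub_C _).pow _)]
      simp only [natDegree_pow, natDegree_X_sub_C, mul_one, Finset.sum_const, smul_eq_mul]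
      rw [Finset.card_erase_of_mem (Finset.mem_univ _), Finset.card_univ, Fintype.card_fin,
        mul_comm]
    have h2 : g.natDegree = i0 + D0 * (D1 - 1) := by
      rw [hg, natDegree_mul hXne hQne, natDegree_pow, natDegree_X_sub_C, mul_one, h1]
    rw [h2]
    have h3 := i0.2
    have h4 : 1 ≤ D1 := by have := j0.2; omega
    calc (i0 : ℕ) + D0 * (D1 - 1) < D0 + D0 * (D1 - 1) := by omega
      _ = D0 * D1 := by
        obtain ⟨e, rfl⟩ := Nat.exists_eq_add_of_le h4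
        rw [Nat.add_sub_cancel_left]; ring
  have hLg : Lf w v g = 0 := by
    rw [g.as_sum_range_C_mul_X_pow, map_sum]
    apply Finset.sum_eq_zero
    intro k hk
    rw [← smul_eq_C_mul, map_smul, h k (by have := Finset.mem_range.1 hk; omega), smul_zero]
  rw [Lf_apply, Finset.sum_eq_single (i0, j0)] at hLg
  · have h1 := eval_iterate_derivative_rootMultiplicity (p := g) (t := w j0)
    rw [hmult] at h1
    have h2 : g /ₘ (X - C (w j0)) ^ (i0 : ℕ) = Q := by
      rw [hg]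
      exact mul_divByMonic_cancel_left _ ((monic_X_sub_C _).pow _)
    rw [h2] at h1
    simp only at hLg
    rw [h1, nsmul_eq_mul] at hLg
    rcases mul_eq_zero.1 hLg with h3 | h3
    · exact hi0 h3
    · rcases mul_eq_zero.1 h3 with h4 | h4
      · exact absurd h4 (by exact_mod_cast (i0 : ℕ).factorial_ne_zero)
      · exact hQ0 h4
  · rintro ⟨i, j⟩ - hne
    by_cases hj : j = j0
    · subst hj
      have hi : i ≠ i0 := fun h => hne (by rw [h])
      rcases lt_or_gt_of_ne hi with hlt | hgt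
      · have h1 : (derivative^[(i : ℕ)] g).IsRoot (w j0) := by
          apply isRoot_iterate_derivative_of_lt_rootMultiplicity
          rw [hmult]; exact hlt
        simp only
        rw [h1.eq_zero, mul_zero]
      · simp only
        rw [hmax i hgt, zero_mul]
    · have h1 : (X - C (w j)) ^ D0 ∣ g := by
        apply Dvd.dvd.mul_left
        rw [hQ]
        exact Finset.dvd_prod_of_mem (fun j => (X - C (w j)) ^ D0)
          (Finset.mem_erase.2 ⟨hj, Finset.mem_univ _⟩)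
      have h2 := pow_sub_dvd_iterate_derivative_of_pow_dvd (i : ℕ) h1
      have h3 : (X - C (w j)) ∣ derivative^[(i : ℕ)] g :=
        (dvd_pow_self _ (by have := i.2; omega)).trans h2
      rw [dvd_iff_isRoot] at h3
      simp only
      rw [h3.eq_zero, mul_zero]
  · intro h; exact absurd (Finset.mem_univ _) h

end Functional

/-- The functional at `X ^ n` is bounded by its values for `n < D0 D1`, if the nodes are
integral. -/
theorem norm_Lf_le {D0 D1 : ℕ} (w : Fin D1 → ℤ_[p]) (v : Fin D0 × Fin D1 → ℚ_[p]) (μ : ℝ)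
    (hμ0 : 0 ≤ μ) (hμ : ∀ k < D0 * D1, ‖Lf (fun j => (w j : ℚ_[p])) v (X ^ k)‖ ≤ μ) (n : ℕ) :
    ‖Lf (fun j => (w j : ℚ_[p])) v (X ^ n)‖ ≤ μ := by
  set χ : ℤ_[p][X] := ∏ j, (X - C (w j)) ^ D0 with hχ
  have hmonic : χ.Monic := monic_prod_of_monic _ _ fun j _ => (monic_X_sub_C _).pow _
  have hdeg : χ.natDegree = D0 * D1 := by
    rw [hχ, natDegree_prod_of_monic _ _ (fun j _ => (monic_X_sub_C _).pow _)]
    simp only [natDegree_pow, natDegree_X_sub_C, mul_one, Finset.sum_const, Finset.card_univ,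
      Fintype.card_fin, smul_eq_mul]
    ring
  set r : ℤ_[p][X] := X ^ n %ₘ χ with hr
  have h1 : r + χ * (X ^ n /ₘ χ) = X ^ n := modByMonic_add_div _ _
  have h2 : (X ^ n : ℚ_[p][X]) = r.map (algebraMap ℤ_[p] ℚ_[p]) +
      χ.map (algebraMap ℤ_[p] ℚ_[p]) * (X ^ n /ₘ χ).map (algebraMap ℤ_[p] ℚ_[p]) := by
    rw [← Polynomial.map_mul, ← Polynomial.map_add, h1, Polynomial.map_pow, map_X]
  have h3 : Lf (fun j => (w j : ℚ_[p])) v (χ.map (algebraMap ℤ_[p] ℚ_[p]) *
      (X ^ n /ₘ χ).map (algebraMap ℤ_[p] ℚ_[p])) = 0 := by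
    apply Lf_eq_zero_of_dvd
    intro j
    apply Dvd.dvd.mul_right
    rw [hχ, Polynomial.map_prod]
    have h4 : (X - C ((w j : ℚ_[p]))) ^ D0 =
        ((X - C (w j)) ^ D0 : ℤ_[p][X]).map (algebraMap ℤ_[p] ℚ_[p]) := by
      rw [Polynomial.map_pow, Polynomial.map_sub, map_X, map_C]; rfl
    rw [h4]
    exact Finset.dvd_prod_of_mem (fun j => ((X - C (w j)) ^ D0 : ℤ_[p][X]).map
      (algebraMap ℤ_[p] ℚ_[p])) (Finset.mem_univ j)
  rw [h2, map_add, h3, add_zero, (r.map (algebraMap ℤ_[p] ℚ_[p])).as_sum_range_C_mul_X_pow, map_sum]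
  apply IsUltrametricDist.norm_sum_le_of_forall_le_of_nonneg hμ0
  intro k hk
  rw [← smul_eq_C_mul, map_smul, smul_eq_mul, norm_mul]
  by_cases hkN : k < D0 * D1
  · have h4 : ‖(r.map (algebraMap ℤ_[p] ℚ_[p])).coeff k‖ ≤ 1 := by
      rw [coeff_map]; exact (r.coeff k).norm_le_one
    calc _ ≤ 1 * μ := mul_le_mul h4 (hμ k hkN) (norm_nonneg _) zero_le_one
      _ = μ := one_mul _
  · have h4 : r.coeff k = 0 := by
      by_cases hχ1 : χ = 1
      · rw [hr, hχ1, modByMonic_one, coeff_zero]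
      · apply coeff_eq_zero_of_natDegree_lt
        have := natDegree_modByMonic_lt (X ^ n : ℤ_[p][X]) hmonic hχ1
        rw [hdeg, ← hr] at this
        omega
    rw [coeff_map, h4, map_zero, norm_zero, zero_mul]
    exact hμ0

end Pool.Agent.Lib.H22F301
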