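import Mathlib

/-!
Strassmann's theorem for power series with coefficients in `Q_p` tending to zero, on `Z_p`.
-/

open Filter Topology

namespace Pool.Agent.Lib.H22F301

section

variable {p : ℕ} [hp : Fact p.Prime]

private lemma st_norm_pow_le (z : ℤ_[p]) (n : ℕ) : ‖(z : ℚ_[p]) ^ n‖ ≤ 1 := by
  rw [norm_pow]
  exact pow_le_one₀ (norm_nonneg _) (by simpa using z.norm_le_one)

private lemma st_tendsto_mul_pow {F : ℕ → ℚ_[p]} (hF : Tendsto F atTop (𝓝 0)) (z : ℤ_[p]) :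
    Tendsto (fun n => F n * (z : ℚ_[p]) ^ n) atTop (𝓝 0) := by
  rw [tendsto_zero_iff_norm_tendsto_zero] at hF ⊢
  refine squeeze_zero (fun n => norm_nonneg _) (fun n => ?_) hF
  rw [norm_mul]
  exact mul_le_of_le_one_right (norm_nonneg _) (st_norm_pow_le z n)

private lemma st_summable {F : ℕ → ℚ_[p]} (hF : Tendsto F atTop (𝓝 0)) : Summable F := by
  apply NonarchimedeanAddGroup.summable_of_tendsto_cofinite_zero
  rwa [Nat.cofinite_eq_atTop]

private lemma st_exists_lt_bound {a : ℝ} (ha : 0 < a) {f : ℕ → ℚ_[p]}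
    (hf : Tendsto f atTop (𝓝 0)) (h : ∀ n, ‖f n‖ < a) :
    ∃ C < a, ∀ n, ‖f n‖ ≤ C := by
  rw [tendsto_zero_iff_norm_tendsto_zero] at hf
  obtain ⟨N, hN⟩ := (hf.eventually (ge_mem_nhds (half_pos ha))).exists_forall_of_atTop
  have hfin : ∀ K : ℕ, ∃ C < a, ∀ n < K, ‖f n‖ ≤ C := by
    intro K
    induction K with
    | zero => exact ⟨0, ha, fun n hn => absurd hn (Nat.not_lt_zero n)⟩
    | succ K ih =>
      obtain ⟨C, hC, hCn⟩ := ih
      refine ⟨max C ‖f K‖, max_lt hC (h K), fun n hn => ?_⟩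
      rcases Nat.lt_succ_iff_lt_or_eq.mp hn with h1 | rfl
      · exact (hCn n h1).trans (le_max_left _ _)
      · exact le_max_right _ _
  obtain ⟨C, hC, hCn⟩ := hfin N
  refine ⟨max C (a / 2), max_lt hC (half_lt_self ha), fun n => ?_⟩
  rcases lt_or_ge n N with h1 | h1
  · exact (hCn n h1).trans (le_max_left _ _)
  · exact (hN n h1).trans (le_max_right _ _)

private lemma st_norm_tsum_lt {a : ℝ} (ha : 0 < a) {f : ℕ → ℚ_[p]}
    (hf : Tendsto f atTop (𝓝 0)) (h : ∀ n, ‖f n‖ < a) : ‖∑' n, f n‖ < a := by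
  obtain ⟨C, hC, hCn⟩ := st_exists_lt_bound ha hf h
  exact (IsUltrametricDist.norm_tsum_le_of_forall_le hCn).trans_lt hC

/-- The quotient of `F(z) - F(z0)` by `z - z0`. -/
private noncomputable def stG (F : ℕ → ℚ_[p]) (z : ℤ_[p]) (j : ℕ) : ℚ_[p] :=
  ∑' i, F (i + (j + 1)) * (z : ℚ_[p]) ^ i

private lemma st_shift {F : ℕ → ℚ_[p]} (hF : Tendsto F atTop (𝓝 0)) (j : ℕ) :
    Tendsto (fun i => F (i + j)) atTop (𝓝 0) := hF.comp (tendsto_add_atTop_nat j)

private lemma stG_rec {F : ℕ → ℚ_[p]} (hF : Tendsto F atTop (𝓝 0)) (z : ℤ_[p]) (j : ℕ) :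
    stG F z j = F (j + 1) + z * stG F z (j + 1) := by
  have h1 := st_summable (st_tendsto_mul_pow (st_shift hF (j + 1)) z)
  unfold stG
  rw [h1.tsum_eq_zero_add, ← tsum_mul_left]
  congr 1
  · simp
  · congr 1
    funext i
    have : i + 1 + (j + 1) = i + (j + 1 + 1) := by omega
    rw [this, pow_succ]
    ring

private lemma stG_tendsto {F : ℕ → ℚ_[p]} (hF : Tendsto F atTop (𝓝 0)) (z : ℤ_[p]) :
    Tendsto (stG F z) atTop (𝓝 0) := by
  rw [tendsto_zero_iff_norm_tendsto_zero] at hF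
  rw [Metric.tendsto_atTop]
  intro ε hε
  obtain ⟨N, hN⟩ := (hF.eventually (ge_mem_nhds (half_pos hε))).exists_forall_of_atTop
  refine ⟨N, fun j hj => ?_⟩
  rw [dist_zero_right]
  refine lt_of_le_of_lt ?_ (half_lt_self hε)
  refine IsUltrametricDist.norm_tsum_le_of_forall_le fun i => ?_
  rw [norm_mul]
  calc ‖F (i + (j + 1))‖ * ‖(z : ℚ_[p]) ^ i‖ ≤ ‖F (i + (j + 1))‖ * 1 := by
        gcongr
        exact st_norm_pow_le z i
    _ = ‖F (i + (j + 1))‖ := mul_one _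
    _ ≤ ε / 2 := hN _ (by omega)

private lemma st_eval_self {F : ℕ → ℚ_[p]} (hF : Tendsto F atTop (𝓝 0)) (z : ℤ_[p]) :
    ∑' n, F n * (z : ℚ_[p]) ^ n = F 0 + z * stG F z 0 := by
  rw [(st_summable (st_tendsto_mul_pow hF z)).tsum_eq_zero_add]
  unfold stG
  rw [← tsum_mul_left]
  congr 1
  · simp
  · congr 1
    funext i
    rw [pow_succ]
    ring

private lemma st_eval {F : ℕ → ℚ_[p]} (hF : Tendsto F atTop (𝓝 0)) (z0 z : ℤ_[p]) :
    ∑' n, F n * (z : ℚ_[p]) ^ n =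
      ∑' n, F n * (z0 : ℚ_[p]) ^ n + (z - z0) * ∑' n, stG F z0 n * (z : ℚ_[p]) ^ n := by
  have hG := stG_tendsto hF z0
  have hS := st_summable (st_tendsto_mul_pow hG z)
  have h1 : ∑' n, F n * (z : ℚ_[p]) ^ n = F 0 + ∑' n, F (n + 1) * (z : ℚ_[p]) ^ (n + 1) := by
    rw [(st_summable (st_tendsto_mul_pow hF z)).tsum_eq_zero_add]
    simp
  have h2 : ∑' n, stG F z0 n * (z : ℚ_[p]) ^ n =
      stG F z0 0 + ∑' n, stG F z0 (n + 1) * (z : ℚ_[p]) ^ (n + 1) := by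
    rw [hS.tsum_eq_zero_add]
    simp
  have hS' : Summable fun n => stG F z0 (n + 1) * (z : ℚ_[p]) ^ (n + 1) :=
    (summable_nat_add_iff 1).mpr hS
  have h3 : ∀ n, F (n + 1) * (z : ℚ_[p]) ^ (n + 1) =
      z * (stG F z0 n * (z : ℚ_[p]) ^ n) - z0 * (stG F z0 (n + 1) * (z : ℚ_[p]) ^ (n + 1)) := by
    intro n
    rw [stG_rec hF z0 n, pow_succ]
    ring
  have h4 : ∑' n, F (n + 1) * (z : ℚ_[p]) ^ (n + 1) =
      z * ∑' n, stG F z0 n * (z : ℚ_[p]) ^ n -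
        z0 * ∑' n, stG F z0 (n + 1) * (z : ℚ_[p]) ^ (n + 1) := by
    rw [← tsum_mul_left, ← tsum_mul_left, ← (hS.mul_left _).tsum_sub (hS'.mul_left _)]
    exact tsum_congr h3
  rw [h1, h4, st_eval_self hF z0]
  have h5 : ∑' n, stG F z0 (n + 1) * (z : ℚ_[p]) ^ (n + 1) =
      ∑' n, stG F z0 n * (z : ℚ_[p]) ^ n - stG F z0 0 := by
    rw [h2]
    ring
  rw [h5]
  ring

private lemma st_main (M : ℕ) : ∀ (F : ℕ → ℚ_[p]), Tendsto F atTop (𝓝 0) →
    (∀ n, ‖F n‖ ≤ ‖F M‖) → (∀ n, M < n → ‖F n‖ < ‖F M‖) →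
    ∀ ζ : Fin (M + 1) → ℤ_[p], Function.Injective ζ →
      ∃ i, (∑' n, F n * (ζ i : ℚ_[p]) ^ n) ≠ 0 := by
  induction M with
  | zero =>
    intro F hF hle hlt ζ hζ
    refine ⟨0, fun h0 => ?_⟩
    have hpos : 0 < ‖F 0‖ := (norm_nonneg _).trans_lt (hlt 1 one_pos)
    rw [(st_summable (st_tendsto_mul_pow hF (ζ 0))).tsum_eq_zero_add, pow_zero, mul_one] at h0
    have h1 : ‖∑' n, F (n + 1) * (ζ 0 : ℚ_[p]) ^ (n + 1)‖ < ‖F 0‖ := by
      refine st_norm_tsum_lt hpos ((st_tendsto_mul_pow hF (ζ 0)).comp (tendsto_add_atTop_nat 1))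
        fun n => ?_
      rw [norm_mul]
      exact (mul_le_of_le_one_right (norm_nonneg _) (st_norm_pow_le _ _)).trans_lt
        (hlt (n + 1) (by omega))
    have h2 : F 0 = -∑' n, F (n + 1) * (ζ 0 : ℚ_[p]) ^ (n + 1) := eq_neg_of_add_eq_zero_left h0
    rw [h2, norm_neg] at h1
    exact lt_irrefl _ h1
  | succ M ih =>
    intro F hF hle hlt ζ hζ
    by_contra hcon
    push Not at hcon
    have hpos : 0 < ‖F (M + 1)‖ := (norm_nonneg _).trans_lt (hlt (M + 2) (by omega))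
    set z0 : ℤ_[p] := ζ 0 with hz0
    have hG := stG_tendsto hF z0
    have hterm : ∀ j i, ‖F (i + (j + 1)) * (z0 : ℚ_[p]) ^ i‖ ≤ ‖F (i + (j + 1))‖ := by
      intro j i
      rw [norm_mul]
      exact mul_le_of_le_one_right (norm_nonneg _) (st_norm_pow_le _ _)
    have hGle : ∀ n, ‖stG F z0 n‖ ≤ ‖F (M + 1)‖ := by
      intro n
      exact IsUltrametricDist.norm_tsum_le_of_forall_le fun i => (hterm n i).trans (hle _)
    have hGlt : ∀ n, M < n → ‖stG F z0 n‖ < ‖F (M + 1)‖ := by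
      intro n hn
      refine st_norm_tsum_lt hpos (st_tendsto_mul_pow (st_shift hF (n + 1)) z0) fun i => ?_
      exact (hterm n i).trans_lt (hlt _ (by omega))
    have hGM : ‖stG F z0 M‖ = ‖F (M + 1)‖ := by
      rw [stG_rec hF z0 M]
      have h1 : ‖(z0 : ℚ_[p]) * stG F z0 (M + 1)‖ < ‖F (M + 1)‖ := by
        rw [norm_mul]
        have h2 : ‖(z0 : ℚ_[p])‖ ≤ 1 := by simpa using z0.norm_le_one
        exact (mul_le_of_le_one_left (norm_nonneg _) h2).trans_lt (hGlt (M + 1) (by omega))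
      rw [Padic.add_eq_max_of_ne h1.ne', max_eq_left h1.le]
    obtain ⟨i, hi⟩ := ih (stG F z0) hG (fun n => by rw [hGM]; exact hGle n)
      (fun n hn => by rw [hGM]; exact hGlt n hn) (fun i => ζ i.succ)
      (hζ.comp (Fin.succ_injective _))
    have h3 := st_eval hF z0 (ζ i.succ)
    rw [hcon, hcon 0, zero_add] at h3
    have h4 : ((ζ i.succ : ℚ_[p]) - z0) ≠ 0 := by
      rw [sub_ne_zero]
      intro h5
      have h6 : ζ i.succ = ζ 0 := Subtype.ext h5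
      exact (Fin.succ_ne_zero i) (hζ h6)
    exact (mul_ne_zero h4 hi) h3.symm

end

theorem strassmann {p : ℕ} [Fact p.Prime] (F : ℕ → ℚ_[p])
    (hF : Filter.Tendsto F Filter.atTop (nhds 0)) (K : ℕ)
    (hK : ∃ k < K, ∀ n, K ≤ n → ‖F n‖ < ‖F k‖) (ζ : Fin K → ℤ_[p])
    (hζ : Function.Injective ζ) : ∃ i, (∑' n, F n * (ζ i : ℚ_[p]) ^ n) ≠ 0 := by
  classical
  obtain ⟨k, hkK, hk⟩ := hK
  -- the maximum of the norms over the indices below `K`
  obtain ⟨k1, hk1, hmax⟩ := Finset.exists_max_image (Finset.range K) (fun n => ‖F n‖)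
    ⟨k, Finset.mem_range.mpr hkK⟩
  -- the last index with the maximal norm
  set S := (Finset.range K).filter (fun n => ‖F n‖ = ‖F k1‖) with hS
  have hSne : S.Nonempty := ⟨k1, Finset.mem_filter.mpr ⟨hk1, rfl⟩⟩
  set M := S.max' hSne with hM
  have hMS : M ∈ S := S.max'_mem hSne
  obtain ⟨hMK, hMeq⟩ := Finset.mem_filter.mp hMS
  rw [Finset.mem_range] at hMK
  have hkle : ‖F k‖ ≤ ‖F M‖ := by
    rw [hMeq]
    exact hmax k (Finset.mem_range.mpr hkK)
  have hle : ∀ n, ‖F n‖ ≤ ‖F M‖ := by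
    intro n
    rcases lt_or_ge n K with h | h
    · rw [hMeq]
      exact hmax n (Finset.mem_range.mpr h)
    · exact (hk n h).le.trans hkle
  have hlt : ∀ n, M < n → ‖F n‖ < ‖F M‖ := by
    intro n hn
    rcases lt_or_ge n K with h | h
    · refine lt_of_le_of_ne (hle n) fun heq => ?_
      have h1 : n ∈ S := Finset.mem_filter.mpr ⟨Finset.mem_range.mpr h, heq.trans hMeq⟩
      exact absurd (S.le_max' n h1) (not_le.mpr hn)
    · exact (hk n h).trans_le hkle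
  have hMK1 : M + 1 ≤ K := hMK
  obtain ⟨i, hi⟩ := st_main M F hF hle hlt (fun i => ζ (Fin.castLE hMK1 i))
    (hζ.comp (Fin.castLE_injective hMK1))
  exact ⟨_, hi⟩

end Pool.Agent.Lib.H22F301
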