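import Mathlib
import Pool.Agent.Lib.H22F301.PZero
import Pool.Agent.Lib.H22F301.Strassmann

/-!
# Zeros of `p`-adic exponential polynomials

A non-zero combination of the functions `x ^ i exp (w_j x)`, `i < D0`, `j < D1`, does not vanish at
`2 D0 D1` different points of `ℤ_p`.
-/

namespace Pool.Agent.Lib.H22F301

open Polynomial NormedSpace
open scoped Nat

variable {p : ℕ} [hp : Fact p.Prime]

/-- The absolute value of `p ^ (2 n) / n!`. -/
noncomputable def wt (p n : ℕ) : ℝ := (((p : ℝ) ^ 2)⁻¹) ^ n * (p : ℝ) ^ padicValNat p n !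

theorem log_lt_sub {k n : ℕ} (h : 2 * (k + 1) ≤ n) : Nat.log p n < n - k := by
  have h1 : Nat.log p n ≤ Nat.log 2 n := Nat.log_anti_left (by norm_num) hp.out.two_le
  have h2 : Nat.log 2 n < n / 2 + 1 := by
    apply Nat.log_lt_of_lt_pow (by omega)
    have h3 : n / 2 + 1 ≤ 2 ^ (n / 2) := Nat.lt_two_pow_self
    rw [pow_succ]
    omega
  omega

theorem wt_lt {k n : ℕ} (h : 2 * (k + 1) ≤ n) : wt p n < wt p k := by
  have hp1 := one_lt_p (p := p)
  have hp0 : (0 : ℝ) < p := by linarith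
  have hkn : k ≤ n := by omega
  have h1 : padicValNat p n ! = padicValNat p (n.choose k) + padicValNat p k ! +
      padicValNat p (n - k)! := by
    rw [← Nat.choose_mul_factorial_mul_factorial hkn,
      padicValNat.mul (mul_ne_zero (Nat.choose_pos hkn).ne' k.factorial_ne_zero)
        (n - k).factorial_ne_zero,
      padicValNat.mul (Nat.choose_pos hkn).ne' k.factorial_ne_zero]
  have h2 : padicValNat p (n.choose k) ≤ Nat.log p n := by
    have := Nat.factorization_choose_le_log (p := p) (n := n) (k := k)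
    rwa [Nat.factorization_def _ hp.out] at this
  have h3 := padicVal_factorial_le (p := p) (n := n - k) (by omega)
  have h4 := log_lt_sub (p := p) h
  have h5 : padicValNat p n ! < padicValNat p k ! + 2 * (n - k) := by omega
  unfold wt
  obtain ⟨e, rfl⟩ := Nat.exists_eq_add_of_le hkn
  rw [Nat.add_sub_cancel_left] at h5
  calc (((p : ℝ) ^ 2)⁻¹) ^ (k + e) * (p : ℝ) ^ padicValNat p (k + e)!
      < (((p : ℝ) ^ 2)⁻¹) ^ (k + e) * (p : ℝ) ^ (padicValNat p k ! + 2 * e) := by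
        apply mul_lt_mul_of_pos_left (pow_lt_pow_right₀ hp1 h5) (by positivity)
    _ = (((p : ℝ) ^ 2)⁻¹) ^ k * (p : ℝ) ^ padicValNat p k ! := by
        rw [pow_add, pow_add, pow_mul]
        have : (((p : ℝ) ^ 2)⁻¹) ^ e * ((p : ℝ) ^ 2) ^ e = 1 := by
          rw [← mul_pow, inv_mul_cancel₀ (by positivity), one_pow]
        calc _ = (((p : ℝ) ^ 2)⁻¹) ^ k * (p : ℝ) ^ padicValNat p k ! *
              ((((p : ℝ) ^ 2)⁻¹) ^ e * ((p : ℝ) ^ 2) ^ e) := by ring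
          _ = _ := by rw [this, mul_one]

theorem padic_zeros {D0 D1 : ℕ} (w : Fin D1 → ℚ_[p]) (hw : Function.Injective w)
    (hwn : ∀ j, ‖w j‖ ≤ ((p : ℝ) ^ 2)⁻¹) (v : Fin D0 × Fin D1 → ℚ_[p])
    (ζ : Fin (2 * (D0 * D1)) → ℤ_[p]) (hζ : Function.Injective ζ)
    (h : ∀ c, ∑ r, v r * ((ζ c : ℚ_[p]) ^ (r.1 : ℕ) * exp (w r.2 * ζ c)) = 0) : v = 0 := by
  have hp0 : (p : ℚ_[p]) ≠ 0 := by exact_mod_cast hp.out.ne_zero
  have hp1 := one_lt_p (p := p)
  have hpR : (0 : ℝ) < p := by linarith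
  have hp2 : ((p : ℚ_[p]) ^ 2) ≠ 0 := pow_ne_zero _ hp0
  have hnp2 : ‖((p : ℚ_[p]) ^ 2)‖ = ((p : ℝ) ^ 2)⁻¹ := by rw [norm_pow, Padic.norm_p, inv_pow]
  by_contra hv
  have hdiv : ∀ j, ‖w j / (p : ℚ_[p]) ^ 2‖ ≤ 1 := by
    intro j
    rw [norm_div, hnp2, div_inv_eq_mul]
    have : (0 : ℝ) < (p : ℝ) ^ 2 := by positivity
    calc ‖w j‖ * (p : ℝ) ^ 2 ≤ ((p : ℝ) ^ 2)⁻¹ * (p : ℝ) ^ 2 :=
          mul_le_mul_of_nonneg_right (hwn j) this.le
      _ = 1 := inv_mul_cancel₀ this.ne'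
  set w' : Fin D1 → ℤ_[p] := fun j => ⟨w j / (p : ℚ_[p]) ^ 2, hdiv j⟩ with hw'
  have hww : ∀ j, (p : ℚ_[p]) ^ 2 * (w' j : ℚ_[p]) = w j := fun j => mul_div_cancel₀ _ hp2
  have hw'inj : Function.Injective fun j => (w' j : ℚ_[p]) := by
    intro i j hij
    apply hw
    rw [← hww i, ← hww j]
    simp only at hij
    rw [hij]
  set v' : Fin D0 × Fin D1 → ℚ_[p] := fun r => (((p : ℚ_[p]) ^ 2) ^ (r.1 : ℕ))⁻¹ * v r with hv'
  have hv'0 : v' ≠ 0 := by
    intro h0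
    apply hv
    funext r
    have := congrFun h0 r
    simp only [hv', Pi.zero_apply, mul_eq_zero, inv_eq_zero] at this
    exact this.resolve_left (pow_ne_zero _ hp2)
  set F : ℕ → ℚ_[p] := fun n => ∑ r, v r * pcoef r.1 (w r.2) n with hF
  set Λ := Lf (fun j => (w' j : ℚ_[p])) v' with hΛ
  have hFn : ∀ n, ((n ! : ℕ) : ℚ_[p]) * F n = ((p : ℚ_[p]) ^ 2) ^ n * Λ (X ^ n) := by
    intro n
    rw [hF, hΛ, Lf_X_pow, Finset.mul_sum, Finset.mul_sum]
    refine Finset.sum_congr rfl fun r _ => ?_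
    have := factorial_mul_pcoef (r.1 : ℕ) (w' r.2 : ℚ_[p]) n
    rw [hww] at this
    calc ((n ! : ℕ) : ℚ_[p]) * (v r * pcoef r.1 (w r.2) n)
        = v r * (((n ! : ℕ) : ℚ_[p]) * pcoef r.1 (w r.2) n) := by ring
      _ = _ := by rw [this, hv']; ring
  have hnF : ∀ n, ‖F n‖ = wt p n * ‖Λ (X ^ n)‖ := by
    intro n
    have h1 : ((n ! : ℕ) : ℚ_[p]) ≠ 0 := by exact_mod_cast n.factorial_ne_zero
    have h2 : F n = ((n ! : ℕ) : ℚ_[p])⁻¹ * (((p : ℚ_[p]) ^ 2) ^ n * Λ (X ^ n)) := by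
      rw [← hFn, ← mul_assoc, inv_mul_cancel₀ h1, one_mul]
    rw [h2, norm_mul, norm_inv, norm_factorial, inv_inv, norm_mul, norm_pow, hnp2, wt]
    ring
  obtain ⟨r0, -⟩ : ∃ r, v r ≠ 0 := by
    by_contra hcon
    push Not at hcon
    exact hv (funext hcon)
  have hN : 0 < D0 * D1 := Nat.mul_pos (by have := r0.1.2; omega) (by have := r0.2.2; omega)
  obtain ⟨k0, hk0, hmax⟩ := Finset.exists_max_image (Finset.range (D0 * D1))
    (fun k => ‖Λ (X ^ k)‖) ⟨0, Finset.mem_range.2 hN⟩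
  rw [Finset.mem_range] at hk0
  have hμ : ∀ k < D0 * D1, ‖Λ (X ^ k)‖ ≤ ‖Λ (X ^ k0)‖ := fun k hk =>
    hmax k (Finset.mem_range.2 hk)
  have hpos : 0 < ‖Λ (X ^ k0)‖ := by
    rw [norm_pos_iff]
    intro h0
    apply hv'0
    apply eq_zero_of_Lf _ hw'inj
    intro k hk
    have := hμ k hk
    rw [h0, norm_zero] at this
    exact norm_le_zero_iff.1 this
  have hall := norm_Lf_le w' v' _ (norm_nonneg _) hμ
  have hdom : ∀ n, 2 * (D0 * D1) ≤ n → ‖F n‖ < ‖F k0‖ := by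
    intro n hn
    rw [hnF, hnF]
    have h1 := wt_lt (p := p) (k := k0) (n := n) (by omega)
    have h2 : 0 ≤ wt p n := by unfold wt; positivity
    calc wt p n * ‖Λ (X ^ n)‖ ≤ wt p n * ‖Λ (X ^ k0)‖ := mul_le_mul_of_nonneg_left (hall n) h2
      _ < wt p k0 * ‖Λ (X ^ k0)‖ := mul_lt_mul_of_pos_right h1 hpos
  have hFt : Filter.Tendsto F Filter.atTop (nhds 0) := by
    have h1 : ∀ r : Fin D0 × Fin D1, Filter.Tendsto (fun n => v r * pcoef r.1 (w r.2) n)
        Filter.atTop (nhds 0) := by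
      intro r
      have h2 : Filter.Tendsto (fun n => pcoef (p := p) r.1 (w r.2) n) Filter.atTop (nhds 0) := by
        rw [tendsto_zero_iff_norm_tendsto_zero]
        apply squeeze_zero (fun n => norm_nonneg _) (fun n => norm_pcoef_le r.1 (hwn r.2) n)
        have h3 : Filter.Tendsto (fun n : ℕ => ((p : ℝ)⁻¹) ^ n) Filter.atTop (nhds 0) :=
          tendsto_pow_atTop_nhds_zero_of_lt_one (by positivity) (inv_lt_one_of_one_lt₀ hp1)
        have := h3.const_mul ((p : ℝ) ^ (r.1 : ℕ))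
        rwa [mul_zero] at this
      have := h2.const_mul (v r)
      rwa [mul_zero] at this
    have := tendsto_finsetSum Finset.univ fun r _ => h1 r
    simpa using this
  obtain ⟨c, hc⟩ := strassmann F hFt (2 * (D0 * D1)) ⟨k0, by omega, hdom⟩ ζ hζ
  apply hc
  have h1 : HasSum (fun n => ∑ r, v r * (pcoef r.1 (w r.2) n * (ζ c : ℚ_[p]) ^ n))
      (∑ r, v r * ((ζ c : ℚ_[p]) ^ (r.1 : ℕ) * exp (w r.2 * ζ c))) :=
    hasSum_sum fun r _ => (hasSum_pcoef r.1 (hwn r.2) (ζ c).norm_le_one).mul_left (v r)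
  rw [h c] at h1
  rw [← h1.tsum_eq]
  congr 1
  funext n
  rw [hF, Finset.sum_mul]
  refine Finset.sum_congr rfl fun r _ => ?_
  ring

end Pool.Agent.Lib.H22F301
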