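import Mathlib
import Pool.Agent.Lib.H22F301.PGS
import Pool.Agent.Lib.H22F301.PZero2
import Pool.Agent.Lib.H22F301.Minor

/-!
# The quotient of the `p`-adic logarithms of two rational numbers: the inequality
-/

namespace Pool.Agent.Lib.H22F301

open Finset Matrix
open scoped Nat

variable {p : ℕ} [hp : Fact p.Prime]

/-- The values at `2 D0 D1` points of the functions `x ^ i exp (w_j x)`, `i < D0`, `j < D1`, have
a non-zero minor of size `D0 D1`. -/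
theorem padic_exists_minor {D0 D1 : ℕ} (w : Fin D1 → ℚ_[p]) (hw : Function.Injective w)
    (hwn : ∀ j, ‖w j‖ ≤ ((p : ℝ) ^ 2)⁻¹) (ζ : Fin (2 * (D0 * D1)) → ℤ_[p])
    (hζ : Function.Injective ζ) :
    ∃ (r : Fin (D0 * D1) → Fin D0 × Fin D1) (c : Fin (D0 * D1) → Fin (2 * (D0 * D1))),
      (Matrix.of fun i j => ((ζ (c j) : ℚ_[p]) ^ ((r i).1 : ℕ) *
        NormedSpace.exp (w (r i).2 * ζ (c j)))).det ≠ 0 := by
  classical
  have hcard : Fintype.card (Fin (D0 * D1)) = Fintype.card (Fin D0 × Fin D1) := by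
    simp only [Fintype.card_prod, Fintype.card_fin]
  set e : Fin (D0 * D1) ≃ Fin D0 × Fin D1 := Fintype.equivOfCardEq hcard with he
  set u : Fin (D0 * D1) → Fin (2 * (D0 * D1)) → ℚ_[p] := fun i c =>
    (ζ c : ℚ_[p]) ^ ((e i).1 : ℕ) * NormedSpace.exp (w (e i).2 * ζ c) with hu
  have hli : LinearIndependent ℚ_[p] u := by
    rw [Fintype.linearIndependent_iff]
    intro g hg
    have h0 : (fun r => g (e.symm r)) = 0 := by
      apply padic_zeros w hw hwn _ ζ hζ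
      intro c
      have h1 := congrFun hg c
      rw [Finset.sum_apply] at h1
      simp only [Pi.smul_apply, smul_eq_mul, Pi.zero_apply] at h1
      rw [← h1, ← e.sum_comp]
      refine Finset.sum_congr rfl fun i _ => ?_
      rw [Equiv.symm_apply_apply]
    intro i
    have := congrFun h0 (e i)
    simpa using this
  have hrank : D0 * D1 ≤ Module.finrank ℚ_[p] (Submodule.span ℚ_[p] (Set.range u)) := by
    rw [finrank_span_eq_card hli, Fintype.card_fin]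
  obtain ⟨a, b, hab⟩ := exists_minor u hrank
  exact ⟨fun i => e (a i), b, hab⟩

theorem padic_key_ineq {K : Type*} [Field K] [NumberField K] (σp : K →+* ℚ_[p]) (ϑ : K) (a b : ℚ)
    (ha : 0 < a) (hb : 0 < b) {w1 w2 : ℚ_[p]} (hw1 : ‖w1‖ ≤ ((p : ℝ) ^ 2)⁻¹)
    (hw2 : ‖w2‖ ≤ ((p : ℝ) ^ 2)⁻¹) (hw10 : w1 ≠ 0)
    (hea : NormedSpace.exp w1 = (a : ℚ_[p])) (heb : NormedSpace.exp w2 = (b : ℚ_[p]))
    (hθ : σp ϑ * w1 = w2) (hθ1 : ‖σp ϑ‖ ≤ 1)
    (hinj : ∀ k l k' l' : ℕ, (k : ℚ_[p]) + l * σp ϑ = k' + l' * σp ϑ → k = k' ∧ l = l')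
    (q : ℕ) (hq0 : q ≠ 0) (hq : IsIntegral ℤ ((q : K) * ϑ)) :
    ∃ C : ℝ, ∀ s : ℕ, 1 ≤ s →
      (p : ℝ) ^ (s ^ 8 * (s ^ 8 - 1) / 2) ≤ Real.exp (C * s ^ 7) ^ (s ^ 8) := by
  classical
  have hpR : (1 : ℝ) < p := one_lt_p
  have hp0 : (0 : ℝ) < p := by linarith
  set δ := Fintype.card (K →+* ℂ) with hδ
  set θ := σp ϑ with hθ'
  set C1 : ℝ := 1 + ∑ σ : K →+* ℂ, ‖σ ϑ‖ with hC1
  set H : ℝ := 1 + a + b with hH
  have haR : (0 : ℝ) < a := by exact_mod_cast ha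
  have hbR : (0 : ℝ) < b := by exact_mod_cast hb
  have hsum0 : 0 ≤ ∑ σ : K →+* ℂ, ‖σ ϑ‖ := Finset.sum_nonneg fun _ _ => norm_nonneg _
  have hC1σ : ∀ σ : K →+* ℂ, 1 + ‖σ ϑ‖ ≤ C1 := fun σ => by
    rw [hC1]
    gcongr
    exact Finset.single_le_sum (f := fun σ : K →+* ℂ => ‖σ ϑ‖) (fun _ _ => norm_nonneg _)
      (mem_univ σ)
  have hC11 : 1 ≤ C1 := by rw [hC1]; linarith
  have hH1 : 1 ≤ H := by rw [hH]; linarith
  set cE : ℝ := q + ((a.den ^ 2 : ℕ) : ℝ) + ((b.den ^ 2 : ℕ) : ℝ) + (4 + 2 * C1) + 2 * H ^ 2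
    with hcE
  refine ⟨p + δ * (8 + cE), fun s hs => ?_⟩
  have hs' : (1 : ℝ) ≤ s := by exact_mod_cast hs
  set D0 := s ^ 6 with hD0
  set D1 := s ^ 2 with hD1
  have hN : D0 * D1 = s ^ 8 := by rw [hD0, hD1]; ring
  have h8 : Fintype.card (Fin (D0 * D1)) = s ^ 8 := by rw [Fintype.card_fin, hN]
  -- the points
  have hcard : Fintype.card (Fin (2 * (D0 * D1))) =
      Fintype.card (Fin (2 * s ^ 4) × Fin (s ^ 4)) := by
    simp only [Fintype.card_prod, Fintype.card_fin]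
    rw [hN]
    ring
  set η := Fintype.equivOfCardEq hcard with hη
  have hz1 : ∀ k l : ℕ, ‖(k : ℚ_[p]) + l * θ‖ ≤ 1 := by
    intro k l
    refine (Padic.nonarchimedean _ _).trans (max_le ?_ ?_)
    · exact_mod_cast Padic.norm_int_le_one (p := p) (k : ℤ)
    · rw [norm_mul]
      have : ‖(l : ℚ_[p])‖ ≤ 1 := by exact_mod_cast Padic.norm_int_le_one (p := p) (l : ℤ)
      exact mul_le_one₀ this (norm_nonneg _) hθ1
  set ζ : Fin (2 * (D0 * D1)) → ℤ_[p] := fun c =>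
    ⟨((η c).1 : ℕ) + ((η c).2 : ℕ) * θ, hz1 _ _⟩ with hζ
  have hζv : ∀ c, (ζ c : ℚ_[p]) = ((η c).1 : ℕ) + ((η c).2 : ℕ) * θ := fun c => rfl
  have hζinj : Function.Injective ζ := by
    intro c c' h
    have h1 : (ζ c : ℚ_[p]) = ζ c' := by rw [h]
    rw [hζv, hζv] at h1
    have h2 := hinj _ _ _ _ h1
    apply η.injective
    exact Prod.ext (Fin.ext h2.1) (Fin.ext h2.2)
  set w : Fin D1 → ℚ_[p] := fun j => ((j : ℕ) : ℚ_[p]) * w1 with hw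
  have hwinj : Function.Injective w := by
    intro j j' h
    have h2 : ((j : ℕ) : ℚ_[p]) = (j' : ℕ) := mul_right_cancel₀ hw10 h
    exact Fin.ext (by exact_mod_cast h2)
  have hnat : ∀ k : ℕ, ‖(k : ℚ_[p])‖ ≤ 1 := fun k => by
    exact_mod_cast Padic.norm_int_le_one (p := p) (k : ℤ)
  have hwn : ∀ j, ‖w j‖ ≤ ((p : ℝ) ^ 2)⁻¹ := fun j => norm_mul_le' hw1 (hnat _)
  obtain ⟨r, c, hdet0⟩ := padic_exists_minor w hwinj hwn ζ hζinj
  set MP : Matrix (Fin (D0 * D1)) (Fin (D0 * D1)) ℚ_[p] :=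
    Matrix.of fun i j => ((ζ (c j) : ℚ_[p]) ^ ((r i).1 : ℕ) *
        NormedSpace.exp (w (r i).2 * ζ (c j))) with hMP
  set MK : Matrix (Fin (D0 * D1)) (Fin (D0 * D1)) K :=
    Matrix.of fun i j => ent ϑ a b (r i).1 (r i).2 (η (c j)).1 (η (c j)).2 with hMK
  have hMKP : σp MK.det = MP.det := by
    rw [RingHom.map_det]
    congr 1
    ext i j
    simp only [RingHom.mapMatrix_apply, Matrix.map_apply, hMK, hMP, Matrix.of_apply, ent, map_mul,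
      map_pow, map_add, map_natCast, map_ratCast, hζv, hw]
    congr 1
    push_cast
    have e1 : (((r i).2 : ℕ) : ℚ_[p]) * w1 * (((η (c j)).1 : ℕ) + ((η (c j)).2 : ℕ) * θ) =
        ((((r i).2 : ℕ) * ((η (c j)).1 : ℕ) : ℕ) : ℚ_[p]) * w1 +
          ((((r i).2 : ℕ) * ((η (c j)).2 : ℕ) : ℕ) : ℚ_[p]) * w2 := by
      rw [← hθ]; push_cast; ring
    rw [e1, exp_add' (norm_mul_le' hw1 (hnat _)) (norm_mul_le' hw2 (hnat _)), exp_nat_mul' hw1,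
      exp_nat_mul' hw2, hea, heb]
  have hMK0 : MK.det ≠ 0 := by
    intro h
    apply hdet0
    rw [← hMKP, h, map_zero]
  set Q : ℕ := den q a b (s ^ 6) (2 * s ^ 6) with hQ
  have hQ0 : Q ≠ 0 := by
    rw [hQ, den]
    have := a.den_pos.ne'
    have := b.den_pos.ne'
    positivity
  have hjk : ∀ (j : Fin D1) (k : Fin (2 * s ^ 4)), (j : ℕ) * (k : ℕ) ≤ 2 * s ^ 6 := fun j k => by
    calc (j : ℕ) * (k : ℕ) ≤ s ^ 2 * (2 * s ^ 4) := Nat.mul_le_mul j.2.le k.2.le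
      _ = 2 * s ^ 6 := by ring
  have hjl : ∀ (j : Fin D1) (k : Fin (s ^ 4)), (j : ℕ) * (k : ℕ) ≤ 2 * s ^ 6 := fun j k => by
    calc (j : ℕ) * (k : ℕ) ≤ s ^ 2 * s ^ 4 := Nat.mul_le_mul j.2.le k.2.le
      _ = s ^ 6 := by ring
      _ ≤ 2 * s ^ 6 := by omega
  set x : K := ((Q : K) • MK).det with hx
  have hxe : x = (Q : K) ^ (s ^ 8) * MK.det := by
    rw [hx, Matrix.det_smul, h8]
  have hxint : IsIntegral ℤ x := by
    apply IsIntegral.det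
    intro i j
    exact isIntegral_ent ϑ q hq a b (r i).1.2.le (hjk _ _) (hjl _ _)
  have hx0 : x ≠ 0 := by
    rw [hxe]
    exact mul_ne_zero (pow_ne_zero _ (by exact_mod_cast hQ0)) hMK0
  set E : ℝ := (Q : ℝ) * ((((2 * s ^ 4 : ℕ) : ℝ) * C1) ^ (s ^ 6) *
    (H ^ (2 * s ^ 6) * H ^ (2 * s ^ 6))) with hE
  have hEle : E ≤ Real.exp (cE * (s : ℝ) ^ 7) := by
    have := E_le (q := q) (ad := a.den ^ 2) (bd := b.den ^ 2) (C1 := 2 * C1) (H := H ^ 2) hs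
      (by linarith) (by positivity)
    refine le_trans (le_of_eq ?_) this
    rw [hE, hQ, den]
    simp only [← pow_mul]
    push_cast
    ring
  have hS4 : 1 ≤ 2 * s ^ 4 := by
    have := Nat.one_le_pow 4 s (by omega)
    omega
  have hE0 : 0 ≤ E := by rw [hE]; positivity
  have hσx : ∀ σ : K →+* ℂ, ‖σ x‖ ≤ ((s ^ 8)! : ℕ) * E ^ (s ^ 8) := by
    intro σ
    rw [hx, RingHom.map_det, ← h8]
    apply norm_det_le
    intro i j
    simp only [RingHom.mapMatrix_apply, Matrix.map_apply, Matrix.smul_apply, smul_eq_mul, map_mul,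
      map_natCast, norm_mul]
    rw [hE]
    have h1 : ‖((Q : ℕ) : ℂ)‖ = (Q : ℝ) := by simp
    rw [h1]
    apply mul_le_mul_of_nonneg_left _ (by positivity)
    exact norm_ent_le ϑ a b ha hb σ (hC1σ σ) hH1 (by rw [hH]; linarith) (by rw [hH]; linarith) hS4
      (r i).1.2.le (hjk _ _) (hjl _ _) (η (c j)).1.2.le
      (by have := (η (c j)).2.2; omega)
  have hL := one_le_padic_norm_mul_pow hxint hx0 σp _ hσx
  rw [hxe, map_mul, map_pow, map_natCast, hMKP, norm_mul, norm_pow] at hL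
  -- the analytic bound
  have hdet := padic_det_bound (p := p) (ι := Fin (D0 * D1))
    (fun i n => pcoef (r i).1 (w (r i).2) n) (fun _ => (p : ℝ) ^ (s ^ 6))
    (fun _ => by positivity) (ρ := (p : ℝ)⁻¹) (by positivity) (inv_le_one_of_one_le₀ hpR.le)
    (by
      intro i n
      refine (norm_pcoef_le _ (hwn _) n).trans ?_
      apply mul_le_mul_of_nonneg_right _ (by positivity)
      exact pow_le_pow_right₀ hpR.le (r i).1.2.le)
    (fun i x => x ^ ((r i).1 : ℕ) * NormedSpace.exp (w (r i).2 * x))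
    (fun i x hx => hasSum_pcoef _ (hwn _) hx) (fun j => (ζ (c j) : ℚ_[p]))
    (fun j => (ζ (c j)).norm_le_one)
  rw [h8, Finset.prod_const, Finset.card_univ, h8] at hdet
  have hdet' : ‖MP.det‖ ≤ ((p : ℝ) ^ (s ^ 6)) ^ (s ^ 8) *
      (p : ℝ)⁻¹ ^ (s ^ 8 * (s ^ 8 - 1) / 2) := hdet
  have hfac := factorial_le_exp hs
  set T := s ^ 8 * (s ^ 8 - 1) / 2 with hT
  have hpT : (0 : ℝ) < (p : ℝ) ^ T := by positivity
  have hQn : ‖(Q : ℚ_[p])‖ ^ (s ^ 8) ≤ 1 := pow_le_one₀ (norm_nonneg _) (hnat Q)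
  have hG0 : 0 ≤ ((((s ^ 8)! : ℕ) : ℝ) * E ^ (s ^ 8)) ^ δ := by positivity
  have h1 : (1 : ℝ) ≤ (((p : ℝ) ^ (s ^ 6)) ^ (s ^ 8) * (p : ℝ)⁻¹ ^ T) *
      ((((s ^ 8)! : ℕ) : ℝ) * E ^ (s ^ 8)) ^ δ := by
    refine hL.trans (mul_le_mul_of_nonneg_right ?_ hG0)
    calc ‖(Q : ℚ_[p])‖ ^ (s ^ 8) * ‖MP.det‖ ≤ 1 * ‖MP.det‖ :=
          mul_le_mul_of_nonneg_right hQn (norm_nonneg _)
      _ ≤ _ := by rw [one_mul]; exact hdet'
  have h2 : (p : ℝ) ^ T * (p : ℝ)⁻¹ ^ T = 1 := by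
    rw [← mul_pow, mul_inv_cancel₀ hp0.ne', one_pow]
  have hp6 : (p : ℝ) ^ (s ^ 6) ≤ Real.exp (p * (s : ℝ) ^ 7) := by
    have := pow_le_exp (x := (p : ℝ)) (by positivity) (le_exp _) (s ^ 6)
    refine this.trans (Real.exp_le_exp.2 ?_)
    push_cast
    exact mul_le_mul_of_nonneg_left (pow_le_pow_right₀ hs' (by norm_num)) hp0.le
  calc (p : ℝ) ^ T = (p : ℝ) ^ T * 1 := (mul_one _).symm
    _ ≤ (p : ℝ) ^ T * ((((p : ℝ) ^ (s ^ 6)) ^ (s ^ 8) * (p : ℝ)⁻¹ ^ T) *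
      ((((s ^ 8)! : ℕ) : ℝ) * E ^ (s ^ 8)) ^ δ) := mul_le_mul_of_nonneg_left h1 hpT.le
    _ = ((p : ℝ) ^ T * (p : ℝ)⁻¹ ^ T) * (((p : ℝ) ^ (s ^ 6)) ^ (s ^ 8) *
      ((((s ^ 8)! : ℕ) : ℝ) * E ^ (s ^ 8)) ^ δ) := by ring
    _ = ((p : ℝ) ^ (s ^ 6)) ^ (s ^ 8) * ((((s ^ 8)! : ℕ) : ℝ) * E ^ (s ^ 8)) ^ δ := by
        rw [h2, one_mul]
    _ ≤ Real.exp (p * (s : ℝ) ^ 7) ^ (s ^ 8) *
        (Real.exp (8 * (s : ℝ) ^ 7) ^ (s ^ 8) * Real.exp (cE * (s : ℝ) ^ 7) ^ (s ^ 8)) ^ δ := by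
        gcongr
    _ = Real.exp ((p + δ * (8 + cE)) * s ^ 7) ^ (s ^ 8) := by
        have e1 : Real.exp ((p + δ * (8 + cE)) * s ^ 7) =
            Real.exp (p * (s : ℝ) ^ 7) *
              (Real.exp (8 * (s : ℝ) ^ 7) * Real.exp (cE * (s : ℝ) ^ 7)) ^ δ := by
          rw [← Real.exp_add, ← Real.exp_nat_mul, ← Real.exp_add]
          congr 1
          ring
        rw [e1]
        ring

end Pool.Agent.Lib.H22F301
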