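import Mathlib
import Pool.Agent.Lib.H22F301.PGS2
import Pool.Agent.Lib.H22F301.PExp2

/-!
# The quotient of the `p`-adic logarithms of two rational numbers is transcendental
-/

namespace Pool.Agent.Lib.H22F301

open NormedSpace
open scoped IntermediateField

variable {p : ℕ} [hp : Fact p.Prime]

theorem norm_nat_le (k : ℕ) : ‖(k : ℚ_[p])‖ ≤ 1 := by
  exact_mod_cast Padic.norm_int_le_one (p := p) (k : ℤ)

/-- `p`-adic logarithms of multiplicatively independent rational numbers. -/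
theorem padic_indep {a b : ℚ} (ha : 0 < a) (hb : 0 < b)
    (hind : ∀ k l : ℤ, a ^ k * b ^ l = 1 → k = 0 ∧ l = 0) {w1 w2 : ℚ_[p]}
    (hw1 : ‖w1‖ ≤ ((p : ℝ) ^ 2)⁻¹) (hw2 : ‖w2‖ ≤ ((p : ℝ) ^ 2)⁻¹)
    (hea : exp w1 = (a : ℚ_[p])) (heb : exp w2 = (b : ℚ_[p])) (k l k' l' : ℕ)
    (h : (k : ℚ_[p]) * w1 + l * w2 = k' * w1 + l' * w2) : k = k' ∧ l = l' := by
  have h1 : (a : ℚ_[p]) ^ k * (b : ℚ_[p]) ^ l = (a : ℚ_[p]) ^ k' * (b : ℚ_[p]) ^ l' := by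
    have e : ∀ k l : ℕ, (a : ℚ_[p]) ^ k * (b : ℚ_[p]) ^ l = exp ((k : ℚ_[p]) * w1 + l * w2) := by
      intro k l
      rw [exp_add' (norm_mul_le' hw1 (norm_nat_le _)) (norm_mul_le' hw2 (norm_nat_le _)),
        exp_nat_mul' hw1, exp_nat_mul' hw2, hea, heb]
    rw [e, e, h]
  have h2 : a ^ k * b ^ l = a ^ k' * b ^ l' := by exact_mod_cast h1
  have h3 : a ^ ((k : ℤ) - k') * b ^ ((l : ℤ) - l') = 1 := by
    rw [zpow_sub₀ ha.ne', zpow_sub₀ hb.ne', zpow_natCast, zpow_natCast, zpow_natCast, zpow_natCast,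
      div_mul_div_comm, h2]
    exact div_self (mul_ne_zero (pow_ne_zero _ ha.ne') (pow_ne_zero _ hb.ne'))
  have h4 := hind _ _ h3
  omega

theorem padic_ne_zero {a b : ℚ} (ha : 0 < a) (hb : 0 < b)
    (hind : ∀ k l : ℤ, a ^ k * b ^ l = 1 → k = 0 ∧ l = 0) {w1 w2 : ℚ_[p]}
    (hw1 : ‖w1‖ ≤ ((p : ℝ) ^ 2)⁻¹) (hw2 : ‖w2‖ ≤ ((p : ℝ) ^ 2)⁻¹)
    (hea : exp w1 = (a : ℚ_[p])) (heb : exp w2 = (b : ℚ_[p])) : w1 ≠ 0 := by
  intro h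
  have := padic_indep ha hb hind hw1 hw2 hea heb 1 0 0 0 (by rw [h]; simp)
  exact one_ne_zero this.1

theorem padic_transcendental_aux {a b : ℚ} (ha : 0 < a) (hb : 0 < b)
    (hind : ∀ k l : ℤ, a ^ k * b ^ l = 1 → k = 0 ∧ l = 0) {w1 w2 : ℚ_[p]}
    (hw1 : ‖w1‖ ≤ ((p : ℝ) ^ 2)⁻¹) (hw2 : ‖w2‖ ≤ ((p : ℝ) ^ 2)⁻¹)
    (hea : exp w1 = (a : ℚ_[p])) (heb : exp w2 = (b : ℚ_[p])) (hle : ‖w2‖ ≤ ‖w1‖) :
    Transcendental ℚ (w2 / w1) := by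
  intro halg
  have hw10 : w1 ≠ 0 := padic_ne_zero ha hb hind hw1 hw2 hea heb
  set θ := w2 / w1 with hθ
  have hθw : θ * w1 = w2 := div_mul_cancel₀ _ hw10
  have hθ1 : ‖θ‖ ≤ 1 := by
    rw [hθ, norm_div]
    exact div_le_one_of_le₀ hle (norm_nonneg _)
  have hfin : FiniteDimensional ℚ ℚ⟮θ⟯ := IntermediateField.adjoin.finiteDimensional
    halg.isIntegral
  have hnf : NumberField ℚ⟮θ⟯ := { to_charZero := inferInstance, to_finiteDimensional := hfin }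
  set ϑ : ℚ⟮θ⟯ := IntermediateField.AdjoinSimple.gen ℚ θ with hϑ
  have hgen : algebraMap ℚ⟮θ⟯ ℚ_[p] ϑ = θ := IntermediateField.AdjoinSimple.algebraMap_gen ℚ θ
  have hZ : IsAlgebraic ℤ ϑ := (IsFractionRing.isAlgebraic_iff ℤ ℚ ℚ⟮θ⟯).2
    (Algebra.IsAlgebraic.isAlgebraic ϑ)
  obtain ⟨y, hy0, hy⟩ := hZ.exists_integral_multiple
  have hq : IsIntegral ℤ (((y.natAbs : ℕ) : ℚ⟮θ⟯) * ϑ) := by
    rcases Int.natAbs_eq y with h | h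
    · rw [h] at hy
      simpa [zsmul_eq_mul] using hy
    · rw [h] at hy
      have := hy.neg
      simpa [zsmul_eq_mul] using this
  obtain ⟨C, hC⟩ := padic_key_ineq (algebraMap ℚ⟮θ⟯ ℚ_[p]) ϑ a b ha hb hw1 hw2 hw10 hea heb
    (by rw [hgen]; exact hθw) (by rw [hgen]; exact hθ1)
    (by
      intro k l k' l' h
      rw [hgen] at h
      apply padic_indep ha hb hind hw1 hw2 hea heb
      rw [← hθw]
      linear_combination w1 * h)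
    y.natAbs (Int.natAbs_ne_zero.2 hy0) hq
  exact contra_p C hC

/-- **Mahler**: the quotient of the `p`-adic logarithms is transcendental. -/
theorem padic_transcendental {a b : ℚ} (ha : 0 < a) (hb : 0 < b)
    (hind : ∀ k l : ℤ, a ^ k * b ^ l = 1 → k = 0 ∧ l = 0) {w1 w2 : ℚ_[p]}
    (hw1 : ‖w1‖ ≤ ((p : ℝ) ^ 2)⁻¹) (hw2 : ‖w2‖ ≤ ((p : ℝ) ^ 2)⁻¹)
    (hea : exp w1 = (a : ℚ_[p])) (heb : exp w2 = (b : ℚ_[p])) :
    Transcendental ℚ (w2 / w1) := by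
  rcases le_total ‖w2‖ ‖w1‖ with hle | hle
  · exact padic_transcendental_aux ha hb hind hw1 hw2 hea heb hle
  · have hind' : ∀ k l : ℤ, b ^ k * a ^ l = 1 → k = 0 ∧ l = 0 := by
      intro k l h
      have := hind l k (by rw [mul_comm]; exact h)
      exact ⟨this.2, this.1⟩
    have h1 := padic_transcendental_aux hb ha hind' hw2 hw1 heb hea hle
    intro halg
    apply h1
    have := halg.inv
    rwa [inv_div] at this

/-- The form with an abstract logarithm. -/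
theorem transcendental_lg {lg : ℚ_[p]ˣ →* Multiplicative ℚ_[p]} {N : ℕ} (hN : 0 < N)
    (hlg : Continuous fun y => Multiplicative.toAdd (lg y))
    (hker : ∀ y : ℚ_[p]ˣ, ‖(y : ℚ_[p])‖ = 1 → Multiplicative.toAdd (lg y) = 0 → y ^ N = 1)
    {g₁ g₂ : ℚˣ} (hind : ∀ a b : ℤ, g₁ ^ a * g₂ ^ b = 1 → a = 0 ∧ b = 0)
    (h1 : ‖((Units.map (algebraMap ℚ ℚ_[p]).toMonoidHom g₁ : ℚ_[p]ˣ) : ℚ_[p])‖ = 1)
    (h2 : ‖((Units.map (algebraMap ℚ ℚ_[p]).toMonoidHom g₂ : ℚ_[p]ˣ) : ℚ_[p])‖ = 1) :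
    Multiplicative.toAdd (lg (Units.map (algebraMap ℚ ℚ_[p]).toMonoidHom g₁)) ≠ 0 ∧
    Transcendental ℚ (Multiplicative.toAdd (lg (Units.map (algebraMap ℚ ℚ_[p]).toMonoidHom g₂)) /
      Multiplicative.toAdd (lg (Units.map (algebraMap ℚ ℚ_[p]).toMonoidHom g₁))) := by
  obtain ⟨c, hc0, hc1, hc2⟩ := exists_exp_log lg hN hlg hker
  set G₁ : ℚ_[p]ˣ := Units.map (algebraMap ℚ ℚ_[p]).toMonoidHom g₁ with hG₁
  set G₂ : ℚ_[p]ˣ := Units.map (algebraMap ℚ ℚ_[p]).toMonoidHom g₂ with hG₂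
  obtain ⟨M₁, hM₁, w₁, hw₁, he₁⟩ := hc2 G₁ h1
  obtain ⟨M₂, hM₂, w₂, hw₂, he₂⟩ := hc2 G₂ h2
  have hl1 : (M₁ : ℚ_[p]) * Multiplicative.toAdd (lg G₁) = c * w₁ := by
    rw [← hc1 (G₁ ^ M₁) w₁ hw₁ he₁, map_pow, toAdd_pow, nsmul_eq_mul]
  have hl2 : (M₂ : ℚ_[p]) * Multiplicative.toAdd (lg G₂) = c * w₂ := by
    rw [← hc1 (G₂ ^ M₂) w₂ hw₂ he₂, map_pow, toAdd_pow, nsmul_eq_mul]
  set a : ℚ := ((g₁ : ℚ) ^ M₁) ^ 2 with ha
  set b : ℚ := ((g₂ : ℚ) ^ M₂) ^ 2 with hb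
  have hapos : 0 < a := by
    have := g₁.ne_zero
    positivity
  have hbpos : 0 < b := by
    have := g₂.ne_zero
    positivity
  have hab : ∀ k l : ℤ, a ^ k * b ^ l = 1 → k = 0 ∧ l = 0 := by
    intro k l h
    have h3 : g₁ ^ ((M₁ * 2 : ℕ) * k : ℤ) * g₂ ^ ((M₂ * 2 : ℕ) * l : ℤ) = 1 := by
      apply Units.ext
      rw [Units.val_mul, Units.val_zpow_eq_zpow_val, Units.val_zpow_eq_zpow_val, zpow_mul, zpow_mul,
        zpow_natCast, zpow_natCast, pow_mul, pow_mul, Units.val_one]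
      exact h
    have h4 := hind _ _ h3
    have e1 : ((M₁ * 2 : ℕ) : ℤ) ≠ 0 := by positivity
    have e2 : ((M₂ * 2 : ℕ) : ℤ) ≠ 0 := by positivity
    exact ⟨(mul_eq_zero.1 h4.1).resolve_left e1, (mul_eq_zero.1 h4.2).resolve_left e2⟩
  have h2w : ∀ w : ℚ_[p], ‖w‖ ≤ ((p : ℝ) ^ 2)⁻¹ → ‖((2 : ℕ) : ℚ_[p]) * w‖ ≤ ((p : ℝ) ^ 2)⁻¹ :=
    fun w hw => norm_mul_le' hw (norm_nat_le 2)
  have hea : exp (((2 : ℕ) : ℚ_[p]) * w₁) = (a : ℚ_[p]) := by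
    rw [exp_nat_mul' hw₁, ← he₁, ha, Units.val_pow_eq_pow_val]
    push_cast
    rfl
  have heb : exp (((2 : ℕ) : ℚ_[p]) * w₂) = (b : ℚ_[p]) := by
    rw [exp_nat_mul' hw₂, ← he₂, hb, Units.val_pow_eq_pow_val]
    push_cast
    rfl
  have hM₁0 : (M₁ : ℚ_[p]) ≠ 0 := by exact_mod_cast hM₁.ne'
  have hM₂0 : (M₂ : ℚ_[p]) ≠ 0 := by exact_mod_cast hM₂.ne'
  have h20 : ((2 : ℕ) : ℚ_[p]) ≠ 0 := by norm_num
  have hw10 : w₁ ≠ 0 := by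
    have := padic_ne_zero hapos hbpos hab (h2w _ hw₁) (h2w _ hw₂) hea heb
    exact right_ne_zero_of_mul this
  have hl10 : Multiplicative.toAdd (lg G₁) ≠ 0 := by
    intro h0
    rw [h0, mul_zero] at hl1
    exact (mul_ne_zero hc0 hw10) hl1.symm
  refine ⟨hl10, ?_⟩
  intro halg
  have htr := padic_transcendental hapos hbpos hab (h2w _ hw₁) (h2w _ hw₂) hea heb
  apply htr
  have e1 : ((2 : ℕ) : ℚ_[p]) * w₂ / (((2 : ℕ) : ℚ_[p]) * w₁) =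
      ((M₂ / M₁ : ℚ) : ℚ_[p]) * (Multiplicative.toAdd (lg G₂) / Multiplicative.toAdd (lg G₁)) := by
    push_cast
    field_simp
    linear_combination w₂ * hl1 - w₁ * hl2
  rw [e1]
  exact (isAlgebraic_algebraMap (R := ℚ) (A := ℚ_[p]) (M₂ / M₁ : ℚ)).mul halg

end Pool.Agent.Lib.H22F301
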