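import Mathlib
import Pool.Agent.Lib.H22F301.Top
import Pool.Agent.Lib.H22F301.GS4
import Pool.Agent.Lib.H22F301.PLog
import Pool.Agent.Lib.H22F301.Minor

/-!
# Pencils of integer matrices

Rank comparison for `x A + y B`, `A`, `B` integer matrices, at `(x, y)` in an arbitrary field of
characteristic `0` and at a real point `(x, y)` with `y / x` transcendental.
-/

namespace Pool.Agent.Lib.H22F301

open Polynomial

/-- Free generators of a free abelian group. -/
theorem exists_basis {G : Type*} [CommGroup G] {F : Subgroup G} {k : ℕ} (hF : FreeOfRank F k) :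
    ∃ f : Fin k → G, (∀ x : G, x ∈ F ↔ ∃ c : Fin k → ℤ, x = ∏ i, f i ^ c i) ∧
      ∀ c : Fin k → ℤ, ∏ i, f i ^ c i = 1 → c = 0 := by
  obtain ⟨e⟩ := hF
  have key : ∀ c : Fin k → ℤ, ((e.symm (Multiplicative.ofAdd c) : F) : G) =
      ∏ i, (((e.symm (Multiplicative.ofAdd (Pi.single i 1)) : F) : G)) ^ c i := by
    intro c
    have h1 : Multiplicative.ofAdd c =
        ∏ i, (Multiplicative.ofAdd (Pi.single i (1 : ℤ) : Fin k → ℤ)) ^ c i := by
      have h2 : c = ∑ i, c i • (Pi.single i (1 : ℤ) : Fin k → ℤ) := by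
        funext j
        simp [Finset.sum_apply, Pi.single_apply]
      conv_lhs => rw [h2]
      rw [ofAdd_sum]
      rfl
    rw [h1, map_prod, Subgroup.val_finsetProd]
    simp only [map_zpow, Subgroup.coe_zpow]
  refine ⟨fun i => (e.symm (Multiplicative.ofAdd (Pi.single i 1)) : F), ?_, ?_⟩
  · intro x
    constructor
    · intro hx
      refine ⟨Multiplicative.toAdd (e ⟨x, hx⟩), ?_⟩
      rw [← key]
      simp
    · rintro ⟨c, rfl⟩
      rw [← key]
      exact SetLike.coe_mem _
  · intro c hc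
    rw [← key] at hc
    have h1 : e.symm (Multiplicative.ofAdd c) = 1 := Subtype.ext hc
    rw [MulEquiv.map_eq_one_iff] at h1
    exact ofAdd_eq_one.1 h1

/-- If the determinant of `A + Y B` is the zero polynomial, then all members of the pencil over a
field of characteristic `0` are singular. -/
theorem det_pencil_eq_zero {𝕜 : Type*} [Field 𝕜] [CharZero 𝕜] {r : ℕ} (A B : Matrix (Fin r) (Fin r) ℤ)
    (h : (A.map (Int.castRingHom ℚ[X]) + (X : ℚ[X]) • B.map (Int.castRingHom ℚ[X])).det = 0)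
    (x y : 𝕜) : (x • A.map (Int.castRingHom 𝕜) + y • B.map (Int.castRingHom 𝕜)).det = 0 := by
  have h1 : ∀ t : 𝕜, (A.map (Int.castRingHom 𝕜) + t • B.map (Int.castRingHom 𝕜)).det = 0 := by
    intro t
    have h2 := congrArg (Polynomial.eval₂RingHom (algebraMap ℚ 𝕜) t) h
    rw [RingHom.map_det, map_zero] at h2
    rw [← h2]
    have e : ∀ z : ℤ, eval₂ (algebraMap ℚ 𝕜) t (z : ℚ[X]) = z := fun z => by
      rw [← coe_eval₂RingHom, map_intCast]
    congr 1
    ext i j
    simp [e]
  have h3 : ∀ x : 𝕜, x ≠ 0 →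
      (x • A.map (Int.castRingHom 𝕜) + y • B.map (Int.castRingHom 𝕜)).det = 0 := by
    intro x hx
    have h4 : x • A.map (Int.castRingHom 𝕜) + y • B.map (Int.castRingHom 𝕜) =
        x • (A.map (Int.castRingHom 𝕜) + (y / x) • B.map (Int.castRingHom 𝕜)) := by
      rw [smul_add, smul_smul, mul_div_cancel₀ _ hx]
    rw [h4, Matrix.det_smul, h1, mul_zero]
  by_cases hx : x = 0
  · subst hx
    set S : 𝕜[X] := ((X : 𝕜[X]) • A.map (Int.castRingHom 𝕜[X]) +
      (C y : 𝕜[X]) • B.map (Int.castRingHom 𝕜[X])).det with hS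
    have hev : ∀ t : 𝕜, S.eval t =
        (t • A.map (Int.castRingHom 𝕜) + y • B.map (Int.castRingHom 𝕜)).det := by
      intro t
      rw [hS, ← Polynomial.coe_evalRingHom, RingHom.map_det]
      congr 1
      ext i j
      simp
    have hS0 : S = 0 := by
      apply Polynomial.eq_zero_of_infinite_isRoot
      apply Set.Infinite.mono (s := {t : 𝕜 | t ≠ 0})
      · intro t ht
        show S.IsRoot t
        rw [IsRoot.def, hev]
        exact h3 t ht
      · have : ({t : 𝕜 | t ≠ 0} : Set 𝕜) = ({0} : Set 𝕜)ᶜ := by ext; simp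
        rw [this]
        exact (Set.finite_singleton (0 : 𝕜)).infinite_compl
    have := hev 0
    rw [hS0, eval_zero] at this
    exact this.symm
  · exact h3 x hx

/-- **Rank comparison.**  The rank of `l₁ A + l₂ B` over a field of characteristic `0` is at most
the rank of `x A + y B`, if `x ≠ 0` and `y / x` is transcendental. -/
theorem pencil_rank_le {𝕜 : Type*} [Field 𝕜] [CharZero 𝕜] {𝕝 : Type*} [Field 𝕝] [Algebra ℚ 𝕝]
    {m n : ℕ} (A B : Fin m → Fin n → ℤ) (l₁ l₂ : 𝕜) (x y : 𝕝) (hx : x ≠ 0) (ht : Transcendental ℚ (y / x)) :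
    Module.finrank 𝕜 (Submodule.span 𝕜 (Set.range fun (j : Fin m) (i : Fin n) =>
      (A j i : 𝕜) * l₁ + (B j i : 𝕜) * l₂)) ≤
    Module.finrank 𝕝 (Submodule.span 𝕝 (Set.range fun (j : Fin m) (i : Fin n) =>
      (A j i : 𝕝) * x + (B j i : 𝕝) * y)) := by
  set ρ := Module.finrank 𝕜 (Submodule.span 𝕜 (Set.range fun (j : Fin m) (i : Fin n) =>
      (A j i : 𝕜) * l₁ + (B j i : 𝕜) * l₂)) with hρ
  obtain ⟨a, b, hab⟩ := exists_minor (r := ρ) (fun (j : Fin m) (i : Fin n) =>
      (A j i : 𝕜) * l₁ + (B j i : 𝕜) * l₂) (le_of_eq hρ)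
  set A' : Matrix (Fin ρ) (Fin ρ) ℤ := Matrix.of fun i j => A (a i) (b j) with hA'
  set B' : Matrix (Fin ρ) (Fin ρ) ℤ := Matrix.of fun i j => B (a i) (b j) with hB'
  set P : ℚ[X] := (A'.map (Int.castRingHom ℚ[X]) + (X : ℚ[X]) • B'.map (Int.castRingHom ℚ[X])).det
    with hP
  have hP0 : P ≠ 0 := by
    intro h0
    apply hab
    have h1 := det_pencil_eq_zero A' B' h0 l₁ l₂
    rw [← h1]
    congr 1
    ext i j
    simp [hA', hB', mul_comm]
  apply le_finrank_of_minor _ a b
  have h2 : (Matrix.of fun i j => (fun (j : Fin m) (i : Fin n) =>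
      (A j i : 𝕝) * x + (B j i : 𝕝) * y) (a i) (b j)) =
      x • (A'.map (Int.castRingHom 𝕝) + (y / x) • B'.map (Int.castRingHom 𝕝)) := by
    ext i j
    simp only [Matrix.of_apply, Matrix.smul_apply, Matrix.add_apply, Matrix.map_apply, hA', hB',
      smul_eq_mul, eq_intCast]
    field_simp
  rw [h2, Matrix.det_smul]
  apply mul_ne_zero (pow_ne_zero _ hx)
  intro h3
  apply ht
  refine ⟨P, hP0, ?_⟩
  rw [Polynomial.aeval_def, ← Polynomial.coe_eval₂RingHom, hP, RingHom.map_det, ← h3]
  have e : ∀ z : ℤ, eval₂ (algebraMap ℚ 𝕝) (y / x) (z : ℚ[X]) = z := fun z => by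
    rw [← coe_eval₂RingHom, map_intCast]
  congr 1
  ext i j
  simp [e]

/-- Integer vectors which are linearly independent over `ℤ` are linearly independent over each
field of characteristic `0`. -/
theorem linearIndependent_intCast {𝕜 : Type*} [Field 𝕜] [CharZero 𝕜] {m n : ℕ}
    (W : Fin m → Fin n → ℤ) (h : ∀ c : Fin m → ℤ, ∑ j, c j • W j = 0 → c = 0) :
    LinearIndependent 𝕜 fun (j : Fin m) (i : Fin n) => (W j i : 𝕜) := by
  have h1 : LinearIndependent ℤ W := by
    rw [Fintype.linearIndependent_iff]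
    intro c hc j
    exact congrFun (h c hc) j
  have h2 : LinearIndependent ℤ fun (j : Fin m) (i : Fin n) => (W j i : ℚ) := by
    rw [Fintype.linearIndependent_iff] at h1 ⊢
    intro c hc
    apply h1 c
    funext i
    have h3 := congrFun hc i
    simp only [Finset.sum_apply, Pi.smul_apply, Pi.zero_apply] at h3 ⊢
    simp only [zsmul_eq_mul] at h3
    simp only [smul_eq_mul]
    exact_mod_cast h3
  have h4 : LinearIndependent ℚ fun (j : Fin m) (i : Fin n) => (W j i : ℚ) :=
    (LinearIndependent.iff_fractionRing ℤ ℚ).1 h2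
  have h5 : m ≤ Module.finrank ℚ (Submodule.span ℚ
      (Set.range fun (j : Fin m) (i : Fin n) => (W j i : ℚ))) := by
    have := finrank_span_eq_card h4
    rw [Fintype.card_fin] at this
    exact this.ge
  obtain ⟨a, b, hab⟩ := exists_minor (r := m) _ h5
  rw [linearIndependent_iff_card_le_finrank_span, Fintype.card_fin]
  apply le_finrank_of_minor _ a b
  intro h6
  apply hab
  apply (algebraMap ℚ 𝕜).injective
  rw [map_zero, RingHom.map_det, ← h6]
  congr 1
  ext i j
  simp

end Pool.Agent.Lib.H22F301
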