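import Mathlib
import Pool.Agent.Lib.H22F301.GS3
import Pool.Agent.Lib.H22F301.PGS2

/-!
# Six exponentials for rational numbers: the real and the `p`-adic case
-/

namespace Pool.Agent.Lib.H22F301

open Finset Matrix
open scoped Nat

/-! ## Numbers -/

theorem abs_det_le {ι : Type*} [Fintype ι] [DecidableEq ι] (A : Matrix ι ι ℝ) (E : ℝ)
    (hE : ∀ i j, |A i j| ≤ E) : |A.det| ≤ (Fintype.card ι)! * E ^ Fintype.card ι := by
  rw [Matrix.det_apply]
  refine (Finset.abs_sum_le_sum_abs _ _).trans ?_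
  have h1 : ∀ σ : Equiv.Perm ι, |Equiv.Perm.sign σ • ∏ i, A (σ i) i| ≤ E ^ Fintype.card ι := by
    intro σ
    have e1 : |Equiv.Perm.sign σ • ∏ i, A (σ i) i| = ∏ i, |A (σ i) i| := by
      rcases Int.units_eq_one_or (Equiv.Perm.sign σ) with h | h <;> simp [h, Finset.abs_prod]
    rw [e1]
    calc ∏ i, |A (σ i) i| ≤ ∏ _i : ι, E :=
          Finset.prod_le_prod (fun i _ => abs_nonneg _) (fun i _ => hE _ _)
      _ = E ^ Fintype.card ι := by rw [Finset.prod_const, Finset.card_univ]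
  refine (Finset.sum_le_sum fun σ _ => h1 σ).trans ?_
  rw [Finset.sum_const, Finset.card_univ, Fintype.card_perm, nsmul_eq_mul]

theorem contra6 (C : ℝ) (h : ∀ s : ℕ, 1 ≤ s →
    Real.exp 1 ^ (s ^ 6 * (s ^ 6 - 1) / 2) ≤ Real.exp (C * s ^ 5) ^ (s ^ 6)) : False := by
  obtain ⟨s, hs⟩ := exists_nat_ge (2 * C + 2)
  have hs1 : 1 ≤ s + 2 := by omega
  have h1 := h (s + 2) hs1
  rw [← Real.exp_nat_mul, ← Real.exp_nat_mul, Real.exp_le_exp, mul_one] at h1
  set N : ℕ := (s + 2) ^ 6 with hN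
  have h2 : N * (N - 1) / 2 * 2 = N * (N - 1) := by
    rw [← Finset.sum_range_id, Finset.sum_range_id_mul_two]
  have hN1 : 1 ≤ N := Nat.one_le_pow _ _ (by omega)
  have h3 : ((N * (N - 1) / 2 : ℕ) : ℝ) * 2 = N * (N - 1) := by
    have : (((N * (N - 1) / 2 * 2 : ℕ)) : ℝ) = ((N * (N - 1) : ℕ) : ℝ) := by rw [h2]
    push_cast [Nat.cast_sub hN1] at this
    exact this
  have hN0 : (0 : ℝ) < N := by exact_mod_cast hN1
  have h4 : (N : ℝ) * (N - 1) ≤ N * (2 * (C * ((s + 2 : ℕ) : ℝ) ^ 5)) := by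
    rw [← h3]; linarith
  have h5 : (N : ℝ) - 1 ≤ 2 * (C * ((s + 2 : ℕ) : ℝ) ^ 5) := le_of_mul_le_mul_left h4 hN0
  have h6 : (N : ℝ) = ((s + 2 : ℕ) : ℝ) * ((s + 2 : ℕ) : ℝ) ^ 5 := by
    rw [hN]; push_cast; ring
  have h7 : (1 : ℝ) ≤ ((s + 2 : ℕ) : ℝ) ^ 5 := by
    apply one_le_pow₀; exact_mod_cast hs1
  have h8 : (2 * C + 2 : ℝ) ≤ ((s + 2 : ℕ) : ℝ) := by push_cast; linarith
  rw [h6] at h5
  nlinarith [mul_le_mul_of_nonneg_right h8 (by linarith : (0 : ℝ) ≤ ((s + 2 : ℕ) : ℝ) ^ 5)]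

theorem contra6_p {p : ℕ} [hp : Fact p.Prime] (C : ℝ) (h : ∀ s : ℕ, 1 ≤ s →
    (p : ℝ) ^ (s ^ 6 * (s ^ 6 - 1) / 2) ≤ Real.exp (C * s ^ 5) ^ (s ^ 6)) : False := by
  have hp1 : (1 : ℝ) < p := by exact_mod_cast hp.out.one_lt
  have hp0 : (0 : ℝ) < p := by linarith
  have hl : 0 < Real.log p := Real.log_pos hp1
  apply contra6 (C / Real.log p)
  intro s hs
  have h1 := h s hs
  have h2 : Real.exp (Real.log p * ((s ^ 6 * (s ^ 6 - 1) / 2 : ℕ) : ℝ)) ≤
      Real.exp (((s ^ 6 : ℕ) : ℝ) * (C * s ^ 5)) := by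
    rw [mul_comm (Real.log p), Real.exp_nat_mul, Real.exp_nat_mul, Real.exp_log hp0]
    exact h1
  rw [Real.exp_le_exp] at h2
  rw [← Real.exp_nat_mul, ← Real.exp_nat_mul, Real.exp_le_exp, mul_one]
  rw [← mul_le_mul_iff_right₀ hl]
  calc Real.log p * ((s ^ 6 * (s ^ 6 - 1) / 2 : ℕ) : ℝ) ≤ ((s ^ 6 : ℕ) : ℝ) * (C * s ^ 5) := h2
    _ = Real.log p * (((s ^ 6 : ℕ) : ℝ) * (C / Real.log p * s ^ 5)) := by
        field_simp

theorem factorial6_le_exp {s : ℕ} (hs : 1 ≤ s) :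
    (((s ^ 6)! : ℕ) : ℝ) ≤ Real.exp (6 * (s : ℝ) ^ 5) ^ (s ^ 6) := by
  have h1 : (((s ^ 6)! : ℕ) : ℝ) ≤ ((s ^ 6 : ℕ) : ℝ) ^ (s ^ 6) := by
    exact_mod_cast Nat.factorial_le_pow (s ^ 6)
  refine h1.trans (pow_le_pow_left₀ (by positivity) ?_ _)
  have hs' : (1 : ℝ) ≤ s := by exact_mod_cast hs
  have h2 : ((s ^ 6 : ℕ) : ℝ) ≤ Real.exp (s * (6 : ℕ)) := by
    push_cast
    exact pow_le_exp (by positivity) (le_exp _) 6
  refine h2.trans (Real.exp_le_exp.2 ?_)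
  push_cast
  have h3 : (s : ℝ) ≤ (s : ℝ) ^ 5 := le_self_pow₀ hs' (by norm_num)
  linarith

/-! ## The entries -/

/-- The entries of the interpolation matrix. -/
def ent6 (a : Fin 2 → Fin 3 → ℚ) (e : Fin 2 → ℕ) (k : Fin 3 → ℕ) : ℚ :=
  ∏ i, ∏ j, a i j ^ (e i * k j)

/-- The common denominator. -/
def den6 (a : Fin 2 → Fin 3 → ℚ) (M : ℕ) : ℕ := ∏ i, ∏ j, (a i j).den ^ M

theorem den6_ne_zero (a : Fin 2 → Fin 3 → ℚ) (M : ℕ) : den6 a M ≠ 0 := by
  unfold den6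
  rw [Finset.prod_ne_zero_iff]
  intro i _
  rw [Finset.prod_ne_zero_iff]
  intro j _
  exact pow_ne_zero _ (a i j).den_pos.ne'

theorem ent6_int (a : Fin 2 → Fin 3 → ℚ) {e : Fin 2 → ℕ} {k : Fin 3 → ℕ} {M : ℕ}
    (h : ∀ i j, e i * k j ≤ M) : ∃ z : ℤ, (den6 a M : ℚ) * ent6 a e k = z := by
  choose z hz using fun i j => int_pow_mul (a i j) (h i j)
  refine ⟨∏ i, ∏ j, z i j, ?_⟩
  unfold den6 ent6
  push_cast
  rw [← Finset.prod_mul_distrib]
  refine Finset.prod_congr rfl fun i _ => ?_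
  rw [← Finset.prod_mul_distrib]
  exact Finset.prod_congr rfl fun j _ => hz i j

theorem ent6_le {a : Fin 2 → Fin 3 → ℚ} (ha : ∀ i j, 0 < a i j) {H : ℝ} (hH1 : 1 ≤ H)
    (haH : ∀ i j, (a i j : ℝ) ≤ H) {e : Fin 2 → ℕ} {k : Fin 3 → ℕ} {M : ℕ}
    (h : ∀ i j, e i * k j ≤ M) : |(ent6 a e k : ℝ)| ≤ H ^ (6 * M) := by
  unfold ent6
  push_cast
  rw [Finset.abs_prod]
  calc ∏ i, |∏ j, (a i j : ℝ) ^ (e i * k j)| ≤ ∏ _i : Fin 2, H ^ (3 * M) := by
        refine Finset.prod_le_prod (fun _ _ => abs_nonneg _) fun i _ => ?_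
        rw [Finset.abs_prod]
        calc ∏ j, |(a i j : ℝ) ^ (e i * k j)| ≤ ∏ _j : Fin 3, H ^ M := by
              refine Finset.prod_le_prod (fun _ _ => abs_nonneg _) fun j _ => ?_
              have h0 : (0 : ℝ) < a i j := by exact_mod_cast ha i j
              rw [abs_of_nonneg (by positivity)]
              exact (pow_le_pow_left₀ h0.le (haH i j) _).trans (pow_le_pow_right₀ hH1 (h i j))
          _ = H ^ (3 * M) := by
              rw [Finset.prod_const, Finset.card_univ, Fintype.card_fin, ← pow_mul, mul_comm]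
    _ = H ^ (6 * M) := by
        rw [Finset.prod_const, Finset.card_univ, Fintype.card_fin, ← pow_mul]
        congr 1
        ring

/-- The determinant of the matrix of entries is zero or large. -/
theorem det_ent6 (a : Fin 2 → Fin 3 → ℚ) {ι : Type*} [Fintype ι] [DecidableEq ι]
    (e : ι → Fin 2 → ℕ) (k : ι → Fin 3 → ℕ) {M : ℕ} (h : ∀ i j r c, e r i * k c j ≤ M)
    (hdet : (Matrix.of fun r c => ent6 a (e r) (k c)).det ≠ 0) :
    ∃ z : ℤ, z ≠ 0 ∧ (z : ℚ) = (den6 a M : ℚ) ^ Fintype.card ι *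
      (Matrix.of fun r c => ent6 a (e r) (k c)).det := by
  choose z hz using fun r c => ent6_int a (M := M) (e := e r) (k := k c) (fun i j => h i j r c)
  have h1 : ((Matrix.of z).det : ℚ) = (den6 a M : ℚ) ^ Fintype.card ι *
      (Matrix.of fun r c => ent6 a (e r) (k c)).det := by
    rw [← Matrix.det_smul]
    have e1 : ((Matrix.of z).det : ℚ) = (Int.castRingHom ℚ) (Matrix.of z).det := rfl
    rw [e1, RingHom.map_det]
    congr 1
    ext r c
    simp only [RingHom.mapMatrix_apply, Matrix.map_apply, Matrix.of_apply, Matrix.smul_apply,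
      smul_eq_mul]
    exact (hz r c).symm
  refine ⟨(Matrix.of z).det, ?_, h1⟩
  intro h0
  rw [h0, Int.cast_zero] at h1
  have h2 : (den6 a M : ℚ) ≠ 0 := by exact_mod_cast den6_ne_zero a M
  exact (mul_ne_zero (pow_ne_zero _ h2) hdet) h1.symm

theorem den6_le (a : Fin 2 → Fin 3 → ℚ) {s : ℕ} (c : ℕ) :
    ((den6 a (c * s ^ 5) : ℕ) : ℝ) ≤ Real.exp ((∑ i, ∑ j, ((a i j).den : ℝ) * c) * (s : ℝ) ^ 5) := by
  unfold den6
  push_cast
  rw [Finset.sum_mul, Real.exp_sum]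
  refine Finset.prod_le_prod (fun _ _ => by positivity) fun i _ => ?_
  rw [Finset.sum_mul, Real.exp_sum]
  refine Finset.prod_le_prod (fun _ _ => by positivity) fun j _ => ?_
  have := pow_le_exp (x := ((a i j).den : ℝ)) (by positivity) (le_exp _) (c * s ^ 5)
  refine this.trans (le_of_eq ?_)
  congr 1
  push_cast
  ring

/-! ## The real case -/

/-- **Six exponentials**, for real numbers and rational values. -/
theorem six_exp_real (u : Fin 2 → ℝ) (v : Fin 3 → ℝ) (a : Fin 2 → Fin 3 → ℚ)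
    (ha : ∀ i j, 0 < a i j) (hexp : ∀ i j, Real.exp (u i * v j) = a i j)
    (hu : ∀ c : Fin 2 → ℤ, ∑ i, (c i : ℝ) * u i = 0 → c = 0)
    (hv : ∀ c : Fin 3 → ℤ, ∑ j, (c j : ℝ) * v j = 0 → c = 0) : False := by
  classical
  set H : ℝ := 1 + ∑ i, ∑ j, (a i j : ℝ) with hH
  have haR : ∀ i j, (0 : ℝ) < a i j := fun i j => by exact_mod_cast ha i j
  have haH : ∀ i j, (a i j : ℝ) ≤ H := by
    intro i j
    have h1 : (a i j : ℝ) ≤ ∑ j, (a i j : ℝ) :=
      Finset.single_le_sum (f := fun j => (a i j : ℝ)) (fun j _ => (haR i j).le) (mem_univ j)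
    have h2 : ∑ j, (a i j : ℝ) ≤ ∑ i, ∑ j, (a i j : ℝ) :=
      Finset.single_le_sum (f := fun i => ∑ j, (a i j : ℝ))
        (fun i _ => Finset.sum_nonneg fun j _ => (haR i j).le) (mem_univ i)
    rw [hH]; linarith
  have hH1 : 1 ≤ H := by
    have : 0 ≤ ∑ i, ∑ j, (a i j : ℝ) :=
      Finset.sum_nonneg fun i _ => Finset.sum_nonneg fun j _ => (haR i j).le
    rw [hH]; linarith
  set U : ℝ := ∑ i, |u i| with hU
  set V : ℝ := ∑ j, |v j| with hV
  have hU0 : 0 ≤ U := Finset.sum_nonneg fun _ _ => abs_nonneg _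
  have hV0 : 0 ≤ V := Finset.sum_nonneg fun _ _ => abs_nonneg _
  set cQ : ℝ := ∑ i, ∑ j, ((a i j).den : ℝ) * (1 : ℕ) with hcQ
  apply contra6 (cQ + (6 + U * V * Real.exp 1))
  intro s hs
  have hs' : (1 : ℝ) ≤ s := by exact_mod_cast hs
  set ι := Fin 1 × Fin (s ^ 6) with hι
  have hcard1 : Fintype.card (Fin (s ^ 6)) = Fintype.card (Fin 2 → Fin (s ^ 3)) := by
    simp only [Fintype.card_fin, Fintype.card_fun]
    ring
  have hcard2 : Fintype.card (Fin 1 × Fin (s ^ 6)) = Fintype.card (Fin 3 → Fin (s ^ 2)) := by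
    simp only [Fintype.card_prod, Fintype.card_fin, Fintype.card_fun]
    ring
  have hcard : Fintype.card (Fin 1 × Fin (s ^ 6)) = s ^ 6 := by
    simp only [Fintype.card_prod, Fintype.card_fin]
    ring
  set ε := Fintype.equivOfCardEq hcard1 with hε
  set η := Fintype.equivOfCardEq hcard2 with hη
  set w : Fin (s ^ 6) → ℝ := fun r => ∑ i, ((ε r i : ℕ) : ℝ) * u i with hw
  set ζ : Fin 1 × Fin (s ^ 6) → ℝ := fun c => ∑ j, ((η c j : ℕ) : ℝ) * v j with hζ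
  have hwinj : Function.Injective w := by
    intro r r' h
    apply ε.injective
    have h1 := hu (fun i => ((ε r i : ℕ) : ℤ) - ((ε r' i : ℕ) : ℤ)) (by
      push_cast
      simp only [sub_mul, Finset.sum_sub_distrib]
      rw [sub_eq_zero]
      exact h)
    funext i
    have h2 := congrFun h1 i
    simp only [Pi.zero_apply] at h2
    apply Fin.ext
    omega
  have hζinj : Function.Injective ζ := by
    intro r r' h
    apply η.injective
    have h1 := hv (fun i => ((η r i : ℕ) : ℤ) - ((η r' i : ℕ) : ℤ)) (by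
      push_cast
      simp only [sub_mul, Finset.sum_sub_distrib]
      rw [sub_eq_zero]
      exact h)
    funext i
    have h2 := congrFun h1 i
    simp only [Pi.zero_apply] at h2
    apply Fin.ext
    omega
  set MQ : Matrix (Fin 1 × Fin (s ^ 6)) (Fin 1 × Fin (s ^ 6)) ℚ := Matrix.of fun r c =>
    ent6 a (fun i => (ε r.2 i : ℕ)) (fun j => (η c j : ℕ)) with hMQ
  set MR : Matrix (Fin 1 × Fin (s ^ 6)) (Fin 1 × Fin (s ^ 6)) ℝ := Matrix.of fun r c =>
    ζ c ^ (r.1 : ℕ) * Real.exp (w r.2 * ζ c) with hMR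
  have hMQR : ((MQ.det : ℚ) : ℝ) = MR.det := by
    have e1 : ((MQ.det : ℚ) : ℝ) = (Rat.castHom ℝ) MQ.det := rfl
    rw [e1, RingHom.map_det]
    congr 1
    ext r c
    simp only [RingHom.mapMatrix_apply, Matrix.map_apply, hMQ, hMR, Matrix.of_apply, ent6]
    have e2 : (r.1 : ℕ) = 0 := by have := r.1.2; omega
    rw [e2, pow_zero, one_mul, hw, hζ]
    simp only
    rw [Finset.sum_mul_sum, Real.exp_sum, Rat.coe_castHom]
    push_cast
    refine Finset.prod_congr rfl fun i _ => ?_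
    rw [Real.exp_sum]
    refine Finset.prod_congr rfl fun j _ => ?_
    rw [← hexp i j, ← Real.exp_nat_mul]
    congr 1
    push_cast
    ring
  have hMR0 : MR.det ≠ 0 := det_ne_zero w hwinj ζ hζinj
  have hMQ0 : MQ.det ≠ 0 := by
    intro h0
    apply hMR0
    rw [← hMQR, h0, Rat.cast_zero]
  have hM : ∀ (i : Fin 2) (j : Fin 3) (r c : Fin 1 × Fin (s ^ 6)),
      (ε r.2 i : ℕ) * (η c j : ℕ) ≤ 1 * s ^ 5 := fun i j r c => by
    calc (ε r.2 i : ℕ) * (η c j : ℕ) ≤ s ^ 3 * s ^ 2 := Nat.mul_le_mul (ε r.2 i).2.le (η c j).2.le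
      _ = 1 * s ^ 5 := by ring
  obtain ⟨z, hz0, hz⟩ := det_ent6 a (fun (r : Fin 1 × Fin (s ^ 6)) i => (ε r.2 i : ℕ))
    (fun c j => (η c j : ℕ)) hM hMQ0
  rw [hcard] at hz
  set Q : ℕ := den6 a (1 * s ^ 5) with hQ
  have hzR : (z : ℝ) = (Q : ℝ) ^ (s ^ 6) * MR.det := by
    rw [← hMQR]
    exact_mod_cast congrArg (fun x : ℚ => (x : ℝ)) hz
  have hz1 : (1 : ℝ) ≤ |(z : ℝ)| := by exact_mod_cast Int.one_le_abs hz0
  rw [hzR, abs_mul, abs_pow, Nat.abs_cast] at hz1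
  -- the analytic bound
  have hdet := det_bound (ι := Fin 1 × Fin (s ^ 6)) (fun r n => coef r.1 (w r.2) n)
    (fun _ => Real.exp ((s : ℝ) ^ 3 * U * ((s : ℝ) ^ 2 * V * Real.exp 1)))
    ((s : ℝ) ^ 2 * V) (Real.exp 1) (by positivity) (Real.one_le_exp zero_le_one)
    (by
      intro r D
      refine (sum_abs_coef_le _ _ _ (by positivity) D).trans ?_
      have e2 : (r.1 : ℕ) = 0 := by have := r.1.2; omega
      rw [e2, pow_zero, one_mul]
      apply Real.exp_le_exp.2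
      apply mul_le_mul_of_nonneg_right _ (by positivity)
      rw [hw]
      simp only
      calc |∑ i, ((ε r.2 i : ℕ) : ℝ) * u i| ≤ ∑ i, |((ε r.2 i : ℕ) : ℝ) * u i| :=
            Finset.abs_sum_le_sum_abs _ _
        _ ≤ ∑ i, (s : ℝ) ^ 3 * |u i| := by
            refine Finset.sum_le_sum fun i _ => ?_
            rw [abs_mul, Nat.abs_cast]
            apply mul_le_mul_of_nonneg_right _ (abs_nonneg _)
            exact_mod_cast (ε r.2 i).2.le
        _ = (s : ℝ) ^ 3 * U := by rw [← Finset.mul_sum])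
    (fun r x => x ^ (r.1 : ℕ) * Real.exp (w r.2 * x))
    (fun r x _ => hasSum_coef r.1 (w r.2) x) ζ
    (by
      intro c
      rw [hζ]
      simp only
      calc |∑ j, ((η c j : ℕ) : ℝ) * v j| ≤ ∑ j, |((η c j : ℕ) : ℝ) * v j| :=
            Finset.abs_sum_le_sum_abs _ _
        _ ≤ ∑ j, (s : ℝ) ^ 2 * |v j| := by
            refine Finset.sum_le_sum fun j _ => ?_
            rw [abs_mul, Nat.abs_cast]
            apply mul_le_mul_of_nonneg_right _ (abs_nonneg _)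
            exact_mod_cast (η c j).2.le
        _ = (s : ℝ) ^ 2 * V := by rw [← Finset.mul_sum])
  rw [hcard, Finset.prod_const, Finset.card_univ, hcard] at hdet
  have hdet' : Real.exp 1 ^ (s ^ 6 * (s ^ 6 - 1) / 2) * |MR.det| ≤ ((s ^ 6)! : ℕ) *
      Real.exp ((s : ℝ) ^ 3 * U * ((s : ℝ) ^ 2 * V * Real.exp 1)) ^ (s ^ 6) := hdet
  have hfac := factorial6_le_exp hs
  have hQle : (Q : ℝ) ≤ Real.exp (cQ * (s : ℝ) ^ 5) := den6_le a 1
  set T := s ^ 6 * (s ^ 6 - 1) / 2 with hT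
  have hT0 : (0 : ℝ) < Real.exp 1 ^ T := by positivity
  calc Real.exp 1 ^ T ≤ Real.exp 1 ^ T * ((Q : ℝ) ^ (s ^ 6) * |MR.det|) :=
        le_mul_of_one_le_right hT0.le hz1
    _ = (Q : ℝ) ^ (s ^ 6) * (Real.exp 1 ^ T * |MR.det|) := by ring
    _ ≤ Real.exp (cQ * (s : ℝ) ^ 5) ^ (s ^ 6) * (Real.exp (6 * (s : ℝ) ^ 5) ^ (s ^ 6) *
        Real.exp ((s : ℝ) ^ 3 * U * ((s : ℝ) ^ 2 * V * Real.exp 1)) ^ (s ^ 6)) := by
        apply mul_le_mul (pow_le_pow_left₀ (by positivity) hQle _) _ (by positivity) (by positivity)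
        exact hdet'.trans (mul_le_mul_of_nonneg_right hfac (by positivity))
    _ = Real.exp ((cQ + (6 + U * V * Real.exp 1)) * s ^ 5) ^ (s ^ 6) := by
        rw [← mul_pow, ← mul_pow, ← Real.exp_add, ← Real.exp_add]
        congr 2
        ring

end Pool.Agent.Lib.H22F301
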