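import Mathlib
import Pool.Agent.Lib.H22F301.Six

/-!
# Six exponentials for rational numbers: the `p`-adic case
-/

namespace Pool.Agent.Lib.H22F301

open Finset Matrix NormedSpace
open scoped Nat

variable {p : ℕ} [hp : Fact p.Prime]

theorem exp_sum' {ι : Type*} (s : Finset ι) (f : ι → ℚ_[p])
    (hf : ∀ i ∈ s, ‖f i‖ ≤ ((p : ℝ) ^ 2)⁻¹) : exp (∑ i ∈ s, f i) = ∏ i ∈ s, exp (f i) := by
  classical
  induction s using Finset.induction_on with
  | empty => simp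
  | insert a s ha ih =>
    have h0 : (0 : ℝ) ≤ ((p : ℝ) ^ 2)⁻¹ := by positivity
    rw [Finset.sum_insert ha, Finset.prod_insert ha, exp_add' (hf a (mem_insert_self _ _))
      (IsUltrametricDist.norm_sum_le_of_forall_le_of_nonneg h0
        fun i hi => hf i (mem_insert_of_mem hi)), ih fun i hi => hf i (mem_insert_of_mem hi)]

theorem norm_natCast_le (k : ℕ) : ‖(k : ℚ_[p])‖ ≤ 1 := by
  exact_mod_cast Padic.norm_int_le_one (p := p) (k : ℤ)

/-- **Six exponentials**, for `p`-adic numbers and rational values. -/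
theorem six_exp_padic (u : Fin 2 → ℚ_[p]) (v : Fin 3 → ℚ_[p]) (hu1 : ∀ i, ‖u i‖ ≤ ((p : ℝ) ^ 2)⁻¹)
    (hv1 : ∀ j, ‖v j‖ ≤ 1) (a : Fin 2 → Fin 3 → ℚ)
    (ha : ∀ i j, 0 < a i j) (hexp : ∀ i j, exp (u i * v j) = (a i j : ℚ_[p]))
    (hu : ∀ c : Fin 2 → ℤ, ∑ i, (c i : ℚ_[p]) * u i = 0 → c = 0)
    (hv : ∀ c : Fin 3 → ℤ, ∑ j, (c j : ℚ_[p]) * v j = 0 → c = 0) : False := by
  classical
  have hpR : (1 : ℝ) < p := one_lt_p
  have hp0 : (0 : ℝ) < p := by linarith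
  set H : ℝ := 1 + ∑ i, ∑ j, (a i j : ℝ) with hH
  have haR : ∀ i j, (0 : ℝ) < a i j := fun i j => by exact_mod_cast ha i j
  have haH : ∀ i j, (a i j : ℝ) ≤ H := by
    intro i j
    have h1 : (a i j : ℝ) ≤ ∑ j, (a i j : ℝ) :=
      Finset.single_le_sum (f := fun j => (a i j : ℝ)) (fun j _ => (haR i j).le) (mem_univ j)
    have h2 : ∑ j, (a i j : ℝ) ≤ ∑ i, ∑ j, (a i j : ℝ) :=
      Finset.single_le_sum (f := fun i => ∑ j, (a i j : ℝ))
        (fun i _ => Finset.sum_nonneg fun j _ => (haR i j).le) (mem_univ i)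
    rw [hH]; linarith
  have hH1 : 1 ≤ H := by
    have : 0 ≤ ∑ i, ∑ j, (a i j : ℝ) :=
      Finset.sum_nonneg fun i _ => Finset.sum_nonneg fun j _ => (haR i j).le
    rw [hH]; linarith
  set cQ : ℝ := ∑ i, ∑ j, ((a i j).den : ℝ) * (2 : ℕ) with hcQ
  apply contra6_p (p := p) (6 + (cQ + 12 * H))
  intro s hs
  have hs' : (1 : ℝ) ≤ s := by exact_mod_cast hs
  set D1 := s ^ 6 with hD1
  have hcard1 : Fintype.card (Fin D1) = Fintype.card (Fin 2 → Fin (s ^ 3)) := by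
    simp only [Fintype.card_fin, Fintype.card_fun, hD1]
    ring
  have hcard2 : Fintype.card (Fin (2 * (1 * D1))) ≤ Fintype.card (Fin 3 → Fin (2 * s ^ 2)) := by
    simp only [Fintype.card_fin, Fintype.card_fun, hD1]
    have e1 : (2 * s ^ 2) ^ 3 = 8 * s ^ 6 := by ring
    rw [e1]
    omega
  have hcard : Fintype.card (Fin (1 * D1)) = s ^ 6 := by
    rw [Fintype.card_fin, one_mul]
  set ε := Fintype.equivOfCardEq hcard1 with hε
  obtain ⟨η⟩ := Function.Embedding.nonempty_of_card_le hcard2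
  have hz1 : ∀ k : Fin 3 → ℕ, ‖∑ j, ((k j : ℕ) : ℚ_[p]) * v j‖ ≤ 1 := by
    intro k
    apply IsUltrametricDist.norm_sum_le_of_forall_le_of_nonneg zero_le_one
    intro j _
    rw [norm_mul]
    exact mul_le_one₀ (norm_natCast_le _) (norm_nonneg _) (hv1 j)
  set w : Fin D1 → ℚ_[p] := fun r => ∑ i, ((ε r i : ℕ) : ℚ_[p]) * u i with hw
  set ζ : Fin (2 * (1 * D1)) → ℤ_[p] := fun c =>
    ⟨∑ j, ((η c j : ℕ) : ℚ_[p]) * v j, hz1 _⟩ with hζ
  have hζv : ∀ c, (ζ c : ℚ_[p]) = ∑ j, ((η c j : ℕ) : ℚ_[p]) * v j := fun c => rfl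
  have hwn : ∀ r, ‖w r‖ ≤ ((p : ℝ) ^ 2)⁻¹ := by
    intro r
    apply IsUltrametricDist.norm_sum_le_of_forall_le_of_nonneg (by positivity)
    intro i _
    exact norm_mul_le' (hu1 i) (norm_natCast_le _)
  have hwinj : Function.Injective w := by
    intro r r' h
    apply ε.injective
    have h1 := hu (fun i => ((ε r i : ℕ) : ℤ) - ((ε r' i : ℕ) : ℤ)) (by
      push_cast
      simp only [sub_mul, Finset.sum_sub_distrib]
      rw [sub_eq_zero]
      exact h)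
    funext i
    have h2 := congrFun h1 i
    simp only [Pi.zero_apply] at h2
    apply Fin.ext
    omega
  have hζinj : Function.Injective ζ := by
    intro r r' h
    apply η.injective
    have h0 : (ζ r : ℚ_[p]) = ζ r' := by rw [h]
    rw [hζv, hζv] at h0
    have h1 := hv (fun i => ((η r i : ℕ) : ℤ) - ((η r' i : ℕ) : ℤ)) (by
      push_cast
      simp only [sub_mul, Finset.sum_sub_distrib]
      rw [sub_eq_zero]
      exact h0)
    funext i
    have h2 := congrFun h1 i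
    simp only [Pi.zero_apply] at h2
    apply Fin.ext
    omega
  obtain ⟨r, c, hdet0⟩ := padic_exists_minor (D0 := 1) w hwinj hwn ζ hζinj
  set MP : Matrix (Fin (1 * D1)) (Fin (1 * D1)) ℚ_[p] :=
    Matrix.of fun i j => ((ζ (c j) : ℚ_[p]) ^ ((r i).1 : ℕ) *
        exp (w (r i).2 * ζ (c j))) with hMP
  set MQ : Matrix (Fin (1 * D1)) (Fin (1 * D1)) ℚ := Matrix.of fun i j =>
    ent6 a (fun k => (ε (r i).2 k : ℕ)) (fun l => (η (c j) l : ℕ)) with hMQ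
  have huv : ∀ i j, ‖u i * v j‖ ≤ ((p : ℝ) ^ 2)⁻¹ := fun i j => by
    rw [mul_comm]
    exact norm_mul_le' (hu1 i) (hv1 j)
  have hMQP : ((MQ.det : ℚ) : ℚ_[p]) = MP.det := by
    have e1 : ((MQ.det : ℚ) : ℚ_[p]) = (Rat.castHom ℚ_[p]) MQ.det := rfl
    rw [e1, RingHom.map_det]
    congr 1
    ext i j
    simp only [RingHom.mapMatrix_apply, Matrix.map_apply, hMQ, hMP, Matrix.of_apply, ent6]
    have e2 : ((r i).1 : ℕ) = 0 := by have := (r i).1.2; omega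
    rw [e2, pow_zero, one_mul (exp (w (r i).2 * (ζ (c j) : ℚ_[p]))), hζv, hw]
    simp only
    have e3 : ∀ (k : Fin 2) (l : Fin 3), ((ε (r i).2 k : ℕ) : ℚ_[p]) * u k *
        (((η (c j) l : ℕ) : ℚ_[p]) * v l) =
        (((ε (r i).2 k : ℕ) * (η (c j) l : ℕ) : ℕ) : ℚ_[p]) * (u k * v l) := by
      intro k l
      push_cast
      ring
    rw [Finset.sum_mul_sum]
    simp only [e3]
    rw [exp_sum' _ _ (fun k _ => IsUltrametricDist.norm_sum_le_of_forall_le_of_nonneg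
      (by positivity) fun l _ => norm_mul_le' (huv k l) (norm_natCast_le _)), Rat.coe_castHom]
    push_cast
    refine Finset.prod_congr rfl fun k _ => ?_
    have e4 : ∀ l : Fin 3, ((ε (r i).2 k : ℕ) : ℚ_[p]) * ((η (c j) l : ℕ) : ℚ_[p]) * (u k * v l) =
        (((ε (r i).2 k : ℕ) * (η (c j) l : ℕ) : ℕ) : ℚ_[p]) * (u k * v l) := by
      intro l
      push_cast
      ring
    simp only [e4]
    rw [exp_sum' _ _ (fun l _ => norm_mul_le' (huv k l) (norm_natCast_le _))]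
    refine Finset.prod_congr rfl fun l _ => ?_
    rw [← hexp k l, ← exp_nat_mul' (huv k l)]
  have hMQ0 : MQ.det ≠ 0 := by
    intro h0
    apply hdet0
    rw [← hMQP, h0, Rat.cast_zero]
  have hM : ∀ (k : Fin 2) (l : Fin 3) (i j : Fin (1 * D1)),
      (ε (r i).2 k : ℕ) * (η (c j) l : ℕ) ≤ 2 * s ^ 5 := fun k l i j => by
    calc (ε (r i).2 k : ℕ) * (η (c j) l : ℕ) ≤ s ^ 3 * (2 * s ^ 2) :=
          Nat.mul_le_mul (ε (r i).2 k).2.le (η (c j) l).2.le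
      _ = 2 * s ^ 5 := by ring
  obtain ⟨z, hz0, hz⟩ := det_ent6 a (fun i k => (ε (r i).2 k : ℕ))
    (fun j l => (η (c j) l : ℕ)) hM hMQ0
  rw [hcard] at hz
  set Q : ℕ := den6 a (2 * s ^ 5) with hQ
  have hzP : (z : ℚ_[p]) = (Q : ℚ_[p]) ^ (s ^ 6) * MP.det := by
    rw [← hMQP]
    exact_mod_cast congrArg (fun x : ℚ => (x : ℚ_[p])) hz
  have hzR : (z : ℝ) = (Q : ℝ) ^ (s ^ 6) * (MQ.map (Rat.castHom ℝ)).det := by
    have e1 : (MQ.map (Rat.castHom ℝ)).det = ((MQ.det : ℚ) : ℝ) := by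
      have := RingHom.map_det (Rat.castHom ℝ) MQ
      rw [RingHom.mapMatrix_apply] at this
      exact this.symm
    rw [e1]
    exact_mod_cast congrArg (fun x : ℚ => (x : ℝ)) hz
  have hdetR : |(MQ.map (Rat.castHom ℝ)).det| ≤ ((s ^ 6)! : ℕ) * (H ^ (6 * (2 * s ^ 5))) ^ (s ^ 6) := by
    have := abs_det_le (MQ.map (Rat.castHom ℝ)) (H ^ (6 * (2 * s ^ 5))) (by
      intro i j
      rw [Matrix.map_apply, hMQ, Matrix.of_apply]
      exact ent6_le ha hH1 haH fun k l => hM k l i j)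
    rwa [hcard] at this
  have hL : (1 : ℝ) ≤ ‖(z : ℚ_[p])‖ * |(z : ℝ)| := by
    have h1 := one_le_norm_mul_natCast (p := p) (n := z.natAbs) (Int.natAbs_ne_zero.2 hz0)
    have h2 : ((z.natAbs : ℕ) : ℝ) = |(z : ℝ)| := by
      rw [Nat.cast_natAbs]; push_cast; rfl
    have h3 : ‖((z.natAbs : ℕ) : ℚ_[p])‖ = ‖(z : ℚ_[p])‖ := by
      rcases Int.natAbs_eq z with h | h
      · conv_rhs => rw [h]
        rw [Int.cast_natCast]
      · conv_rhs => rw [h]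
        rw [Int.cast_neg, norm_neg, Int.cast_natCast]
    rwa [h2, h3] at h1
  -- the analytic bound
  have hdet := padic_det_bound (p := p) (ι := Fin (1 * D1))
    (fun i n => pcoef (r i).1 (w (r i).2) n) (fun _ => 1)
    (fun _ => zero_le_one) (ρ := (p : ℝ)⁻¹) (by positivity) (inv_le_one_of_one_le₀ hpR.le)
    (by
      intro i n
      have e2 : ((r i).1 : ℕ) = 0 := by have := (r i).1.2; omega
      have := norm_pcoef_le ((r i).1 : ℕ) (hwn (r i).2) n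
      rw [e2] at this ⊢
      rwa [pow_zero] at this)
    (fun i x => x ^ ((r i).1 : ℕ) * exp (w (r i).2 * x))
    (fun i x hx => hasSum_pcoef _ (hwn _) hx) (fun j => (ζ (c j) : ℚ_[p]))
    (fun j => (ζ (c j)).norm_le_one)
  rw [hcard, Finset.prod_const_one] at hdet
  have hdet' : ‖MP.det‖ ≤ (p : ℝ)⁻¹ ^ (s ^ 6 * (s ^ 6 - 1) / 2) := hdet.trans (one_mul _).le
  have hfac := factorial6_le_exp hs
  have hQle : (Q : ℝ) ≤ Real.exp (cQ * (s : ℝ) ^ 5) := den6_le a 2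
  set T := s ^ 6 * (s ^ 6 - 1) / 2 with hT
  have hpT : (0 : ℝ) < (p : ℝ) ^ T := by positivity
  have hQn : ‖(Q : ℚ_[p])‖ ^ (s ^ 6) ≤ 1 := pow_le_one₀ (norm_nonneg _) (norm_natCast_le Q)
  have hzn : ‖(z : ℚ_[p])‖ ≤ (p : ℝ)⁻¹ ^ T := by
    rw [hzP, norm_mul, norm_pow]
    calc ‖(Q : ℚ_[p])‖ ^ (s ^ 6) * ‖MP.det‖ ≤ 1 * ‖MP.det‖ :=
          mul_le_mul_of_nonneg_right hQn (norm_nonneg _)
      _ ≤ _ := by rw [one_mul]; exact hdet'
  have hza : |(z : ℝ)| ≤ Real.exp (cQ * (s : ℝ) ^ 5) ^ (s ^ 6) *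
      (Real.exp (6 * (s : ℝ) ^ 5) ^ (s ^ 6) * Real.exp (12 * H * (s : ℝ) ^ 5) ^ (s ^ 6)) := by
    rw [hzR, abs_mul, abs_pow, Nat.abs_cast]
    apply mul_le_mul (pow_le_pow_left₀ (by positivity) hQle _) _ (abs_nonneg _) (by positivity)
    refine hdetR.trans (mul_le_mul hfac ?_ (by positivity) (by positivity))
    apply pow_le_pow_left₀ (by positivity)
    have := pow_le_exp (x := H) (by linarith) (le_exp _) (6 * (2 * s ^ 5))
    refine this.trans (le_of_eq ?_)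
    congr 1
    push_cast
    ring
  have h2 : (p : ℝ) ^ T * (p : ℝ)⁻¹ ^ T = 1 := by
    rw [← mul_pow, mul_inv_cancel₀ hp0.ne', one_pow]
  calc (p : ℝ) ^ T = (p : ℝ) ^ T * 1 := (mul_one _).symm
    _ ≤ (p : ℝ) ^ T * (‖(z : ℚ_[p])‖ * |(z : ℝ)|) := mul_le_mul_of_nonneg_left hL hpT.le
    _ ≤ (p : ℝ) ^ T * ((p : ℝ)⁻¹ ^ T * (Real.exp (cQ * (s : ℝ) ^ 5) ^ (s ^ 6) *
      (Real.exp (6 * (s : ℝ) ^ 5) ^ (s ^ 6) * Real.exp (12 * H * (s : ℝ) ^ 5) ^ (s ^ 6)))) := by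
        apply mul_le_mul_of_nonneg_left _ hpT.le
        exact mul_le_mul hzn hza (abs_nonneg _) (by positivity)
    _ = (Real.exp (cQ * (s : ℝ) ^ 5) ^ (s ^ 6) *
      (Real.exp (6 * (s : ℝ) ^ 5) ^ (s ^ 6) * Real.exp (12 * H * (s : ℝ) ^ 5) ^ (s ^ 6))) := by
        rw [← mul_assoc, h2, one_mul]
    _ = Real.exp ((6 + (cQ + 12 * H)) * s ^ 5) ^ (s ^ 6) := by
        rw [← mul_pow, ← mul_pow, ← Real.exp_add, ← Real.exp_add]
        congr 2
        ring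

end Pool.Agent.Lib.H22F301
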