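import Mathlib
import Pool.Agent.Lib.H22F301.Six2
import Pool.Agent.Lib.H22F301.PGS3

/-!
# Six exponentials: forms with logarithms
-/

namespace Pool.Agent.Lib.H22F301

open Finset NormedSpace

/-- The real form with logarithms of absolute values. -/
theorem six_log (x : Fin 2 → Fin 3 → ℚˣ) (s : Fin 2 → ℝ) (t : Fin 3 → ℝ)
    (h : ∀ l k, Real.log |((x l k : ℚ) : ℝ)| = s l * t k)
    (hs : ∀ c : Fin 2 → ℤ, ∑ i, (c i : ℝ) * s i = 0 → c = 0)
    (ht : ∀ c : Fin 3 → ℤ, ∑ j, (c j : ℝ) * t j = 0 → c = 0) : False := by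
  refine six_exp_real s t (fun l k => |(x l k : ℚ)|) (fun l k => abs_pos.2 (x l k).ne_zero) ?_ hs ht
  intro l k
  rw [← h l k, Real.exp_log]
  · push_cast; rfl
  · rw [abs_pos]
    exact_mod_cast (x l k).ne_zero

variable {p : ℕ} [hp : Fact p.Prime]

/-- The `p`-adic form with an abstract logarithm. -/
theorem six_lg {lg : ℚ_[p]ˣ →* Multiplicative ℚ_[p]} {N : ℕ} (hN : 0 < N)
    (hlg : Continuous fun y => Multiplicative.toAdd (lg y))
    (hker : ∀ y : ℚ_[p]ˣ, ‖(y : ℚ_[p])‖ = 1 → Multiplicative.toAdd (lg y) = 0 → y ^ N = 1)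
    (x : Fin 2 → Fin 3 → ℚˣ)
    (hx : ∀ l k, ‖((Units.map (algebraMap ℚ ℚ_[p]).toMonoidHom (x l k) : ℚ_[p]ˣ) : ℚ_[p])‖ = 1)
    (s : Fin 2 → ℚ_[p]) (t : Fin 3 → ℚ_[p])
    (h : ∀ l k, Multiplicative.toAdd (lg (Units.map (algebraMap ℚ ℚ_[p]).toMonoidHom (x l k))) =
      s l * t k)
    (hs : ∀ c : Fin 2 → ℤ, ∑ i, (c i : ℚ_[p]) * s i = 0 → c = 0)
    (ht : ∀ c : Fin 3 → ℤ, ∑ j, (c j : ℚ_[p]) * t j = 0 → c = 0) : False := by
  classical
  obtain ⟨c, hc0, hc1, hc2⟩ := exists_exp_log lg hN hlg hker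
  choose M hM w hw he using fun l k => hc2 _ (hx l k)
  set P : ℕ := ∏ l, ∏ k, M l k with hP
  have hP0 : 0 < P := Finset.prod_pos fun l _ => Finset.prod_pos fun k _ => hM l k
  have hdvd : ∀ l k, M l k ∣ P := fun l k =>
    (Finset.dvd_prod_of_mem (fun k => M l k) (mem_univ k)).trans
      (Finset.dvd_prod_of_mem (fun l => ∏ k, M l k) (mem_univ l))
  choose Q hQ using hdvd
  set w' : Fin 2 → Fin 3 → ℚ_[p] := fun l k => ((2 * Q l k : ℕ) : ℚ_[p]) * w l k with hw'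
  have hw'n : ∀ l k, ‖w' l k‖ ≤ ((p : ℝ) ^ 2)⁻¹ := fun l k =>
    norm_mul_le' (hw l k) (norm_natCast_le _)
  have hexp : ∀ l k, exp (w' l k) = ((((x l k : ℚ) ^ P) ^ 2 : ℚ) : ℚ_[p]) := by
    intro l k
    rw [hw']
    simp only
    rw [exp_nat_mul' (hw l k), ← he l k, Units.val_pow_eq_pow_val, ← pow_mul, hQ l k]
    push_cast
    rw [← pow_mul]
    congr 1
    ring
  have hlw : ∀ l k, c * w' l k = ((2 * P : ℕ) : ℚ_[p]) * (s l * t k) := by
    intro l k
    have h1 := hc1 _ (w l k) (hw l k) (he l k)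
    rw [map_pow, toAdd_pow, nsmul_eq_mul, h l k] at h1
    rw [hw']
    simp only
    have h2 : (P : ℚ_[p]) = (M l k : ℚ_[p]) * Q l k := by
      exact_mod_cast congrArg (fun z : ℕ => (z : ℚ_[p])) (hQ l k)
    push_cast
    rw [h2]
    linear_combination (-2 * (Q l k : ℚ_[p])) * h1
  have h2P : ((2 * P : ℕ) : ℚ_[p]) ≠ 0 := by
    have : 2 * P ≠ 0 := by omega
    exact_mod_cast this
  have ht0 : ∀ k, t k ≠ 0 := by
    intro k hk
    have h1 := ht (Pi.single k 1) (by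
      rw [Finset.sum_eq_single k]
      · rw [hk, mul_zero]
      · intro j _ hj
        rw [Pi.single_eq_of_ne hj]
        simp
      · simp)
    have := congrFun h1 k
    simp at this
  obtain ⟨k0, -, hk0⟩ := Finset.exists_max_image (univ : Finset (Fin 3)) (fun k => ‖t k‖)
    ⟨0, mem_univ _⟩
  refine six_exp_padic (fun l => w' l k0) (fun k => t k / t k0) (fun l => hw'n l k0) ?_
    (fun l k => ((x l k : ℚ) ^ P) ^ 2) ?_ ?_ ?_ ?_
  · intro k
    rw [norm_div]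
    exact div_le_one_of_le₀ (hk0 k (mem_univ k)) (norm_nonneg _)
  · intro l k
    have := (x l k).ne_zero
    positivity
  · intro l k
    rw [← hexp l k]
    congr 1
    apply mul_left_cancel₀ hc0
    rw [← mul_assoc, hlw, hlw]
    field_simp [ht0 k0]
  · intro b hb
    apply hs
    have h1 : ∑ i, (b i : ℚ_[p]) * (c * w' i k0) = 0 := by
      have : ∑ i, (b i : ℚ_[p]) * (c * w' i k0) = c * ∑ i, (b i : ℚ_[p]) * w' i k0 := by
        rw [Finset.mul_sum]
        exact Finset.sum_congr rfl fun i _ => by ring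
      rw [this, hb, mul_zero]
    simp only [hlw] at h1
    have h2 : ∑ i, (b i : ℚ_[p]) * (((2 * P : ℕ) : ℚ_[p]) * (s i * t k0)) =
        (((2 * P : ℕ) : ℚ_[p]) * t k0) * ∑ i, (b i : ℚ_[p]) * s i := by
      rw [Finset.mul_sum]
      exact Finset.sum_congr rfl fun i _ => by ring
    rw [h2] at h1
    exact (mul_eq_zero.1 h1).resolve_left (mul_ne_zero h2P (ht0 k0))
  · intro b hb
    apply ht
    have h2 : ∑ j, (b j : ℚ_[p]) * (t j / t k0) = (∑ j, (b j : ℚ_[p]) * t j) / t k0 := by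
      rw [Finset.sum_div]
      exact Finset.sum_congr rfl fun i _ => by ring
    rw [h2] at hb
    exact (div_eq_zero_iff.1 hb).resolve_right (ht0 k0)

end Pool.Agent.Lib.H22F301
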