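import Mathlib
import Pool.Agent.Lib.H22F301.Top
import Pool.Agent.Lib.H22F301.Pencil
import Pool.Agent.Lib.H22F301.PLog

/-!
# Closures of groups of rational points of split tori

`T = 𝔾_m ^ n` over `ℚ`, `L` a free abelian subgroup of `T(ℚ) = (ℚˣ) ^ n`: the closures of `L` in
`T(ℚ_p)` and `T(ℝ)`, their ranks `d(p)` and `ℓ(p)`.  Definitions and common lemmas.
-/

namespace Pool.Agent.Lib.H22F301

/-! ## The split torus -/

/-- The inclusion `T(ℚ) → T(K)` for `T = 𝔾_m ^ n`, `T(K) = (Kˣ) ^ n`. -/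
noncomputable def incl (K : Type*) [Field K] [Algebra ℚ K] (n : ℕ) :
    (Fin n → ℚˣ) →* (Fin n → Kˣ) where
  toFun x i := Units.map (algebraMap ℚ K).toMonoidHom (x i)
  map_one' := by funext i; simp
  map_mul' x y := by funext i; simp

theorem incl_apply (K : Type*) [Field K] [Algebra ℚ K] {n : ℕ} (x : Fin n → ℚˣ) (i : Fin n) :
    ((incl K n x i : Kˣ) : K) = algebraMap ℚ K (x i : ℚ) := rfl

theorem incl_injective (K : Type*) [Field K] [Algebra ℚ K] (n : ℕ) :
    Function.Injective (incl K n) := by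
  intro x y h
  funext i
  apply Units.ext
  apply (algebraMap ℚ K).injective
  rw [← incl_apply, ← incl_apply, h]

/-- The closure of `L` in `T(K)`. -/
noncomputable def closureAt (K : Type*) [NormedField K] [Algebra ℚ K] {n : ℕ}
    (L : Subgroup (Fin n → ℚˣ)) : Subgroup (Fin n → Kˣ) :=
  (L.map (incl K n)).topologicalClosure

/-- The closure of `L` in `T(ℚ_p)` is compact. -/
def CompactAt (p : ℕ) [Fact p.Prime] {n : ℕ} (L : Subgroup (Fin n → ℚˣ)) : Prop :=
  IsCompact (closureAt ℚ_[p] L : Set (Fin n → ℚ_[p]ˣ))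

/-- `d(p) = d`: the closure of `L` in `T(ℚ_p)` contains `ℤ_p ^ d` as a subgroup of finite index. -/
def RankAt (p : ℕ) [Fact p.Prime] {n : ℕ} (L : Subgroup (Fin n → ℚˣ)) (d : ℕ) : Prop :=
  HasZpRank p (closureAt ℚ_[p] L) d

/-- `d(p)` has the value `d` at each prime `p` for which the closure of `L` in `T(ℚ_p)` is
compact. -/
def CommonRank {n : ℕ} (L : Subgroup (Fin n → ℚˣ)) (d : ℕ) : Prop :=
  ∀ (p : ℕ) [Fact p.Prime], CompactAt p L → RankAt p L d

/-- `ℓ(p)` for `K = ℚ_p`, and `ℓ(∞)` for `K = ℝ`: the topological rank of the closure of `L` in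
`T(K)`. -/
noncomputable def ell (K : Type*) [NormedField K] [Algebra ℚ K] {n : ℕ}
    (L : Subgroup (Fin n → ℚˣ)) : ℕ∞ :=
  topRank (closureAt K L)

section General

variable {n : ℕ}

/-- The image of `L` in its closure. -/
noncomputable def inClosure (K : Type*) [NormedField K] [Algebra ℚ K]
    (L : Subgroup (Fin n → ℚˣ)) : Subgroup (closureAt K L) :=
  (L.map (incl K n)).subgroupOf (closureAt K L)

theorem map_le_closureAt (K : Type*) [NormedField K] [Algebra ℚ K] (L : Subgroup (Fin n → ℚˣ)) :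
    L.map (incl K n) ≤ closureAt K L := Subgroup.le_topologicalClosure _

theorem freeOfRank_inClosure (K : Type*) [NormedField K] [Algebra ℚ K]
    {L : Subgroup (Fin n → ℚˣ)} {m : ℕ} (hL : FreeOfRank L m) :
    FreeOfRank (inClosure K L) m := by
  obtain ⟨e⟩ := hL
  exact ⟨((Subgroup.subgroupOfEquivOfLe (map_le_closureAt K L)).trans
    (L.equivMapOfInjective (incl K n) (incl_injective K n)).symm).trans e⟩

theorem closure_inClosure (K : Type*) [NormedField K] [Algebra ℚ K]
    (L : Subgroup (Fin n → ℚˣ)) :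
    closure (inClosure K L : Set (closureAt K L)) = Set.univ := by
  rw [Set.eq_univ_iff_forall]
  intro x
  rw [closure_subtype]
  have h1 : ((↑) '' (inClosure K L : Set (closureAt K L)) : Set (Fin n → Kˣ)) =
      (L.map (incl K n) : Set (Fin n → Kˣ)) := by
    ext y
    constructor
    · rintro ⟨z, hz, rfl⟩
      exact hz
    · intro hy
      exact ⟨⟨y, map_le_closureAt K L hy⟩, hy, rfl⟩
  rw [h1]
  exact x.2

theorem rankAt_le {p : ℕ} [Fact p.Prime] {L : Subgroup (Fin n → ℚˣ)} {m d : ℕ}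
    (hL : FreeOfRank L m) (hd : RankAt p L d) : d ≤ m := by
  refine le_of_zpRank hd (freeOfRank_inClosure ℚ_[p] hL) (H := ⊤) ?_ inferInstance
  rw [closure_inClosure]; rfl

/-- A continuous homomorphism `Kˣ → 𝕜`, coordinatewise. -/
def coord {K 𝕜 : Type*} [Field K] [Field 𝕜] (f : Kˣ →* Multiplicative 𝕜) :
    (Fin n → Kˣ) →* Multiplicative (Fin n → 𝕜) where
  toFun x := Multiplicative.ofAdd fun i => Multiplicative.toAdd (f (x i))
  map_one' := by
    rw [← ofAdd_zero]
    congr 1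
    funext i
    simp
  map_mul' x y := by
    rw [← ofAdd_add]
    congr 1
    funext i
    simp

theorem coord_apply {K 𝕜 : Type*} [Field K] [Field 𝕜] (f : Kˣ →* Multiplicative 𝕜)
    (x : Fin n → Kˣ) (i : Fin n) :
    Multiplicative.toAdd (coord f x) i = Multiplicative.toAdd (f (x i)) := rfl

theorem continuous_coord {K 𝕜 : Type*} [NormedField K] [NormedField 𝕜]
    (f : Kˣ →* Multiplicative 𝕜) (hf : Continuous fun y => Multiplicative.toAdd (f y)) :
    Continuous fun x : Fin n → Kˣ => Multiplicative.toAdd (coord f x) :=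
  continuous_pi fun i => hf.comp (continuous_apply i)

/-- The logarithm of the absolute value. -/
noncomputable def logAbs : ℝˣ →* Multiplicative ℝ :=
  MonoidHom.mk' (fun y => Multiplicative.ofAdd (Real.log |(y : ℝ)|)) (by
    intro x y
    rw [← ofAdd_add]
    congr 1
    rw [Units.val_mul, abs_mul, Real.log_mul (abs_ne_zero.2 x.ne_zero) (abs_ne_zero.2 y.ne_zero)])

theorem continuous_logAbs : Continuous fun y => Multiplicative.toAdd (logAbs y) := by
  show Continuous fun y : ℝˣ => Real.log |(y : ℝ)|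
  exact (Units.continuous_val.abs).log fun y => abs_ne_zero.2 y.ne_zero

/-- Values of `coord` at the elements of `L`. -/
theorem coord_inClosure {K 𝕜 : Type*} [NormedField K] [Algebra ℚ K] [Field 𝕜]
    (f : Kˣ →* Multiplicative 𝕜) (L : Subgroup (Fin n → ℚˣ)) :
    ((fun g => Multiplicative.toAdd (((coord f).comp (closureAt K L).subtype) g)) ''
      (inClosure K L : Set (closureAt K L))) =
      ((fun x => Multiplicative.toAdd (coord f (incl K n x))) '' (L : Set (Fin n → ℚˣ))) := by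
  ext v
  constructor
  · rintro ⟨z, hz, rfl⟩
    obtain ⟨x, hx, hxz⟩ := hz
    exact ⟨x, hx, by simp only; rw [hxz]; rfl⟩
  · rintro ⟨x, hx, rfl⟩
    exact ⟨⟨incl K n x, map_le_closureAt K L ⟨x, hx, rfl⟩⟩, ⟨x, hx, rfl⟩, rfl⟩

/-- Lower bound for `ℓ(∞)`. -/
theorem le_ell_real {L : Subgroup (Fin n → ℚˣ)} {m : ℕ} (hL : FreeOfRank L m) :
    ((min m (Module.finrank ℝ (Submodule.span ℝ
      ((fun x => Multiplicative.toAdd (coord logAbs (incl ℝ n x))) '' (L : Set (Fin n → ℚˣ)))) + 1)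
      : ℕ) : ℕ∞) ≤ ell ℝ L := by
  refine le_iInf₂ fun k hk => ?_
  obtain ⟨F, H, hF, hH, -, hfin⟩ := hk
  have h := min_le_of_free ((coord logAbs).comp (closureAt ℝ L).subtype)
    ((continuous_coord _ continuous_logAbs).comp continuous_subtype_val)
    (freeOfRank_inClosure ℝ hL) hF hH hfin
  rw [coord_inClosure] at h
  exact_mod_cast h

end General

/-! ## Finite places -/

section Padic

variable {p : ℕ} [hp : Fact p.Prime] {n : ℕ}

theorem norm_eq_one_of_valuation {y : ℚ_[p]} (hy : y ≠ 0) : ‖y‖ = 1 ↔ y.valuation = 0 := by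
  rw [Padic.norm_eq_zpow_neg_valuation hy]
  have hp1 : (1 : ℝ) < p := by exact_mod_cast hp.out.one_lt
  constructor
  · intro h
    have h3 : (p : ℝ) ^ (-y.valuation) = (p : ℝ) ^ (0 : ℤ) := by rw [zpow_zero]; exact h
    have := (zpow_right_strictMono₀ hp1).injective h3
    omega
  · intro h
    rw [h, neg_zero, zpow_zero]

/-- The valuation as a homomorphism to `ℚ_p`. -/
noncomputable def valHom (p : ℕ) [Fact p.Prime] : ℚ_[p]ˣ →* Multiplicative ℚ_[p] :=
  MonoidHom.mk' (fun y => Multiplicative.ofAdd (((y : ℚ_[p]).valuation : ℤ) : ℚ_[p])) (by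
    intro x y
    rw [← ofAdd_add]
    congr 1
    rw [Units.val_mul, Padic.valuation_mul x.ne_zero y.ne_zero]
    push_cast
    rfl)

theorem continuous_valHom : Continuous fun y => Multiplicative.toAdd (valHom p y) := by
  have hc : Continuous (valHom p) := by
    apply continuous_of_continuousAt_one
    have h4 : ∀ᶠ y : ℚ_[p]ˣ in nhds 1, ‖(y : ℚ_[p]) - 1‖ < 1 := by
      have h5 : Continuous (fun y : ℚ_[p]ˣ => ‖(y : ℚ_[p]) - 1‖) := by
        have := Units.continuous_val (M := ℚ_[p])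
        fun_prop
      have h6 := h5.tendsto 1
      simp only [Units.val_one, sub_self, norm_zero] at h6
      exact h6.eventually (gt_mem_nhds one_pos)
    have h5 : (fun _ : ℚ_[p]ˣ => (1 : Multiplicative ℚ_[p])) =ᶠ[nhds 1] (valHom p) := by
      filter_upwards [h4] with y hy
      have hy1 : ‖(y : ℚ_[p])‖ = 1 := by
        have h7 : (y : ℚ_[p]) = ((y : ℚ_[p]) - 1) + 1 := by ring
        have h8 : ‖((y : ℚ_[p]) - 1)‖ ≠ ‖(1 : ℚ_[p])‖ := by
          rw [norm_one]
          exact hy.ne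
        rw [h7, Padic.add_eq_max_of_ne h8, norm_one, max_eq_right hy.le]
      have h9 := (norm_eq_one_of_valuation y.ne_zero).1 hy1
      show (1 : Multiplicative ℚ_[p]) = Multiplicative.ofAdd (((y : ℚ_[p]).valuation : ℤ) : ℚ_[p])
      rw [h9, Int.cast_zero, ofAdd_zero]
    have h6 : ContinuousAt (fun _ : ℚ_[p]ˣ => (1 : Multiplicative ℚ_[p])) 1 := continuousAt_const
    exact h6.congr h5
  exact continuous_toAdd.comp hc

/-- The units of `ℤ_p` form a compact subset of `ℚ_pˣ`. -/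
theorem isCompact_norm_one : IsCompact {y : ℚ_[p]ˣ | ‖(y : ℚ_[p])‖ = 1} := by
  have h1 : {y : ℚ_[p]ˣ | ‖(y : ℚ_[p])‖ = 1} =
      Set.range (Units.map (PadicInt.Coe.ringHom (p := p)).toMonoidHom) := by
    ext y
    constructor
    · intro hy
      have hy' : ‖(y : ℚ_[p])‖ = 1 := hy
      set z : ℤ_[p] := ⟨(y : ℚ_[p]), hy'.le⟩ with hz
      have hu : IsUnit z := PadicInt.isUnit_iff.2 hy'
      obtain ⟨u, hu⟩ := hu
      refine ⟨u, ?_⟩
      apply Units.ext
      show ((u : ℤ_[p]) : ℚ_[p]) = y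
      rw [hu]
    · rintro ⟨u, rfl⟩
      show ‖((u : ℤ_[p]) : ℚ_[p])‖ = 1
      exact PadicInt.isUnit_iff.1 u.isUnit
  rw [h1, ← Set.image_univ]
  apply isCompact_univ.image
  apply Continuous.units_map
  exact continuous_subtype_val

theorem compactAt_of_norm_one {L : Subgroup (Fin n → ℚˣ)}
    (h : ∀ x ∈ L, ∀ i, ‖((incl ℚ_[p] n x i : ℚ_[p]ˣ) : ℚ_[p])‖ = 1) : CompactAt p L := by
  have h1 : IsCompact (Set.pi Set.univ fun _ : Fin n => {y : ℚ_[p]ˣ | ‖(y : ℚ_[p])‖ = 1}) :=
    isCompact_univ_pi fun _ => isCompact_norm_one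
  refine h1.of_isClosed_subset (Subgroup.isClosed_topologicalClosure _) ?_
  refine closure_minimal ?_ h1.isClosed
  rintro _ ⟨x, hx, rfl⟩ i -
  exact h x hx i

/-- On a compact subgroup the coordinates have absolute value `1`. -/
theorem norm_one_of_hom {d : ℕ} (φ : Multiplicative (Fin d → ℤ_[p]) →* ℚ_[p]ˣ)
    (hφ : Continuous φ) (x : Multiplicative (Fin d → ℤ_[p])) : ‖((φ x : ℚ_[p]ˣ) : ℚ_[p])‖ = 1 := by
  have hc : Continuous fun x => ‖((φ x : ℚ_[p]ˣ) : ℚ_[p])‖ :=
    (Units.continuous_val.comp hφ).norm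
  obtain ⟨C, hC⟩ := (isCompact_range hc).bddAbove
  have hle : ∀ x, ‖((φ x : ℚ_[p]ˣ) : ℚ_[p])‖ ≤ 1 := by
    intro x
    by_contra hcon
    rw [not_le] at hcon
    obtain ⟨k, hk⟩ := pow_unbounded_of_one_lt C hcon
    have h1 : ‖((φ (x ^ k) : ℚ_[p]ˣ) : ℚ_[p])‖ ≤ C := hC ⟨x ^ k, rfl⟩
    rw [map_pow, Units.val_pow_eq_pow_val, norm_pow] at h1
    linarith
  apply le_antisymm (hle x)
  have h1 := hle x⁻¹
  rw [map_inv, Units.val_inv_eq_inv_val, norm_inv] at h1
  have h2 : 0 < ‖((φ x : ℚ_[p]ˣ) : ℚ_[p])‖ := norm_pos_iff.2 (φ x).ne_zero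
  exact (inv_le_one₀ h2).1 h1

/-- `d(p)` is at most the dimension of the span of the `p`-adic logarithms. -/
theorem rankAt_le_finrank (lg : ℚ_[p]ˣ →* Multiplicative ℚ_[p]) {N : ℕ} (hN : 0 < N)
    (hlg : Continuous fun y => Multiplicative.toAdd (lg y))
    (hker : ∀ y : ℚ_[p]ˣ, ‖(y : ℚ_[p])‖ = 1 → Multiplicative.toAdd (lg y) = 0 → y ^ N = 1)
    {L : Subgroup (Fin n → ℚˣ)} {d : ℕ} (hd : RankAt p L d) :
    d ≤ Module.finrank ℚ_[p] (Submodule.span ℚ_[p]
      ((fun x => Multiplicative.toAdd (coord lg (incl ℚ_[p] n x))) '' (L : Set (Fin n → ℚˣ)))) := by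
  obtain ⟨φ, hφc, hφi, -⟩ := hd
  set V : Submodule ℚ_[p] (Fin n → ℚ_[p]) := Submodule.span ℚ_[p]
      ((fun x => Multiplicative.toAdd (coord lg (incl ℚ_[p] n x))) '' (L : Set (Fin n → ℚˣ)))
    with hV
  have hVc : IsClosed (V : Set (Fin n → ℚ_[p])) := Submodule.closed_of_finiteDimensional V
  have hGV : ∀ x ∈ closureAt ℚ_[p] L, Multiplicative.toAdd (coord lg x) ∈ V := by
    have hcl : IsClosed {x : Fin n → ℚ_[p]ˣ | Multiplicative.toAdd (coord lg x) ∈
        (V : Set (Fin n → ℚ_[p]))} := hVc.preimage (continuous_coord lg hlg)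
    intro x hx
    refine closure_minimal ?_ hcl hx
    rintro _ ⟨z, hz, rfl⟩
    exact Submodule.subset_span ⟨z, hz, rfl⟩
  set ψ : (Fin d → ℤ_[p]) →+ (Fin n → ℚ_[p]) :=
    AddMonoidHom.mk' (fun x => Multiplicative.toAdd
      (coord lg ((φ (Multiplicative.ofAdd x) : closureAt ℚ_[p] L) : Fin n → ℚ_[p]ˣ))) (by
      intro x y
      rw [ofAdd_add, map_mul, Subgroup.coe_mul, map_mul, toAdd_mul]) with hψ
  have hψc : Continuous ψ := by
    show Continuous fun x : Fin d → ℤ_[p] => Multiplicative.toAdd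
      (coord lg ((φ (Multiplicative.ofAdd x) : closureAt ℚ_[p] L) : Fin n → ℚ_[p]ˣ))
    exact (continuous_coord lg hlg).comp (continuous_subtype_val.comp (hφc.comp continuous_ofAdd))
  have hψV : ∀ x, ψ x ∈ V := fun x => hGV _ (SetLike.coe_mem _)
  have hψi : ∀ x, ψ x = 0 → x = 0 := by
    intro x hx
    have h1 : (φ (Multiplicative.ofAdd x)) ^ N = 1 := by
      apply Subtype.ext
      funext i
      set φi : Multiplicative (Fin d → ℤ_[p]) →* ℚ_[p]ˣ :=
        (Pi.evalMonoidHom (fun _ : Fin n => ℚ_[p]ˣ) i).comp ((closureAt ℚ_[p] L).subtype.comp φ)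
        with hφi'
      have hφic : Continuous φi :=
        (continuous_apply i).comp (continuous_subtype_val.comp hφc)
      have h2 := hker _ (norm_one_of_hom φi hφic (Multiplicative.ofAdd x)) (congrFun hx i)
      exact h2
    rw [← map_pow, ← ofAdd_nsmul] at h1
    have h2 := hφi (h1.trans (map_one φ).symm)
    have h3 : N • x = 0 := ofAdd_eq_one.1 h2
    funext i
    have h4 := congrFun h3 i
    simp only [Pi.smul_apply, Pi.zero_apply, nsmul_eq_mul, mul_eq_zero, Nat.cast_eq_zero] at h4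
    exact h4.resolve_left hN.ne'
  have hψs : ∀ (c : ℤ_[p]) (x : Fin d → ℤ_[p]), ψ (c • x) = (c : ℚ_[p]) • ψ x := by
    intro c x
    have h1 : Continuous fun c : ℤ_[p] => ψ (c • x) := hψc.comp (continuous_id.smul continuous_const)
    have h2 : Continuous fun c : ℤ_[p] => (c : ℚ_[p]) • ψ x :=
      continuous_subtype_val.smul continuous_const
    have h3 := DenseRange.equalizer PadicInt.denseRange_intCast h1 h2 (by
      funext z
      simp only [Function.comp_apply]
      rw [Int.cast_smul_eq_zsmul, map_zsmul, PadicInt.coe_intCast, Int.cast_smul_eq_zsmul])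
    exact congrFun h3 c
  set e : Fin d → V := fun j => ⟨ψ (Pi.single j 1), hψV _⟩ with he
  have hli : LinearIndependent ℤ_[p] e := by
    rw [Fintype.linearIndependent_iff]
    intro c hc j
    have h1 : ψ (∑ j, c j • (Pi.single j (1 : ℤ_[p]) : Fin d → ℤ_[p])) = 0 := by
      rw [map_sum]
      simp only [hψs]
      have h2 := congrArg (Submodule.subtype V) hc
      rw [map_sum, map_zero] at h2
      rw [← h2]
      refine Finset.sum_congr rfl fun j _ => ?_
      rfl
    have h2 := hψi _ h1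
    have h3 := congrFun h2 j
    simpa [Finset.sum_apply, Pi.single_apply] using h3
  have hli2 : LinearIndependent ℚ_[p] e := (LinearIndependent.iff_fractionRing ℤ_[p] ℚ_[p]).1 hli
  have := hli2.fintype_card_le_finrank
  simpa using this

end Padic

section Span

variable {n : ℕ}

theorem prod_zpow_sum {G : Type*} [CommGroup G] {ι : Type*} (s : Finset ι) (g : G) (e : ι → ℤ) :
    ∏ j ∈ s, g ^ e j = g ^ ∑ j ∈ s, e j := by
  classical
  induction s using Finset.induction_on with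
  | empty => simp
  | insert a s ha ih => rw [Finset.prod_insert ha, Finset.sum_insert ha, zpow_add, ih]
/-- The span of the values at `L` contains the values at the generators, and conversely. -/
theorem finrank_range_le {K 𝕜 : Type*} [Field K] [Algebra ℚ K] [Field 𝕜]
    (f : Kˣ →* Multiplicative 𝕜) {L : Subgroup (Fin n → ℚˣ)} {m : ℕ} {g : Fin m → Fin n → ℚˣ}
    (hg : ∀ j, g j ∈ L) :
    Module.finrank 𝕜 (Submodule.span 𝕜 (Set.range fun j =>
      Multiplicative.toAdd (coord f (incl K n (g j))))) ≤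
    Module.finrank 𝕜 (Submodule.span 𝕜
      ((fun x => Multiplicative.toAdd (coord f (incl K n x))) '' (L : Set (Fin n → ℚˣ)))) := by
  apply Submodule.finrank_mono
  apply Submodule.span_mono
  rintro _ ⟨j, rfl⟩
  exact ⟨g j, hg j, rfl⟩

theorem finrank_le_range {K 𝕜 : Type*} [Field K] [Algebra ℚ K] [Field 𝕜]
    (f : Kˣ →* Multiplicative 𝕜) {L : Subgroup (Fin n → ℚˣ)} {m : ℕ} {g : Fin m → Fin n → ℚˣ}
    (hg : ∀ x, x ∈ L ↔ ∃ c : Fin m → ℤ, x = ∏ j, g j ^ c j) :
    Module.finrank 𝕜 (Submodule.span 𝕜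
      ((fun x => Multiplicative.toAdd (coord f (incl K n x))) '' (L : Set (Fin n → ℚˣ)))) ≤
    Module.finrank 𝕜 (Submodule.span 𝕜 (Set.range fun j =>
      Multiplicative.toAdd (coord f (incl K n (g j))))) := by
  apply Submodule.finrank_mono
  rw [Submodule.span_le]
  rintro _ ⟨x, hx, rfl⟩
  obtain ⟨c, rfl⟩ := (hg x).1 hx
  simp only
  rw [map_prod, map_prod, toAdd_prod]
  refine Submodule.sum_mem _ fun j _ => ?_
  rw [map_zpow, map_zpow, toAdd_zpow, ← Int.cast_smul_eq_zsmul 𝕜]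
  exact Submodule.smul_mem _ _ (Submodule.subset_span ⟨j, rfl⟩)
/-- The dimension of the space spanned by the vectors `(f x₁, …, f x_n)`, `x ∈ L`. -/
noncomputable def spanRank {K 𝕜 : Type*} [Field K] [Algebra ℚ K] [Field 𝕜]
    (f : Kˣ →* Multiplicative 𝕜) (L : Subgroup (Fin n → ℚˣ)) : ℕ :=
  Module.finrank 𝕜 (Submodule.span 𝕜
    ((fun x => Multiplicative.toAdd (coord f (incl K n x))) '' (L : Set (Fin n → ℚˣ))))
/-- `ℓ ≤ m`. -/
theorem ell_le (K : Type*) [NormedField K] [Algebra ℚ K] {L : Subgroup (Fin n → ℚˣ)} {m : ℕ}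
    (hL : FreeOfRank L m) : ell K L ≤ m := by
  refine iInf₂_le_of_le m ⟨inClosure K L, ⊤, freeOfRank_inClosure K hL, ?_, isOpen_univ,
    inferInstance⟩ le_rfl
  rw [closure_inClosure]
  rfl

/-- The closure is compact for all large primes. -/
theorem exists_compact {L : Subgroup (Fin n → ℚˣ)} {m : ℕ} (hL : FreeOfRank L m) :
    ∃ N : ℕ, ∀ (p : ℕ) [Fact p.Prime], N < p → CompactAt p L := by
  obtain ⟨f, hf, -⟩ := exists_basis hL
  refine ⟨Finset.univ.sup fun j => Finset.univ.sup fun i =>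
    max (f j i : ℚ).den ((f j i : ℚ)⁻¹).den, fun p hp hp' => ?_⟩
  have hrat : ∀ q : ℚ, q.den < p → ‖(q : ℚ_[p])‖ ≤ 1 := fun q hq =>
    Padic.norm_rat_le_one fun h => absurd (Nat.le_of_dvd q.den_pos h) (by omega)
  have hgen : ∀ j i, ‖((incl ℚ_[p] n (f j) i : ℚ_[p]ˣ) : ℚ_[p])‖ = 1 := by
    intro j i
    have h1 : max (f j i : ℚ).den ((f j i : ℚ)⁻¹).den < p := by
      refine lt_of_le_of_lt ?_ hp'
      exact le_trans (Finset.le_sup (f := fun i => max (f j i : ℚ).den ((f j i : ℚ)⁻¹).den)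
        (Finset.mem_univ i)) (Finset.le_sup (f := fun j => Finset.univ.sup fun i =>
          max (f j i : ℚ).den ((f j i : ℚ)⁻¹).den) (Finset.mem_univ j))
    have h2 := hrat _ (lt_of_le_of_lt (le_max_left _ _) h1)
    have h3 := hrat _ (lt_of_le_of_lt (le_max_right _ _) h1)
    rw [incl_apply]
    have e1 : (algebraMap ℚ ℚ_[p]) (f j i : ℚ) = ((f j i : ℚ) : ℚ_[p]) := rfl
    rw [e1]
    apply le_antisymm h2
    rw [Rat.cast_inv, norm_inv] at h3
    have h4 : 0 < ‖((f j i : ℚ) : ℚ_[p])‖ := norm_pos_iff.2 (by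
      exact_mod_cast (f j i).ne_zero)
    exact (inv_le_one₀ h4).1 h3
  apply compactAt_of_norm_one
  intro x hx i
  obtain ⟨c, rfl⟩ := (hf x).1 hx
  rw [map_prod, Finset.prod_apply, Units.coe_prod, norm_prod]
  apply Finset.prod_eq_one
  intro j _
  rw [map_zpow, Pi.pow_apply, Units.val_zpow_eq_zpow_val, norm_zpow, hgen, one_zpow]

/-- The valuations and the logarithms of the coordinates. -/
noncomputable def pairHom {p : ℕ} [Fact p.Prime] (lg : ℚ_[p]ˣ →* Multiplicative ℚ_[p]) (n : ℕ) :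
    (Fin n → ℚ_[p]ˣ) →* Multiplicative (Fin (n + n) → ℚ_[p]) :=
  MonoidHom.mk' (fun x => Multiplicative.ofAdd (Fin.append
    (Multiplicative.toAdd (coord (valHom p) x)) (Multiplicative.toAdd (coord lg x)))) (by
    intro x y
    rw [← ofAdd_add]
    congr 1
    funext i
    refine Fin.addCases (fun i => ?_) (fun i => ?_) i
    · simp only [map_mul, toAdd_mul, Pi.add_apply, Fin.append_left]
    · simp only [map_mul, toAdd_mul, Pi.add_apply, Fin.append_right])

theorem continuous_pairHom {p : ℕ} [Fact p.Prime] (lg : ℚ_[p]ˣ →* Multiplicative ℚ_[p])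
    (hlg : Continuous fun y => Multiplicative.toAdd (lg y)) :
    Continuous fun x => Multiplicative.toAdd (pairHom lg n x) := by
  apply continuous_pi
  intro i
  refine Fin.addCases (fun i => ?_) (fun i => ?_) i
  · show Continuous fun x : Fin n → ℚ_[p]ˣ => Fin.append
      (Multiplicative.toAdd (coord (valHom p) x)) (Multiplicative.toAdd (coord lg x))
      (Fin.castAdd n i)
    simp only [Fin.append_left]
    exact continuous_valHom.comp (continuous_apply i)
  · show Continuous fun x : Fin n → ℚ_[p]ˣ => Fin.append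
      (Multiplicative.toAdd (coord (valHom p) x)) (Multiplicative.toAdd (coord lg x))
      (Fin.natAdd n i)
    simp only [Fin.append_right]
    exact hlg.comp (continuous_apply i)
/-- At a place with compact closure all elements have valuation `0`. -/
theorem norm_one_of_compactAt {p : ℕ} [hp : Fact p.Prime] {L : Subgroup (Fin n → ℚˣ)}
    (hc : CompactAt p L) {x : Fin n → ℚ_[p]ˣ} (hx : x ∈ closureAt ℚ_[p] L) (i : Fin n) :
    ‖((x i : ℚ_[p]ˣ) : ℚ_[p])‖ = 1 := by
  have hcont : Continuous fun x : Fin n → ℚ_[p]ˣ => ‖((x i : ℚ_[p]ˣ) : ℚ_[p])‖ :=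
    (Units.continuous_val.comp (continuous_apply i)).norm
  obtain ⟨C, hC⟩ := (hc.image hcont).bddAbove
  have hle : ∀ x ∈ closureAt ℚ_[p] L, ‖((x i : ℚ_[p]ˣ) : ℚ_[p])‖ ≤ 1 := by
    intro x hx
    by_contra hcon
    rw [not_le] at hcon
    obtain ⟨k, hk⟩ := pow_unbounded_of_one_lt C hcon
    have h1 : ‖(((x ^ k) i : ℚ_[p]ˣ) : ℚ_[p])‖ ≤ C := hC ⟨x ^ k, Subgroup.pow_mem _ hx k, rfl⟩
    rw [Pi.pow_apply, Units.val_pow_eq_pow_val, norm_pow] at h1
    linarith
  apply le_antisymm (hle x hx)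
  have h1 := hle x⁻¹ (Subgroup.inv_mem _ hx)
  rw [Pi.inv_apply, Units.val_inv_eq_inv_val, norm_inv] at h1
  have h2 : 0 < ‖((x i : ℚ_[p]ˣ) : ℚ_[p])‖ := norm_pos_iff.2 (x i).ne_zero
  exact (inv_le_one₀ h2).1 h1

/-- The rank of the logarithms is at most `d(p)`. -/
theorem spanRank_le_of_rankAt {p : ℕ} [hp : Fact p.Prime] {lg : ℚ_[p]ˣ →* Multiplicative ℚ_[p]}
    (hlg : Continuous fun y => Multiplicative.toAdd (lg y)) {L : Subgroup (Fin n → ℚˣ)} {d : ℕ}
    (hd : RankAt p L d) : spanRank lg L ≤ d := by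
  have h1 : ((spanRank lg L : ℕ) : ℕ∞) ≤ topRank (closureAt ℚ_[p] L) := by
    refine le_iInf₂ fun k hk' => ?_
    obtain ⟨F, H, hF, hH, -, hfin⟩ := hk'
    have h := finrank_span_le ((coord lg).comp (closureAt ℚ_[p] L).subtype)
      ((continuous_coord lg hlg).comp continuous_subtype_val) hF hH hfin
      (inClosure ℚ_[p] L : Set (closureAt ℚ_[p] L))
    rw [coord_inClosure] at h
    exact_mod_cast h
  rw [topRank_eq_of_zpRank hd] at h1
  exact_mod_cast h1
theorem rankAt_unique {p : ℕ} [Fact p.Prime] {L : Subgroup (Fin n → ℚˣ)} {d d' : ℕ}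
    (hd : RankAt p L d) (hd' : RankAt p L d') : d = d' := by
  have h1 := topRank_eq_of_zpRank hd
  rw [topRank_eq_of_zpRank hd'] at h1
  exact_mod_cast h1.symm

end Span

end Pool.Agent.Lib.H22F301
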