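import Mathlib
import Pool.Agent.Lib.H22F301.Pencil

/-!
# Homomorphisms from the multiplicative group of the rational numbers to `ℚ`
-/

namespace Pool.Agent.Lib.H22F301

open Polynomial

/-- The `q`-adic valuation on `ℚˣ`. -/
noncomputable def vHom (q : ℕ) [Fact q.Prime] : ℚˣ →* Multiplicative ℚ :=
  MonoidHom.mk' (fun u => Multiplicative.ofAdd ((padicValRat q (u : ℚ) : ℤ) : ℚ)) (by
    intro x y
    rw [← ofAdd_add]
    congr 1
    rw [Units.val_mul, padicValRat.mul x.ne_zero y.ne_zero]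
    push_cast
    rfl)

theorem vHom_apply (q : ℕ) [Fact q.Prime] (u : ℚˣ) :
    Multiplicative.toAdd (vHom q u) = ((padicValRat q (u : ℚ) : ℤ) : ℚ) := rfl

/-- A rational number all of whose valuations vanish has square `1`. -/
theorem sq_eq_one_of_val {u : ℚˣ} (h : ∀ (q : ℕ) [Fact q.Prime], padicValRat q (u : ℚ) = 0) :
    u ^ 2 = 1 := by
  have hnum : (u : ℚ).num ≠ 0 := Rat.num_ne_zero.2 u.ne_zero
  have h1 : (u : ℚ).num.natAbs = 1 := by
    by_contra hne
    obtain ⟨q, hq, hqd⟩ := Nat.exists_prime_and_dvd hne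
    have : Fact q.Prime := ⟨hq⟩
    have h2 := h q
    rw [padicValRat_def] at h2
    have h3 : ¬ q ∣ (u : ℚ).den := by
      intro hd
      have h4 : q ∣ Nat.gcd (u : ℚ).num.natAbs (u : ℚ).den := Nat.dvd_gcd hqd hd
      rw [(u : ℚ).reduced] at h4
      exact hq.one_lt.ne' (Nat.dvd_one.1 h4)
    rw [padicValNat.eq_zero_of_not_dvd h3] at h2
    have h5 : padicValNat q (u : ℚ).num.natAbs ≠ 0 :=
      (dvd_iff_padicValNat_ne_zero (Int.natAbs_ne_zero.2 hnum)).1 hqd
    have h6 : padicValInt q (u : ℚ).num = padicValNat q (u : ℚ).num.natAbs := rfl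
    rw [h6] at h2
    omega
  have h2 : (u : ℚ).den = 1 := by
    by_contra hne
    obtain ⟨q, hq, hqd⟩ := Nat.exists_prime_and_dvd hne
    have : Fact q.Prime := ⟨hq⟩
    have h2 := h q
    rw [padicValRat_def] at h2
    have h5 : padicValNat q (u : ℚ).den ≠ 0 :=
      (dvd_iff_padicValNat_ne_zero (u : ℚ).den_pos.ne').1 hqd
    have h6 : padicValInt q (u : ℚ).num = padicValNat q (u : ℚ).num.natAbs := rfl
    rw [h6, h1, padicValNat_one_right] at h2
    omega
  apply Units.ext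
  rw [Units.val_pow_eq_pow_val, Units.val_one]
  have h3 : (u : ℚ) = (u : ℚ).num := (Rat.den_eq_one_iff _).1 h2 |>.symm
  rcases Int.natAbs_eq (u : ℚ).num with h | h
  · rw [h3, h, h1]; norm_num
  · rw [h3, h, h1]; norm_num

/-- Homomorphisms take arbitrary values at two multiplicatively independent numbers. -/
theorem exists_hom {g₁ g₂ : ℚˣ} (hind : ∀ a b : ℤ, g₁ ^ a * g₂ ^ b = 1 → a = 0 ∧ b = 0) (x y : ℚ) :
    ∃ f : ℚˣ →* Multiplicative ℚ, Multiplicative.toAdd (f g₁) = x ∧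
      Multiplicative.toAdd (f g₂) = y := by
  obtain ⟨p, hp, hpv⟩ : ∃ (p : ℕ) (_ : Fact p.Prime), padicValRat p (g₁ : ℚ) ≠ 0 := by
    by_contra hcon
    push Not at hcon
    have h1 : g₁ ^ 2 = 1 := sq_eq_one_of_val fun q hq => hcon q hq
    have := hind 2 0 (by rw [zpow_zero, mul_one]; exact_mod_cast h1)
    omega
  obtain ⟨q, hq, hD⟩ : ∃ (q : ℕ) (_ : Fact q.Prime),
      padicValRat p (g₁ : ℚ) * padicValRat q (g₂ : ℚ) -
        padicValRat q (g₁ : ℚ) * padicValRat p (g₂ : ℚ) ≠ 0 := by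
    by_contra hcon
    push Not at hcon
    set a := padicValRat p (g₁ : ℚ) with ha
    set b := padicValRat p (g₂ : ℚ) with hb
    have h1 : (g₂ ^ a * g₁ ^ (-b)) ^ 2 = 1 := by
      apply sq_eq_one_of_val
      intro q hq
      have h2 := hcon q hq
      have h3 : Multiplicative.toAdd (vHom q (g₂ ^ a * g₁ ^ (-b))) =
          (a : ℚ) * padicValRat q (g₂ : ℚ) - b * padicValRat q (g₁ : ℚ) := by
        rw [map_mul, map_zpow, map_zpow, toAdd_mul, toAdd_zpow, toAdd_zpow, vHom_apply, vHom_apply,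
          zsmul_eq_mul, zsmul_eq_mul]
        push_cast
        ring
      rw [vHom_apply] at h3
      have h4 : ((padicValRat q ((g₂ ^ a * g₁ ^ (-b) : ℚˣ) : ℚ) : ℤ) : ℚ) = 0 := by
        rw [h3]
        have h5 : ((a * padicValRat q (g₂ : ℚ) - padicValRat q (g₁ : ℚ) * b : ℤ) : ℚ) = 0 := by
          rw [h2]; simp
        push_cast at h5
        linarith
      exact_mod_cast h4
    have h2 : g₁ ^ (-b * 2) * g₂ ^ (a * 2) = 1 := by
      rw [zpow_mul, zpow_mul, ← mul_zpow, mul_comm]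
      exact_mod_cast h1
    have h3 := hind _ _ h2
    apply hpv
    omega
  set D : ℚ := ((padicValRat p (g₁ : ℚ) * padicValRat q (g₂ : ℚ) -
        padicValRat q (g₁ : ℚ) * padicValRat p (g₂ : ℚ) : ℤ) : ℚ) with hDdef
  have hD0 : D ≠ 0 := by rw [hDdef]; exact_mod_cast hD
  set c₁ : ℚ := (x * padicValRat q (g₂ : ℚ) - y * padicValRat q (g₁ : ℚ)) / D with hc₁
  set c₂ : ℚ := (y * padicValRat p (g₁ : ℚ) - x * padicValRat p (g₂ : ℚ)) / D with hc₂
  refine ⟨MonoidHom.mk' (fun u => Multiplicative.ofAdd (c₁ * Multiplicative.toAdd (vHom p u) +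
    c₂ * Multiplicative.toAdd (vHom q u))) (by
      intro u v
      rw [← ofAdd_add]
      congr 1
      rw [map_mul (vHom p), map_mul (vHom q), toAdd_mul, toAdd_mul]
      ring), ?_, ?_⟩
  · show c₁ * Multiplicative.toAdd (vHom p g₁) + c₂ * Multiplicative.toAdd (vHom q g₁) = x
    rw [vHom_apply, vHom_apply, hc₁, hc₂]
    field_simp
    rw [hDdef]
    push_cast
    ring
  · show c₁ * Multiplicative.toAdd (vHom p g₂) + c₂ * Multiplicative.toAdd (vHom q g₂) = y
    rw [vHom_apply, vHom_apply, hc₁, hc₂]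
    field_simp
    rw [hDdef]
    push_cast
    ring

/-- The rank of a pencil at a rational point. -/
theorem exists_rat_rank {𝕜 : Type*} [Field 𝕜] [CharZero 𝕜] {m n : ℕ} (A B : Fin m → Fin n → ℤ)
    (l₁ l₂ : 𝕜) : ∃ t : ℚ,
    Module.finrank 𝕜 (Submodule.span 𝕜 (Set.range fun (j : Fin m) (i : Fin n) =>
      (A j i : 𝕜) * l₁ + (B j i : 𝕜) * l₂)) ≤
    Module.finrank ℚ (Submodule.span ℚ (Set.range fun (j : Fin m) (i : Fin n) =>
      (A j i : ℚ) * 1 + (B j i : ℚ) * t)) := by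
  set ρ := Module.finrank 𝕜 (Submodule.span 𝕜 (Set.range fun (j : Fin m) (i : Fin n) =>
      (A j i : 𝕜) * l₁ + (B j i : 𝕜) * l₂)) with hρ
  obtain ⟨a, b, hab⟩ := exists_minor (r := ρ) (fun (j : Fin m) (i : Fin n) =>
      (A j i : 𝕜) * l₁ + (B j i : 𝕜) * l₂) (le_of_eq hρ)
  set A' : Matrix (Fin ρ) (Fin ρ) ℤ := Matrix.of fun i j => A (a i) (b j) with hA'
  set B' : Matrix (Fin ρ) (Fin ρ) ℤ := Matrix.of fun i j => B (a i) (b j) with hB'
  set P : ℚ[X] := (A'.map (Int.castRingHom ℚ[X]) + (X : ℚ[X]) • B'.map (Int.castRingHom ℚ[X])).det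
    with hP
  have hP0 : P ≠ 0 := by
    intro h0
    apply hab
    have h1 := det_pencil_eq_zero A' B' h0 l₁ l₂
    rw [← h1]
    congr 1
    ext i j
    simp [hA', hB', mul_comm]
  obtain ⟨t, ht⟩ : ∃ t : ℚ, P.eval t ≠ 0 := by
    by_contra hcon
    push Not at hcon
    exact hP0 (Polynomial.funext fun t => by rw [hcon t, eval_zero])
  refine ⟨t, ?_⟩
  apply le_finrank_of_minor _ a b
  have h2 : (Matrix.of fun i j => (fun (j : Fin m) (i : Fin n) =>
      (A j i : ℚ) * 1 + (B j i : ℚ) * t) (a i) (b j)) =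
      A'.map (Int.castRingHom ℚ) + t • B'.map (Int.castRingHom ℚ) := by
    ext i j
    simp only [Matrix.of_apply, Matrix.smul_apply, Matrix.add_apply, Matrix.map_apply, hA', hB',
      smul_eq_mul, eq_intCast]
    ring
  rw [h2]
  intro h3
  apply ht
  rw [← Polynomial.coe_evalRingHom, hP, RingHom.map_det, ← h3]
  congr 1
  ext i j
  simp

end Pool.Agent.Lib.H22F301
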