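import Mathlib

/-!
# Valuations of the elements of a subgroup of `(ℚˣ) ^ n`
-/

namespace Pool.Agent.Lib.H22F301

variable {n : ℕ}

/-- The rank `v(p)` of the group of the vectors of the valuations at `p` of the elements of `L`. -/
noncomputable def valRank (p : ℕ) (L : Subgroup (Fin n → ℚˣ)) : ℕ :=
  Module.finrank ℚ (Submodule.span ℚ
    ((fun (x : Fin n → ℚˣ) (i : Fin n) => ((padicValRat p (x i : ℚ) : ℤ) : ℚ)) ''
      (L : Set (Fin n → ℚˣ))))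

/-- `L(p)₀`: the elements of `L` all of whose coordinates have valuation `0` at `p`. -/
def unitPart (p : ℕ) (L : Subgroup (Fin n → ℚˣ)) : Set (Fin n → ℚˣ) :=
  {x | x ∈ L ∧ ∀ k, padicValRat p (x k : ℚ) = 0}

/-- `L(p)₀` lies, up to roots of unity, in a subtorus of dimension at most two: two coordinates
of its elements determine all coordinates up to roots. -/
def UnitsInPlane (p : ℕ) (L : Subgroup (Fin n → ℚˣ)) : Prop :=
  ∃ i₁ i₂ : Fin n, ∀ i, ∃ a b c : ℤ, c ≠ 0 ∧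
    ∀ x ∈ unitPart p L, x i ^ c = x i₁ ^ a * x i₂ ^ b

/-- The coordinates of the elements of `L(p)₀` lie in a group of rank two: with two
multiplicatively independent `p`-adic units `g₁`, `g₂` and a fixed `c ≠ 0` the `c`-th powers of
these coordinates are of the form `g₁ ^ a g₂ ^ b`. -/
def UnitsOfRankTwo (p : ℕ) (L : Subgroup (Fin n → ℚˣ)) : Prop :=
  ∃ g₁ g₂ : ℚˣ, padicValRat p (g₁ : ℚ) = 0 ∧ padicValRat p (g₂ : ℚ) = 0 ∧
    (∀ a b : ℤ, g₁ ^ a * g₂ ^ b = 1 → a = 0 ∧ b = 0) ∧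
    ∃ c : ℤ, c ≠ 0 ∧ ∀ x ∈ unitPart p L, ∀ i, ∃ a b : ℤ, x i ^ c = g₁ ^ a * g₂ ^ b

/-- The coordinates of the elements of `L` are of the form `± g₁ ^ a g₂ ^ b g₃ ^ c`, with
multiplicatively independent rational numbers `g₁`, `g₂`, `g₃`. -/
def ThreeGenerated (L : Subgroup (Fin n → ℚˣ)) : Prop :=
  ∃ g₁ g₂ g₃ : ℚˣ, (∀ a b c : ℤ, g₁ ^ a * g₂ ^ b * g₃ ^ c = 1 → a = 0 ∧ b = 0 ∧ c = 0) ∧
    ∀ x ∈ L, ∀ i, ∃ a b c : ℤ, x i = g₁ ^ a * g₂ ^ b * g₃ ^ c ∨ x i = -(g₁ ^ a * g₂ ^ b * g₃ ^ c)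

end Pool.Agent.Lib.H22F301
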