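import Pool.Agent.Lib.H22F301.Split
import Pool.Agent.Lib.H22F301.Six3
import Pool.Agent.Lib.H22F301.ValDef

/-!
# Ranks of closures of rational subgroups of split tori in terms of valuations
-/

namespace Pool.Agent.Lib.H22F301


/-! ## Values of homomorphisms -/

section Values

variable {K 𝕜 : Type*} [Field K] [Algebra ℚ K] [Field 𝕜]

/-- The value of `f : Kˣ → 𝕜` at a rational number. -/
noncomputable def hv (f : Kˣ →* Multiplicative 𝕜) (u : ℚˣ) : 𝕜 :=
  Multiplicative.toAdd (f (Units.map (algebraMap ℚ K).toMonoidHom u))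

theorem hv_mul (f : Kˣ →* Multiplicative 𝕜) (u v : ℚˣ) : hv f (u * v) = hv f u + hv f v := by
  unfold hv
  rw [map_mul, map_mul, toAdd_mul]

theorem hv_zpow (f : Kˣ →* Multiplicative 𝕜) (u : ℚˣ) (c : ℤ) : hv f (u ^ c) = c * hv f u := by
  unfold hv
  rw [map_zpow, map_zpow, toAdd_zpow, zsmul_eq_mul]

theorem hv_prod (f : Kˣ →* Multiplicative 𝕜) {ι : Type*} (s : Finset ι) (u : ι → ℚˣ) (c : ι → ℤ) :
    hv f (∏ k ∈ s, u k ^ c k) = ∑ k ∈ s, (c k : 𝕜) * hv f (u k) := by
  classical
  induction s using Finset.induction_on with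
  | empty => simp [hv]
  | insert a s ha ih => rw [Finset.prod_insert ha, Finset.sum_insert ha, hv_mul, hv_zpow, ih]

theorem hv_torsion [CharZero 𝕜] (f : Kˣ →* Multiplicative 𝕜) {N : ℕ} (hN : 0 < N) {u : ℚˣ}
    (h : u ^ N = 1) : hv f u = 0 := by
  have h1 : hv f (u ^ (N : ℤ)) = (N : ℤ) * hv f u := hv_zpow f u N
  rw [zpow_natCast, h] at h1
  have h2 : hv f 1 = 0 := by simp [hv]
  rw [h2] at h1
  have h3 : ((N : ℤ) : 𝕜) ≠ 0 := by exact_mod_cast hN.ne'
  exact (mul_eq_zero.1 h1.symm).resolve_left h3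

end Values

theorem int_row {𝕜 : Type*} [Field 𝕜] [CharZero 𝕜] {r : ℕ} {W : Matrix (Fin r) (Fin r) 𝕜}
    (hW : W.det ≠ 0) (c : Fin r → ℤ) (h : ∀ l, ∑ k, (c k : 𝕜) * W k l = 0) : c = 0 := by
  have h1 := Matrix.eq_zero_of_vecMul_eq_zero hW (v := fun k => (c k : 𝕜)) (by
    funext l
    exact h l)
  funext k
  have := congrFun h1 k
  simpa using this

theorem int_col {𝕜 : Type*} [Field 𝕜] [CharZero 𝕜] {r : ℕ} {W : Matrix (Fin r) (Fin r) 𝕜}
    (hW : W.det ≠ 0) (c : Fin r → ℤ) (h : ∀ k, ∑ l, (c l : 𝕜) * W k l = 0) : c = 0 := by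
  have h1 := Matrix.eq_zero_of_mulVec_eq_zero hW (v := fun k => (c k : 𝕜)) (by
    funext k
    rw [Matrix.mulVec, dotProduct, Pi.zero_apply, ← h k]
    exact Finset.sum_congr rfl fun l _ => mul_comm _ _)
  funext k
  have := congrFun h1 k
  simpa using this

/-! ## The real place -/

section Real

variable {n : ℕ}

theorem sq_of_log {u : ℚˣ} (h : hv logAbs u = 0) : u ^ 2 = 1 := by
  have h0 : Real.log |((u : ℚ) : ℝ)| = 0 := h
  have h1 : |((u : ℚ) : ℝ)| = 1 := by
    have hpos : 0 < |((u : ℚ) : ℝ)| := abs_pos.2 (by exact_mod_cast u.ne_zero)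
    rcases Real.log_eq_zero.1 h0 with h2 | h2 | h2
    · exact absurd h2 hpos.ne'
    · exact h2
    · linarith
  have h2 : ((u : ℚ) : ℝ) ^ 2 = 1 := by rw [← sq_abs, h1, one_pow]
  apply Units.ext
  rw [Units.val_pow_eq_pow_val, Units.val_one]
  exact_mod_cast h2

/-- If `d(q) ≥ 3` then the logarithms of the absolute values span a space of dimension at least
`2`. -/
theorem two_le_real {L : Subgroup (Fin n → ℚˣ)} {m : ℕ} (hL : FreeOfRank L m) {q : ℕ}
    [Fact q.Prime] {d : ℕ} (hd : RankAt q L d) (h3 : 3 ≤ d) : 2 ≤ spanRank logAbs L := by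
  by_contra hcon
  push Not at hcon
  obtain ⟨f, hf, -⟩ := exists_basis hL
  have hfL : ∀ j, f j ∈ L := by
    intro j
    rw [hf]
    refine ⟨Pi.single j 1, ?_⟩
    rw [Finset.prod_eq_single j]
    · simp
    · intro k _ hk
      simp [hk]
    · simp
  obtain ⟨N, lg, hN, hlg, hker⟩ := exists_padicLog q
  have h1 := rankAt_le_finrank lg hN hlg hker hd
  obtain ⟨a, b, hdet⟩ := exists_minor (fun j => Multiplicative.toAdd (coord lg (incl ℚ_[q] n (f j))))
    ((h3.trans h1).trans (finrank_le_range lg hf))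
  set W : Matrix (Fin 3) (Fin 3) ℚ_[q] := Matrix.of fun k l => hv lg (f (a k) (b l)) with hW
  have hW0 : W.det ≠ 0 := hdet
  set V : Submodule ℝ (Fin n → ℝ) := Submodule.span ℝ
    ((fun x => Multiplicative.toAdd (coord logAbs (incl ℝ n x))) '' (L : Set (Fin n → ℚˣ))) with hV
  have h4 : Module.finrank ℝ V ≤ 1 := by
    have : Module.finrank ℝ V = spanRank logAbs L := rfl
    omega
  obtain ⟨v0, hv0⟩ := finrank_le_one_iff.1 h4
  have h5 : ∀ k : Fin 3, ∃ c : ℝ, ∀ i, hv logAbs (f (a k) i) = c * (v0 : Fin n → ℝ) i := by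
    intro k
    obtain ⟨c, hc⟩ := hv0 ⟨Multiplicative.toAdd (coord logAbs (incl ℝ n (f (a k)))),
      Submodule.subset_span ⟨f (a k), hfL _, rfl⟩⟩
    refine ⟨c, fun i => ?_⟩
    have h6 := congrFun (congrArg Subtype.val hc) i
    exact h6.symm
  choose c hc using h5
  have hlog : ∀ (k l : Fin 3), Real.log |(((f (a k) (b l) : ℚˣ) : ℚ) : ℝ)| =
      c k * (v0 : Fin n → ℝ) (b l) := fun k l => hc k (b l)
  refine six_log (fun l k => f (a (Fin.castLE (by norm_num) l)) (b k))
    (fun l => c (Fin.castLE (by norm_num) l)) (fun k => (v0 : Fin n → ℝ) (b k))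
    (fun l k => hlog _ _) ?_ ?_
  · intro e he
    have h6 : (![e 0, e 1, 0] : Fin 3 → ℤ) = 0 := by
      apply int_row hW0
      intro l
      have h7 : hv logAbs (∏ k, (f (a k) (b l)) ^ ((![e 0, e 1, 0] : Fin 3 → ℤ) k)) = 0 := by
        rw [hv_prod]
        simp only [hc]
        rw [Fin.sum_univ_two] at he
        rw [Fin.sum_univ_three]
        simp only [Matrix.cons_val_zero, Matrix.cons_val_one, Matrix.cons_val, Int.cast_zero]
        have e0 : (Fin.castLE (by norm_num) (0 : Fin 2) : Fin 3) = 0 := rfl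
        have e1 : (Fin.castLE (by norm_num) (1 : Fin 2) : Fin 3) = 1 := rfl
        rw [e0, e1] at he
        linear_combination (v0 : Fin n → ℝ) (b l) * he
      have h8 := hv_torsion lg (by norm_num : 0 < 2) (sq_of_log h7)
      rw [hv_prod] at h8
      exact h8
    funext l
    fin_cases l
    · have := congrFun h6 0
      simpa using this
    · have := congrFun h6 1
      simpa using this
  · intro e he
    apply int_col hW0
    intro k
    have h7 : hv logAbs (∏ l, (f (a k) (b l)) ^ (e l)) = 0 := by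
      rw [hv_prod]
      simp only [hc]
      have : ∑ l, (e l : ℝ) * (c k * (v0 : Fin n → ℝ) (b l)) =
          c k * ∑ l, (e l : ℝ) * (v0 : Fin n → ℝ) (b l) := by
        rw [Finset.mul_sum]
        exact Finset.sum_congr rfl fun l _ => by ring
      rw [this, he, mul_zero]
    have h8 := hv_torsion lg (by norm_num : 0 < 2) (sq_of_log h7)
    rw [hv_prod] at h8
    exact h8

/-- The logarithms of the absolute values do not all vanish. -/
theorem one_le_real {L : Subgroup (Fin n → ℚˣ)} {m : ℕ} (hL : FreeOfRank L m) (hm : 1 ≤ m) :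
    1 ≤ spanRank logAbs L := by
  obtain ⟨f, hf, hf1⟩ := exists_basis hL
  by_contra hcon
  have h0 : spanRank logAbs L = 0 := by omega
  have hfL : f ⟨0, hm⟩ ∈ L := by
    rw [hf]
    refine ⟨Pi.single ⟨0, hm⟩ 1, ?_⟩
    rw [Finset.prod_eq_single ⟨0, hm⟩]
    · simp
    · intro k _ hk
      simp [hk]
    · simp
  have h1 : Submodule.span ℝ ((fun x => Multiplicative.toAdd (coord logAbs (incl ℝ n x))) ''
      (L : Set (Fin n → ℚˣ))) = ⊥ := Submodule.finrank_eq_zero.1 h0
  have h2 : Multiplicative.toAdd (coord logAbs (incl ℝ n (f ⟨0, hm⟩))) = 0 := by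
    have := Submodule.subset_span (R := ℝ) (s := ((fun x => Multiplicative.toAdd
      (coord logAbs (incl ℝ n x))) '' (L : Set (Fin n → ℚˣ)))) ⟨f ⟨0, hm⟩, hfL, rfl⟩
    rw [h1] at this
    exact this
  have h3 : ∏ j, f j ^ (Pi.single (⟨0, hm⟩ : Fin m) (2 : ℤ) : Fin m → ℤ) j = 1 := by
    rw [Finset.prod_eq_single ⟨0, hm⟩]
    · rw [Pi.single_eq_same]
      funext i
      have h4 : (f ⟨0, hm⟩ i) ^ 2 = 1 := sq_of_log (congrFun h2 i)
      rw [Pi.pow_apply, Pi.one_apply]
      exact_mod_cast h4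
    · intro k _ hk
      simp [hk]
    · simp
  have h4 := congrFun (hf1 _ h3) ⟨0, hm⟩
  simp at h4

end Real


/-! ## Rows of integer matrices -/

theorem clear_den {ι : Type*} [Fintype ι] (c : ι → ℚ) :
    ∃ (D : ℤ) (C : ι → ℤ), D ≠ 0 ∧ ∀ s, (D : ℚ) * c s = C s := by
  classical
  refine ⟨∏ s, ((c s).den : ℤ), fun s => (c s).num * ∏ t ∈ Finset.univ.erase s, ((c t).den : ℤ),
    ?_, fun s => ?_⟩
  · exact Finset.prod_ne_zero_iff.2 fun s _ => by exact_mod_cast (c s).den_nz
  · rw [← Finset.mul_prod_erase Finset.univ _ (Finset.mem_univ s)]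
    push_cast
    have h := Rat.mul_den_eq_num (c s)
    calc ((c s).den : ℚ) * (∏ t ∈ Finset.univ.erase s, ((c t).den : ℚ)) * c s
        = (c s * (c s).den) * ∏ t ∈ Finset.univ.erase s, ((c t).den : ℚ) := by ring
      _ = _ := by rw [h]

/-- A maximal independent set of rows of an integer matrix. -/
theorem select_rows {m n : ℕ} (w : Fin m → Fin n → ℤ) {v : ℕ}
    (hv : Module.finrank ℚ (Submodule.span ℚ (Set.range fun (j : Fin m) (i : Fin n) =>
      ((w j i : ℤ) : ℚ))) = v) :
    ∃ (a : Fin v → Fin m) (G : Fin v → Fin n → ℚ) (D : Fin m → ℤ) (C : Fin m → Fin v → ℤ),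
      Function.Injective a ∧
      (∀ s t, ∑ i, G s i * (w (a t) i : ℚ) = if s = t then 1 else 0) ∧
      (∀ j, D j ≠ 0) ∧ ∀ j i, D j * w j i = ∑ s, C j s * w (a s) i := by
  classical
  subst hv
  set w' : Fin m → Fin n → ℚ := fun j i => ((w j i : ℤ) : ℚ) with hw'
  obtain ⟨f, hf1, hf2, hf3⟩ := Submodule.exists_fun_fin_finrank_span_eq ℚ (Set.range w')
  choose a ha using hf1
  have hfa : f = w' ∘ a := by
    funext s
    exact (ha s).symm
  have hinj : Function.Injective a := by
    intro s t h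
    apply hf3.injective
    rw [← ha s, ← ha t, h]
  -- left inverse
  have hker : LinearMap.ker (Fintype.linearCombination ℚ f) = ⊥ :=
    LinearMap.ker_eq_bot.2 (linearIndependent_iff_injective_fintypeLinearCombination.1 hf3)
  obtain ⟨g, hg⟩ := LinearMap.exists_leftInverse_of_injective _ hker
  have hgf : ∀ t, g (f t) = Pi.single t 1 := by
    intro t
    have h1 := LinearMap.congr_fun hg (Pi.single t 1)
    rw [LinearMap.comp_apply, LinearMap.id_apply, Fintype.linearCombination_apply_single,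
      one_smul] at h1
    exact h1
  have h2 : ∀ j, ∃ c : Fin _ → ℚ, ∑ s, c s • f s = w' j := by
    intro j
    rw [← Submodule.mem_span_range_iff_exists_fun]
    rw [hf2]
    exact Submodule.subset_span ⟨j, rfl⟩
  choose c hc using h2
  choose D C hD hC using fun j => clear_den (c j)
  refine ⟨a, fun s i => g (Pi.single i 1) s, D, C, hinj, ?_, hD, ?_⟩
  · intro s t
    have h3 : g (w' (a t)) s = ∑ i, w' (a t) i * g (Pi.single i 1) s := by
      conv_lhs => rw [← Finset.univ_sum_single (w' (a t))]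
      rw [map_sum, Finset.sum_apply]
      refine Finset.sum_congr rfl fun i _ => ?_
      have : (Pi.single i (w' (a t) i) : Fin n → ℚ) = w' (a t) i • Pi.single i 1 := by
        rw [← Pi.single_smul, smul_eq_mul, mul_one]
      rw [this, map_smul, Pi.smul_apply, smul_eq_mul]
    rw [ha t, hgf t] at h3
    rw [Pi.single_apply] at h3
    rw [h3, ← ha t]
    exact Finset.sum_congr rfl fun i _ => mul_comm _ _
  · intro j i
    have h3 := congrFun (hc j) i
    rw [Finset.sum_apply] at h3
    have h4 : (D j : ℚ) * w' j i = ∑ s, (C j s : ℚ) * w' (a s) i := by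
      rw [← h3, Finset.mul_sum]
      refine Finset.sum_congr rfl fun s _ => ?_
      rw [Pi.smul_apply, smul_eq_mul, ← mul_assoc, hC, ha s]
    have h5 : ((D j * w j i : ℤ) : ℚ) = ((∑ s, C j s * w (a s) i : ℤ) : ℚ) := by
      push_cast
      exact h4
    exact_mod_cast h5

/-! ## Finite places with non-compact closure -/

section Padic

variable {p : ℕ} [hp : Fact p.Prime] {n : ℕ}

/-- The valuation at `p`. -/
noncomputable def zval (p : ℕ) [Fact p.Prime] (u : ℚˣ) : ℤ :=
  ((Units.map (algebraMap ℚ ℚ_[p]).toMonoidHom u : ℚ_[p]ˣ) : ℚ_[p]).valuation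

theorem hv_valHom (u : ℚˣ) : hv (valHom p) u = (zval p u : ℚ_[p]) := rfl

theorem norm_of_zval {u : ℚˣ} (h : zval p u = 0) :
    ‖((Units.map (algebraMap ℚ ℚ_[p]).toMonoidHom u : ℚ_[p]ˣ) : ℚ_[p])‖ = 1 :=
  (norm_eq_one_of_valuation (Units.ne_zero _)).2 h

theorem torsion_of_lg {lg : ℚ_[p]ˣ →* Multiplicative ℚ_[p]} {N : ℕ}
    (hker : ∀ y : ℚ_[p]ˣ, ‖(y : ℚ_[p])‖ = 1 → Multiplicative.toAdd (lg y) = 0 → y ^ N = 1)
    {u : ℚˣ} (h : zval p u = 0) (h' : hv lg u = 0) : u ^ N = 1 := by
  have h1 := hker _ (norm_of_zval h) h'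
  have hinj : Function.Injective (Units.map (algebraMap ℚ ℚ_[p]).toMonoidHom) :=
    Units.map_injective (algebraMap ℚ ℚ_[p]).injective
  apply hinj
  rw [map_one, map_pow]
  exact h1

/-- The vector of the valuations and logarithms of the coordinates. -/
noncomputable def pv (lg : ℚ_[p]ˣ →* Multiplicative ℚ_[p]) (x : Fin n → ℚˣ) :
    Fin (n + n) → ℚ_[p] :=
  Multiplicative.toAdd (pairHom lg n (incl ℚ_[p] n x))

theorem pv_left (lg : ℚ_[p]ˣ →* Multiplicative ℚ_[p]) (x : Fin n → ℚˣ) (i : Fin n) :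
    pv lg x (Fin.castAdd n i) = (zval p (x i) : ℚ_[p]) := by
  show Fin.append _ _ (Fin.castAdd n i) = _
  rw [Fin.append_left]
  rfl

theorem pv_right (lg : ℚ_[p]ˣ →* Multiplicative ℚ_[p]) (x : Fin n → ℚˣ) (i : Fin n) :
    pv lg x (Fin.natAdd n i) = hv lg (x i) := by
  show Fin.append _ _ (Fin.natAdd n i) = _
  rw [Fin.append_right]
  rfl

theorem pv_mul (lg : ℚ_[p]ˣ →* Multiplicative ℚ_[p]) (x y : Fin n → ℚˣ) :
    pv lg (x * y) = pv lg x + pv lg y := by
  unfold pv
  rw [map_mul, map_mul, toAdd_mul]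

theorem pv_zpow (lg : ℚ_[p]ˣ →* Multiplicative ℚ_[p]) (x : Fin n → ℚˣ) (c : ℤ) :
    pv lg (x ^ c) = (c : ℚ_[p]) • pv lg x := by
  unfold pv
  rw [map_zpow, map_zpow, toAdd_zpow, Int.cast_smul_eq_zsmul]

theorem pv_prod (lg : ℚ_[p]ˣ →* Multiplicative ℚ_[p]) {ι : Type*} (s : Finset ι)
    (x : ι → Fin n → ℚˣ) (c : ι → ℤ) :
    pv lg (∏ k ∈ s, x k ^ c k) = ∑ k ∈ s, (c k : ℚ_[p]) • pv lg (x k) := by
  classical
  induction s using Finset.induction_on with
  | empty => simp [pv]
  | insert a s ha ih => rw [Finset.prod_insert ha, Finset.sum_insert ha, pv_mul, pv_zpow, ih]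

/-- The dimension of the span of the vectors of valuations and logarithms is at most `ℓ(p)`. -/
theorem finrank_pv_le_ell {lg : ℚ_[p]ˣ →* Multiplicative ℚ_[p]}
    (hlg : Continuous fun y => Multiplicative.toAdd (lg y)) (L : Subgroup (Fin n → ℚˣ)) :
    ((Module.finrank ℚ_[p] (Submodule.span ℚ_[p] (pv lg '' (L : Set (Fin n → ℚˣ)))) : ℕ) : ℕ∞) ≤
      ell ℚ_[p] L := by
  refine le_iInf₂ fun k hk' => ?_
  obtain ⟨F, H, hF, hH, -, hfin⟩ := hk'
  have h := finrank_span_le ((pairHom lg n).comp (closureAt ℚ_[p] L).subtype)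
    ((continuous_pairHom lg hlg).comp continuous_subtype_val) hF hH hfin
    (inClosure ℚ_[p] L : Set (closureAt ℚ_[p] L))
  have h4 : Module.finrank ℚ_[p] (Submodule.span ℚ_[p] (pv lg '' (L : Set (Fin n → ℚˣ)))) ≤ k := by
    refine le_trans ?_ h
    apply Submodule.finrank_mono
    apply Submodule.span_mono
    rintro _ ⟨x, hx, rfl⟩
    exact ⟨⟨incl ℚ_[p] n x, map_le_closureAt ℚ_[p] L ⟨x, hx, rfl⟩⟩, ⟨x, hx, rfl⟩, rfl⟩
  exact_mod_cast h4

theorem zval_eq (u : ℚˣ) : zval p u = padicValRat p (u : ℚ) :=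
  Padic.valuation_ratCast (p := p) (u : ℚ)

theorem zval_prod {ι : Type*} (s : Finset ι) (u : ι → ℚˣ) (c : ι → ℤ) :
    zval p (∏ k ∈ s, u k ^ c k) = ∑ k ∈ s, c k * zval p (u k) := by
  have h := hv_prod (valHom p) s u c
  simp only [hv_valHom] at h
  exact_mod_cast h

/-- The images of vectors under a linear map span a space of at most the same dimension. -/
theorem finrank_images_le {𝕜 V W : Type*} [Field 𝕜] [AddCommGroup V] [Module 𝕜 V]
    [AddCommGroup W] [Module 𝕜 W] {m : ℕ} (T : V →ₗ[𝕜] W) (v : Fin m → V) (w : Fin m → W)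
    (h : ∀ j, w j = T (v j)) :
    Module.finrank 𝕜 (Submodule.span 𝕜 (Set.range w)) ≤
      Module.finrank 𝕜 (Submodule.span 𝕜 (Set.range v)) := by
  have h1 : Set.range w = T '' Set.range v := by
    rw [← Set.range_comp]
    congr 1
    funext j
    exact h j
  have hf : FiniteDimensional 𝕜 (Submodule.span 𝕜 (Set.range v)) :=
    FiniteDimensional.span_of_finite 𝕜 (Set.finite_range v)
  rw [h1, ← Submodule.map_span]
  exact Submodule.finrank_map_le _ _

/-- Indices outside of the range of an injection. -/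
theorem exists_outside {v m k : ℕ} (a : Fin v → Fin m) (h : v + k ≤ m) :
    ∃ e : Fin k → Fin m, Function.Injective e ∧ ∀ i s, e i ≠ a s := by
  classical
  set S : Finset (Fin m) := (Finset.univ.image a)ᶜ with hS
  have h1 : k ≤ S.card := by
    have h2 : (Finset.univ.image a).card ≤ v := by
      refine Finset.card_image_le.trans ?_
      rw [Finset.card_univ, Fintype.card_fin]
    rw [hS, Finset.card_compl, Fintype.card_fin]
    omega
  obtain ⟨φ⟩ : Nonempty (Fin k ↪ S) := by
    apply Function.Embedding.nonempty_of_card_le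
    rw [Fintype.card_fin, Fintype.card_coe]
    exact h1
  refine ⟨fun i => (φ i : Fin m), fun i j h => φ.injective (Subtype.ext h), fun i s h => ?_⟩
  have h2 : (φ i : Fin m) ∈ (Finset.univ.image a)ᶜ := (φ i).2
  rw [Finset.mem_compl] at h2
  have h3 : (φ i : Fin m) = a s := h
  exact h2 (by rw [h3]; exact Finset.mem_image_of_mem _ (Finset.mem_univ _))

/-- The rank at a finite place in terms of the rank `v(p)` of the valuations. -/
theorem rank_val {lg : ℚ_[p]ˣ →* Multiplicative ℚ_[p]} {N : ℕ} (hN : 0 < N)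
    (hlg : Continuous fun y => Multiplicative.toAdd (lg y))
    (hker : ∀ y : ℚ_[p]ˣ, ‖(y : ℚ_[p])‖ = 1 → Multiplicative.toAdd (lg y) = 0 → y ^ N = 1)
    {L : Subgroup (Fin n → ℚˣ)} {m : ℕ} (hL : FreeOfRank L m) :
    valRank p L ≤ m ∧
    valRank p L ≤ Module.finrank ℚ_[p] (Submodule.span ℚ_[p] (pv lg '' (L : Set (Fin n → ℚˣ)))) ∧
    (valRank p L < m → valRank p L + 1 ≤
      Module.finrank ℚ_[p] (Submodule.span ℚ_[p] (pv lg '' (L : Set (Fin n → ℚˣ))))) ∧
    (valRank p L + 3 ≤ m → ∀ (q : ℕ) [Fact q.Prime] (d : ℕ), RankAt q L d →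
      valRank p L + 2 ≤ d → valRank p L + 2 ≤
        Module.finrank ℚ_[p] (Submodule.span ℚ_[p] (pv lg '' (L : Set (Fin n → ℚˣ))))) ∧
    (UnitsOfRankTwo p L → ∀ (q : ℕ) [Fact q.Prime] (d : ℕ), RankAt q L d →
      d ≤ Module.finrank ℚ_[p] (Submodule.span ℚ_[p] (pv lg '' (L : Set (Fin n → ℚˣ))))) ∧
    (valRank p L + 2 = m → ¬ UnitsInPlane p L → valRank p L + 2 ≤
      Module.finrank ℚ_[p] (Submodule.span ℚ_[p] (pv lg '' (L : Set (Fin n → ℚˣ))))) := by
  classical
  obtain ⟨f, hf, hf1⟩ := exists_basis hL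
  have hfL : ∀ j, f j ∈ L := by
    intro j
    rw [hf]
    refine ⟨Pi.single j 1, ?_⟩
    rw [Finset.prod_eq_single j]
    · simp
    · intro k _ hk
      simp [hk]
    · simp
  -- independence over the integers
  have hstar : ∀ c : Fin m → ℤ, ∑ j, (c j : ℚ_[p]) • pv lg (f j) = 0 → c = 0 := by
    intro c hcs
    rw [← pv_prod] at hcs
    set x : Fin n → ℚˣ := ∏ j, f j ^ c j with hx
    have h1 : x ^ N = 1 := by
      funext i
      have e1 := congrFun hcs (Fin.castAdd n i)
      have e2 := congrFun hcs (Fin.natAdd n i)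
      rw [pv_left, Pi.zero_apply] at e1
      rw [pv_right, Pi.zero_apply] at e2
      exact torsion_of_lg hker (by exact_mod_cast e1) e2
    have h2 : ∏ j, f j ^ (fun j => c j * N) j = 1 := by
      rw [← h1, hx, ← Finset.prod_pow]
      refine Finset.prod_congr rfl fun j _ => ?_
      rw [zpow_mul, zpow_natCast]
    have h3 := hf1 _ h2
    funext j
    have h4 := congrFun h3 j
    simp only [Pi.zero_apply, mul_eq_zero] at h4
    exact h4.resolve_right (by exact_mod_cast hN.ne')
  -- the valuations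
  set w : Fin m → Fin n → ℤ := fun j i => zval p (f j i) with hw
  have hspan : Submodule.span ℚ (Set.range fun (j : Fin m) (i : Fin n) => ((w j i : ℤ) : ℚ)) =
      Submodule.span ℚ
        ((fun (x : Fin n → ℚˣ) (i : Fin n) => ((padicValRat p (x i : ℚ) : ℤ) : ℚ)) ''
          (L : Set (Fin n → ℚˣ))) := by
    apply le_antisymm
    · apply Submodule.span_mono
      rintro _ ⟨j, rfl⟩
      refine ⟨f j, hfL j, ?_⟩
      funext i
      show ((padicValRat p ((f j i : ℚˣ) : ℚ) : ℤ) : ℚ) = ((zval p (f j i) : ℤ) : ℚ)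
      rw [zval_eq]
    · rw [Submodule.span_le]
      rintro _ ⟨x, hx, rfl⟩
      obtain ⟨c, rfl⟩ := (hf x).1 hx
      have e1 : (fun (i : Fin n) => ((padicValRat p ((∏ j, f j ^ c j : Fin n → ℚˣ) i : ℚ) : ℤ) : ℚ)) =
          ∑ j, (c j : ℚ) • (fun i : Fin n => ((w j i : ℤ) : ℚ)) := by
        funext i
        rw [← zval_eq, Finset.prod_apply, Finset.sum_apply]
        simp only [Pi.pow_apply]
        rw [zval_prod]
        push_cast
        rfl
      rw [SetLike.mem_coe]
      simp only
      rw [e1]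
      exact Submodule.sum_mem _ fun j _ => Submodule.smul_mem _ _ (Submodule.subset_span ⟨j, rfl⟩)
  have hvr : Module.finrank ℚ (Submodule.span ℚ (Set.range fun (j : Fin m) (i : Fin n) =>
      ((w j i : ℤ) : ℚ))) = valRank p L := by
    rw [hspan, valRank]
  generalize valRank p L = v at hvr ⊢
  obtain ⟨a, G, D, C, ha, hG, hD, hC⟩ := select_rows w hvr
  set V : Submodule ℚ_[p] (Fin (n + n) → ℚ_[p]) :=
    Submodule.span ℚ_[p] (pv lg '' (L : Set (Fin n → ℚˣ))) with hV
  have hpV : ∀ x ∈ L, pv lg x ∈ V := fun x hx => Submodule.subset_span ⟨x, hx, rfl⟩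
  -- elements with valuation zero
  set y : Fin m → Fin n → ℚˣ := fun j => f j ^ D j * ∏ s, f (a s) ^ (-C j s) with hy
  have hyL : ∀ j, y j ∈ L := fun j =>
    Subgroup.mul_mem _ (Subgroup.zpow_mem _ (hfL j) _)
      (Subgroup.prod_mem _ fun s _ => Subgroup.zpow_mem _ (hfL _) _)
  have hpy : ∀ j, pv lg (y j) = (D j : ℚ_[p]) • pv lg (f j) -
      ∑ s, (C j s : ℚ_[p]) • pv lg (f (a s)) := by
    intro j
    rw [hy]
    simp only
    rw [pv_mul, pv_zpow, pv_prod, sub_eq_add_neg, ← Finset.sum_neg_distrib]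
    congr 1
    refine Finset.sum_congr rfl fun s _ => ?_
    rw [Int.cast_neg, neg_smul]
  have hz : ∀ j i, zval p (y j i) = 0 := by
    intro j i
    have e1 := congrFun (hpy j) (Fin.castAdd n i)
    rw [pv_left, Pi.sub_apply, Pi.smul_apply, pv_left, Finset.sum_apply] at e1
    simp only [Pi.smul_apply, pv_left, smul_eq_mul] at e1
    have e2 : zval p (y j i) = D j * zval p (f j i) - ∑ s, C j s * zval p (f (a s) i) := by
      exact_mod_cast e1
    have e3 : D j * zval p (f j i) = ∑ s, C j s * zval p (f (a s) i) := hC j i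
    omega
  have hleft : ∀ j i, pv lg (y j) (Fin.castAdd n i) = 0 := by
    intro j i
    rw [pv_left, hz, Int.cast_zero]
  have hlin : ∀ {k : ℕ} (e : Fin k → Fin m), Function.Injective e → (∀ i s, e i ≠ a s) →
      ∀ c : Fin k → ℤ, ∑ i, (c i : ℚ_[p]) • pv lg (y (e i)) = 0 → c = 0 := by
    intro k e he hea c hcs
    set c' : Fin m → ℤ := fun j => (∑ i, if e i = j then c i * D (e i) else 0) -
      (∑ s, if a s = j then ∑ i, c i * C (e i) s else 0) with hc'
    have h1 : ∑ j, (c' j : ℚ_[p]) • pv lg (f j) = 0 := by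
      rw [← hcs]
      simp only [hc']
      push_cast
      simp only [sub_smul, Finset.sum_sub_distrib, Finset.sum_smul]
      rw [Finset.sum_comm]
      simp only [ite_smul, zero_smul, Finset.sum_ite_eq, Finset.mem_univ, if_true]
      simp only [hpy, smul_sub, Finset.sum_sub_distrib, smul_smul, Finset.smul_sum]
      congr 1
      rw [Finset.sum_comm]
      simp only [Finset.sum_ite_eq, Finset.mem_univ, if_true, Finset.sum_smul]
      rw [Finset.sum_comm]
    have h2 := hstar c' h1
    funext i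
    have h3 := congrFun h2 (e i)
    have h4 : ∑ s, (if a s = e i then ∑ i, c i * C (e i) s else 0) = 0 :=
      Finset.sum_eq_zero fun s _ => if_neg fun h => hea i s h.symm
    simp only [hc', Pi.zero_apply, h4, sub_zero] at h3
    rw [Finset.sum_eq_single i] at h3
    · simp only [if_true, mul_eq_zero] at h3
      exact h3.resolve_right (hD _)
    · intro i' _ hi'
      rw [if_neg fun h => hi' (he h)]
    · simp
  -- independent vectors
  have hindep : ∀ {k : ℕ} (b : Fin k → Fin (n + n) → ℚ_[p]), LinearIndependent ℚ_[p] b →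
      (∀ t i, b t (Fin.castAdd n i) = 0) → (∀ t, b t ∈ V) → v + k ≤ Module.finrank ℚ_[p] V := by
    intro k b hb hb0 hbV
    have h1 : LinearIndependent ℚ_[p] (Sum.elim (fun s : Fin v => pv lg (f (a s))) b) := by
      rw [Fintype.linearIndependent_iff]
      intro g hg
      rw [Fintype.sum_sum_type] at hg
      simp only [Sum.elim_inl, Sum.elim_inr] at hg
      have h2 : ∀ s : Fin v, g (Sum.inl s) = 0 := by
        intro s
        have h3 : ∀ i : Fin n, ∑ t, g (Sum.inl t) * ((w (a t) i : ℤ) : ℚ_[p]) = 0 := by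
          intro i
          have e1 := congrFun hg (Fin.castAdd n i)
          rw [Pi.add_apply, Finset.sum_apply, Finset.sum_apply, Pi.zero_apply] at e1
          simp only [Pi.smul_apply, hb0, smul_eq_mul, mul_zero, Finset.sum_const_zero, add_zero,
            pv_left] at e1
          exact e1
        have h4 : ∑ i, ((G s i : ℚ) : ℚ_[p]) *
            ∑ t, g (Sum.inl t) * ((w (a t) i : ℤ) : ℚ_[p]) = 0 :=
          Finset.sum_eq_zero fun i _ => by rw [h3 i, mul_zero]
        have h5 : ∀ t, ∑ i, ((G s i : ℚ) : ℚ_[p]) * ((w (a t) i : ℤ) : ℚ_[p]) =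
            if s = t then 1 else 0 := by
          intro t
          have e2 := congrArg (fun z : ℚ => (z : ℚ_[p])) (hG s t)
          rcases eq_or_ne s t with h | h
          · rw [if_pos h] at e2 ⊢
            push_cast at e2
            exact e2
          · rw [if_neg h] at e2 ⊢
            push_cast at e2
            exact e2
        have h6 : ∑ i, ((G s i : ℚ) : ℚ_[p]) *
            ∑ t, g (Sum.inl t) * ((w (a t) i : ℤ) : ℚ_[p]) = g (Sum.inl s) := by
          simp only [Finset.mul_sum]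
          rw [Finset.sum_comm]
          have e3 : ∀ t, ∑ i, ((G s i : ℚ) : ℚ_[p]) * (g (Sum.inl t) * ((w (a t) i : ℤ) : ℚ_[p])) =
              g (Sum.inl t) * if s = t then 1 else 0 := by
            intro t
            rw [← h5 t, Finset.mul_sum]
            refine Finset.sum_congr rfl fun i _ => ?_
            ring
          simp only [e3, mul_ite, mul_one, mul_zero, Finset.sum_ite_eq, Finset.mem_univ, if_true]
        rw [← h6, h4]
      have h7 : ∑ t, g (Sum.inr t) • b t = 0 := by
        simpa [h2] using hg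
      rw [Fintype.linearIndependent_iff] at hb
      rintro (s | t)
      · exact h2 s
      · exact hb (fun t => g (Sum.inr t)) h7 t
    have h8 := finrank_span_eq_card h1
    rw [Fintype.card_sum, Fintype.card_fin, Fintype.card_fin] at h8
    rw [← h8]
    apply Submodule.finrank_mono
    rw [Submodule.span_le]
    rintro _ ⟨s | t, rfl⟩
    · exact hpV _ (hfL _)
    · exact hbV t
  have hvm : v ≤ m := by
    have := Fintype.card_le_of_injective a ha
    simpa using this
  refine ⟨hvm, ?_, fun hlt => ?_, fun hm q hq d hd hvd => ?_, fun h2 q hq d hd => ?_,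
    fun hm hP => ?_⟩
  · have := hindep (k := 0) (fun t => t.elim0) linearIndependent_empty_type (fun t => t.elim0)
      (fun t => t.elim0)
    simpa using this
  · obtain ⟨e, hei, hea⟩ := exists_outside (k := 1) a (by omega)
    refine hindep (k := 1) (fun t => pv lg (y (e t))) ?_ (fun t i => hleft _ i)
      (fun t => hpV _ (hyL _))
    rw [linearIndependent_unique_iff]
    intro h0
    have h2 := hlin e hei hea (fun _ => 1) (by
      simp only [Fin.sum_univ_one, Int.cast_one, one_smul]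
      exact h0)
    exact one_ne_zero (congrFun h2 0)
  · by_contra hcon
    obtain ⟨e, hei, hea⟩ := exists_outside (k := 3) a hm
    have hnz : pv lg (y (e 0)) ≠ 0 := by
      intro h
      have h2 := hlin e hei hea ![1, 0, 0] (by
        rw [Fin.sum_univ_three]
        simp [h])
      have := congrFun h2 0
      simp at this
    have h5 : ∀ j, ∃ c : ℚ_[p], pv lg (y j) = c • pv lg (y (e 0)) := by
      intro j
      by_contra hno
      push Not at hno
      apply hcon
      refine hindep (k := 2) ![pv lg (y (e 0)), pv lg (y j)] ?_ ?_ ?_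
      · rw [LinearIndependent.pair_iff]
        intro s t hst
        have ht : t = 0 := by
          by_contra ht
          apply hno (-(t⁻¹ * s))
          have e1 : pv lg (y j) = t⁻¹ • (t • pv lg (y j)) := by
            rw [smul_smul, inv_mul_cancel₀ ht, one_smul]
          rw [e1, neg_smul, mul_smul, ← smul_neg]
          congr 1
          exact (neg_eq_of_add_eq_zero_right hst).symm
        rw [ht, zero_smul, add_zero] at hst
        exact ⟨(smul_eq_zero.1 hst).resolve_right hnz, ht⟩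
      · intro t i
        fin_cases t
        · exact hleft _ i
        · exact hleft _ i
      · intro t
        fin_cases t
        · exact hpV _ (hyL _)
        · exact hpV _ (hyL _)
    choose u hu using h5
    set κ : Fin n → ℚ_[p] := fun i => pv lg (y (e 0)) (Fin.natAdd n i) with hκ
    have hl : ∀ j i, hv lg (y j i) = u j * κ i := by
      intro j i
      rw [← pv_right lg, hu j]
      rfl
    obtain ⟨M, lq, hM, hlq, hkq⟩ := exists_padicLog q
    -- two coordinates with independent logarithms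
    obtain ⟨i1, i2, h12⟩ : ∃ i1 i2 : Fin n, ∀ a b : ℤ, (a : ℚ_[p]) * κ i1 + b * κ i2 = 0 →
        a = 0 ∧ b = 0 := by
      by_contra hno
      push Not at hno
      obtain ⟨i1, hi1⟩ : ∃ i1, κ i1 ≠ 0 := by
        by_contra hno2
        push Not at hno2
        apply hnz
        funext i
        rw [Pi.zero_apply]
        refine Fin.addCases (fun i => ?_) (fun i => ?_) i
        · exact hleft _ i
        · exact hno2 i
      choose α β hab hab' using fun i => hno i1 i
      have hb0 : ∀ i, β i ≠ 0 := by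
        intro i hbi
        have h1 := hab i
        rw [hbi, Int.cast_zero, zero_mul, add_zero] at h1
        have h2 := (mul_eq_zero.1 h1).resolve_right hi1
        exact hab' i (by exact_mod_cast h2) hbi
      have hq1 : ∀ j i, (β i : ℚ_[q]) * hv lq (y j i) + (α i : ℚ_[q]) * hv lq (y j i1) = 0 := by
        intro j i
        have e1 : hv lg ((y j i) ^ β i * (y j i1) ^ α i) = 0 := by
          rw [hv_mul, hv_zpow, hv_zpow, hl, hl]
          linear_combination u j * hab i
        have e2 : zval p ((y j i) ^ β i * (y j i1) ^ α i) = 0 := by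
          have e3 : hv (valHom p) ((y j i) ^ β i * (y j i1) ^ α i) = 0 := by
            rw [hv_mul, hv_zpow, hv_zpow, hv_valHom, hv_valHom, hz, hz, Int.cast_zero, mul_zero,
              mul_zero, add_zero]
          rw [hv_valHom] at e3
          exact_mod_cast e3
        have e4 := hv_torsion lq hN (torsion_of_lg hker e2 e1)
        rwa [hv_mul, hv_zpow, hv_zpow] at e4
      set Kv : Fin n → ℚ_[q] := fun i => -(α i : ℚ_[q]) / (β i : ℚ_[q]) with hKv
      have hb0' : ∀ i, (β i : ℚ_[q]) ≠ 0 := fun i => by exact_mod_cast hb0 i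
      have hq2 : ∀ j, (fun i => hv lq (y j i)) = hv lq (y j i1) • Kv := by
        intro j
        funext i
        rw [Pi.smul_apply, smul_eq_mul, hKv]
        simp only
        rw [eq_comm, mul_div_assoc', div_eq_iff (hb0' i)]
        linear_combination (-1 : ℚ_[q]) * hq1 j i
      have hDq : ∀ j, (D j : ℚ_[q]) ≠ 0 := fun j => by exact_mod_cast hD j
      set F : Fin v → Fin n → ℚ_[q] := fun s i => hv lq (f (a s) i) with hF
      have hq3 : ∀ j, (fun i => hv lq (f j i)) = ((D j : ℚ_[q])⁻¹ * hv lq (y j i1)) • Kv +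
          ∑ s, ((D j : ℚ_[q])⁻¹ * (C j s : ℚ_[q])) • F s := by
        intro j
        funext i
        have e1 := congrFun (hq2 j) i
        have e2 : hv lq (y j i) = D j * hv lq (f j i) -
            ∑ s, (C j s : ℚ_[q]) * hv lq (f (a s) i) := by
          have : y j i = (f j i) ^ D j * ∏ s, (f (a s) i) ^ (-C j s) := by
            rw [hy]
            simp only [Pi.mul_apply, Pi.pow_apply, Finset.prod_apply]
          rw [this, hv_mul, hv_zpow, hv_prod, sub_eq_add_neg, ← Finset.sum_neg_distrib]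
          congr 1
          refine Finset.sum_congr rfl fun s _ => ?_
          rw [Int.cast_neg, neg_mul]
        rw [e2] at e1
        rw [Pi.smul_apply, smul_eq_mul] at e1
        rw [Pi.add_apply, Pi.smul_apply, smul_eq_mul, Finset.sum_apply]
        simp only [Pi.smul_apply, smul_eq_mul]
        have e3 : hv lq (f j i) = (D j : ℚ_[q])⁻¹ * (D j * hv lq (f j i)) := by
          rw [← mul_assoc, inv_mul_cancel₀ (hDq j), one_mul]
        have e4 : ∑ s, (D j : ℚ_[q])⁻¹ * (C j s : ℚ_[q]) * F s i =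
            (D j : ℚ_[q])⁻¹ * ∑ s, (C j s : ℚ_[q]) * hv lq (f (a s) i) := by
          rw [Finset.mul_sum]
          exact Finset.sum_congr rfl fun s _ => by rw [hF]; ring
        rw [e3, e4]
        linear_combination (D j : ℚ_[q])⁻¹ * e1
      have h1 := rankAt_le_finrank lq hM hlq hkq hd
      have h2 := h1.trans (finrank_le_range lq hf)
      have h4 : Module.finrank ℚ_[q] (Submodule.span ℚ_[q] (Set.range fun j =>
          Multiplicative.toAdd (coord lq (incl ℚ_[q] n (f j))))) ≤
          Module.finrank ℚ_[q] (Submodule.span ℚ_[q]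
            (((insert Kv (Finset.univ.image F) : Finset (Fin n → ℚ_[q])) :
              Set (Fin n → ℚ_[q])))) := by
        apply Submodule.finrank_mono
        rw [Submodule.span_le]
        rintro _ ⟨j, rfl⟩
        have e1 : Multiplicative.toAdd (coord lq (incl ℚ_[q] n (f j))) =
            fun i => hv lq (f j i) := rfl
        simp only
        rw [e1, hq3 j]
        refine Submodule.add_mem _ (Submodule.smul_mem _ _ (Submodule.subset_span ?_))
          (Submodule.sum_mem _ fun s _ => Submodule.smul_mem _ _ (Submodule.subset_span ?_))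
        · rw [Finset.mem_coe]
          exact Finset.mem_insert_self _ _
        · rw [Finset.mem_coe]
          exact Finset.mem_insert_of_mem (Finset.mem_image_of_mem _ (Finset.mem_univ s))
      have h6 : Module.finrank ℚ_[q] (Submodule.span ℚ_[q]
            (((insert Kv (Finset.univ.image F) : Finset (Fin n → ℚ_[q])) :
              Set (Fin n → ℚ_[q])))) ≤ v + 1 := by
        refine (finrank_span_finset_le_card _).trans ((Finset.card_insert_le _ _).trans ?_)
        have : (Finset.univ.image F).card ≤ v := by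
          refine Finset.card_image_le.trans ?_
          rw [Finset.card_univ, Fintype.card_fin]
        omega
      omega
    refine six_lg hN hlg hker (fun l k => y (e k) (![i1, i2] l)) (fun l k => norm_of_zval (hz _ _))
      (fun l => κ (![i1, i2] l)) (fun k => u (e k)) (fun l k => by
        rw [mul_comm]
        exact hl _ _) ?_ ?_
    · intro c hcs
      rw [Fin.sum_univ_two] at hcs
      simp only [Matrix.cons_val_zero, Matrix.cons_val_one] at hcs
      obtain ⟨e1, e2⟩ := h12 _ _ hcs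
      funext l
      fin_cases l
      · exact e1
      · exact e2
    · intro c hcs
      apply hlin e hei hea
      have e1 : ∀ k, (c k : ℚ_[p]) • pv lg (y (e k)) =
          ((c k : ℚ_[p]) * u (e k)) • pv lg (y (e 0)) := fun k => by rw [hu (e k), smul_smul]
      simp only [e1]
      rw [← Finset.sum_smul, hcs, zero_smul]
  · obtain ⟨g₁, g₂, hu1, hu2, hind, c₀, hc₀, hg⟩ := h2
    rw [← zval_eq] at hu1 hu2
    obtain ⟨hl1, htr⟩ := transcendental_lg hN hlg hker hind (norm_of_zval hu1) (norm_of_zval hu2)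
    choose A B hAB using fun j i =>
      hg (y j) ⟨hyL j, fun i => by rw [← zval_eq]; exact hz j i⟩ i
    have hAB' : ∀ {K' 𝕜' : Type} [Field K'] [Algebra ℚ K'] [Field 𝕜'] (φ : K'ˣ →* Multiplicative 𝕜')
        (j : Fin m) (i : Fin n),
        (A j i : 𝕜') * hv φ g₁ + (B j i : 𝕜') * hv φ g₂ = (c₀ : 𝕜') * hv φ (y j i) := by
      intro K' 𝕜' _ _ _ φ j i
      have e := congrArg (hv φ) (hAB j i)
      rw [hv_zpow, hv_mul, hv_zpow, hv_zpow] at e
      exact e.symm
    obtain ⟨M, lq, hM, hlq, hkq⟩ := exists_padicLog q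
    -- the place `p`
    have e1 : v + Module.finrank ℚ_[p] (Submodule.span ℚ_[p] (Set.range fun j => pv lg (y j))) ≤
        Module.finrank ℚ_[p] V := by
      obtain ⟨b, hb1, -, hb3⟩ := Submodule.exists_fun_fin_finrank_span_eq ℚ_[p]
        (Set.range fun j => pv lg (y j))
      refine hindep b hb3 ?_ ?_
      · intro t i
        obtain ⟨j, hj⟩ := hb1 t
        rw [← hj]
        exact hleft j i
      · intro t
        obtain ⟨j, hj⟩ := hb1 t
        rw [← hj]
        exact hpV _ (hyL j)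
    have e2 : Module.finrank ℚ_[p] (Submodule.span ℚ_[p] (Set.range fun (j : Fin m) (i : Fin n) =>
        (A j i : ℚ_[p]) * hv lg g₁ + (B j i : ℚ_[p]) * hv lg g₂)) ≤
        Module.finrank ℚ_[p] (Submodule.span ℚ_[p] (Set.range fun j => pv lg (y j))) := by
      apply finrank_images_le ((c₀ : ℚ_[p]) •
        LinearMap.funLeft ℚ_[p] ℚ_[p] (Fin.natAdd n : Fin n → Fin (n + n)))
      intro j
      funext i
      rw [LinearMap.smul_apply, Pi.smul_apply, LinearMap.funLeft_apply, pv_right, hAB' lg j i,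
        smul_eq_mul]
    -- the place `q`
    have e3 : Module.finrank ℚ_[q] (Submodule.span ℚ_[q] (Set.range fun (j : Fin m) (i : Fin n) =>
        (A j i : ℚ_[q]) * hv lq g₁ + (B j i : ℚ_[q]) * hv lq g₂)) ≤
        Module.finrank ℚ_[p] (Submodule.span ℚ_[p] (Set.range fun (j : Fin m) (i : Fin n) =>
        (A j i : ℚ_[p]) * hv lg g₁ + (B j i : ℚ_[p]) * hv lg g₂)) :=
      pencil_rank_le A B (hv lq g₁) (hv lq g₂) (hv lg g₁) (hv lg g₂) hl1 htr
    have hDq : ∀ j, (D j : ℚ_[q]) ≠ 0 := fun j => by exact_mod_cast hD j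
    set F : Fin v → Fin n → ℚ_[q] := fun s i => hv lq (f (a s) i) with hF
    set Y : Fin m → Fin n → ℚ_[q] := fun j i =>
      (A j i : ℚ_[q]) * hv lq g₁ + (B j i : ℚ_[q]) * hv lq g₂ with hY
    have hc₀q : (c₀ : ℚ_[q]) ≠ 0 := by exact_mod_cast hc₀
    have hq3 : ∀ j, (fun i => hv lq (f j i)) = ((D j : ℚ_[q])⁻¹ * (c₀ : ℚ_[q])⁻¹) • Y j +
        ∑ s, ((D j : ℚ_[q])⁻¹ * (C j s : ℚ_[q])) • F s := by
      intro j
      funext i
      have e2 : hv lq (y j i) = D j * hv lq (f j i) -
          ∑ s, (C j s : ℚ_[q]) * hv lq (f (a s) i) := by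
        have : y j i = (f j i) ^ D j * ∏ s, (f (a s) i) ^ (-C j s) := by
          rw [hy]
          simp only [Pi.mul_apply, Pi.pow_apply, Finset.prod_apply]
        rw [this, hv_mul, hv_zpow, hv_prod, sub_eq_add_neg, ← Finset.sum_neg_distrib]
        congr 1
        refine Finset.sum_congr rfl fun s _ => ?_
        rw [Int.cast_neg, neg_mul]
      have e5 : (D j : ℚ_[q])⁻¹ * (c₀ : ℚ_[q])⁻¹ * Y j i = (D j : ℚ_[q])⁻¹ * hv lq (y j i) := by
        have e6 : Y j i = (c₀ : ℚ_[q]) * hv lq (y j i) := hAB' lq j i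
        rw [e6, mul_assoc, ← mul_assoc (c₀ : ℚ_[q])⁻¹, inv_mul_cancel₀ hc₀q, one_mul]
      rw [Pi.add_apply, Pi.smul_apply, smul_eq_mul, Finset.sum_apply]
      simp only [Pi.smul_apply, smul_eq_mul]
      have e3 : hv lq (f j i) = (D j : ℚ_[q])⁻¹ * (D j * hv lq (f j i)) := by
        rw [← mul_assoc, inv_mul_cancel₀ (hDq j), one_mul]
      have e4 : ∑ s, (D j : ℚ_[q])⁻¹ * (C j s : ℚ_[q]) * F s i =
          (D j : ℚ_[q])⁻¹ * ∑ s, (C j s : ℚ_[q]) * hv lq (f (a s) i) := by
        rw [Finset.mul_sum]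
        exact Finset.sum_congr rfl fun s _ => by rw [hF]; ring
      rw [e3, e4, e5, e2]
      ring
    have h1 := (rankAt_le_finrank lq hM hlq hkq hd).trans (finrank_le_range lq hf)
    have h4 : Module.finrank ℚ_[q] (Submodule.span ℚ_[q] (Set.range fun j =>
        Multiplicative.toAdd (coord lq (incl ℚ_[q] n (f j))))) ≤
        Module.finrank ℚ_[q] ((Submodule.span ℚ_[q] (Set.range Y) ⊔
          Submodule.span ℚ_[q] (Set.range F) : Submodule ℚ_[q] (Fin n → ℚ_[q]))) := by
      apply Submodule.finrank_mono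
      rw [Submodule.span_le]
      rintro _ ⟨j, rfl⟩
      have e1 : Multiplicative.toAdd (coord lq (incl ℚ_[q] n (f j))) =
          fun i => hv lq (f j i) := rfl
      simp only
      rw [e1, hq3 j]
      exact Submodule.add_mem_sup (Submodule.smul_mem _ _ (Submodule.subset_span ⟨j, rfl⟩))
        (Submodule.sum_mem _ fun s _ => Submodule.smul_mem _ _ (Submodule.subset_span ⟨s, rfl⟩))
    have h5 := Submodule.finrank_add_le_finrank_add_finrank (Submodule.span ℚ_[q] (Set.range Y))
      (Submodule.span ℚ_[q] (Set.range F))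
    have h6 : Module.finrank ℚ_[q] (Submodule.span ℚ_[q] (Set.range F)) ≤ v := by
      have := finrank_range_le_card (R := ℚ_[q]) F
      rwa [Fintype.card_fin] at this
    omega
  · by_contra hcon
    obtain ⟨e, hei, hea⟩ := exists_outside (k := 2) a (by omega)
    have hnz : pv lg (y (e 0)) ≠ 0 := by
      intro h
      have h2 := hlin e hei hea ![1, 0] (by
        rw [Fin.sum_univ_two]
        simp [h])
      have := congrFun h2 0
      simp at this
    have h5 : ∀ x ∈ L, (∀ i, zval p (x i) = 0) → ∃ c : ℚ_[p], pv lg x = c • pv lg (y (e 0)) := by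
      intro x hx hx0
      by_contra hno
      push Not at hno
      apply hcon
      refine hindep (k := 2) ![pv lg (y (e 0)), pv lg x] ?_ ?_ ?_
      · rw [LinearIndependent.pair_iff]
        intro s t hst
        have ht : t = 0 := by
          by_contra ht
          apply hno (-(t⁻¹ * s))
          have e1 : pv lg x = t⁻¹ • (t • pv lg x) := by
            rw [smul_smul, inv_mul_cancel₀ ht, one_smul]
          rw [e1, neg_smul, mul_smul, ← smul_neg]
          congr 1
          exact (neg_eq_of_add_eq_zero_right hst).symm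
        rw [ht, zero_smul, add_zero] at hst
        exact ⟨(smul_eq_zero.1 hst).resolve_right hnz, ht⟩
      · intro t i
        fin_cases t
        · exact hleft _ i
        · show pv lg x (Fin.castAdd n i) = 0
          rw [pv_left, hx0, Int.cast_zero]
      · intro t
        fin_cases t
        · exact hpV _ (hyL _)
        · exact hpV _ hx
    set κ : Fin n → ℚ_[p] := fun i => pv lg (y (e 0)) (Fin.natAdd n i) with hκ
    have hl0 : ∀ x ∈ L, (∀ i, zval p (x i) = 0) → ∃ c : ℚ_[p], ∀ i, hv lg (x i) = c * κ i := by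
      intro x hx hx0
      obtain ⟨c, hc⟩ := h5 x hx hx0
      refine ⟨c, fun i => ?_⟩
      rw [← pv_right lg, hc]
      rfl
    choose u hu using fun j => h5 (y j) (hyL j) (hz j)
    have hl : ∀ j i, hv lg (y j i) = u j * κ i := by
      intro j i
      rw [← pv_right lg, hu j]
      rfl
    obtain ⟨i1, hi1⟩ : ∃ i1, κ i1 ≠ 0 := by
      by_contra hno2
      push Not at hno2
      apply hnz
      funext i
      rw [Pi.zero_apply]
      refine Fin.addCases (fun i => ?_) (fun i => ?_) i
      · exact hleft _ i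
      · exact hno2 i
    -- a relation between the logarithms of the coordinates
    have hplane : ∀ i₁ i₂ i : Fin n, ∀ α β γ : ℤ, (α : ℚ_[p]) * κ i₁ + β * κ i₂ + γ * κ i = 0 →
        ∀ x ∈ unitPart p L, x i ^ (-(γ * N)) = x i₁ ^ (α * N) * x i₂ ^ (β * N) := by
      rintro i₁ i₂ i α β γ h x ⟨hx, hx0⟩
      have hx0' : ∀ k, zval p (x k) = 0 := fun k => by rw [zval_eq]; exact hx0 k
      obtain ⟨c, hc⟩ := hl0 x hx hx0'
      have e1 : hv lg (x i₁ ^ α * x i₂ ^ β * x i ^ γ) = 0 := by
        rw [hv_mul, hv_mul, hv_zpow, hv_zpow, hv_zpow, hc, hc, hc]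
        linear_combination c * h
      have e2 : zval p (x i₁ ^ α * x i₂ ^ β * x i ^ γ) = 0 := by
        have e3 : hv (valHom p) (x i₁ ^ α * x i₂ ^ β * x i ^ γ) = 0 := by
          rw [hv_mul, hv_mul, hv_zpow, hv_zpow, hv_zpow, hv_valHom, hv_valHom, hv_valHom, hx0',
            hx0', hx0', Int.cast_zero, mul_zero, mul_zero, mul_zero, add_zero, add_zero]
        rw [hv_valHom] at e3
        exact_mod_cast e3
      have e4 := torsion_of_lg hker e2 e1
      rw [mul_pow, mul_pow, ← zpow_natCast, ← zpow_natCast, ← zpow_natCast, ← zpow_mul, ← zpow_mul,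
        ← zpow_mul] at e4
      rw [zpow_neg]
      exact (eq_inv_of_mul_eq_one_left e4).symm
    have hNZ : (N : ℤ) ≠ 0 := by exact_mod_cast hN.ne'
    by_cases hA : ∃ i1 i2 : Fin n, ∀ a b : ℤ, (a : ℚ_[p]) * κ i1 + b * κ i2 = 0 → a = 0 ∧ b = 0
    · obtain ⟨i1, i2, h12⟩ := hA
      by_cases hB : ∃ i3 : Fin n, ∀ a b c : ℤ, (a : ℚ_[p]) * κ i1 + b * κ i2 + c * κ i3 = 0 →
          a = 0 ∧ b = 0 ∧ c = 0
      · obtain ⟨i3, h123⟩ := hB
        refine six_lg hN hlg hker (fun l k => y (e l) (![i1, i2, i3] k))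
          (fun l k => norm_of_zval (hz _ _)) (fun l => u (e l)) (fun k => κ (![i1, i2, i3] k))
          (fun l k => hl _ _) ?_ ?_
        · intro c hcs
          apply hlin e hei hea
          have e1 : ∀ k, (c k : ℚ_[p]) • pv lg (y (e k)) =
              ((c k : ℚ_[p]) * u (e k)) • pv lg (y (e 0)) := fun k => by rw [hu (e k), smul_smul]
          simp only [e1]
          rw [← Finset.sum_smul, hcs, zero_smul]
        · intro c hcs
          rw [Fin.sum_univ_three] at hcs
          simp only [Matrix.cons_val_zero, Matrix.cons_val_one, Matrix.cons_val] at hcs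
          obtain ⟨e1, e2, e3⟩ := h123 _ _ _ hcs
          funext l
          fin_cases l
          · exact e1
          · exact e2
          · exact e3
      · push Not at hB
        apply hP
        refine ⟨i1, i2, fun i => ?_⟩
        obtain ⟨α, β, γ, h, hne⟩ := hB i
        refine ⟨α * N, β * N, -(γ * N), ?_, hplane i1 i2 i α β γ h⟩
        rw [neg_ne_zero]
        refine mul_ne_zero (fun hγ => ?_) hNZ
        rw [hγ, Int.cast_zero, zero_mul, add_zero] at h
        obtain ⟨e1, e2⟩ := h12 _ _ h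
        exact hne e1 e2 hγ
    · push Not at hA
      apply hP
      refine ⟨i1, i1, fun i => ?_⟩
      obtain ⟨α, γ, h, hne⟩ := hA i1 i
      have h' : (α : ℚ_[p]) * κ i1 + (0 : ℤ) * κ i1 + γ * κ i = 0 := by
        rw [Int.cast_zero, zero_mul, add_zero]
        exact h
      refine ⟨α * N, 0 * N, -(γ * N), ?_, hplane i1 i1 i α 0 γ h'⟩
      rw [neg_ne_zero]
      refine mul_ne_zero (fun hγ => ?_) hNZ
      rw [hγ, Int.cast_zero, zero_mul, add_zero] at h
      have e1 := (mul_eq_zero.1 h).resolve_right hi1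
      exact hne (by exact_mod_cast e1) hγ


/-- The values of a homomorphism at a coordinate. -/
theorem hv_three {K 𝕜 : Type*} [Field K] [Algebra ℚ K] [Field 𝕜] [CharZero 𝕜]
    (f : Kˣ →* Multiplicative 𝕜) {u g₁ g₂ g₃ : ℚˣ} {a b c : ℤ}
    (h : u = g₁ ^ a * g₂ ^ b * g₃ ^ c ∨ u = -(g₁ ^ a * g₂ ^ b * g₃ ^ c)) :
    hv f u = a * hv f g₁ + b * hv f g₂ + c * hv f g₃ := by
  have h1 : u ^ (2 : ℤ) = (g₁ ^ a * g₂ ^ b * g₃ ^ c) ^ (2 : ℤ) := by
    rcases h with h | h
    · rw [h]
    · rw [h]
      exact_mod_cast neg_sq (g₁ ^ a * g₂ ^ b * g₃ ^ c)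
  have h2 := congrArg (hv f) h1
  rw [hv_zpow, hv_zpow, hv_mul, hv_mul, hv_zpow, hv_zpow, hv_zpow] at h2
  have h3 : ((2 : ℤ) : 𝕜) ≠ 0 := by norm_num
  exact mul_left_cancel₀ h3 h2

theorem zval_three {u g₁ g₂ g₃ : ℚˣ} {a b c : ℤ}
    (h : u = g₁ ^ a * g₂ ^ b * g₃ ^ c ∨ u = -(g₁ ^ a * g₂ ^ b * g₃ ^ c)) :
    zval p u = a * zval p g₁ + b * zval p g₂ + c * zval p g₃ := by
  have h1 := hv_three (valHom p) h
  simp only [hv_valHom] at h1
  exact_mod_cast h1

/-- The case in which `g₃` is not a unit at `p`. -/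
theorem units_aux {L : Subgroup (Fin n → ℚˣ)} {g₁ g₂ g₃ : ℚˣ}
    (hind : ∀ a b c : ℤ, g₁ ^ a * g₂ ^ b * g₃ ^ c = 1 → a = 0 ∧ b = 0 ∧ c = 0)
    (hg : ∀ x ∈ L, ∀ i, ∃ a b c : ℤ,
      x i = g₁ ^ a * g₂ ^ b * g₃ ^ c ∨ x i = -(g₁ ^ a * g₂ ^ b * g₃ ^ c))
    (hk3 : zval p g₃ ≠ 0) : UnitsOfRankTwo p L := by
  set k₁ : ℤ := zval p g₁ with hk₁
  set k₂ : ℤ := zval p g₂ with hk₂
  set k₃ : ℤ := zval p g₃ with hk₃
  have hval : ∀ (u : ℚˣ), zval p (u ^ k₃ * g₃ ^ (-(zval p u))) = 0 := by
    intro u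
    have h : hv (valHom p) (u ^ k₃ * g₃ ^ (-(zval p u))) = 0 := by
      rw [hv_mul, hv_zpow, hv_zpow, hv_valHom, hv_valHom]
      push_cast
      ring
    rw [hv_valHom] at h
    exact_mod_cast h
  refine ⟨g₁ ^ k₃ * g₃ ^ (-k₁), g₂ ^ k₃ * g₃ ^ (-k₂), ?_, ?_, ?_, 2 * k₃,
    mul_ne_zero two_ne_zero hk3, ?_⟩
  · rw [← zval_eq]
    exact hval g₁
  · rw [← zval_eq]
    exact hval g₂
  · intro a b h
    have e1 : g₁ ^ (k₃ * a) * g₂ ^ (k₃ * b) * g₃ ^ (-k₁ * a + -k₂ * b) = 1 := by
      rw [← h, mul_zpow, mul_zpow, ← zpow_mul, ← zpow_mul, ← zpow_mul, ← zpow_mul, zpow_add]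
      exact mul_mul_mul_comm _ _ _ _
    obtain ⟨e2, e3, -⟩ := hind _ _ _ e1
    exact ⟨(mul_eq_zero.1 e2).resolve_left hk3, (mul_eq_zero.1 e3).resolve_left hk3⟩
  · rintro x ⟨hx, hx0⟩ i
    obtain ⟨a, b, e, h⟩ := hg x hx i
    have h0 : a * k₁ + b * k₂ + e * k₃ = 0 := by
      have := zval_three (p := p) h
      rw [zval_eq, hx0 i] at this
      exact this.symm
    have h1 : x i ^ (2 : ℤ) = (g₁ ^ a * g₂ ^ b * g₃ ^ e) ^ (2 : ℤ) := by
      rcases h with h | h
      · rw [h]
      · rw [h]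
        exact_mod_cast neg_sq (g₁ ^ a * g₂ ^ b * g₃ ^ e)
    refine ⟨2 * a, 2 * b, ?_⟩
    rw [zpow_mul, h1, mul_zpow, mul_zpow, mul_zpow, mul_zpow, mul_zpow, mul_zpow, ← zpow_mul,
      ← zpow_mul, ← zpow_mul, ← zpow_mul, ← zpow_mul, ← zpow_mul, ← zpow_mul, ← zpow_mul,
      ← zpow_mul, ← zpow_mul]
    have h2 : g₃ ^ (e * (2 * k₃)) = g₃ ^ (-k₁ * (2 * a)) * g₃ ^ (-k₂ * (2 * b)) := by
      rw [← zpow_add]
      congr 1
      linear_combination 2 * h0
    rw [h2, show a * (2 * k₃) = k₃ * (2 * a) by ring, show b * (2 * k₃) = k₃ * (2 * b) by ring]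
    exact mul_mul_mul_comm _ _ _ _

/-- The closure is compact exactly if all valuations are trivial. -/
theorem compactAt_iff (L : Subgroup (Fin n → ℚˣ)) : CompactAt p L ↔ valRank p L = 0 := by
  constructor
  · intro hc
    have h0 : ∀ x ∈ L, ∀ i, padicValRat p (x i : ℚ) = 0 := by
      intro x hx i
      rw [← zval_eq]
      exact (norm_eq_one_of_valuation (Units.ne_zero _)).1
        (norm_one_of_compactAt hc (map_le_closureAt ℚ_[p] L ⟨x, hx, rfl⟩) i)
    rw [valRank]
    have h1 : Submodule.span ℚ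
        ((fun (x : Fin n → ℚˣ) (i : Fin n) => ((padicValRat p (x i : ℚ) : ℤ) : ℚ)) ''
          (L : Set (Fin n → ℚˣ))) = ⊥ := by
      rw [Submodule.span_eq_bot]
      rintro _ ⟨x, hx, rfl⟩
      funext i
      simp only [h0 x hx i, Int.cast_zero, Pi.zero_apply]
    rw [h1, finrank_bot]
  · intro h
    rw [valRank, Submodule.finrank_eq_zero, Submodule.span_eq_bot] at h
    apply compactAt_of_norm_one
    intro x hx i
    apply norm_of_zval
    have h1 := congrFun (h _ ⟨x, hx, rfl⟩) i
    simp only [Pi.zero_apply] at h1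
    rw [zval_eq]
    exact_mod_cast h1

/-- Coordinates in a group of rank three: at a place with non-compact closure the coordinates of the
elements with trivial valuations lie in a group of rank two. -/
theorem units_of_three {L : Subgroup (Fin n → ℚˣ)} (h3 : ThreeGenerated L)
    (hc : ¬ CompactAt p L) : UnitsOfRankTwo p L := by
  obtain ⟨g₁, g₂, g₃, hind, hg⟩ := h3
  by_cases h3 : zval p g₃ ≠ 0
  · exact units_aux hind hg h3
  by_cases h2 : zval p g₂ ≠ 0
  · refine units_aux (g₁ := g₁) (g₂ := g₃) (g₃ := g₂) ?_ ?_ h2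
    · intro a b c h
      obtain ⟨e1, e2, e3⟩ := hind a c b (by rw [mul_right_comm]; exact h)
      exact ⟨e1, e3, e2⟩
    · intro x hx i
      obtain ⟨a, b, c, h⟩ := hg x hx i
      refine ⟨a, c, b, ?_⟩
      rw [mul_right_comm]
      exact h
  by_cases h1 : zval p g₁ ≠ 0
  · refine units_aux (g₁ := g₃) (g₂ := g₂) (g₃ := g₁) ?_ ?_ h1
    · intro a b c h
      obtain ⟨e1, e2, e3⟩ := hind c b a (by
        rw [← h]
        rw [mul_assoc, mul_comm (g₂ ^ b), mul_comm (g₁ ^ c)])
      exact ⟨e3, e2, e1⟩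
    · intro x hx i
      obtain ⟨a, b, c, h⟩ := hg x hx i
      refine ⟨c, b, a, ?_⟩
      have e : g₃ ^ c * g₂ ^ b * g₁ ^ a = g₁ ^ a * g₂ ^ b * g₃ ^ c := by
        rw [mul_assoc, mul_comm (g₂ ^ b), mul_comm (g₃ ^ c)]
      rw [e]
      exact h
  exfalso
  rw [not_not] at h1 h2 h3
  apply hc
  apply compactAt_of_norm_one
  intro x hx i
  obtain ⟨a, b, c, h⟩ := hg x hx i
  apply norm_of_zval
  rw [zval_three h, h1, h2, h3, mul_zero, mul_zero, mul_zero, add_zero, add_zero]

end Padic

end Pool.Agent.Lib.H22F301
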